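import Pool.Agent.Lib.CR5.SpecDc
import Pool.Agent.Lib.CR5.B.Geo

/-!
# CR5, block D: outside the unit ball everything is standard (helper63)

Proof of `S_cOut`, following the docstring in `SpecDc`.
-/

open MeasureTheory Set Filter Topology
open scoped ENNReal ComplexConjugate

noncomputable section

namespace Pool.Agent.CR5

namespace cOutx

/-- a continuous function which vanishes for `1 < ‖x‖` vanishes for `1 ≤ ‖x‖` -/
theorem ext0 {g : E5 → ℂ} (hg : Continuous g) (h : ∀ x, 1 < ‖x‖ → g x = 0) :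
    ∀ x, 1 ≤ ‖x‖ → g x = 0 := by
  intro x hx
  have hcl : IsClosed {y | g y = 0} := isClosed_eq hg continuous_const
  have hsub : closure (Metric.closedBall (0 : E5) 1)ᶜ ⊆ {y | g y = 0} := by
    refine hcl.closure_subset_iff.mpr fun y hy => ?_
    have hy' : y ∉ Metric.closedBall (0 : E5) 1 := hy
    rw [mem_closedBall_zero_iff, not_le] at hy'
    exact h y hy'
  rw [closure_compl, interior_closedBall _ one_ne_zero] at hsub
  refine hsub (?_ : x ∉ Metric.ball (0 : E5) 1)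
  rw [mem_ball_zero_iff, not_lt]
  exact hx

theorem pd_germ {f g : E5 → ℂ} {x : E5} (h : f =ᶠ[𝓝 x] g) (i : Fin 5) : pd i f x = pd i g x := by
  unfold pd
  rw [h.fderiv_eq]

theorem dz_germ {f g : E5 → ℂ} {x : E5} (h : f =ᶠ[𝓝 x] g) (l : Fin 3) : dz l f x = dz l g x := by
  unfold dz
  simp only [pd_germ h]

theorem db_germ {f g : E5 → ℂ} {x : E5} (h : f =ᶠ[𝓝 x] g) (l : Fin 3) : db l f x = db l g x := by
  unfold db
  simp only [pd_germ h]

theorem L_germ {a : Str} {f g : E5 → ℂ} {x : E5} (h : f =ᶠ[𝓝 x] g) (j : Fin 2) :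
    L a j f x = L a j g x := by
  unfold L
  simp only [db_germ h, dz_germ h]

theorem Lb_germ {a : Str} {f g : E5 → ℂ} {x : E5} (h : f =ᶠ[𝓝 x] g) (j : Fin 2) :
    Lb a j f x = Lb a j g x := by
  unfold Lb
  simp only [db_germ h, dz_germ h]

theorem near_out {x : E5} (hx : 1 < ‖x‖) : ∀ᶠ y in 𝓝 x, 1 < ‖y‖ :=
  (isOpen_lt continuous_const continuous_norm).mem_nhds hx

theorem L_out {a : Str} (ha : Outs a) (j : Fin 2) (f : E5 → ℂ) (x : E5) (hx : 1 ≤ ‖x‖) :
    L a j f x = L a0 j f x := by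
  unfold L
  simp only [ha.out j _ x hx]

theorem Lb_out {a : Str} (ha : Outs a) (j : Fin 2) (f : E5 → ℂ) (x : E5) (hx : 1 ≤ ‖x‖) :
    Lb a j f x = Lb a0 j f x := by
  unfold Lb
  simp only [ha.out j _ x hx]

theorem dv_a0 (j : Fin 2) (x : E5) : dv a0 j x = 0 := by
  have h0 : (fun y => conj (a0 j 0 y)) = fun _ => 0 := by
    funext y
    simp [a0]
  have h1 : (fun y => conj (a0 j 1 y)) = fun _ => 0 := by
    funext y
    simp [a0]
  have h2 : a0 j 2 = fun y => (-Complex.I) * zc j y := by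
    funext y
    simp [a0]
  unfold dv
  rw [Fin.sum_univ_three, h0, h1, db_const, db_const, db_conj (smS_a0 j 2), h2,
    dz_const_mul (Sm.zc j), geo_dz_zc]
  have h3 : ¬ ((2 : Fin 3) = j.castSucc) := by
    fin_cases j <;> decide
  rw [if_neg h3]
  simp

theorem L_a0 (j k : Fin 2) (l : Fin 3) (x : E5) : L a0 j (a0 k l) x = 0 := by
  rcases fin3_cases l with rfl | rfl | rfl
  · have h0 : a0 k 0 = fun _ => 0 := by
      funext y
      simp [a0]
    rw [h0, L_const]
  · have h0 : a0 k 1 = fun _ => 0 := by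
      funext y
      simp [a0]
    rw [h0, L_const]
  · have h2 : a0 k 2 = fun y => (-Complex.I) * zc k y := by
      funext y
      simp [a0]
    have h3 : ¬ ((2 : Fin 3) = k.castSucc) := by
      fin_cases k <;> decide
    rw [h2, L_const_mul (Sm.zc k), geo_L0, geo_db_zc, ← dz_two, geo_dz_zc, if_neg h3]
    ring

theorem kap_a0 (l : Fin 3) (x : E5) : kap a0 l x = 0 := by
  unfold kap
  rw [L_a0, L_a0, sub_zero]

theorem a_germ {a : Str} (ha : Outs a) (j : Fin 2) (l : Fin 3) {x : E5} (hx : 1 < ‖x‖) :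
    a j l =ᶠ[𝓝 x] a0 j l :=
  (near_out hx).mono fun y hy => ha.out j l y hy.le

theorem dv_out {a : Str} (ha : Outs a) (j : Fin 2) (x : E5) (hx : 1 ≤ ‖x‖) : dv a j x = 0 := by
  refine ext0 (Sm.dv ha.sm j).cont (fun y hy => ?_) x hx
  rw [← dv_a0 j y]
  unfold dv
  refine Finset.sum_congr rfl fun l _ => db_germ ?_ l
  exact (a_germ ha j l hy).mono fun z hz => by
    show conj (a j l z) = conj (a0 j l z)
    rw [hz]

theorem kap_out1 {a : Str} (ha : Outs a) (l : Fin 3) (x : E5) (hx : 1 < ‖x‖) :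
    kap a l x = 0 := by
  rw [← kap_a0 l x]
  unfold kap
  rw [L_out ha 0 _ x hx.le, L_out ha 1 _ x hx.le, L_germ (a_germ ha 1 l hx),
    L_germ (a_germ ha 0 l hx)]

theorem kap_out {a : Str} (ha : Outs a) (l : Fin 3) (x : E5) (hx : 1 ≤ ‖x‖) : kap a l x = 0 :=
  ext0 (Sm.kap ha.sm l).cont (kap_out1 ha l) x hx

theorem pd_kap_out {a : Str} (ha : Outs a) (l : Fin 3) (i : Fin 5) (x : E5) (hx : 1 ≤ ‖x‖) :
    pd i (kap a l) x = 0 := by
  refine ext0 ((Sm.kap ha.sm l).pd i).cont (fun y hy => ?_) x hx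
  have h1 : kap a l =ᶠ[𝓝 y] fun _ => (0 : ℂ) := (near_out hy).mono fun z hz => kap_out1 ha l z hz
  rw [pd_germ h1, pd_const]

end cOutx

open cOutx in
/-- **cOut** -/
theorem pcOut : S_cOut := fun _ ha =>
  ⟨fun j f x hx => ⟨L_out ha j f x hx, Lb_out ha j f x hx⟩, fun j x hx => dv_out ha j x hx,
    fun l x hx => ⟨kap_out ha l x hx, fun i => pd_kap_out ha l i x hx⟩⟩

end Pool.Agent.CR5
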