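import Pool.Agent.Lib.CR5.SpecDa

/-!
# CR5, block D: pointwise bounds of the right sides, first order
-/

open MeasureTheory Set Filter Topology
open scoped ENNReal ComplexConjugate

noncomputable section

namespace Pool.Agent.CR5

namespace aB1x

theorem Zf_add {f g : E5 → ℂ} (hf : Sm f) (hg : Sm g) (k : Fin 5) (x : E5) :
    Zf k (fun y => f y + g y) x = Zf k f x + Zf k g x := by
  unfold Zf
  rw [pd_add hf hg, pd_add hf hg]
  ring

theorem Zf_sub {f g : E5 → ℂ} (hf : Sm f) (hg : Sm g) (k : Fin 5) (x : E5) :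
    Zf k (fun y => f y - g y) x = Zf k f x - Zf k g x := by
  unfold Zf
  rw [pd_sub hf hg, pd_sub hf hg]
  ring

theorem Zf_D0s {a : Str} (ha : SmS a) {w : F2} (hw : ∀ j, Sm (w j)) (m : Fin 5) (x : E5) :
    Zf m (D0s a w) x = D0s a (Zp m w) x + cD0s a m w x := by
  have h := Zf_add ((hw 0).Ls ha 0) ((hw 1).Ls ha 1) m x
  show Zf m (fun y => Ls a 0 (w 0) y + Ls a 1 (w 1) y) x = _
  rw [h]
  show _ = (Ls a 0 (Zf m (w 0)) x + Ls a 1 (Zf m (w 1)) x)
    + ((Zf m (Ls a 0 (w 0)) x - Ls a 0 (Zf m (w 0)) x)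
      + (Zf m (Ls a 1 (w 1)) x - Ls a 1 (Zf m (w 1)) x))
  ring

theorem Zf_D1 {a : Str} (ha : SmS a) {w : F2} (hw : ∀ j, Sm (w j)) (m : Fin 5) (x : E5) :
    Zf m (D1 a w) x = D1 a (Zp m w) x + cD1 a m w x := by
  have h := Zf_sub ((hw 1).L ha 0) ((hw 0).L ha 1) m x
  show Zf m (fun y => L a 0 (w 1) y - L a 1 (w 0) y) x = _
  rw [h]
  show _ = (L a 0 (Zf m (w 1)) x - L a 1 (Zf m (w 0)) x)
    + ((Zf m (L a 0 (w 1)) x - L a 0 (Zf m (w 1)) x)
      - (Zf m (L a 1 (w 0)) x - L a 1 (Zf m (w 0)) x))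
  ring

theorem sZ_nonneg (f : E5 → ℂ) (x : E5) : 0 ≤ sZ f x := Finset.sum_nonneg fun _ _ => norm_nonneg _

theorem N0_nonneg (w : F2) (x : E5) : 0 ≤ N0 w x := add_nonneg (norm_nonneg _) (norm_nonneg _)

theorem N1_nonneg (w : F2) (x : E5) : 0 ≤ N1 w x := add_nonneg (sZ_nonneg _ _) (sZ_nonneg _ _)

theorem T0_nonneg (a : Str) (w : F2) (x : E5) : 0 ≤ T0 a w x :=
  add_nonneg (norm_nonneg _) (norm_nonneg _)

theorem T1_nonneg (a : Str) (w : F2) (x : E5) : 0 ≤ T1 a w x :=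
  Finset.sum_nonneg fun _ _ => T0_nonneg _ _ _

end aB1x

open aB1x in
theorem paB1 (h : S_aCm) : S_aB1 := by
  obtain ⟨c, hc, H⟩ := h
  refine ⟨c * (1 + 5 * c), by positivity, ?_⟩
  intro a ε he0 he1 hN w hw k j x hx
  have ha : SmS a := hN.smS
  have hN0 := N0_nonneg w x
  have hN1 := N1_nonneg w x
  have hT0 := T0_nonneg a w x
  have hT1 := T1_nonneg a w x
  have hce : 0 ≤ c * ε := mul_nonneg hc.le he0
  have hce1 : c * ε ≤ c := by
    have := mul_le_mul_of_nonneg_left he1 hc.le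
    linarith
  have hL : ∀ (f : E5 → ℂ), Sm f → ∀ (k : Fin 5) (j : Fin 2), ‖zcL a k j f x‖ ≤ c * ε * sZ f x :=
    fun f hf k j => ((H a ε he0 he1 hN f hf k 0 j).2.2.2 x hx).1
  have hS : ∀ (f : E5 → ℂ), Sm f → ∀ (k : Fin 5) (j : Fin 2),
      ‖zcS a k j f x‖ ≤ c * ε * (‖f x‖ + sZ f x) :=
    fun f hf k j => ((H a ε he0 he1 hN f hf k 0 j).2.2.2 x hx).2.1
  have h1 : ∀ k, ‖cD0s a k w x‖ ≤ c * ε * (N0 w x + N1 w x) := by
    intro k
    have := norm_add_le (zcS a k 0 (w 0) x) (zcS a k 1 (w 1) x)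
    have e0 := hS (w 0) (hw 0) k 0
    have e1 := hS (w 1) (hw 1) k 1
    show ‖zcS a k 0 (w 0) x + zcS a k 1 (w 1) x‖ ≤ _
    have : c * ε * (N0 w x + N1 w x) = c * ε * (‖w 0 x‖ + sZ (w 0) x)
        + c * ε * (‖w 1 x‖ + sZ (w 1) x) := by
      unfold N0 N1
      ring
    rw [this]
    linarith
  have h2 : ∀ k, ‖cD1 a k w x‖ ≤ c * ε * (N0 w x + N1 w x) := by
    intro k
    have := norm_sub_le (zcL a k 0 (w 1) x) (zcL a k 1 (w 0) x)
    have e0 := hL (w 1) (hw 1) k 0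
    have e1 := hL (w 0) (hw 0) k 1
    show ‖zcL a k 0 (w 1) x - zcL a k 1 (w 0) x‖ ≤ _
    have h3 : c * ε * (N0 w x + N1 w x) = c * ε * N0 w x + c * ε * sZ (w 1) x
        + c * ε * sZ (w 0) x := by
      unfold N1
      ring
    rw [h3]
    have h4 := mul_nonneg hce hN0
    linarith
  have hsum : ∀ (F : E5 → ℂ), (∀ m : Fin 5, ‖Zf m F x‖ ≤ T0 a (Zp m w) x + c * ε * (N0 w x + N1 w x)) →
      sZ F x ≤ T1 a w x + 5 * c * (N0 w x + N1 w x) := by
    intro F hF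
    have e1 : sZ F x ≤ ∑ m : Fin 5, (T0 a (Zp m w) x + c * ε * (N0 w x + N1 w x)) :=
      Finset.sum_le_sum fun m _ => hF m
    rw [Finset.sum_add_distrib, Finset.sum_const, Finset.card_univ, Fintype.card_fin, nsmul_eq_mul] at e1
    have e2 : c * ε * (N0 w x + N1 w x) ≤ c * (N0 w x + N1 w x) :=
      mul_le_mul_of_nonneg_right hce1 (add_nonneg hN0 hN1)
    have e3 : T1 a w x = ∑ m : Fin 5, T0 a (Zp m w) x := rfl
    rw [e3]
    push_cast at e1
    linarith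
  have hF0 : sZ (D0s a w) x ≤ T1 a w x + 5 * c * (N0 w x + N1 w x) := by
    apply hsum
    intro m
    rw [Zf_D0s ha hw]
    refine (norm_add_le _ _).trans (add_le_add ?_ (h1 m))
    exact le_add_of_nonneg_right (norm_nonneg _)
  have hF1 : sZ (D1 a w) x ≤ T1 a w x + 5 * c * (N0 w x + N1 w x) := by
    apply hsum
    intro m
    rw [Zf_D1 ha hw]
    refine (norm_add_le _ _).trans (add_le_add ?_ (h2 m))
    exact le_add_of_nonneg_left (norm_nonneg _)
  have hone : c * ε * (N0 w x + N1 w x) ≤ c * (1 + 5 * c) * ε * (N0 w x + N1 w x) := by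
    apply mul_le_mul_of_nonneg_right _ (add_nonneg hN0 hN1)
    apply mul_le_mul_of_nonneg_right _ he0
    have : 0 ≤ c * (5 * c) := by positivity
    linarith
  have hfin : c * ε * (T0 a w x + (T1 a w x + 5 * c * (N0 w x + N1 w x)))
      ≤ c * (1 + 5 * c) * ε * (T0 a w x + T1 a w x + N0 w x + N1 w x) := by
    have e : c * (1 + 5 * c) * ε * (T0 a w x + T1 a w x + N0 w x + N1 w x)
        - c * ε * (T0 a w x + (T1 a w x + 5 * c * (N0 w x + N1 w x)))
        = c * ε * (N0 w x + N1 w x) + c * ε * (5 * c) * (T0 a w x + T1 a w x) := by ring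
    have e1 : 0 ≤ c * ε * (N0 w x + N1 w x) := mul_nonneg hce (add_nonneg hN0 hN1)
    have e2 : 0 ≤ c * ε * (5 * c) * (T0 a w x + T1 a w x) :=
      mul_nonneg (mul_nonneg hce (by positivity)) (add_nonneg hT0 hT1)
    linarith
  refine ⟨(h1 k).trans hone, (h2 k).trans hone, ?_, ?_⟩
  · have e0 : ‖cD0 a k (D0s a w) j x‖ ≤ c * ε * sZ (D0s a w) x :=
      hL (D0s a w) (Sm.D0s ha hw) k j
    refine e0.trans (le_trans ?_ hfin)
    apply mul_le_mul_of_nonneg_left _ hce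
    linarith
  · have e0 : ‖cD1s a k (D1 a w) j x‖ ≤ c * ε * (‖D1 a w x‖ + sZ (D1 a w) x) := by
      unfold cD1s
      split_ifs
      · rw [norm_neg]
        exact hS (D1 a w) (Sm.D1 ha hw) k 1
      · exact hS (D1 a w) (Sm.D1 ha hw) k 0
    refine e0.trans (le_trans ?_ hfin)
    apply mul_le_mul_of_nonneg_left _ hce
    have e1 : ‖D1 a w x‖ ≤ T0 a w x := le_add_of_nonneg_left (norm_nonneg _)
    linarith

end Pool.Agent.CR5
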