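import Pool.Agent.Lib.CR5.SpecDc

/-!
# CR5, block D: commutators of first order (helper49)
-/

open MeasureTheory Set Filter Topology
open scoped ENNReal ComplexConjugate

noncomputable section

namespace Pool.Agent.CR5

namespace cComx

/-- the coefficient of the right invariant field as a complex function -/
def zs (k : Fin 5) : E5 → ℂ := fun x => (zco k x : ℂ)

theorem sm_zs (k : Fin 5) : Sm (zs k) := Sm.ofReal (contDiff_zco k)

theorem Zf_eq (k : Fin 5) (f : E5 → ℂ) (x : E5) : Zf k f x = pd k f x + zs k x * pd 4 f x := rfl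

theorem Zf_add {f g : E5 → ℂ} (hf : Sm f) (hg : Sm g) (k : Fin 5) (x : E5) :
    Zf k (fun y => f y + g y) x = Zf k f x + Zf k g x := by
  simp only [Zf_eq, pd_add hf hg]; ring

theorem Zf_sub {f g : E5 → ℂ} (hf : Sm f) (hg : Sm g) (k : Fin 5) (x : E5) :
    Zf k (fun y => f y - g y) x = Zf k f x - Zf k g x := by
  simp only [Zf_eq, pd_sub hf hg]; ring

theorem Zf_neg (f : E5 → ℂ) (k : Fin 5) (x : E5) :
    Zf k (fun y => -f y) x = -Zf k f x := by
  simp only [Zf_eq, pd_neg]; ring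

theorem Zf_mul {f g : E5 → ℂ} (hf : Sm f) (hg : Sm g) (k : Fin 5) (x : E5) :
    Zf k (fun y => f y * g y) x = f x * Zf k g x + Zf k f x * g x := by
  simp only [Zf_eq, pd_mul hf hg]; ring

theorem Zf_sum {ι : Type*} (s : Finset ι) {f : ι → E5 → ℂ} (hf : ∀ k ∈ s, Sm (f k))
    (i : Fin 5) (x : E5) :
    Zf i (fun y => ∑ k ∈ s, f k y) x = ∑ k ∈ s, Zf i (f k) x := by
  simp only [Zf_eq, pd_sum s hf, Finset.mul_sum, Finset.sum_add_distrib]

theorem dz_Zf {f : E5 → ℂ} (hf : Sm f) (k : Fin 5) (l : Fin 3) (x : E5) :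
    dz l (Zf k f) x = Zf k (dz l f) x + dz l (zs k) x * pd 4 f x := by
  have e : Zf k f = fun y => pd k f y + zs k y * pd 4 f y := rfl
  rw [e, dz_add (hf.pd k) ((sm_zs k).mul (hf.pd 4)), dz_mul (sm_zs k) (hf.pd 4), Zf_eq,
    pd_dz hf, pd_dz hf]
  ring

theorem db_Zf {f : E5 → ℂ} (hf : Sm f) (k : Fin 5) (l : Fin 3) (x : E5) :
    db l (Zf k f) x = Zf k (db l f) x + db l (zs k) x * pd 4 f x := by
  have e : Zf k f = fun y => pd k f y + zs k y * pd 4 f y := rfl
  rw [e, db_add (hf.pd k) ((sm_zs k).mul (hf.pd 4)), db_mul (sm_zs k) (hf.pd 4), Zf_eq,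
    pd_db hf, pd_db hf]
  ring

/-- the difference of the coefficients -/
def bb (a : Str) (j : Fin 2) (l : Fin 3) : E5 → ℂ := fun x => a j l x - a0 j l x

theorem sm_bb {a : Str} (ha : SmS a) (j : Fin 2) (l : Fin 3) : Sm (bb a j l) :=
  (ha j l).sub (smS_a0 j l)

theorem L_eq (a : Str) (j : Fin 2) (f : E5 → ℂ) :
    L a j f = fun x => L a0 j f x + ∑ l, bb a j l x * dz l f x := by
  funext x
  simp only [L, bb, Fin.sum_univ_three]
  ring

theorem Lb_eq (a : Str) (j : Fin 2) (f : E5 → ℂ) :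
    Lb a j f = fun x => Lb a0 j f x + ∑ l, conj (bb a j l x) * db l f x := by
  funext x
  simp only [Lb, bb, Fin.sum_univ_three, map_sub]
  ring

/-- the commutator with `L` -/
theorem Zf_L {a : Str} (ha : SmS a) {f : E5 → ℂ} (hf : Sm f) (j : Fin 2) (k : Fin 5) (x : E5) :
    Zf k (L a j f) x - L a j (Zf k f) x = (Zf k (L a0 j f) x - L a0 j (Zf k f) x) +
      ∑ l, (Zf k (bb a j l) x * dz l f x - bb a j l x * (dz l (zs k) x * pd 4 f x)) := by
  rw [L_eq a j f, L_eq a j (Zf k f), Zf_add (hf.L smS_a0 j)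
    (Sm.sum _ fun l _ => (sm_bb ha j l).mul (hf.dz l)),
    Zf_sum _ (fun l _ => (sm_bb ha j l).mul (hf.dz l))]
  simp only [Zf_mul (sm_bb ha j _) (hf.dz _), dz_Zf hf, Fin.sum_univ_three]
  ring

/-- the commutator with `Lb` -/
theorem Zf_Lb {a : Str} (ha : SmS a) {f : E5 → ℂ} (hf : Sm f) (j : Fin 2) (k : Fin 5) (x : E5) :
    Zf k (Lb a j f) x - Lb a j (Zf k f) x = (Zf k (Lb a0 j f) x - Lb a0 j (Zf k f) x) +
      ∑ l, (Zf k (fun y => conj (bb a j l y)) x * db l f x -
        conj (bb a j l x) * (db l (zs k) x * pd 4 f x)) := by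
  rw [Lb_eq a j f, Lb_eq a j (Zf k f), Zf_add (hf.Lb smS_a0 j)
    (Sm.sum _ fun l _ => (sm_bb ha j l).conj.mul (hf.db l)),
    Zf_sum _ (fun l _ => (sm_bb ha j l).conj.mul (hf.db l))]
  simp only [Zf_mul (sm_bb ha j _).conj (hf.db _), db_Zf hf, Fin.sum_univ_three]
  ring

/-- the commutator with `Ls` -/
theorem Zf_Ls {a : Str} (ha : SmS a) {f : E5 → ℂ} (hf : Sm f) (j : Fin 2) (k : Fin 5) (x : E5) :
    Zf k (Ls a j f) x - Ls a j (Zf k f) x = -(Zf k (Lb a j f) x - Lb a j (Zf k f) x) -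
      Zf k (dv a j) x * f x := by
  have e : Ls a j f = fun y => -Lb a j f y - dv a j y * f y := by
    funext y
    exact Ls_eq ha hf j y
  rw [e, Ls_eq ha (hf.Zf k), Zf_sub (hf.Lb ha j).neg ((Sm.dv ha j).mul hf), Zf_neg,
    Zf_mul (Sm.dv ha j) hf]
  ring

/-! ### vanishing outside the unit ball -/

theorem pd_out {g : E5 → ℂ} (hg : Sm g) (h : ∀ x, 1 ≤ ‖x‖ → g x = 0) (i : Fin 5) {x : E5}
    (hx : 1 ≤ ‖x‖) : pd i g x = 0 := by
  have h1 : ∀ y : E5, y ∈ (Metric.closedBall (0 : E5) 1)ᶜ → pd i g y = 0 := by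
    intro y hy
    have ho : (Metric.closedBall (0 : E5) 1)ᶜ ∈ 𝓝 y :=
      Metric.isClosed_closedBall.isOpen_compl.mem_nhds hy
    have he : g =ᶠ[𝓝 y] fun _ => (0 : ℂ) := by
      filter_upwards [ho] with z hz
      have hz' : ¬ dist z 0 ≤ 1 := hz
      rw [dist_zero_right] at hz'
      exact h z (by linarith)
    unfold pd
    rw [he.fderiv_eq]
    simp
  have h2 : IsClosed {y : E5 | pd i g y = 0} := isClosed_eq (hg.pd i).cont continuous_const
  have h3 : closure (Metric.closedBall (0 : E5) 1)ᶜ ⊆ {y : E5 | pd i g y = 0} :=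
    closure_minimal h1 h2
  rw [closure_compl, interior_closedBall (0 : E5) one_ne_zero] at h3
  apply h3
  intro hx'
  have hx'' : dist x 0 < 1 := hx'
  rw [dist_zero_right] at hx''
  linarith

theorem Zf_out {g : E5 → ℂ} (hg : Sm g) (h : ∀ x, 1 ≤ ‖x‖ → g x = 0) (k : Fin 5) {x : E5}
    (hx : 1 ≤ ‖x‖) : Zf k g x = 0 := by
  rw [Zf_eq, pd_out hg h k hx, pd_out hg h 4 hx, mul_zero, add_zero]

/-! ### coordinates -/

theorem pd_coord (i k : Fin 5) (x : E5) :
    pd i (fun y : E5 => ((y k : ℝ) : ℂ)) x = if k = i then 1 else 0 := by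
  have h : HasFDerivAt (fun y : E5 => ((y k : ℝ) : ℂ))
      (Complex.ofRealCLM.comp (EuclideanSpace.proj k : E5 →L[ℝ] ℝ)) x :=
    (Complex.ofRealCLM.comp (EuclideanSpace.proj k : E5 →L[ℝ] ℝ)).hasFDerivAt
  unfold pd
  rw [h.fderiv]
  by_cases hk : k = i
  · subst hk
    simp [e5]
  · simp [e5, hk]

theorem pd_zs_le (i k : Fin 5) (x : E5) : ‖pd i (zs k) x‖ ≤ 2 := by
  have key : ∀ (c : ℝ) (m : Fin 5), |c| ≤ 2 → zs k = (fun y => (c : ℂ) * ((y m : ℝ) : ℂ)) →
      ‖pd i (zs k) x‖ ≤ 2 := by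
    intro c m hc he
    rw [he, pd_const_mul (Sm.coord m), pd_coord]
    split_ifs
    · rw [mul_one, Complex.norm_real]
      exact hc
    · simp
  fin_cases k
  · exact key (-2) 1 (by norm_num) (by funext y; simp [zs, zco])
  · exact key 2 0 (by norm_num) (by funext y; simp [zs, zco])
  · exact key (-2) 3 (by norm_num) (by funext y; simp [zs, zco])
  · exact key 2 2 (by norm_num) (by funext y; simp [zs, zco])
  · exact key 0 0 (by norm_num) (by funext y; simp [zs, zco])

theorem dz_le {g : E5 → ℂ} {x : E5} {M : ℝ} (h : ∀ i, ‖pd i g x‖ ≤ M) (l : Fin 3) :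
    ‖dz l g x‖ ≤ M := by
  have key : ∀ i k : Fin 5, ‖(pd i g x - Complex.I * pd k g x) / 2‖ ≤ M := by
    intro i k
    rw [norm_div]
    have h1 := norm_sub_le (pd i g x) (Complex.I * pd k g x)
    rw [norm_mul, Complex.norm_I, one_mul] at h1
    have h2 := h i
    have h3 := h k
    have h4 : ‖(2 : ℂ)‖ = 2 := by simp
    rw [h4]
    linarith
  rcases fin3_cases l with rfl | rfl | rfl
  · rw [dz_zero]; exact key 0 1
  · rw [dz_one]; exact key 2 3
  · rw [dz_two]; exact h 4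

theorem db_le {g : E5 → ℂ} {x : E5} {M : ℝ} (h : ∀ i, ‖pd i g x‖ ≤ M) (l : Fin 3) :
    ‖db l g x‖ ≤ M := by
  have key : ∀ i k : Fin 5, ‖(pd i g x + Complex.I * pd k g x) / 2‖ ≤ M := by
    intro i k
    rw [norm_div]
    have h1 := norm_add_le (pd i g x) (Complex.I * pd k g x)
    rw [norm_mul, Complex.norm_I, one_mul] at h1
    have h2 := h i
    have h3 := h k
    have h4 : ‖(2 : ℂ)‖ = 2 := by simp
    rw [h4]
    linarith
  rcases fin3_cases l with rfl | rfl | rfl
  · rw [db_zero]; exact key 0 1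
  · rw [db_one]; exact key 2 3
  · rw [db_two]; exact h 4

theorem zs_le (k : Fin 5) {x : E5} (hx : ‖x‖ ≤ 1) : ‖zs k x‖ ≤ 2 := by
  have hc : ∀ m : Fin 5, |x m| ≤ 1 := fun m => by
    have := EuclideanSpace.norm_eq x
    have h1 : ‖x m‖ ≤ ‖x‖ := PiLp.norm_apply_le x m
    rw [Real.norm_eq_abs] at h1
    linarith
  rw [zs, Complex.norm_real, Real.norm_eq_abs]
  have key : ∀ (c : ℝ) (m : Fin 5), |c| ≤ 2 → |c * x m| ≤ 2 := by
    intro c m hc'
    rw [abs_mul]
    have := hc m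
    have h0 := abs_nonneg c
    have h1 := abs_nonneg (x m)
    nlinarith
  fin_cases k
  · simpa [zco] using key (-2) 1 (by norm_num)
  · simpa [zco] using key 2 0 (by norm_num)
  · simpa [zco] using key (-2) 3 (by norm_num)
  · simpa [zco] using key 2 2 (by norm_num)
  · simp [zco]

theorem Zf_le {g : E5 → ℂ} {x : E5} (hx : ‖x‖ ≤ 1) {M : ℝ} (h : ∀ i, ‖pd i g x‖ ≤ M)
    (k : Fin 5) : ‖Zf k g x‖ ≤ 3 * M := by
  rw [Zf_eq]
  have h1 := norm_add_le (pd k g x) (zs k x * pd 4 g x)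
  rw [norm_mul] at h1
  have h2 := zs_le k hx
  have h3 := h k
  have h4 := h 4
  have h5 := norm_nonneg (zs k x)
  have h6 := norm_nonneg (pd 4 g x)
  have h7 : ‖zs k x‖ * ‖pd 4 g x‖ ≤ 2 * M := mul_le_mul h2 h4 h6 (by norm_num)
  linarith

/-! ### `dv a0 = 0` -/

theorem dv_a0 (j : Fin 2) (x : E5) : dv a0 j x = 0 := by
  have hz : pd 4 (zc j) x = 0 := by
    have h4 : ∀ m : Fin 5, m ≠ 4 → pd 4 (fun y : E5 => ((y m : ℝ) : ℂ)) x = 0 := fun m hm => by
      rw [pd_coord, if_neg hm]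
    fin_cases j
    · have e : zc 0 = fun y : E5 => ((y 0 : ℝ) : ℂ) + Complex.I * ((y 1 : ℝ) : ℂ) := by
        funext y; simp [zc]
      show pd 4 (zc 0) x = 0
      rw [e, pd_add (Sm.coord 0) ((Sm.const _).mul (Sm.coord 1)), pd_const_mul (Sm.coord 1),
        h4 0 (by decide), h4 1 (by decide)]
      simp
    · have e : zc 1 = fun y : E5 => ((y 2 : ℝ) : ℂ) + Complex.I * ((y 3 : ℝ) : ℂ) := by
        funext y; simp [zc]
      show pd 4 (zc 1) x = 0
      rw [e, pd_add (Sm.coord 2) ((Sm.const _).mul (Sm.coord 3)), pd_const_mul (Sm.coord 3),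
        h4 2 (by decide), h4 3 (by decide)]
      simp
  have h0 : (fun y => conj (a0 j 0 y)) = fun _ => (0 : ℂ) := by
    funext y; simp [a0]
  have h1 : (fun y => conj (a0 j 1 y)) = fun _ => (0 : ℂ) := by
    funext y; simp [a0]
  have h2 : (fun y => conj (a0 j 2 y)) = fun y => Complex.I * conj (zc j y) := by
    funext y; simp [a0]
  simp only [dv, Fin.sum_univ_three, h0, h1, h2, db_const, db_two]
  rw [pd_const_mul (Sm.zc j).conj, pd_conj (Sm.zc j), hz]
  simp

theorem dv_eq {a : Str} (ha : SmS a) (j : Fin 2) :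
    dv a j = fun x => ∑ l, db l (fun y => conj (bb a j l y)) x := by
  funext x
  have h : ∀ l, db l (fun y => conj (bb a j l y)) x =
      db l (fun y => conj (a j l y)) x - db l (fun y => conj (a0 j l y)) x := by
    intro l
    rw [← db_sub (ha j l).conj (smS_a0 j l).conj]
    congr 1
    funext y
    simp [bb]
  simp only [h, Finset.sum_sub_distrib]
  have h0 := dv_a0 j x
  unfold dv at h0
  rw [h0, sub_zero]
  rfl

end cComx

open cComx in
theorem pcCom (h1 : S_cOut) (h2 : S_cZ) (h3 : S_cCom0) : S_cCom := by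
  refine ⟨40, by norm_num, fun a ε hε0 hε1 hN f hf j k x => ?_⟩
  have ha : SmS a := hN.sm
  have hO : Outs a := ⟨hN.sm, hN.out⟩
  have hb0 : ∀ l x, 1 ≤ ‖x‖ → bb a j l x = 0 := fun l x hx => by
    unfold bb
    rw [hN.out j l x hx, sub_self]
  have hbc0 : ∀ l x, 1 ≤ ‖x‖ → conj (bb a j l x) = 0 := fun l x hx => by
    rw [hb0 l x hx, map_zero]
  have hsb := fun l => sm_bb ha j l
  constructor
  · intro hx
    have e1 : Zf k (L a j f) x - L a j (Zf k f) x = 0 := by
      rw [Zf_L ha hf, (h3 f hf j k x).1, sub_self, zero_add]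
      refine Finset.sum_eq_zero fun l _ => ?_
      rw [Zf_out (hsb l) (hb0 l) k hx, hb0 l x hx]
      ring
    have e2 : Zf k (Lb a j f) x - Lb a j (Zf k f) x = 0 := by
      rw [Zf_Lb ha hf, (h3 f hf j k x).2, sub_self, zero_add]
      refine Finset.sum_eq_zero fun l _ => ?_
      rw [Zf_out (hsb l).conj (hbc0 l) k hx, hb0 l x hx]
      simp
    have e3 : Zf k (Ls a j f) x - Ls a j (Zf k f) x = 0 := by
      rw [Zf_Ls ha hf, e2, Zf_out (Sm.dv ha j) (fun y hy => (h1 a hO).2.1 j y hy) k hx]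
      simp
    exact ⟨sub_eq_zero.1 e1, sub_eq_zero.1 e3⟩
  · intro hx
    have hx' : ‖x‖ ≤ 1 := hx.le
    obtain ⟨g1, g2, g3⟩ := h2 f x hx'
    have hsZ : 0 ≤ sZ f x := Finset.sum_nonneg fun _ _ => norm_nonneg _
    -- bounds of `b`
    have b0 : ∀ l, ‖bb a j l x‖ ≤ ε := fun l => by
      have := hN.bd j l 0 (by norm_num) x
      exact le_of_sq_le_sq this hε0
    have b1 : ∀ l i, ‖pd i (bb a j l) x‖ ≤ ε := fun l i => by
      have h := hN.bd j l 1 (by norm_num) x
      refine le_of_sq_le_sq (le_trans ?_ h) hε0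
      exact Finset.single_le_sum (f := fun i => ‖pd i (bb a j l) x‖ ^ 2)
        (fun _ _ => sq_nonneg _) (Finset.mem_univ i)
    have b2 : ∀ l i m, ‖pd i (pd m (bb a j l)) x‖ ≤ ε := fun l i m => by
      have h := hN.bd j l 2 (by norm_num) x
      refine le_of_sq_le_sq (le_trans ?_ h) hε0
      refine le_trans ?_ (Finset.single_le_sum
        (f := fun m => ∑ i, ‖pd i (pd m (bb a j l)) x‖ ^ 2)
        (fun _ _ => Finset.sum_nonneg fun _ _ => sq_nonneg _) (Finset.mem_univ m))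
      exact Finset.single_le_sum (f := fun i => ‖pd i (pd m (bb a j l)) x‖ ^ 2)
        (fun _ _ => sq_nonneg _) (Finset.mem_univ i)
    have bc1 : ∀ l i, ‖pd i (fun y => conj (bb a j l y)) x‖ ≤ ε := fun l i => by
      rw [pd_conj (hsb l), RCLike.norm_conj]
      exact b1 l i
    have h4 : ‖pd 4 f x‖ ≤ 2 * sZ f x := g1 4
    have e1 : ‖Zf k (L a j f) x - L a j (Zf k f) x‖ ≤ 30 * ε * sZ f x := by
      rw [Zf_L ha hf, (h3 f hf j k x).1, sub_self, zero_add]
      refine (norm_sum_le _ _).trans ?_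
      have ht : ∀ l : Fin 3, ‖Zf k (bb a j l) x * dz l f x -
          bb a j l x * (dz l (zs k) x * pd 4 f x)‖ ≤ 10 * ε * sZ f x := by
        intro l
        refine (norm_sub_le _ _).trans ?_
        rw [norm_mul, norm_mul, norm_mul]
        have t1 := mul_le_mul (Zf_le hx' (b1 l) k) (g2 l) (norm_nonneg _) (by positivity)
        have t2 := mul_le_mul (dz_le (fun i => pd_zs_le i k x) l) h4 (norm_nonneg _)
          (by norm_num)
        have t3 := mul_le_mul (b0 l) t2 (by positivity) hε0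
        linarith
      refine (Finset.sum_le_sum fun l _ => ht l).trans ?_
      simp only [Finset.sum_const, Finset.card_univ, Fintype.card_fin, nsmul_eq_mul]
      norm_num
      linarith
    have e2 : ‖Zf k (Lb a j f) x - Lb a j (Zf k f) x‖ ≤ 30 * ε * sZ f x := by
      rw [Zf_Lb ha hf, (h3 f hf j k x).2, sub_self, zero_add]
      refine (norm_sum_le _ _).trans ?_
      have ht : ∀ l : Fin 3, ‖Zf k (fun y => conj (bb a j l y)) x * db l f x -
          conj (bb a j l x) * (db l (zs k) x * pd 4 f x)‖ ≤ 10 * ε * sZ f x := by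
        intro l
        refine (norm_sub_le _ _).trans ?_
        rw [norm_mul, norm_mul, norm_mul, RCLike.norm_conj]
        have t1 := mul_le_mul (Zf_le hx' (bc1 l) k) (g3 l) (norm_nonneg _) (by positivity)
        have t2 := mul_le_mul (db_le (fun i => pd_zs_le i k x) l) h4 (norm_nonneg _)
          (by norm_num)
        have t3 := mul_le_mul (b0 l) t2 (by positivity) hε0
        linarith
      refine (Finset.sum_le_sum fun l _ => ht l).trans ?_
      simp only [Finset.sum_const, Finset.card_univ, Fintype.card_fin, nsmul_eq_mul]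
      norm_num
      linarith
    have e3 : ‖Zf k (dv a j) x‖ ≤ 9 * ε := by
      rw [dv_eq ha, Zf_sum _ (fun l _ => (hsb l).conj.db l)]
      refine (norm_sum_le _ _).trans ?_
      have ht : ∀ l : Fin 3, ‖Zf k (db l (fun y => conj (bb a j l y))) x‖ ≤ 3 * ε := by
        intro l
        refine Zf_le hx' (fun i => ?_) k
        rw [pd_db (hsb l).conj]
        refine db_le (fun m => ?_) l
        have e : pd i (fun y => conj (bb a j l y)) = fun y => conj (pd i (bb a j l) y) := by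
          funext y
          exact pd_conj (hsb l) i y
        rw [e, pd_conj ((hsb l).pd i), RCLike.norm_conj]
        exact b2 l m i
      refine (Finset.sum_le_sum fun l _ => ht l).trans ?_
      simp only [Finset.sum_const, Finset.card_univ, Fintype.card_fin, nsmul_eq_mul]
      norm_num
      linarith
    refine ⟨e1.trans (by nlinarith [mul_nonneg hε0 hsZ]), ?_⟩
    rw [Zf_Ls ha hf]
    refine (norm_sub_le _ _).trans ?_
    rw [norm_neg, norm_mul]
    have t1 := mul_le_mul_of_nonneg_right e3 (norm_nonneg (f x))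
    have t2 := mul_nonneg hε0 (norm_nonneg (f x))
    have t3 := mul_nonneg hε0 hsZ
    nlinarith

end Pool.Agent.CR5
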