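import Pool.Agent.Lib.CR5.SpecDa
import Pool.Agent.Lib.CR5.D.cCom

/-!
# CR5, block D: pointwise bounds of the right sides, second order (helper9)
-/

open MeasureTheory Set Filter Topology
open scoped ENNReal ComplexConjugate

noncomputable section

namespace Pool.Agent.CR5

namespace aB2x

open cComx

theorem sZ_nonneg (f : E5 → ℂ) (x : E5) : 0 ≤ sZ f x := Finset.sum_nonneg fun _ _ => norm_nonneg _

theorem sZ2_nonneg (f : E5 → ℂ) (x : E5) : 0 ≤ sZ2 f x :=
  Finset.sum_nonneg fun _ _ => Finset.sum_nonneg fun _ _ => norm_nonneg _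

theorem N0_nonneg (w : F2) (x : E5) : 0 ≤ N0 w x := add_nonneg (norm_nonneg _) (norm_nonneg _)

theorem N1_nonneg (w : F2) (x : E5) : 0 ≤ N1 w x := add_nonneg (sZ_nonneg _ _) (sZ_nonneg _ _)

theorem N2_nonneg (w : F2) (x : E5) : 0 ≤ N2 w x := add_nonneg (sZ2_nonneg _ _) (sZ2_nonneg _ _)

theorem T0_nonneg (a : Str) (w : F2) (x : E5) : 0 ≤ T0 a w x :=
  add_nonneg (norm_nonneg _) (norm_nonneg _)

theorem T1_nonneg (a : Str) (w : F2) (x : E5) : 0 ≤ T1 a w x :=
  Finset.sum_nonneg fun _ _ => T0_nonneg _ _ _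

theorem T2_nonneg (a : Str) (w : F2) (x : E5) : 0 ≤ T2 a w x :=
  Finset.sum_nonneg fun _ _ => Finset.sum_nonneg fun _ _ => T0_nonneg _ _ _

theorem Zf_le_sZ (f : E5 → ℂ) (k : Fin 5) (x : E5) : ‖Zf k f x‖ ≤ sZ f x :=
  Finset.single_le_sum (f := fun k => ‖Zf k f x‖) (fun _ _ => norm_nonneg _) (Finset.mem_univ k)

theorem sZ_Zf_le (f : E5 → ℂ) (k : Fin 5) (x : E5) : sZ (Zf k f) x ≤ sZ2 f x :=
  Finset.sum_le_sum fun m _ =>
    Finset.single_le_sum (f := fun k => ‖Zf m (Zf k f) x‖) (fun _ _ => norm_nonneg _)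
      (Finset.mem_univ k)

theorem N0_Zp (w : F2) (k : Fin 5) (x : E5) : N0 (Zp k w) x ≤ N1 w x :=
  add_le_add (Zf_le_sZ _ _ _) (Zf_le_sZ _ _ _)

theorem N1_Zp (w : F2) (k : Fin 5) (x : E5) : N1 (Zp k w) x ≤ N2 w x :=
  add_le_add (sZ_Zf_le _ _ _) (sZ_Zf_le _ _ _)

theorem T0_Zp (a : Str) (w : F2) (k : Fin 5) (x : E5) : T0 a (Zp k w) x ≤ T1 a w x :=
  Finset.single_le_sum (f := fun k => T0 a (Zp k w) x) (fun _ _ => T0_nonneg _ _ _)
    (Finset.mem_univ k)

theorem T1_Zp (a : Str) (w : F2) (k : Fin 5) (x : E5) : T1 a (Zp k w) x ≤ T2 a w x :=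
  Finset.sum_le_sum fun m _ =>
    Finset.single_le_sum (f := fun k => T0 a (Zp m (Zp k w)) x) (fun _ _ => T0_nonneg _ _ _)
      (Finset.mem_univ k)

theorem sm_Zp {w : F2} (hw : ∀ j, Sm (w j)) (k : Fin 5) (j : Fin 2) : Sm (Zp k w j) :=
  (hw j).Zf k

theorem Zf_D0s {a : Str} (ha : SmS a) {w : F2} (hw : ∀ j, Sm (w j)) (m : Fin 5) :
    Zf m (D0s a w) = fun x => D0s a (Zp m w) x + cD0s a m w x := by
  funext x
  show Zf m (fun x => Ls a 0 (w 0) x + Ls a 1 (w 1) x) x = _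
  rw [Zf_add ((hw 0).Ls ha 0) ((hw 1).Ls ha 1)]
  simp only [D0s, cD0s, zcS, Zp]
  ring

theorem Zf_D1 {a : Str} (ha : SmS a) {w : F2} (hw : ∀ j, Sm (w j)) (m : Fin 5) :
    Zf m (D1 a w) = fun x => D1 a (Zp m w) x + cD1 a m w x := by
  funext x
  show Zf m (fun x => L a 0 (w 1) x - L a 1 (w 0) x) x = _
  rw [Zf_sub ((hw 1).L ha 0) ((hw 0).L ha 1)]
  simp only [D1, cD1, zcL, Zp]
  ring

end aB2x

open aB2x cComx in
theorem paB2 (h1 : S_aCm) (h2 : S_aB1) : S_aB2 := by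
  obtain ⟨c1, hc1, h1⟩ := h1
  obtain ⟨c2, hc2, h2⟩ := h2
  refine ⟨(c1 + c2) * (10 + 30 * (c1 + c2)), by positivity, ?_⟩
  intro a ε hε0 hε1 hN w hw l k j x hx X hX
  have haS := hN.smS
  have n0 := N0_nonneg w x
  have n1 := N1_nonneg w x
  have n2 := N2_nonneg w x
  have t0 := T0_nonneg a w x
  have t1 := T1_nonneg a w x
  have t2 := T2_nonneg a w x
  have hX0 : 0 ≤ X := by rw [hX]; positivity
  have hεX : 0 ≤ ε * X := mul_nonneg hε0 hX0
  set C := (c1 + c2) * (10 + 30 * (c1 + c2)) with hC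
  have fin : ∀ A : ℝ, A ≤ C → A * (ε * X) ≤ C * ε * X := fun A hA => by
    rw [mul_assoc C]
    exact mul_le_mul_of_nonneg_right hA hεX
  have aCm := fun (f : E5 → ℂ) (hf : Sm f) (k m : Fin 5) (j : Fin 2) => h1 a ε hε0 hε1 hN f hf k m j
  -- smoothness of the commutators
  have scL : ∀ (f : E5 → ℂ), Sm f → ∀ (k : Fin 5) (j : Fin 2), Sm (zcL a k j f) := fun f hf k j =>
    (aCm f hf k 0 j).1
  have scS : ∀ (f : E5 → ℂ), Sm f → ∀ (k : Fin 5) (j : Fin 2), Sm (zcS a k j f) := fun f hf k j =>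
    (aCm f hf k 0 j).2.1
  have scD0s : ∀ (w : F2), (∀ j, Sm (w j)) → ∀ k, Sm (cD0s a k w) := fun w hw k =>
    (scS _ (hw 0) k 0).add (scS _ (hw 1) k 1)
  have scD1 : ∀ (w : F2), (∀ j, Sm (w j)) → ∀ k, Sm (cD1 a k w) := fun w hw k =>
    (scL _ (hw 1) k 0).sub (scL _ (hw 0) k 1)
  -- (1)
  have z1 : ∀ m n, ‖Zf m (cD0s a n w) x‖ ≤ c1 * ε * (N0 w x + N1 w x + N2 w x) := by
    intro m n
    have e : Zf m (cD0s a n w) x = Zf m (zcS a n 0 (w 0)) x + Zf m (zcS a n 1 (w 1)) x :=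
      Zf_add (scS _ (hw 0) n 0) (scS _ (hw 1) n 1) m x
    rw [e]
    have b0 := ((aCm _ (hw 0) n m 0).2.2.2 x hx).2.2.2
    have b1 := ((aCm _ (hw 1) n m 1).2.2.2 x hx).2.2.2
    refine (norm_add_le _ _).trans ((add_le_add b0 b1).trans (le_of_eq ?_))
    simp only [N0, N1, N2]
    ring
  have z2 : ∀ m n, ‖Zf m (cD1 a n w) x‖ ≤ c1 * ε * (N0 w x + N1 w x + N2 w x) := by
    intro m n
    have e : Zf m (cD1 a n w) x = Zf m (zcL a n 0 (w 1)) x - Zf m (zcL a n 1 (w 0)) x :=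
      Zf_sub (scL _ (hw 1) n 0) (scL _ (hw 0) n 1) m x
    rw [e]
    have b0 := ((aCm _ (hw 1) n m 0).2.2.2 x hx).2.2.1
    have b1 := ((aCm _ (hw 0) n m 1).2.2.2 x hx).2.2.1
    have h3 : 0 ≤ c1 * ε * N0 w x := by positivity
    refine (norm_sub_le _ _).trans ((add_le_add b0 b1).trans ?_)
    have h4 : c1 * ε * (sZ (w 1) x + sZ2 (w 1) x) + c1 * ε * (sZ (w 0) x + sZ2 (w 0) x)
        = c1 * ε * (N1 w x + N2 w x) := by simp only [N1, N2]; ring
    rw [h4]
    nlinarith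
  have zX : c1 * ε * (N0 w x + N1 w x + N2 w x) ≤ c1 * (ε * X) := by
    rw [mul_assoc]
    refine mul_le_mul_of_nonneg_left (mul_le_mul_of_nonneg_left ?_ hε0) hc1.le
    rw [hX]; linarith
  -- (2)
  have y1 : ∀ m n, ‖cD0s a m (Zp n w) x‖ ≤ c2 * (ε * X) ∧ ‖cD1 a m (Zp n w) x‖ ≤ c2 * (ε * X) := by
    intro m n
    have b := h2 a ε hε0 hε1 hN (Zp n w) (sm_Zp hw n) m j x hx
    have b0 := N0_Zp w n x
    have b1 := N1_Zp w n x
    have b2 : c2 * ε * (N0 (Zp n w) x + N1 (Zp n w) x) ≤ c2 * (ε * X) := by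
      rw [mul_assoc]
      refine mul_le_mul_of_nonneg_left (mul_le_mul_of_nonneg_left ?_ hε0) hc2.le
      rw [hX]; linarith
    exact ⟨b.1.trans b2, b.2.1.trans b2⟩
  have y0 : ∀ m, ‖cD0s a m w x‖ ≤ c2 * (ε * X) ∧ ‖cD1 a m w x‖ ≤ c2 * (ε * X) := by
    intro m
    have b := h2 a ε hε0 hε1 hN w hw m j x hx
    have b2 : c2 * ε * (N0 w x + N1 w x) ≤ c2 * (ε * X) := by
      rw [mul_assoc]
      refine mul_le_mul_of_nonneg_left (mul_le_mul_of_nonneg_left ?_ hε0) hc2.le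
      rw [hX]; linarith
    exact ⟨b.1.trans b2, b.2.1.trans b2⟩
  have hεX' : ε * X ≤ X := by nlinarith
  -- (3)
  have sD0s : Sm (D0s a w) := Sm.D0s haS hw
  have sD1 : Sm (D1 a w) := Sm.D1 haS hw
  have T0v : ∀ v : F2, ‖D0s a v x‖ ≤ T0 a v x ∧ ‖D1 a v x‖ ≤ T0 a v x := fun v =>
    ⟨le_add_of_nonneg_right (norm_nonneg _), le_add_of_nonneg_left (norm_nonneg _)⟩
  have const5 : ∀ A : ℝ, ∑ _m : Fin 5, A = 5 * A := fun A => by simp
  have f1 : sZ (D0s a w) x ≤ (1 + 5 * c2) * X ∧ sZ (D1 a w) x ≤ (1 + 5 * c2) * X := by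
    constructor
    · calc sZ (D0s a w) x ≤ ∑ m : Fin 5, (T0 a (Zp m w) x + c2 * X) := by
            refine Finset.sum_le_sum fun m _ => ?_
            rw [Zf_D0s haS hw m]
            refine (norm_add_le _ _).trans (add_le_add (T0v _).1 ((y0 m).1.trans ?_))
            exact mul_le_mul_of_nonneg_left hεX' hc2.le
        _ = T1 a w x + 5 * (c2 * X) := by rw [Finset.sum_add_distrib, const5]; rfl
        _ ≤ _ := by
            have : T1 a w x ≤ X := by rw [hX]; linarith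
            linarith
    · calc sZ (D1 a w) x ≤ ∑ m : Fin 5, (T0 a (Zp m w) x + c2 * X) := by
            refine Finset.sum_le_sum fun m _ => ?_
            rw [Zf_D1 haS hw m]
            refine (norm_add_le _ _).trans (add_le_add (T0v _).2 ((y0 m).2.trans ?_))
            exact mul_le_mul_of_nonneg_left hεX' hc2.le
        _ = T1 a w x + 5 * (c2 * X) := by rw [Finset.sum_add_distrib, const5]; rfl
        _ ≤ _ := by
            have : T1 a w x ≤ X := by rw [hX]; linarith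
            linarith
  have f2 : sZ2 (D0s a w) x ≤ (1 + 25 * (c1 + c2)) * X ∧
      sZ2 (D1 a w) x ≤ (1 + 25 * (c1 + c2)) * X := by
    constructor
    · calc sZ2 (D0s a w) x
          ≤ ∑ m : Fin 5, ∑ n : Fin 5, (T0 a (Zp m (Zp n w)) x + (c1 + c2) * X) := by
            refine Finset.sum_le_sum fun m _ => Finset.sum_le_sum fun n _ => ?_
            have e : Zf m (Zf n (D0s a w)) x = D0s a (Zp m (Zp n w)) x + cD0s a m (Zp n w) x
                + Zf m (cD0s a n w) x := by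
              rw [Zf_D0s haS hw n, Zf_add (Sm.D0s haS (sm_Zp hw n)) (scD0s w hw n),
                Zf_D0s haS (sm_Zp hw n) m]
            rw [e]
            have b1 := norm_add_le (D0s a (Zp m (Zp n w)) x + cD0s a m (Zp n w) x)
              (Zf m (cD0s a n w) x)
            have b2 := norm_add_le (D0s a (Zp m (Zp n w)) x) (cD0s a m (Zp n w) x)
            have b3 := (T0v (Zp m (Zp n w))).1
            have b4 := (y1 m n).1
            have b5 := (z1 m n).trans zX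
            have b6 := mul_le_mul_of_nonneg_left hεX' (add_pos hc1 hc2).le
            linarith
        _ = T2 a w x + 25 * ((c1 + c2) * X) := by
            simp only [Finset.sum_add_distrib, const5, T2]; ring
        _ ≤ _ := by
            have : T2 a w x ≤ X := by rw [hX]; linarith
            linarith
    · calc sZ2 (D1 a w) x
          ≤ ∑ m : Fin 5, ∑ n : Fin 5, (T0 a (Zp m (Zp n w)) x + (c1 + c2) * X) := by
            refine Finset.sum_le_sum fun m _ => Finset.sum_le_sum fun n _ => ?_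
            have e : Zf m (Zf n (D1 a w)) x = D1 a (Zp m (Zp n w)) x + cD1 a m (Zp n w) x
                + Zf m (cD1 a n w) x := by
              rw [Zf_D1 haS hw n, Zf_add (Sm.D1 haS (sm_Zp hw n)) (scD1 w hw n),
                Zf_D1 haS (sm_Zp hw n) m]
            rw [e]
            have b1 := norm_add_le (D1 a (Zp m (Zp n w)) x + cD1 a m (Zp n w) x)
              (Zf m (cD1 a n w) x)
            have b2 := norm_add_le (D1 a (Zp m (Zp n w)) x) (cD1 a m (Zp n w) x)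
            have b3 := (T0v (Zp m (Zp n w))).2
            have b4 := (y1 m n).2
            have b5 := (z2 m n).trans zX
            have b6 := mul_le_mul_of_nonneg_left hεX' (add_pos hc1 hc2).le
            linarith
        _ = T2 a w x + 25 * ((c1 + c2) * X) := by
            simp only [Finset.sum_add_distrib, const5, T2]; ring
        _ ≤ _ := by
            have : T2 a w x ≤ X := by rw [hX]; linarith
            linarith
  have hc1ε : 0 ≤ c1 * ε := mul_nonneg hc1.le hε0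
  have g3 : ∀ A B : ℝ, A ≤ c1 * ε * B → B ≤ (10 + 30 * (c1 + c2)) * X → A ≤ C * ε * X := by
    intro A B hA hB
    have h3 : c1 * ε * B ≤ c1 * ε * ((10 + 30 * (c1 + c2)) * X) := mul_le_mul_of_nonneg_left hB hc1ε
    have h4 : c1 * ε * ((10 + 30 * (c1 + c2)) * X) = (c1 * (10 + 30 * (c1 + c2))) * (ε * X) := by
      ring
    refine hA.trans (h3.trans (h4.le.trans (fin _ ?_)))
    rw [hC]
    exact mul_le_mul_of_nonneg_right (by linarith) (by positivity)
  have hcX : 0 ≤ c1 * X := mul_nonneg hc1.le hX0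
  have hcX2 : 0 ≤ c2 * X := mul_nonneg hc2.le hX0
  have csum : c1 + c2 ≤ C := by
    rw [hC]
    have : 0 < c1 + c2 := add_pos hc1 hc2
    nlinarith
  have hT0X : T0 a w x ≤ X := by rw [hX]; linarith
  refine ⟨?_, ?_, ?_, ?_, ?_, ?_, ?_, ?_⟩
  · refine (norm_add_le _ _).trans ((add_le_add ((z1 l k).trans zX) (y1 l k).1).trans ?_)
    rw [← add_mul]
    exact fin _ csum
  · refine (norm_add_le _ _).trans ((add_le_add ((z2 l k).trans zX) (y1 l k).2).trans ?_)
    rw [← add_mul]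
    exact fin _ csum
  · exact g3 _ _ ((aCm _ sD0s k l j).2.2.2 x hx).2.2.1 (by nlinarith [f1.1, f2.1])
  · have key : ∀ i, ‖Zf l (zcS a k i (D1 a w)) x‖ ≤ C * ε * X := fun i =>
      g3 _ _ ((aCm _ sD1 k l i).2.2.2 x hx).2.2.2 (by nlinarith [f1.2, f2.2, (T0v w).2])
    by_cases hj : j = 0
    · have e : cD1s a k (D1 a w) j = fun x => -zcS a k 1 (D1 a w) x := by
        funext y; simp only [cD1s, if_pos hj]
      rw [e, Zf_neg, norm_neg]
      exact key 1
    · have e : cD1s a k (D1 a w) j = zcS a k 0 (D1 a w) := by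
        funext y; simp only [cD1s, if_neg hj]
      rw [e]
      exact key 0
  · have hq : sZ (cD0s a k w) x ≤ 5 * (c1 * X) := by
      calc sZ (cD0s a k w) x ≤ ∑ _m : Fin 5, c1 * X := Finset.sum_le_sum fun m _ =>
            ((z1 m k).trans zX).trans (mul_le_mul_of_nonneg_left hεX' hc1.le)
        _ = _ := const5 _
    exact g3 _ _ ((aCm _ (scD0s w hw k) l 0 j).2.2.2 x hx).1 (by nlinarith)
  · have hq : sZ (cD1 a k w) x ≤ 5 * (c1 * X) := by
      calc sZ (cD1 a k w) x ≤ ∑ _m : Fin 5, c1 * X := Finset.sum_le_sum fun m _ =>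
            ((z2 m k).trans zX).trans (mul_le_mul_of_nonneg_left hεX' hc1.le)
        _ = _ := const5 _
    have hq' : ‖cD1 a k w x‖ ≤ c2 * X := (y0 k).2.trans (mul_le_mul_of_nonneg_left hεX' hc2.le)
    have key : ∀ i, ‖zcS a l i (cD1 a k w) x‖ ≤ C * ε * X := fun i =>
      g3 _ _ ((aCm _ (scD1 w hw k) l 0 i).2.2.2 x hx).2.1 (by nlinarith)
    by_cases hj : j = 0
    · have e : cD1s a l (cD1 a k w) j x = -zcS a l 1 (cD1 a k w) x := by
        simp only [cD1s, if_pos hj]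
      rw [e, norm_neg]
      exact key 1
    · have e : cD1s a l (cD1 a k w) j x = zcS a l 0 (cD1 a k w) x := by
        simp only [cD1s, if_neg hj]
      rw [e]
      exact key 0
  · have b := (h2 a ε hε0 hε1 hN (Zp k w) (sm_Zp hw k) l j x hx).2.2.1
    have b1 := N0_Zp w k x
    have b2 := N1_Zp w k x
    have b3 := T0_Zp a w k x
    have b4 := T1_Zp a w k x
    refine b.trans (le_trans ?_ (fin c2 (by linarith)))
    rw [mul_assoc]
    refine mul_le_mul_of_nonneg_left (mul_le_mul_of_nonneg_left ?_ hε0) hc2.le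
    rw [hX]; linarith
  · have b := (h2 a ε hε0 hε1 hN (Zp k w) (sm_Zp hw k) l j x hx).2.2.2
    have b1 := N0_Zp w k x
    have b2 := N1_Zp w k x
    have b3 := T0_Zp a w k x
    have b4 := T1_Zp a w k x
    refine b.trans (le_trans ?_ (fin c2 (by linarith)))
    rw [mul_assoc]
    refine mul_le_mul_of_nonneg_left (mul_le_mul_of_nonneg_left ?_ hε0) hc2.le
    rw [hX]; linarith

end Pool.Agent.CR5
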