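import Pool.Agent.Lib.CR5.SpecDa
import Pool.Agent.Lib.CR5.D.cCom

/-!
# CR5, block D: bounds of the coefficients of the commutators (helper9)
-/

open MeasureTheory Set Filter Topology
open scoped ENNReal ComplexConjugate

noncomputable section

namespace Pool.Agent.CR5

namespace aCbx

open cComx

/-- The derivatives of order at most `n` are bounded by `M` on the closed unit ball. -/
def Cn : ℕ → (E5 → ℂ) → ℝ → Prop
  | 0, g, M => ∀ x, ‖x‖ ≤ 1 → ‖g x‖ ≤ M
  | n + 1, g, M => (∀ x, ‖x‖ ≤ 1 → ‖g x‖ ≤ M) ∧ ∀ i, Cn n (pd i g) M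

theorem Cn.bd {n : ℕ} {g : E5 → ℂ} {M : ℝ} (h : Cn n g M) (x : E5) (hx : ‖x‖ ≤ 1) : ‖g x‖ ≤ M := by
  cases n with
  | zero => exact h x hx
  | succ n => exact h.1 x hx

theorem Cn.nonneg {n : ℕ} {g : E5 → ℂ} {M : ℝ} (h : Cn n g M) : 0 ≤ M :=
  (norm_nonneg _).trans (h.bd 0 (by simp))

theorem Cn.mono : ∀ {n : ℕ} {g : E5 → ℂ} {M M' : ℝ}, Cn n g M → M ≤ M' → Cn n g M'
  | 0, _, _, _, h, hM => fun x hx => (h x hx).trans hM
  | _ + 1, _, _, _, h, hM => ⟨fun x hx => (h.1 x hx).trans hM, fun i => (h.2 i).mono hM⟩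

theorem Cn.down : ∀ {n : ℕ} {g : E5 → ℂ} {M : ℝ}, Cn (n + 1) g M → Cn n g M
  | 0, _, _, h => h.1
  | _ + 1, _, _, h => ⟨h.1, fun i => (h.2 i).down⟩

theorem Cn.add : ∀ {n : ℕ} {f g : E5 → ℂ} {M M' : ℝ}, Sm f → Sm g → Cn n f M → Cn n g M' →
    Cn n (fun x => f x + g x) (M + M')
  | 0, _, _, _, _, _, _, h, h' => fun x hx => (norm_add_le _ _).trans (add_le_add (h x hx) (h' x hx))
  | _ + 1, f, g, _, _, hf, hg, h, h' =>
    ⟨fun x hx => (norm_add_le _ _).trans (add_le_add (h.1 x hx) (h'.1 x hx)), fun i => by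
      have e : pd i (fun x => f x + g x) = fun x => pd i f x + pd i g x :=
        funext fun x => pd_add hf hg i x
      rw [e]
      exact Cn.add (hf.pd i) (hg.pd i) (h.2 i) (h'.2 i)⟩

theorem Cn.neg : ∀ {n : ℕ} {g : E5 → ℂ} {M : ℝ}, Cn n g M → Cn n (fun x => -g x) M
  | 0, _, _, h => fun x hx => by rw [norm_neg]; exact h x hx
  | _ + 1, g, _, h => ⟨fun x hx => by rw [norm_neg]; exact h.1 x hx, fun i => by
      have e : pd i (fun x => -g x) = fun x => -pd i g x := funext fun x => pd_neg g i x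
      rw [e]
      exact (h.2 i).neg⟩

theorem Cn.conj : ∀ {n : ℕ} {g : E5 → ℂ} {M : ℝ}, Sm g → Cn n g M → Cn n (fun x => conj (g x)) M
  | 0, _, _, _, h => fun x hx => by rw [RCLike.norm_conj]; exact h x hx
  | _ + 1, g, _, hg, h => ⟨fun x hx => by rw [RCLike.norm_conj]; exact h.1 x hx, fun i => by
      have e : pd i (fun x => conj (g x)) = fun x => conj (pd i g x) :=
        funext fun x => pd_conj hg i x
      rw [e]
      exact Cn.conj (hg.pd i) (h.2 i)⟩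

theorem Cn.zero : ∀ {n : ℕ}, Cn n (fun _ => 0) 0
  | 0 => fun x _ => by simp
  | n + 1 => ⟨fun x _ => by simp, fun i => by
      have e : pd i (fun _ => (0 : ℂ)) = fun _ => 0 := funext fun x => pd_const 0 i x
      rw [e]
      exact Cn.zero⟩

theorem Cn.const {n : ℕ} (c : ℂ) : Cn n (fun _ => c) ‖c‖ := by
  cases n with
  | zero => exact fun x _ => le_rfl
  | succ n =>
    refine ⟨fun x _ => le_rfl, fun i => ?_⟩
    have e : pd i (fun _ => c) = fun _ => 0 := funext fun x => pd_const c i x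
    rw [e]
    exact Cn.zero.mono (norm_nonneg _)

theorem Cn.mul : ∀ {n : ℕ} {f g : E5 → ℂ} {M M' : ℝ}, Sm f → Sm g → Cn n f M → Cn n g M' →
    Cn n (fun x => f x * g x) (2 ^ n * (M * M'))
  | 0, _, _, M, M', _, _, h, h' => fun x hx => by
      rw [norm_mul, pow_zero, one_mul]
      exact mul_le_mul (h x hx) (h' x hx) (norm_nonneg _) (Cn.nonneg h)
  | n + 1, f, g, M, M', hf, hg, h, h' => by
    have hM := h.nonneg
    have hM' := h'.nonneg
    have hMM := mul_nonneg hM hM'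
    refine ⟨fun x hx => ?_, fun i => ?_⟩
    · rw [norm_mul]
      have h1 := mul_le_mul (h.1 x hx) (h'.1 x hx) (norm_nonneg _) hM
      have h2 : (1 : ℝ) ≤ 2 ^ (n + 1) := one_le_pow₀ (by norm_num)
      nlinarith
    · have e : pd i (fun x => f x * g x) = fun x => f x * pd i g x + pd i f x * g x :=
        funext fun x => pd_mul hf hg i x
      rw [e]
      have h1 := Cn.mul hf (hg.pd i) h.down (h'.2 i)
      have h2 := Cn.mul (hf.pd i) hg (h.2 i) h'.down
      refine (Cn.add (hf.mul (hg.pd i)) ((hf.pd i).mul hg) h1 h2).mono (le_of_eq ?_)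
      ring

theorem Cn.lin {n : ℕ} {f g : E5 → ℂ} {M : ℝ} (hf : Sm f) (hg : Sm g) (h : Cn n f M)
    (h' : Cn n g M) (c c' : ℂ) (hc : ‖c‖ ≤ 1) (hc' : ‖c'‖ ≤ 1) :
    Cn n (fun x => c * f x + c' * g x) (2 ^ (n + 1) * M) := by
  have hM := h.nonneg
  have h1 := Cn.mul (Sm.const c) hf ((Cn.const c).mono hc) h
  have h2 := Cn.mul (Sm.const c') hg ((Cn.const c').mono hc') h'
  refine (Cn.add ((Sm.const c).mul hf) ((Sm.const c').mul hg) h1 h2).mono (le_of_eq ?_)
  ring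

theorem Cn.dz {n : ℕ} {g : E5 → ℂ} {M : ℝ} (hg : Sm g) (h : Cn (n + 1) g M) (l : Fin 3) :
    Cn n (CR5.dz l g) (2 ^ (n + 1) * M) := by
  have hM := h.nonneg
  have c1 : ‖(1 / 2 : ℂ)‖ ≤ 1 := by norm_num
  have c2 : ‖(-Complex.I / 2 : ℂ)‖ ≤ 1 := by
    rw [norm_div, norm_neg, Complex.norm_I, Complex.norm_ofNat]; norm_num
  rcases fin3_cases l with rfl | rfl | rfl
  · have e : CR5.dz 0 g = fun x => (1 / 2 : ℂ) * pd 0 g x + (-Complex.I / 2) * pd 1 g x := by
      funext x; rw [dz_zero]; ring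
    rw [e]
    exact Cn.lin (hg.pd 0) (hg.pd 1) (h.2 0) (h.2 1) _ _ c1 c2
  · have e : CR5.dz 1 g = fun x => (1 / 2 : ℂ) * pd 2 g x + (-Complex.I / 2) * pd 3 g x := by
      funext x; rw [dz_one]; ring
    rw [e]
    exact Cn.lin (hg.pd 2) (hg.pd 3) (h.2 2) (h.2 3) _ _ c1 c2
  · have e : CR5.dz 2 g = pd 4 g := by funext x; rw [dz_two]
    rw [e]
    have h2 : (1 : ℝ) ≤ 2 ^ (n + 1) := one_le_pow₀ (by norm_num)
    exact (h.2 4).mono (by nlinarith)

theorem Cn.db {n : ℕ} {g : E5 → ℂ} {M : ℝ} (hg : Sm g) (h : Cn (n + 1) g M) (l : Fin 3) :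
    Cn n (CR5.db l g) (2 ^ (n + 1) * M) := by
  have e : CR5.db l g = fun x => conj (CR5.dz l (fun y => conj (g y)) x) := by
    funext x
    rw [dz_conj hg, Complex.conj_conj]
  rw [e]
  exact Cn.conj (hg.conj.dz l) (Cn.dz hg.conj (Cn.conj hg h) l)

theorem zs_form (k : Fin 5) : ∃ (c : ℝ) (m : Fin 5), |c| ≤ 2 ∧
    zs k = fun y => (c : ℂ) * ((y m : ℝ) : ℂ) := by
  fin_cases k
  · exact ⟨-2, 1, by norm_num, by funext y; simp [zs, zco]⟩
  · exact ⟨2, 0, by norm_num, by funext y; simp [zs, zco]⟩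
  · exact ⟨-2, 3, by norm_num, by funext y; simp [zs, zco]⟩
  · exact ⟨2, 2, by norm_num, by funext y; simp [zs, zco]⟩
  · exact ⟨0, 0, by norm_num, by funext y; simp [zs, zco]⟩

theorem cn_zs (n : ℕ) (k : Fin 5) : Cn n (zs k) 2 := by
  have h0 : ∀ x, ‖x‖ ≤ 1 → ‖zs k x‖ ≤ 2 := fun x hx => zs_le k hx
  cases n with
  | zero => exact h0
  | succ n =>
    refine ⟨h0, fun i => ?_⟩
    obtain ⟨c, m, hc, he⟩ := zs_form k
    have e : pd i (zs k) = fun _ => if m = i then (c : ℂ) else 0 := by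
      funext x
      rw [he, pd_const_mul (Sm.coord m), pd_coord]
      split_ifs <;> simp
    rw [e]
    refine (Cn.const _).mono ?_
    split_ifs
    · rw [Complex.norm_real]; exact hc
    · simp

theorem Cn.Zf {n : ℕ} {g : E5 → ℂ} {M : ℝ} (hg : Sm g) (h : Cn (n + 1) g M) (k : Fin 5) :
    Cn n (CR5.Zf k g) ((1 + 2 ^ n * 2) * M) := by
  have h1 := Cn.mul (sm_zs k) (hg.pd 4) (cn_zs n k) (h.2 4)
  refine (Cn.add (hg.pd k) ((sm_zs k).mul (hg.pd 4)) (h.2 k) h1).mono (le_of_eq ?_)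
  ring

theorem Cn.sum3 {n : ℕ} {f : Fin 3 → E5 → ℂ} {M : ℝ} (hf : ∀ l, Sm (f l)) (h : ∀ l, Cn n (f l) M) :
    Cn n (fun x => ∑ l, f l x) (3 * M) := by
  have e : (fun x => ∑ l, f l x) = fun x => (f 0 x + f 1 x) + f 2 x := by
    funext x; rw [Fin.sum_univ_three]
  rw [e]
  refine (Cn.add ((hf 0).add (hf 1)) (hf 2) (Cn.add (hf 0) (hf 1) (h 0) (h 1)) (h 2)).mono
    (le_of_eq ?_)
  ring

theorem cn_of_sq {ε : ℝ} (hε : 0 ≤ ε) : ∀ (n : ℕ) (f : E5 → ℂ),
    (∀ i, i ≤ n → ∀ x, CR5.sq i f x ≤ ε ^ 2) → Cn n f ε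
  | 0, f, h => fun x _ => abs_le_of_sq_le_sq' (h 0 le_rfl x) hε |>.2
  | n + 1, f, h => by
    refine ⟨fun x _ => abs_le_of_sq_le_sq' (h 0 (Nat.zero_le _) x) hε |>.2, fun k =>
      cn_of_sq hε n (pd k f) fun i hi x => ?_⟩
    have hnn : ∀ (i : ℕ) (g : E5 → ℂ) (x : E5), 0 ≤ CR5.sq i g x := by
      intro i
      induction i with
      | zero => exact fun g x => sq_nonneg _
      | succ i ih => exact fun g x => Finset.sum_nonneg fun k _ => ih _ _
    refine le_trans ?_ (h (i + 1) (by omega) x)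
    exact Finset.single_le_sum (f := fun k => CR5.sq i (pd k f) x) (fun k _ => hnn i _ x)
      (Finset.mem_univ k)

end aCbx

open aCbx cComx in
theorem paCb (_h1 : S_cOut) : S_aCb := by
  refine ⟨100000, by norm_num, fun a ε hε0 hε1 hN k m j => ?_⟩
  have haS := hN.smS
  have sb : ∀ l, Sm (cComx.bb a j l) := sm_bb haS j
  have ob : ∀ l x, 1 ≤ ‖x‖ → cComx.bb a j l x = 0 := fun l x hx => by
    show a j l x - a0 j l x = 0
    rw [hN.out j l x hx, sub_self]
  have cb : ∀ l, Cn 4 (cComx.bb a j l) ε := fun l => cn_of_sq hε0 4 _ fun i hi x => hN.bd j l i hi x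
  -- the function `cc`
  have scc2 : Sm fun x => ∑ m : Fin 3, cComx.bb a j m x * dz m (zs k) x :=
    Sm.sum _ fun m _ => (sb m).mul ((sm_zs k).dz m)
  have hcc : ∀ l, cc a k j l = fun x => Zf k (cComx.bb a j l) x +
      -(if l = 2 then ∑ m : Fin 3, cComx.bb a j m x * dz m (zs k) x else 0) := by
    intro l
    funext x
    show Zf k (cComx.bb a j l) x - _ = _
    rw [sub_eq_add_neg]
    rfl
  have sif : ∀ l : Fin 3, Sm fun x => -(if l = 2 then ∑ m : Fin 3, cComx.bb a j m x * dz m (zs k) x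
      else 0) := by
    intro l
    by_cases hl : l = 2
    · simp only [hl, if_true]; exact scc2.neg
    · simp only [hl, if_false]; exact (Sm.const 0).neg
  have scc : ∀ l, Sm (cc a k j l) := fun l => by
    rw [hcc l]; exact ((sb l).Zf k).add (sif l)
  have ccc : ∀ l, Cn 3 (cc a k j l) (1000 * ε) := fun l => by
    rw [hcc l]
    have h1 := Cn.Zf (sb l) (cb l) k
    have h2 : Cn 3 (fun x => ∑ m : Fin 3, cComx.bb a j m x * dz m (zs k) x)
        (3 * (2 ^ 3 * (ε * (2 ^ 4 * 2)))) :=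
      Cn.sum3 (fun m => (sb m).mul ((sm_zs k).dz m)) fun m =>
        Cn.mul (sb m) ((sm_zs k).dz m) (cb m).down (Cn.dz (sm_zs k) (cn_zs 4 k) m)
    have h3 : Cn 3 (fun x => -(if l = 2 then ∑ m : Fin 3, cComx.bb a j m x * dz m (zs k) x
      else 0)) (3 * (2 ^ 3 * (ε * (2 ^ 4 * 2)))) := by
      by_cases hl : l = 2
      · simp only [hl, if_true]; exact h2.neg
      · simp only [hl, if_false]
        exact Cn.neg (Cn.zero.mono h2.nonneg)
    refine (Cn.add ((sb l).Zf k) (sif l) h1 h3).mono ?_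
    norm_num
    nlinarith
  have occ : ∀ x, 1 ≤ ‖x‖ → ∀ l, cc a k j l x = 0 := by
    intro x hx l
    rw [hcc l]
    have h1 : Zf k (cComx.bb a j l) x = 0 := Zf_out (sb l) (ob l) k hx
    simp only [h1, ob _ x hx, zero_mul, Finset.sum_const_zero, ite_self, neg_zero, add_zero]
  -- the function `dv`
  have sdv : Sm (dv a j) := Sm.dv haS j
  have odv : ∀ x, 1 ≤ ‖x‖ → dv a j x = 0 := by
    intro x hx
    rw [dv_eq haS j]
    refine Finset.sum_eq_zero fun l _ => ?_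
    have h1 : ∀ i, pd i (fun y => conj (cComx.bb a j l y)) x = 0 := fun i =>
      pd_out (sb l).conj (fun y hy => by rw [ob l y hy, map_zero]) i hx
    have h2 := db_le (M := 0) (fun i => by rw [h1 i, norm_zero]) l
    exact norm_le_zero_iff.mp h2
  have cdv : Cn 3 (dv a j) (48 * ε) := by
    rw [dv_eq haS j]
    refine (Cn.sum3 (M := 2 ^ 4 * ε) (fun l => (sb l).conj.db l) fun l =>
      Cn.db (sb l).conj (Cn.conj (sb l) (cb l)) l).mono (le_of_eq ?_)
    ring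
  have glob : ∀ (g : E5 → ℂ) (M : ℝ), 0 ≤ M → (∀ x, ‖x‖ ≤ 1 → ‖g x‖ ≤ M) →
      (∀ x, 1 ≤ ‖x‖ → g x = 0) → ∀ x, ‖g x‖ ≤ M := by
    intro g M hM h1 h2 x
    by_cases hx : ‖x‖ ≤ 1
    · exact h1 x hx
    · rw [h2 x (le_of_lt (not_le.mp hx)), norm_zero]; exact hM
  have oZdv : ∀ x, 1 ≤ ‖x‖ → Zf k (dv a j) x = 0 := fun x hx => Zf_out sdv odv k hx
  refine ⟨scc, sdv.Zf k, fun x hx => ⟨occ x hx, oZdv x hx⟩, fun l => ?_, fun l => ?_, ?_, ?_⟩
  · exact glob _ _ (by positivity) (fun x hx => ((ccc l).bd x hx).trans (by nlinarith))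
      (fun x hx => occ x hx l)
  · exact glob _ _ (by positivity)
      (fun x hx => ((Cn.Zf (scc l) (ccc l) m).bd x hx).trans (by norm_num; nlinarith))
      (fun x hx => Zf_out (scc l) (fun y hy => occ y hy l) m hx)
  · exact glob _ _ (by positivity)
      (fun x hx => ((Cn.Zf sdv cdv k).bd x hx).trans (by norm_num; nlinarith)) oZdv
  · exact glob _ _ (by positivity)
      (fun x hx => ((Cn.Zf (sdv.Zf k) (Cn.Zf sdv cdv k) m).bd x hx).trans (by norm_num; nlinarith))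
      (fun x hx => Zf_out (sdv.Zf k) oZdv m hx)

end Pool.Agent.CR5
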