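import Pool.Agent.Lib.CR5.SpecDa

/-!
# CR5, block D: formulas for the commutators with the right invariant fields (helper25)
-/

open MeasureTheory Set Filter Topology
open scoped ENNReal ComplexConjugate

noncomputable section

namespace Pool.Agent.CR5

namespace aCfx

theorem smz (k : Fin 5) : Sm (fun y => ((zco k y : ℝ) : ℂ)) := Sm.ofReal (contDiff_zco k)

theorem Zf_add {f g : E5 → ℂ} (hf : Sm f) (hg : Sm g) (k : Fin 5) (x : E5) :
    Zf k (fun y => f y + g y) x = Zf k f x + Zf k g x := by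
  simp only [Zf, pd_add hf hg]
  ring

theorem Zf_sub {f g : E5 → ℂ} (hf : Sm f) (hg : Sm g) (k : Fin 5) (x : E5) :
    Zf k (fun y => f y - g y) x = Zf k f x - Zf k g x := by
  simp only [Zf, pd_sub hf hg]
  ring

theorem Zf_neg (f : E5 → ℂ) (k : Fin 5) (x : E5) :
    Zf k (fun y => -f y) x = -Zf k f x := by
  simp only [Zf, pd_neg]
  ring

theorem Zf_mul {f g : E5 → ℂ} (hf : Sm f) (hg : Sm g) (k : Fin 5) (x : E5) :
    Zf k (fun y => f y * g y) x = f x * Zf k g x + Zf k f x * g x := by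
  simp only [Zf, pd_mul hf hg]
  ring

theorem Zf_sum {ι : Type*} (s : Finset ι) {f : ι → E5 → ℂ} (hf : ∀ i ∈ s, Sm (f i))
    (k : Fin 5) (x : E5) : Zf k (fun y => ∑ i ∈ s, f i y) x = ∑ i ∈ s, Zf k (f i) x := by
  simp only [Zf, pd_sum s hf, Finset.mul_sum, Finset.sum_add_distrib]

theorem Zf_conj {f : E5 → ℂ} (hf : Sm f) (k : Fin 5) (x : E5) :
    Zf k (fun y => conj (f y)) x = conj (Zf k f x) := by
  simp only [Zf, pd_conj hf, map_add, map_mul, Complex.conj_ofReal]

/-- the commutator of `Z_k` and `dz l` -/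
theorem Zf_dz {f : E5 → ℂ} (hf : Sm f) (k : Fin 5) (l : Fin 3) (x : E5) :
    Zf k (dz l f) x = dz l (Zf k f) x - dz l (fun y => ((zco k y : ℝ) : ℂ)) x * pd 4 f x := by
  have h1 : dz l (Zf k f) x = dz l (pd k f) x + (((zco k x : ℝ) : ℂ) * dz l (pd 4 f) x
      + dz l (fun y => ((zco k y : ℝ) : ℂ)) x * pd 4 f x) := by
    have h2 : Zf k f = fun y => pd k f y + ((zco k y : ℝ) : ℂ) * pd 4 f y := rfl
    rw [h2, dz_add (hf.pd k) ((smz k).mul (hf.pd 4)), dz_mul (smz k) (hf.pd 4)]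
  rw [h1]
  show pd k (dz l f) x + ((zco k x : ℝ) : ℂ) * pd 4 (dz l f) x = _
  rw [pd_dz hf k l, pd_dz hf 4 l]
  ring

theorem Sm.bb {a : Str} (ha : SmS a) (j : Fin 2) (l : Fin 3) : Sm (bb a j l) :=
  (ha j l).sub (smS_a0 j l)

theorem L_split {a : Str} (j : Fin 2) (f : E5 → ℂ) (x : E5) :
    L a j f x = L a0 j f x + ∑ l, bb a j l x * dz l f x := by
  simp only [L, bb, Fin.sum_univ_three]
  ring

theorem cL_eq (hC : S_cCom0) {a : Str} (ha : SmS a) (k : Fin 5) (j : Fin 2) {f : E5 → ℂ}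
    (hf : Sm f) (x : E5) : zcL a k j f x = ∑ l, cc a k j l x * dz l f x := by
  have e1 : L a j f = fun y => L a0 j f y + ∑ l, bb a j l y * dz l f y := by
    funext y
    exact L_split j f y
  have s1 : ∀ l, Sm fun y => bb a j l y * dz l f y := fun l => (Sm.bb ha j l).mul (hf.dz l)
  have e2 : Zf k (L a j f) x = Zf k (L a0 j f) x +
      ∑ l, (bb a j l x * Zf k (dz l f) x + Zf k (bb a j l) x * dz l f x) := by
    rw [e1, Zf_add (hf.L smS_a0 j) (Sm.sum _ fun l _ => s1 l), Zf_sum _ fun l _ => s1 l]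
    congr 1
    exact Finset.sum_congr rfl fun l _ => Zf_mul (Sm.bb ha j l) (hf.dz l) k x
  unfold zcL
  rw [e2, L_split j (Zf k f) x, (hC f hf j k x).1]
  simp only [Zf_dz hf, cc, Fin.sum_univ_three, dz_two]
  have h0 : ((0 : Fin 3) = 2) = False := by simp
  have h1 : ((1 : Fin 3) = 2) = False := by simp
  simp only [h0, h1, if_false, if_true]
  ring

theorem Lb_conj {a : Str} {f : E5 → ℂ} (hf : Sm f) (j : Fin 2) :
    Lb a j f = fun y => conj (L a j (fun z => conj (f z)) y) := by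
  funext y
  rw [conj_L hf.conj]
  simp only [Complex.conj_conj]

end aCfx

open aCfx in
/-- **aCf** -/
theorem paCf : S_cCom0 → S_aCf := by
  intro hC a ha k j f hf x
  refine ⟨cL_eq hC ha k j hf x, ?_⟩
  have e1 : Ls a j f = fun y => -Lb a j f y - dv a j y * f y := by
    funext y
    exact Ls_eq ha hf j y
  have s1 : Sm fun y => -Lb a j f y := (hf.Lb ha j).neg
  have s2 : Sm fun y => dv a j y * f y := (Sm.dv ha j).mul hf
  have e2 : Zf k (Ls a j f) x = -Zf k (Lb a j f) x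
      - (dv a j x * Zf k f x + Zf k (dv a j) x * f x) := by
    rw [e1, Zf_sub s1 s2, Zf_neg, Zf_mul (Sm.dv ha j) hf]
  have e3 : Zf k (Lb a j f) x = conj (Zf k (L a j (fun z => conj (f z))) x) := by
    rw [Lb_conj hf j, Zf_conj (hf.conj.L ha j)]
  have e4 : Lb a j (Zf k f) x = conj (L a j (Zf k (fun z => conj (f z))) x) := by
    rw [Lb_conj (hf.Zf k) j]
    have e5 : (fun z => conj (Zf k f z)) = Zf k (fun z => conj (f z)) := by
      funext z
      rw [Zf_conj hf]
    simp only [e5]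
  have e6 : Zf k (Lb a j f) x - Lb a j (Zf k f) x = ∑ l, conj (cc a k j l x) * db l f x := by
    have e7 := cL_eq hC ha k j hf.conj x
    rw [e3, e4, ← map_sub]
    have e8 : Zf k (L a j (fun z => conj (f z))) x - L a j (Zf k (fun z => conj (f z))) x
        = ∑ l, cc a k j l x * dz l (fun z => conj (f z)) x := e7
    rw [e8, map_sum]
    refine Finset.sum_congr rfl fun l _ => ?_
    rw [map_mul, dz_conj hf, Complex.conj_conj]
  unfold zcS
  rw [e2, Ls_eq ha (hf.Zf k), ← e6]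
  ring

end Pool.Agent.CR5
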