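import Pool.Agent.Lib.CR5.SpecDa

/-!
# CR5, block D (a): pointwise bounds of the commutators (helper84)
-/

open MeasureTheory Set Filter Topology
open scoped ENNReal ComplexConjugate

noncomputable section

namespace Pool.Agent.CR5

namespace aCmx

/-- the coefficient of the right invariant field as a complex function -/
def zs (k : Fin 5) : E5 → ℂ := fun x => (zco k x : ℂ)

theorem sm_zs (k : Fin 5) : Sm (zs k) := Sm.ofReal (contDiff_zco k)

theorem Zf_eq (k : Fin 5) (f : E5 → ℂ) (x : E5) : Zf k f x = pd k f x + zs k x * pd 4 f x := rfl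

theorem Zf_add {f g : E5 → ℂ} (hf : Sm f) (hg : Sm g) (k : Fin 5) (x : E5) :
    Zf k (fun y => f y + g y) x = Zf k f x + Zf k g x := by
  simp only [Zf_eq, pd_add hf hg]; ring

theorem Zf_sub {f g : E5 → ℂ} (hf : Sm f) (hg : Sm g) (k : Fin 5) (x : E5) :
    Zf k (fun y => f y - g y) x = Zf k f x - Zf k g x := by
  simp only [Zf_eq, pd_sub hf hg]; ring

theorem Zf_neg (f : E5 → ℂ) (k : Fin 5) (x : E5) :
    Zf k (fun y => -f y) x = -Zf k f x := by
  simp only [Zf_eq, pd_neg]; ring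

theorem Zf_mul {f g : E5 → ℂ} (hf : Sm f) (hg : Sm g) (k : Fin 5) (x : E5) :
    Zf k (fun y => f y * g y) x = f x * Zf k g x + Zf k f x * g x := by
  simp only [Zf_eq, pd_mul hf hg]; ring

theorem Zf_conj {f : E5 → ℂ} (hf : Sm f) (k : Fin 5) (x : E5) :
    Zf k (fun y => conj (f y)) x = conj (Zf k f x) := by
  simp only [Zf_eq, pd_conj hf, map_add, map_mul]
  congr 2
  unfold zs
  rw [Complex.conj_ofReal]

theorem Zf_sum {ι : Type*} (s : Finset ι) {f : ι → E5 → ℂ} (hf : ∀ k ∈ s, Sm (f k))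
    (i : Fin 5) (x : E5) :
    Zf i (fun y => ∑ k ∈ s, f k y) x = ∑ k ∈ s, Zf i (f k) x := by
  simp only [Zf_eq, pd_sum s hf, Finset.mul_sum, Finset.sum_add_distrib]

theorem Zf_dz {f : E5 → ℂ} (hf : Sm f) (k : Fin 5) (l : Fin 3) (x : E5) :
    Zf k (dz l f) x = dz l (Zf k f) x - dz l (zs k) x * pd 4 f x := by
  have e : Zf k f = fun y => pd k f y + zs k y * pd 4 f y := rfl
  rw [e, dz_add (hf.pd k) ((sm_zs k).mul (hf.pd 4)), dz_mul (sm_zs k) (hf.pd 4), Zf_eq,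
    pd_dz hf, pd_dz hf]
  ring

theorem Zf_db {f : E5 → ℂ} (hf : Sm f) (k : Fin 5) (l : Fin 3) (x : E5) :
    Zf k (db l f) x = db l (Zf k f) x - db l (zs k) x * pd 4 f x := by
  have e : Zf k f = fun y => pd k f y + zs k y * pd 4 f y := rfl
  rw [e, db_add (hf.pd k) ((sm_zs k).mul (hf.pd 4)), db_mul (sm_zs k) (hf.pd 4), Zf_eq,
    pd_db hf, pd_db hf]
  ring

/-! ### vanishing outside the unit ball -/

theorem pd_out {g : E5 → ℂ} (hg : Sm g) (h : ∀ x, 1 ≤ ‖x‖ → g x = 0) (i : Fin 5) {x : E5}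
    (hx : 1 ≤ ‖x‖) : pd i g x = 0 := by
  have h1 : ∀ y : E5, y ∈ (Metric.closedBall (0 : E5) 1)ᶜ → pd i g y = 0 := by
    intro y hy
    have ho : (Metric.closedBall (0 : E5) 1)ᶜ ∈ 𝓝 y :=
      Metric.isClosed_closedBall.isOpen_compl.mem_nhds hy
    have he : g =ᶠ[𝓝 y] fun _ => (0 : ℂ) := by
      filter_upwards [ho] with z hz
      have hz' : ¬ dist z 0 ≤ 1 := hz
      rw [dist_zero_right] at hz'
      exact h z (by linarith)
    unfold pd
    rw [he.fderiv_eq]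
    simp
  have h2 : IsClosed {y : E5 | pd i g y = 0} := isClosed_eq (hg.pd i).cont continuous_const
  have h3 : closure (Metric.closedBall (0 : E5) 1)ᶜ ⊆ {y : E5 | pd i g y = 0} :=
    closure_minimal h1 h2
  rw [closure_compl, interior_closedBall (0 : E5) one_ne_zero] at h3
  apply h3
  intro hx'
  have hx'' : dist x 0 < 1 := hx'
  rw [dist_zero_right] at hx''
  linarith

theorem Zf_out {g : E5 → ℂ} (hg : Sm g) (h : ∀ x, 1 ≤ ‖x‖ → g x = 0) (k : Fin 5) {x : E5}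
    (hx : 1 ≤ ‖x‖) : Zf k g x = 0 := by
  rw [Zf_eq, pd_out hg h k hx, pd_out hg h 4 hx, mul_zero, add_zero]

/-! ### coordinates -/

theorem pd_coord (i k : Fin 5) (x : E5) :
    pd i (fun y : E5 => ((y k : ℝ) : ℂ)) x = if k = i then 1 else 0 := by
  have h : HasFDerivAt (fun y : E5 => ((y k : ℝ) : ℂ))
      (Complex.ofRealCLM.comp (EuclideanSpace.proj k : E5 →L[ℝ] ℝ)) x :=
    (Complex.ofRealCLM.comp (EuclideanSpace.proj k : E5 →L[ℝ] ℝ)).hasFDerivAt
  unfold pd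
  rw [h.fderiv]
  by_cases hk : k = i
  · subst hk
    simp [e5]
  · simp [e5, hk]

theorem pd_zs_le (i k : Fin 5) (x : E5) : ‖pd i (zs k) x‖ ≤ 2 := by
  have key : ∀ (c : ℝ) (m : Fin 5), |c| ≤ 2 → zs k = (fun y => (c : ℂ) * ((y m : ℝ) : ℂ)) →
      ‖pd i (zs k) x‖ ≤ 2 := by
    intro c m hc he
    rw [he, pd_const_mul (Sm.coord m), pd_coord]
    split_ifs
    · rw [mul_one, Complex.norm_real]
      exact hc
    · simp
  fin_cases k
  · exact key (-2) 1 (by norm_num) (by funext y; simp [zs, zco])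
  · exact key 2 0 (by norm_num) (by funext y; simp [zs, zco])
  · exact key (-2) 3 (by norm_num) (by funext y; simp [zs, zco])
  · exact key 2 2 (by norm_num) (by funext y; simp [zs, zco])
  · exact key 0 0 (by norm_num) (by funext y; simp [zs, zco])

theorem dz_le {g : E5 → ℂ} {x : E5} {M : ℝ} (h : ∀ i, ‖pd i g x‖ ≤ M) (l : Fin 3) :
    ‖dz l g x‖ ≤ M := by
  have key : ∀ i k : Fin 5, ‖(pd i g x - Complex.I * pd k g x) / 2‖ ≤ M := by
    intro i k
    rw [norm_div]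
    have h1 := norm_sub_le (pd i g x) (Complex.I * pd k g x)
    rw [norm_mul, Complex.norm_I, one_mul] at h1
    have h2 := h i
    have h3 := h k
    have h4 : ‖(2 : ℂ)‖ = 2 := by simp
    rw [h4]
    linarith
  rcases fin3_cases l with rfl | rfl | rfl
  · rw [dz_zero]; exact key 0 1
  · rw [dz_one]; exact key 2 3
  · rw [dz_two]; exact h 4

theorem db_le {g : E5 → ℂ} {x : E5} {M : ℝ} (h : ∀ i, ‖pd i g x‖ ≤ M) (l : Fin 3) :
    ‖db l g x‖ ≤ M := by
  have key : ∀ i k : Fin 5, ‖(pd i g x + Complex.I * pd k g x) / 2‖ ≤ M := by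
    intro i k
    rw [norm_div]
    have h1 := norm_add_le (pd i g x) (Complex.I * pd k g x)
    rw [norm_mul, Complex.norm_I, one_mul] at h1
    have h2 := h i
    have h3 := h k
    have h4 : ‖(2 : ℂ)‖ = 2 := by simp
    rw [h4]
    linarith
  rcases fin3_cases l with rfl | rfl | rfl
  · rw [db_zero]; exact key 0 1
  · rw [db_one]; exact key 2 3
  · rw [db_two]; exact h 4

/-! ### sums of first order terms -/

theorem sZ_nonneg (f : E5 → ℂ) (x : E5) : 0 ≤ sZ f x := Finset.sum_nonneg fun _ _ => norm_nonneg _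

theorem Zf_le_sZ (f : E5 → ℂ) (m : Fin 5) (x : E5) : ‖Zf m f x‖ ≤ sZ f x :=
  Finset.single_le_sum (f := fun k => ‖Zf k f x‖) (fun _ _ => norm_nonneg _) (Finset.mem_univ m)

theorem sZ2_nonneg (f : E5 → ℂ) (x : E5) : 0 ≤ sZ2 f x :=
  Finset.sum_nonneg fun _ _ => Finset.sum_nonneg fun _ _ => norm_nonneg _

theorem sZ_Zf_le (f : E5 → ℂ) (m : Fin 5) (x : E5) : sZ (Zf m f) x ≤ sZ2 f x := by
  unfold sZ sZ2
  refine Finset.sum_le_sum fun k _ => ?_
  exact Finset.single_le_sum (f := fun l => ‖Zf k (Zf l f) x‖) (fun _ _ => norm_nonneg _)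
    (Finset.mem_univ m)

/-- a sum of three terms -/
theorem sum3_le {M : ℝ} {t : Fin 3 → ℂ} (h : ∀ l, ‖t l‖ ≤ M) : ‖∑ l, t l‖ ≤ 3 * M := by
  refine (norm_sum_le _ _).trans ?_
  refine (Finset.sum_le_sum fun l _ => h l).trans ?_
  simp only [Finset.sum_const, Finset.card_univ, Fintype.card_fin, nsmul_eq_mul]
  norm_num

/-- zero order bound of a first order term -/
theorem t0 {c g : ℂ} {M s : ℝ} (hM : 0 ≤ M) (hc : ‖c‖ ≤ M) (hg : ‖g‖ ≤ 2 * s) :
    ‖c * g‖ ≤ 2 * M * s := by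
  rw [norm_mul]
  have := mul_le_mul hc hg (norm_nonneg _) hM
  linarith

theorem t1z (hZ : S_cZ) {c f : E5 → ℂ} (hc : Sm c) (hf : Sm f) {x : E5} (hx : ‖x‖ ≤ 1) {M : ℝ}
    (hM : 0 ≤ M) (m : Fin 5) (l : Fin 3) (h0 : ‖c x‖ ≤ M) (h1 : ‖Zf m c x‖ ≤ M) :
    ‖Zf m (fun y => c y * dz l f y) x‖ ≤ 6 * M * (sZ f x + sZ2 f x) := by
  rw [Zf_mul hc (hf.dz l), Zf_dz hf]
  obtain ⟨g1, g2, -⟩ := hZ f x hx
  obtain ⟨-, k2, -⟩ := hZ (Zf m f) x hx
  have a1 : ‖dz l (zs m) x * pd 4 f x‖ ≤ 2 * (2 * sZ f x) := by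
    rw [norm_mul]
    exact mul_le_mul (dz_le (fun i => pd_zs_le i m x) l) (g1 4) (norm_nonneg _) (by norm_num)
  have a2 : ‖dz l (Zf m f) x - dz l (zs m) x * pd 4 f x‖ ≤ 2 * (sZ2 f x + 2 * sZ f x) := by
    refine (norm_sub_le _ _).trans ?_
    have := k2 l
    have := sZ_Zf_le f m x
    linarith
  have a3 := t0 hM h0 a2
  have a4 := t0 hM h1 (g2 l)
  refine (norm_add_le _ _).trans ?_
  have s1 := mul_nonneg hM (sZ_nonneg f x)
  have s2 := mul_nonneg hM (sZ2_nonneg f x)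
  nlinarith

theorem t1b (hZ : S_cZ) {c f : E5 → ℂ} (hc : Sm c) (hf : Sm f) {x : E5} (hx : ‖x‖ ≤ 1) {M : ℝ}
    (hM : 0 ≤ M) (m : Fin 5) (l : Fin 3) (h0 : ‖c x‖ ≤ M) (h1 : ‖Zf m c x‖ ≤ M) :
    ‖Zf m (fun y => c y * db l f y) x‖ ≤ 6 * M * (sZ f x + sZ2 f x) := by
  rw [Zf_mul hc (hf.db l), Zf_db hf]
  obtain ⟨g1, -, g2⟩ := hZ f x hx
  obtain ⟨-, -, k2⟩ := hZ (Zf m f) x hx
  have a1 : ‖db l (zs m) x * pd 4 f x‖ ≤ 2 * (2 * sZ f x) := by
    rw [norm_mul]
    exact mul_le_mul (db_le (fun i => pd_zs_le i m x) l) (g1 4) (norm_nonneg _) (by norm_num)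
  have a2 : ‖db l (Zf m f) x - db l (zs m) x * pd 4 f x‖ ≤ 2 * (sZ2 f x + 2 * sZ f x) := by
    refine (norm_sub_le _ _).trans ?_
    have := k2 l
    have := sZ_Zf_le f m x
    linarith
  have a3 := t0 hM h0 a2
  have a4 := t0 hM h1 (g2 l)
  refine (norm_add_le _ _).trans ?_
  have s1 := mul_nonneg hM (sZ_nonneg f x)
  have s2 := mul_nonneg hM (sZ2_nonneg f x)
  nlinarith

end aCmx

open aCmx in
theorem paCm (h1 : S_cZ) (h2 : S_aCf) (h3 : S_aCb) : S_aCm := by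
  obtain ⟨C, hC, hb⟩ := h3
  refine ⟨20 * C, by positivity, fun a ε hε0 hε1 hN f hf k m j => ?_⟩
  have ha : SmS a := hN.sm
  obtain ⟨s1, s2, s3, s4, s5, s6, s7⟩ := hb a ε hε0 hε1 hN k m j
  have eL : zcL a k j f = fun x => ∑ l, cc a k j l x * dz l f x := by
    funext x
    exact (h2 a ha k j f hf x).1
  have eS : zcS a k j f = fun x =>
      -(∑ l, conj (cc a k j l x) * db l f x) - Zf k (dv a j) x * f x := by
    funext x
    exact (h2 a ha k j f hf x).2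
  have smt : ∀ l, Sm fun x => cc a k j l x * dz l f x := fun l => (s1 l).mul (hf.dz l)
  have smb : ∀ l, Sm fun x => conj (cc a k j l x) * db l f x := fun l =>
    (s1 l).conj.mul (hf.db l)
  have smd : Sm fun x => Zf k (dv a j) x * f x := s2.mul hf
  have smL : Sm (zcL a k j f) := by
    rw [eL]
    exact Sm.sum _ fun l _ => smt l
  have smS : Sm (zcS a k j f) := by
    rw [eS]
    exact (Sm.sum _ fun l _ => smb l).neg.sub smd
  have oL : ∀ x, 1 ≤ ‖x‖ → zcL a k j f x = 0 := by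
    intro x hx
    rw [eL]
    refine Finset.sum_eq_zero fun l _ => ?_
    rw [(s3 x hx).1 l, zero_mul]
  have oS : ∀ x, 1 ≤ ‖x‖ → zcS a k j f x = 0 := by
    intro x hx
    rw [eS]
    show -(∑ l, conj (cc a k j l x) * db l f x) - Zf k (dv a j) x * f x = 0
    rw [(s3 x hx).2, Finset.sum_eq_zero]
    · simp
    · intro l _
      rw [(s3 x hx).1 l, map_zero, zero_mul]
  refine ⟨smL, smS, fun x hx => ⟨oL x hx, oS x hx, Zf_out smL oL m hx, Zf_out smS oS m hx⟩, ?_⟩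
  intro x hx
  have hx' : ‖x‖ ≤ 1 := hx.le
  obtain ⟨-, g2, g3⟩ := h1 f x hx'
  have hM : 0 ≤ C * ε := mul_nonneg hC.le hε0
  have p1 := sZ_nonneg f x
  have p2 := sZ2_nonneg f x
  have p3 := norm_nonneg (f x)
  have q1 := mul_nonneg hM p1
  have q2 := mul_nonneg hM p2
  have q3 := mul_nonneg hM p3
  refine ⟨?_, ?_, ?_, ?_⟩
  · rw [eL]
    have := sum3_le (fun l => t0 hM (s4 l x) (g2 l))
    refine this.trans ?_
    nlinarith
  · rw [eS]
    show ‖-(∑ l, conj (cc a k j l x) * db l f x) - Zf k (dv a j) x * f x‖ ≤ _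
    refine (norm_sub_le _ _).trans ?_
    rw [norm_neg, norm_mul]
    have t1 : ∀ l, ‖conj (cc a k j l x) * db l f x‖ ≤ 2 * (C * ε) * sZ f x := fun l =>
      t0 hM (by rw [RCLike.norm_conj]; exact s4 l x) (g3 l)
    have t2 := sum3_le t1
    have t3 := mul_le_mul_of_nonneg_right (s6 x) p3
    nlinarith
  · rw [eL, Zf_sum _ (fun l _ => smt l)]
    have := sum3_le (fun l => t1z h1 (s1 l) hf hx' hM m l (s4 l x) (s5 l x))
    refine this.trans ?_
    nlinarith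
  · rw [eS, Zf_sub (Sm.sum _ fun l _ => smb l).neg smd, Zf_neg, Zf_sum _ (fun l _ => smb l),
      Zf_mul s2 hf]
    refine (norm_sub_le _ _).trans ?_
    rw [norm_neg]
    have t1 : ∀ l, ‖Zf m (fun y => conj (cc a k j l y) * db l f y) x‖
        ≤ 6 * (C * ε) * (sZ f x + sZ2 f x) := fun l =>
      t1b h1 (s1 l).conj hf hx' hM m l (by rw [RCLike.norm_conj]; exact s4 l x)
        (by rw [Zf_conj (s1 l), RCLike.norm_conj]; exact s5 l x)
    have t2 := sum3_le t1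
    have t3 : ‖Zf k (dv a j) x * Zf m f x + Zf m (Zf k (dv a j)) x * f x‖
        ≤ C * ε * sZ f x + C * ε * ‖f x‖ := by
      refine (norm_add_le _ _).trans ?_
      rw [norm_mul, norm_mul]
      exact add_le_add (mul_le_mul (s6 x) (Zf_le_sZ f m x) (norm_nonneg _) hM)
        (mul_le_mul_of_nonneg_right (s7 x) p3)
    nlinarith

end Pool.Agent.CR5
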