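import Pool.Agent.Lib.CR5.SpecDa

/-!
# CR5, block D, aE1: the energy identity with a cutoff
-/

open MeasureTheory Set Filter Topology
open scoped ENNReal ComplexConjugate

noncomputable section

namespace Pool.Agent.CR5

namespace aE1x

theorem nint {f : E5 → ℂ} (h : Tst f) : Integrable (fun x => ‖f x‖ ^ 2) volume := by
  have h1 : Continuous fun x => ‖f x‖ ^ 2 := (h.sm.cont.norm).pow 2
  have h2 : HasCompactSupport fun x => ‖f x‖ ^ 2 :=
    h.cs.comp_left (g := fun z : ℂ => ‖z‖ ^ 2) (by simp)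
  exact h1.integrable_of_hasCompactSupport h2

theorem re1 (A P : ℂ) : ((A + P) * conj (A - P)).re = ‖A‖ ^ 2 - ‖P‖ ^ 2 := by
  rw [← Complex.normSq_eq_norm_sq, ← Complex.normSq_eq_norm_sq, Complex.normSq_apply,
    Complex.normSq_apply, Complex.mul_re, Complex.conj_re, Complex.conj_im, Complex.add_re,
    Complex.add_im, Complex.sub_re, Complex.sub_im]
  ring

theorem part {A P : E5 → ℂ} (hA : Tst A) (hP : Tst P) :
    (∫ x, (A x + P x) * conj (A x - P x)).re = (∫ x, ‖A x‖ ^ 2) - ∫ x, ‖P x‖ ^ 2 := by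
  have h1 : Integrable (fun x => (A x + P x) * conj (A x - P x)) volume :=
    (Tst.mul_right (hA.add hP) (hA.sub hP).conj.sm).integrable
  have h2 := integral_re (𝕜 := ℂ) h1
  have h3 : (∫ x, (A x + P x) * conj (A x - P x)).re =
      ∫ x, ((A x + P x) * conj (A x - P x)).re := h2.symm
  rw [h3]
  simp only [re1]
  exact integral_sub (nint hA) (nint hP)

variable {a : Str}

/-- the adjoint of `Ls` -/
theorem ibp_s (ha : SmS a) (j : Fin 2) {G v : E5 → ℂ} (hG : Sm G) (hv : Tst v) :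
    ∫ x, Ls a j G x * conj (v x) = ∫ x, G x * conj (L a j v x) := by
  have h1 := ibp_L' ha j hv hG
  have h2 : ∫ x, conj (L a j v x * conj (G x)) = ∫ x, conj (v x * conj (Ls a j G x)) := by
    rw [integral_conj, integral_conj, h1]
  have e1 : ∀ x, conj (L a j v x * conj (G x)) = G x * conj (L a j v x) := by
    intro x
    rw [map_mul, Complex.conj_conj]; ring
  have e2 : ∀ x, conj (v x * conj (Ls a j G x)) = Ls a j G x * conj (v x) := by
    intro x
    rw [map_mul, Complex.conj_conj]; ring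
  simp only [e1, e2] at h2
  exact h2.symm

end aE1x

open aE1x in
/-- **aE1** The energy identity with a cutoff. -/
theorem paE1 : S_aE1 := by
  intro a ha χ hχ hχr u hu
  obtain ⟨F, hF⟩ : ∃ F : E5 → ℂ, F = D0s a u := ⟨_, rfl⟩
  obtain ⟨G, hG⟩ : ∃ G : E5 → ℂ, G = D1 a u := ⟨_, rfl⟩
  have sF : Sm F := by rw [hF]; exact Sm.D0s ha hu
  have sG : Sm G := by rw [hG]; exact Sm.D1 ha hu
  -- the pairs `χ u` and `χ² u`
  have tu : ∀ j, Tst (fun x => χ x * u j x) := fun j => Tst.mul_right hχ (hu j)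
  have tv : ∀ j, Tst (fun x => χ x * (χ x * u j x)) := fun j => Tst.mul_right hχ (tu j).sm
  obtain ⟨A, hA⟩ : ∃ A : E5 → ℂ, A = D0s a (fun j y => χ y * u j y) := ⟨_, rfl⟩
  obtain ⟨B, hB⟩ : ∃ B : E5 → ℂ, B = D1 a (fun j y => χ y * u j y) := ⟨_, rfl⟩
  obtain ⟨P, hP⟩ : ∃ P : E5 → ℂ, P = fun x => Lb a 0 χ x * u 0 x + Lb a 1 χ x * u 1 x := ⟨_, rfl⟩
  obtain ⟨Q, hQ⟩ : ∃ Q : E5 → ℂ, Q = fun x => L a 0 χ x * u 1 x - L a 1 χ x * u 0 x := ⟨_, rfl⟩
  have tA : Tst A := by
    rw [hA]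
    exact ((tu 0).Ls ha 0).add ((tu 1).Ls ha 1)
  have tB : Tst B := by
    rw [hB]
    exact ((tu 1).L ha 0).sub ((tu 0).L ha 1)
  have tP : Tst P := by
    rw [hP]
    exact (Tst.mul_right (hχ.Lb ha 0) (hu 0)).add (Tst.mul_right (hχ.Lb ha 1) (hu 1))
  have tQ : Tst Q := by
    rw [hQ]
    exact (Tst.mul_right (hχ.L ha 0) (hu 1)).sub (Tst.mul_right (hχ.L ha 1) (hu 0))
  -- pointwise identities
  have eA : ∀ x, A x = χ x * F x - P x := by
    intro x
    rw [hA, hF, hP]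
    show Ls a 0 (fun y => χ y * u 0 y) x + Ls a 1 (fun y => χ y * u 1 y) x =
      χ x * (Ls a 0 (u 0) x + Ls a 1 (u 1) x) - (Lb a 0 χ x * u 0 x + Lb a 1 χ x * u 1 x)
    rw [Ls_mul ha hχ.sm (hu 0), Ls_mul ha hχ.sm (hu 1)]
    ring
  have eB : ∀ x, B x = χ x * G x + Q x := by
    intro x
    rw [hB, hG, hQ]
    show L a 0 (fun y => χ y * u 1 y) x - L a 1 (fun y => χ y * u 0 y) x =
      χ x * (L a 0 (u 1) x - L a 1 (u 0) x) + (L a 0 χ x * u 1 x - L a 1 χ x * u 0 x)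
    rw [L_mul hχ.sm (hu 1), L_mul hχ.sm (hu 0)]
    ring
  have eV : ∀ x, Ls a 0 (fun y => χ y * (χ y * u 0 y)) x + Ls a 1 (fun y => χ y * (χ y * u 1 y)) x
      = χ x * (A x - P x) := by
    intro x
    rw [Ls_mul ha hχ.sm (tu 0).sm, Ls_mul ha hχ.sm (tu 1).sm]
    have h1 : A x = Ls a 0 (fun y => χ y * u 0 y) x + Ls a 1 (fun y => χ y * u 1 y) x := by
      rw [hA]; rfl
    have h2 : P x = Lb a 0 χ x * u 0 x + Lb a 1 χ x * u 1 x := by rw [hP]
    rw [h1, h2]
    ring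
  have eW : ∀ x, L a 0 (fun y => χ y * (χ y * u 1 y)) x - L a 1 (fun y => χ y * (χ y * u 0 y)) x
      = χ x * (B x + Q x) := by
    intro x
    rw [L_mul hχ.sm (tu 1).sm, L_mul hχ.sm (tu 0).sm]
    have h1 : B x = L a 0 (fun y => χ y * u 1 y) x - L a 1 (fun y => χ y * u 0 y) x := by
      rw [hB]; rfl
    have h2 : Q x = L a 0 χ x * u 1 x - L a 1 χ x * u 0 x := by rw [hQ]
    rw [h1, h2]
    ring
  -- the left side
  have b0 : ∀ x, Box a u 0 x = L a 0 F x - Ls a 1 G x := by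
    intro x
    rw [hF, hG]
    show D0 a (D0s a u) 0 x + D1s a (D1 a u) 0 x = _
    simp only [D0, D1s, if_true]
    ring
  have b1 : ∀ x, Box a u 1 x = L a 1 F x + Ls a 0 G x := by
    intro x
    rw [hF, hG]
    show D0 a (D0s a u) 1 x + D1s a (D1 a u) 1 x = _
    have : ((1 : Fin 2) = 0) = False := by simp
    simp only [D0, D1s, this, if_false]
  have i0 : ∫ x, Box a u 0 x * conj (χ x * (χ x * u 0 x)) =
      (∫ x, F x * conj (Ls a 0 (fun y => χ y * (χ y * u 0 y)) x)) -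
        ∫ x, G x * conj (L a 1 (fun y => χ y * (χ y * u 0 y)) x) := by
    rw [← ibp_L ha 0 sF (tv 0), ← ibp_s ha 1 sG (tv 0),
      ← integral_sub (Tst.mul_left (sF.L ha 0) (tv 0).conj).integrable
        (Tst.mul_left (sG.Ls ha 1) (tv 0).conj).integrable]
    refine integral_congr_ae (Eventually.of_forall fun x => ?_)
    show Box a u 0 x * _ = _
    rw [b0]; ring
  have i1 : ∫ x, Box a u 1 x * conj (χ x * (χ x * u 1 x)) =
      (∫ x, F x * conj (Ls a 1 (fun y => χ y * (χ y * u 1 y)) x)) +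
        ∫ x, G x * conj (L a 0 (fun y => χ y * (χ y * u 1 y)) x) := by
    rw [← ibp_L ha 1 sF (tv 1), ← ibp_s ha 0 sG (tv 1),
      ← integral_add (Tst.mul_left (sF.L ha 1) (tv 1).conj).integrable
        (Tst.mul_left (sG.Ls ha 0) (tv 1).conj).integrable]
    refine integral_congr_ae (Eventually.of_forall fun x => ?_)
    show Box a u 1 x * _ = _
    rw [b1]; ring
  have i2 : (∫ x, F x * conj (Ls a 0 (fun y => χ y * (χ y * u 0 y)) x)) +
      (∫ x, F x * conj (Ls a 1 (fun y => χ y * (χ y * u 1 y)) x)) =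
      ∫ x, (A x + P x) * conj (A x - P x) := by
    rw [← integral_add (Tst.mul_left sF ((tv 0).Ls ha 0).conj).integrable
      (Tst.mul_left sF ((tv 1).Ls ha 1).conj).integrable]
    refine integral_congr_ae (Eventually.of_forall fun x => ?_)
    show F x * conj (Ls a 0 (fun y => χ y * (χ y * u 0 y)) x) +
      F x * conj (Ls a 1 (fun y => χ y * (χ y * u 1 y)) x) = (A x + P x) * conj (A x - P x)
    have e6 : A x + P x = χ x * F x := by rw [eA]; ring
    rw [← mul_add, ← map_add, eV, map_mul, hχr, e6]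
    ring
  have i3 : (∫ x, G x * conj (L a 0 (fun y => χ y * (χ y * u 1 y)) x)) -
      (∫ x, G x * conj (L a 1 (fun y => χ y * (χ y * u 0 y)) x)) =
      ∫ x, (B x + -Q x) * conj (B x - -Q x) := by
    rw [← integral_sub (Tst.mul_left sG ((tv 1).L ha 0).conj).integrable
      (Tst.mul_left sG ((tv 0).L ha 1).conj).integrable]
    refine integral_congr_ae (Eventually.of_forall fun x => ?_)
    show G x * conj (L a 0 (fun y => χ y * (χ y * u 1 y)) x) -
      G x * conj (L a 1 (fun y => χ y * (χ y * u 0 y)) x) = (B x + -Q x) * conj (B x - -Q x)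
    have e6 : B x + -Q x = χ x * G x := by rw [eB]; ring
    rw [← mul_sub, ← map_sub, eW, map_mul, hχr, sub_neg_eq_add, e6]
    ring
  have tot : (∑ j : Fin 2, ∫ x, Box a u j x * conj (χ x * (χ x * u j x))) =
      (∫ x, (A x + P x) * conj (A x - P x)) + ∫ x, (B x + -Q x) * conj (B x - -Q x) := by
    rw [Fin.sum_univ_two, i0, i1, ← i2, ← i3]
    ring
  rw [tot, Complex.add_re, part tA tP, part tB tQ.neg]
  have e5' : ∫ x, ‖-Q x‖ ^ 2 = ∫ x, ‖Q x‖ ^ 2 := by simp only [norm_neg]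
  rw [e5', hA, hB, hP, hQ]
  ring

end Pool.Agent.CR5
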