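import Pool.Agent.Lib.CR5.SpecDa

/-!
# CR5, block D: the energy identity for `1 - d^2/dt^2` with a cutoff (statement `S_aE2`)
-/

open MeasureTheory Set Filter Topology
open scoped ENNReal ComplexConjugate

noncomputable section

namespace Pool.Agent.CR5

namespace aE2x

/-- the pointwise identity -/
theorem point {c d : ℂ} (u v : ℂ) (hc : conj c = c) (hd : conj d = d) :
    (u * conj (c * (c * u)) + v * conj (c * (c * v + d * u) + d * (c * u))).re
      = ‖c * u‖ ^ 2 + ‖c * v + d * u‖ ^ 2 - ‖d * u‖ ^ 2 := by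
  have h1 : c.im = 0 := Complex.conj_eq_iff_im.1 hc
  have h2 : d.im = 0 := Complex.conj_eq_iff_im.1 hd
  rw [Complex.sq_norm, Complex.sq_norm, Complex.sq_norm, Complex.normSq_apply,
    Complex.normSq_apply, Complex.normSq_apply]
  simp only [Complex.add_re, Complex.mul_re, Complex.conj_re, Complex.conj_im, Complex.add_im,
    Complex.mul_im, h1, h2]
  ring

end aE2x

open aE2x in
theorem paE2 : S_aE2 := by
  intro χ hχ hr u hu
  have hT : Tst (fun x => χ x * u x) := Tst.mul_right hχ hu
  have hg : Tst (fun x => χ x * (χ x * u x)) := Tst.mul_right hχ hT.sm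
  have hr' : ∀ x, conj (pd 4 χ x) = pd 4 χ x := by
    intro x
    have h := pd_conj hχ.sm 4 x
    have e : (fun y => conj (χ y)) = χ := by
      funext y
      exact hr y
    rw [e] at h
    exact h.symm
  have hd : Tst (fun x => pd 4 χ x * u x) := Tst.mul_right (Tst.pd hχ 4) hu
  have e1 : (∫ x, (u x - pd 4 (pd 4 u) x) * conj (χ x * (χ x * u x)))
      = ∫ x, (u x * conj (χ x * (χ x * u x))
        + pd 4 u x * conj (pd 4 (fun y => χ y * (χ y * u y)) x)) := by
    have hi := ibp_pd (hu.pd 4) hg.conj 4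
    have e2 : ∀ x, (u x - pd 4 (pd 4 u) x) * conj (χ x * (χ x * u x))
        = u x * conj (χ x * (χ x * u x)) - pd 4 (pd 4 u) x * conj (χ x * (χ x * u x)) := by
      intro x
      ring
    simp only [e2]
    have i1 : Integrable (fun x => u x * conj (χ x * (χ x * u x))) volume :=
      (Tst.mul_left hu hg.conj).integrable
    have i2 : Integrable (fun x => pd 4 (pd 4 u) x * conj (χ x * (χ x * u x))) volume :=
      (Tst.mul_left ((hu.pd 4).pd 4) hg.conj).integrable
    have i3 : Integrable (fun x => pd 4 u x * conj (pd 4 (fun y => χ y * (χ y * u y)) x))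
        volume := (Tst.mul_left (hu.pd 4) (hg.pd 4).conj).integrable
    rw [integral_sub i1 i2, integral_add i1 i3, hi]
    have e3 : ∀ x, pd 4 (fun y => conj (χ y * (χ y * u y))) x
        = conj (pd 4 (fun y => χ y * (χ y * u y)) x) := fun x => pd_conj hg.sm 4 x
    simp only [e3]
    ring
  have e4 : ∀ x, (u x * conj (χ x * (χ x * u x))
        + pd 4 u x * conj (pd 4 (fun y => χ y * (χ y * u y)) x)).re
      = ‖χ x * u x‖ ^ 2 + ‖pd 4 (fun y => χ y * u y) x‖ ^ 2 - ‖pd 4 χ x * u x‖ ^ 2 := by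
    intro x
    rw [pd_mul hχ.sm hT.sm, pd_mul hχ.sm hu]
    exact point (u x) (pd 4 u x) (hr x) (hr' x)
  have iF : Integrable (fun x => u x * conj (χ x * (χ x * u x))
        + pd 4 u x * conj (pd 4 (fun y => χ y * (χ y * u y)) x)) volume :=
    (Tst.add (Tst.mul_left hu hg.conj) (Tst.mul_left (hu.pd 4) (hg.pd 4).conj)).integrable
  have e5 : (∫ x, (u x * conj (χ x * (χ x * u x))
        + pd 4 u x * conj (pd 4 (fun y => χ y * (χ y * u y)) x))).re
      = ∫ x, (u x * conj (χ x * (χ x * u x))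
        + pd 4 u x * conj (pd 4 (fun y => χ y * (χ y * u y)) x)).re := by
    have := integral_re (𝕜 := ℂ) iF
    exact this.symm
  rw [e1, e5]
  simp only [e4]
  have sqi : ∀ {f : E5 → ℂ}, Tst f → Integrable (fun x => ‖f x‖ ^ 2) volume := by
    intro f hf
    exact (memLp_two_iff_integrable_sq_norm hf.memLp.1).1 hf.memLp
  have j1 := sqi hT
  have j2 := sqi (hT.pd 4)
  have j3 := sqi hd
  have j4 : Integrable (fun x => ‖χ x * u x‖ ^ 2 + ‖pd 4 (fun y => χ y * u y) x‖ ^ 2) volume :=
    j1.add j2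
  rw [integral_sub j4 j3, integral_add j1 j2]

end Pool.Agent.CR5
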