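import Pool.Agent.Lib.CR5.SpecDa
import Pool.Agent.Lib.CR5.B.HB1
import Pool.Agent.Lib.CR5.E.ESz

/-!
# CR5, part D: elementary bounds of `D0* v`, `D1 v` and `v` on the unit ball
-/

set_option autoImplicit false

open MeasureTheory Set Filter Topology
open scoped ENNReal ComplexConjugate

noncomputable section

namespace Pool.Agent.CR5

namespace aE3x

theorem gr_ge (a : Str) (f : E5 → ℂ) (j : Fin 2) (x : E5) :
    ‖L a j f x‖ ^ 2 ≤ gr a f x ∧ ‖Lb a j f x‖ ^ 2 ≤ gr a f x := by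
  have h := Finset.single_le_sum (f := fun j : Fin 2 => ‖L a j f x‖ ^ 2 + ‖Lb a j f x‖ ^ 2)
    (fun _ _ => by positivity) (Finset.mem_univ j)
  have h1 : ‖L a j f x‖ ^ 2 + ‖Lb a j f x‖ ^ 2 ≤ gr a f x := h
  have h2 : 0 ≤ ‖L a j f x‖ ^ 2 := by positivity
  have h3 : 0 ≤ ‖Lb a j f x‖ ^ 2 := by positivity
  exact ⟨by linarith, by linarith⟩

theorem gr_int {a : Str} (ha : SmS a) {f : E5 → ℂ} (hf : Tst f) : Integrable (gr a f) volume := by
  have e : gr a f = fun x => ∑ j : Fin 2, (‖L a j f x‖ ^ 2 + ‖Lb a j f x‖ ^ 2) := rfl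
  rw [e]
  exact integrable_finsetSum _ fun j _ => (BHB1.int_s (hf.L ha j)).add (BHB1.int_s (hf.Lb ha j))

theorem nsq2 (u v : ℂ) : ‖u - v‖ ^ 2 ≤ 2 * (‖u‖ ^ 2 + ‖v‖ ^ 2) := by
  have h := norm_sub_le u v
  have h0 : 0 ≤ ‖u - v‖ := norm_nonneg _
  nlinarith [sq_nonneg (‖u‖ - ‖v‖)]

theorem nsq4 (u v w z : ℂ) :
    ‖(-u - v) + (-w - z)‖ ^ 2 ≤ 4 * (‖u‖ ^ 2 + ‖v‖ ^ 2 + ‖w‖ ^ 2 + ‖z‖ ^ 2) := by
  have h1 : ‖(-u - v) + (-w - z)‖ ≤ ‖u‖ + ‖v‖ + ‖w‖ + ‖z‖ := by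
    refine (norm_add_le _ _).trans ?_
    have h2 := norm_sub_le (-u) v
    have h3 := norm_sub_le (-w) z
    rw [norm_neg] at h2 h3
    linarith
  have h0 : 0 ≤ ‖(-u - v) + (-w - z)‖ := norm_nonneg _
  nlinarith [sq_nonneg (‖u‖ - ‖v‖), sq_nonneg (‖u‖ - ‖w‖), sq_nonneg (‖u‖ - ‖z‖),
    sq_nonneg (‖v‖ - ‖w‖), sq_nonneg (‖v‖ - ‖z‖), sq_nonneg (‖w‖ - ‖z‖)]

/-- The square of the norm, restricted to the ball. -/
def bn (f : E5 → ℂ) : E5 → ℝ := (Metric.ball (0 : E5) 1).indicator fun x => ‖f x‖ ^ 2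

theorem bn_int {f : E5 → ℂ} (hf : Tst f) : Integrable (bn f) volume :=
  (BHB1.int_s hf).indicator Metric.isOpen_ball.measurableSet

theorem bn_eq (f : E5 → ℂ) : ∫ x, bn f x = ∫ x in Metric.ball (0 : E5) 1, ‖f x‖ ^ 2 :=
  integral_indicator Metric.isOpen_ball.measurableSet

theorem dv_mul_le {a : Str} (h1 : Near a 1 1) (h2 : ∀ (j : Fin 2) (x : E5), 1 ≤ ‖x‖ → dv a j x = 0)
    (j : Fin 2) (f : E5 → ℂ) (x : E5) : ‖dv a j x * f x‖ ^ 2 ≤ 9 * bn f x := by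
  unfold bn
  by_cases hx : x ∈ Metric.ball (0 : E5) 1
  · rw [indicator_of_mem hx, norm_mul, mul_pow]
    have h3 := ESzAux.dv_le h1 j x
    have h4 : 0 ≤ ‖dv a j x‖ := norm_nonneg _
    have h5 : 0 ≤ ‖f x‖ ^ 2 := by positivity
    have h6 : ‖dv a j x‖ ^ 2 ≤ 9 := by nlinarith
    exact mul_le_mul_of_nonneg_right h6 h5
  · rw [indicator_of_notMem hx]
    have h3 : 1 ≤ ‖x‖ := by
      rw [mem_ball_zero_iff] at hx
      exact not_lt.1 hx
    rw [h2 j x h3]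
    simp

end aE3x

open aE3x in
theorem paE3 (h1 : S_Har) (h2 : S_cOut) : S_aE3 := by
  obtain ⟨ε₁, hε₁, C₁, hC₁, H⟩ := pHB1 h1
  refine ⟨min ε₁ 1, lt_min hε₁ one_pos, 4 + 37 * C₁, by positivity, ?_⟩
  intro a ha v hv
  have hp : 0 ≤ min ε₁ 1 := (lt_min hε₁ one_pos).le
  have n1 : Near a 1 ε₁ := ha.mono (by norm_num) hp (min_le_left _ _)
  have n2 : Near a 1 1 := ha.mono (by norm_num) hp (min_le_right _ _)
  have hs : SmS a := ha.smS
  have hdv : ∀ (j : Fin 2) (x : E5), 1 ≤ ‖x‖ → dv a j x = 0 := (h2 a ⟨hs, ha.out⟩).2.1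
  have gi := fun j => gr_int hs (hv j)
  have g0' : ∀ j, 0 ≤ ∫ x, gr a (v j) x := fun j => integral_nonneg fun x => gr_nonneg _ _ _
  have hb : ∀ j, ∫ x in Metric.ball (0 : E5) 1, ‖v j x‖ ^ 2 ≤ C₁ * ∫ x, gr a (v j) x :=
    fun j => H a n1 (v j) (hv j)
  have tD : Tst (D1 a v) := ((hv 1).L hs 0).sub ((hv 0).L hs 1)
  have tS : Tst (D0s a v) := ((hv 0).Ls hs 0).add ((hv 1).Ls hs 1)
  refine ⟨?_, ?_, ?_⟩
  · have e : ∀ x, ‖D0s a v x‖ ^ 2
        ≤ 4 * (gr a (v 0) x + 9 * bn (v 0) x + gr a (v 1) x + 9 * bn (v 1) x) := by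
      intro x
      have e1 : D0s a v x = (-Lb a 0 (v 0) x - dv a 0 x * v 0 x)
          + (-Lb a 1 (v 1) x - dv a 1 x * v 1 x) := by
        unfold D0s
        rw [Ls_eq hs (hv 0).sm, Ls_eq hs (hv 1).sm]
      rw [e1]
      refine (nsq4 _ _ _ _).trans ?_
      have e2 := (gr_ge a (v 0) 0 x).2
      have e3 := (gr_ge a (v 1) 1 x).2
      have e4 := dv_mul_le n2 hdv 0 (v 0) x
      have e5 := dv_mul_le n2 hdv 1 (v 1) x
      linarith
    have i1 : Integrable (fun x => 4 * (gr a (v 0) x + 9 * bn (v 0) x + gr a (v 1) x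
        + 9 * bn (v 1) x)) volume :=
      ((((gi 0).add ((bn_int (hv 0)).const_mul 9)).add (gi 1)).add
        ((bn_int (hv 1)).const_mul 9)).const_mul 4
    have j2 : Integrable (fun x => gr a (v 0) x + 9 * bn (v 0) x) volume :=
      (gi 0).add ((bn_int (hv 0)).const_mul 9)
    have j3 : Integrable (fun x => gr a (v 0) x + 9 * bn (v 0) x + gr a (v 1) x) volume :=
      j2.add (gi 1)
    calc ∫ x, ‖D0s a v x‖ ^ 2
        ≤ ∫ x, 4 * (gr a (v 0) x + 9 * bn (v 0) x + gr a (v 1) x + 9 * bn (v 1) x) :=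
          integral_mono (BHB1.int_s tS) i1 e
      _ = 4 * ((∫ x, gr a (v 0) x) + 9 * (∫ x, bn (v 0) x) + (∫ x, gr a (v 1) x)
          + 9 * ∫ x, bn (v 1) x) := by
          rw [integral_const_mul, integral_add j3 ((bn_int (hv 1)).const_mul 9),
            integral_add j2 (gi 1), integral_add (gi 0) ((bn_int (hv 0)).const_mul 9),
            integral_const_mul, integral_const_mul]
      _ ≤ (4 + 37 * C₁) * g0 a v := by
          rw [bn_eq, bn_eq]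
          unfold g0
          have q0 := hb 0
          have q1 := hb 1
          have q2 := mul_nonneg hC₁.le (g0' 0)
          have q3 := mul_nonneg hC₁.le (g0' 1)
          linarith
  · have e : ∀ x, ‖D1 a v x‖ ^ 2 ≤ 2 * (gr a (v 1) x + gr a (v 0) x) := by
      intro x
      unfold D1
      refine (nsq2 _ _).trans ?_
      have e2 := (gr_ge a (v 1) 0 x).1
      have e3 := (gr_ge a (v 0) 1 x).1
      linarith
    calc ∫ x, ‖D1 a v x‖ ^ 2 ≤ ∫ x, 2 * (gr a (v 1) x + gr a (v 0) x) :=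
          integral_mono (BHB1.int_s tD) (((gi 1).add (gi 0)).const_mul 2) e
      _ = 2 * ((∫ x, gr a (v 1) x) + ∫ x, gr a (v 0) x) := by
          rw [integral_const_mul, integral_add (gi 1) (gi 0)]
      _ ≤ (4 + 37 * C₁) * g0 a v := by
          unfold g0
          have q0 := g0' 0
          have q1 := g0' 1
          have q2 := mul_nonneg hC₁.le q0
          have q3 := mul_nonneg hC₁.le q1
          linarith
  · intro j
    refine (hb j).trans ?_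
    have q0 := g0' j
    have q2 := mul_nonneg hC₁.le q0
    linarith

end Pool.Agent.CR5
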