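import Pool.Agent.Lib.CR5.SpecDa

/-!
# CR5, block D: the energy estimate with a cutoff (statement `S_aE4`, helper6)
-/

open MeasureTheory Set Filter Topology
open scoped ENNReal ComplexConjugate

noncomputable section

namespace Pool.Agent.CR5

namespace aE4x

theorem int_sq {f : E5 → ℂ} (h : MemLp f 2) : Integrable (fun x => ‖f x‖ ^ 2) :=
  h.integrable_norm_pow (by norm_num)

theorem nsq (u v : ℂ) : ‖u + v‖ ^ 2 ≤ 2 * ‖u‖ ^ 2 + 2 * ‖v‖ ^ 2 := by
  have h := norm_add_le u v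
  have h0 := norm_nonneg (u + v)
  nlinarith [sq_nonneg (‖u‖ - ‖v‖), norm_nonneg u, norm_nonneg v]

theorem intOn {g : E5 → ℝ} (hg : Continuous g) : IntegrableOn g (Metric.ball (0 : E5) 1) :=
  (hg.continuousOn.integrableOn_compact (isCompact_closedBall 0 1)).mono_set
    Metric.ball_subset_closedBall

/-- Young's inequality for functions vanishing outside the unit ball -/
theorem yng {θ : ℝ} (hθ : 0 < θ) {p q : E5 → ℂ} (hp : Sm p) (hq : Sm q)
    (h0 : ∀ x, 1 ≤ ‖x‖ → p x = 0) :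
    (∫ x, p x * conj (q x)).re ≤ 1 / (2 * θ) * (∫ x in Metric.ball (0 : E5) 1, ‖p x‖ ^ 2)
      + θ / 2 * ∫ x in Metric.ball (0 : E5) 1, ‖q x‖ ^ 2 := by
  have e1 : (∫ x, p x * conj (q x)) = ∫ x in Metric.ball (0 : E5) 1, p x * conj (q x) := by
    symm
    apply setIntegral_eq_integral_of_forall_compl_eq_zero
    intro x hx
    rw [h0 x, zero_mul]
    rw [Metric.mem_ball, dist_zero_right, not_lt] at hx
    exact hx
  rw [e1]
  have hcp := hp.cont
  have hcq := hq.cont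
  have i1 : IntegrableOn (fun x => 1 / (2 * θ) * ‖p x‖ ^ 2 + θ / 2 * ‖q x‖ ^ 2)
      (Metric.ball (0 : E5) 1) := intOn (by fun_prop)
  have i2 : IntegrableOn (fun x => 1 / (2 * θ) * ‖p x‖ ^ 2) (Metric.ball (0 : E5) 1) :=
    intOn (by fun_prop)
  have i3 : IntegrableOn (fun x => θ / 2 * ‖q x‖ ^ 2) (Metric.ball (0 : E5) 1) :=
    intOn (by fun_prop)
  calc (∫ x in Metric.ball (0 : E5) 1, p x * conj (q x)).re
      ≤ ‖∫ x in Metric.ball (0 : E5) 1, p x * conj (q x)‖ := Complex.re_le_norm _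
    _ ≤ ∫ x in Metric.ball (0 : E5) 1, (1 / (2 * θ) * ‖p x‖ ^ 2 + θ / 2 * ‖q x‖ ^ 2) := by
        refine norm_integral_le_of_norm_le i1 ?_
        filter_upwards with x
        rw [norm_mul, RCLike.norm_conj]
        have h1 : 0 ≤ (‖p x‖ - θ * ‖q x‖) ^ 2 := sq_nonneg _
        have h2 : 1 / (2 * θ) * ‖p x‖ ^ 2 + θ / 2 * ‖q x‖ ^ 2 - ‖p x‖ * ‖q x‖ =
            1 / (2 * θ) * (‖p x‖ - θ * ‖q x‖) ^ 2 := by
          field_simp
          ring
        have h3 : 0 ≤ 1 / (2 * θ) * (‖p x‖ - θ * ‖q x‖) ^ 2 := by positivity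
        linarith
    _ = _ := by
        rw [integral_add i2 i3, integral_const_mul, integral_const_mul]

/-- the bound of a product with a small function -/
theorem small {δ : ℝ} {c d f g : E5 → ℂ} (hc : Tst c) (hd : Tst d) (hf : Sm f) (hg : Sm g)
    (hcb : ∀ x, ‖c x‖ ≤ δ) (hdb : ∀ x, ‖d x‖ ≤ δ) (mf : MemLp f 2) (mg : MemLp g 2) :
    (∫ x, ‖c x * f x + d x * g x‖ ^ 2) ≤ 2 * δ ^ 2 * ((∫ x, ‖f x‖ ^ 2) + ∫ x, ‖g x‖ ^ 2) := by
  have hT : Tst fun x => c x * f x + d x * g x := (Tst.mul_right hc hf).add (Tst.mul_right hd hg)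
  have e1 : 2 * δ ^ 2 * ((∫ x, ‖f x‖ ^ 2) + ∫ x, ‖g x‖ ^ 2) =
      ∫ x, (2 * δ ^ 2 * ‖f x‖ ^ 2 + 2 * δ ^ 2 * ‖g x‖ ^ 2) := by
    rw [integral_add ((int_sq mf).const_mul _) ((int_sq mg).const_mul _), integral_const_mul,
      integral_const_mul]
    ring
  rw [e1]
  refine integral_mono (int_sq hT.memLp)
    (((int_sq mf).const_mul _).add ((int_sq mg).const_mul _)) fun x => ?_
  show ‖c x * f x + d x * g x‖ ^ 2 ≤ 2 * δ ^ 2 * ‖f x‖ ^ 2 + 2 * δ ^ 2 * ‖g x‖ ^ 2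
  refine (nsq _ _).trans ?_
  rw [norm_mul, norm_mul, mul_pow, mul_pow]
  have h1 : ‖c x‖ ^ 2 ≤ δ ^ 2 := pow_le_pow_left₀ (norm_nonneg _) (hcb x) 2
  have h2 : ‖d x‖ ^ 2 ≤ δ ^ 2 := pow_le_pow_left₀ (norm_nonneg _) (hdb x) 2
  have h3 := mul_le_mul_of_nonneg_right h1 (sq_nonneg ‖f x‖)
  have h4 := mul_le_mul_of_nonneg_right h2 (sq_nonneg ‖g x‖)
  linarith

theorem small1 {δ : ℝ} {c f : E5 → ℂ} (hc : Tst c) (hf : Sm f)
    (hcb : ∀ x, ‖c x‖ ≤ δ) (mf : MemLp f 2) :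
    (∫ x, ‖c x * f x‖ ^ 2) ≤ δ ^ 2 * ∫ x, ‖f x‖ ^ 2 := by
  rw [← integral_const_mul]
  refine integral_mono (int_sq (Tst.mul_right hc hf).memLp) ((int_sq mf).const_mul _) fun x => ?_
  show ‖c x * f x‖ ^ 2 ≤ δ ^ 2 * ‖f x‖ ^ 2
  rw [norm_mul, mul_pow]
  exact mul_le_mul_of_nonneg_right (pow_le_pow_left₀ (norm_nonneg _) (hcb x) 2) (sq_nonneg _)

/-- the adjoint of `Ls` -/
theorem ibp_Ls {a : Str} (ha : SmS a) (j : Fin 2) {f g : E5 → ℂ} (hf : Sm f) (hg : Tst g) :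
    ∫ x, Ls a j f x * conj (g x) = ∫ x, f x * conj (L a j g x) := by
  have h := ibp_L' ha j hg hf
  have h1 := congrArg conj h
  rw [← integral_conj, ← integral_conj] at h1
  have e1 : ∀ x, conj (L a j g x * conj (f x)) = f x * conj (L a j g x) := by
    intro x
    rw [map_mul, Complex.conj_conj, mul_comm]
  have e2 : ∀ x, conj (g x * conj (Ls a j f x)) = Ls a j f x * conj (g x) := by
    intro x
    rw [map_mul, Complex.conj_conj, mul_comm]
  simp only [e1, e2] at h1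
  exact h1.symm

/-- a function equal to one near the ball has no derivatives there -/
theorem pd_one {χ : E5 → ℂ} (h : ∀ x, ‖x‖ ≤ 1 → χ x = 1) {x : E5} (hx : ‖x‖ < 1) (i : Fin 5) :
    pd i χ x = 0 := by
  have h1 : χ =ᶠ[𝓝 x] fun _ => (1 : ℂ) := by
    have h2 : Metric.ball (0 : E5) 1 ∈ 𝓝 x :=
      Metric.isOpen_ball.mem_nhds (by rwa [Metric.mem_ball, dist_zero_right])
    filter_upwards [h2] with y hy
    rw [Metric.mem_ball, dist_zero_right] at hy
    exact h y hy.le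
  unfold pd
  rw [h1.fderiv_eq]
  simp

theorem L_one {a : Str} {χ : E5 → ℂ} (h : ∀ x, ‖x‖ ≤ 1 → χ x = 1) {x : E5} (hx : ‖x‖ < 1)
    (j : Fin 2) : L a j χ x = 0 ∧ Lb a j χ x = 0 := by
  have hd : ∀ l, dz l χ x = 0 ∧ db l χ x = 0 := by
    intro l
    rcases fin3_cases l with rfl | rfl | rfl
    · rw [dz_zero, db_zero, pd_one h hx, pd_one h hx]
      simp
    · rw [dz_one, db_one, pd_one h hx, pd_one h hx]
      simp
    · rw [dz_two, db_two, pd_one h hx]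
      simp
  constructor
  · simp only [L, (hd _).1, (hd _).2, mul_zero, Finset.sum_const_zero, add_zero]
  · simp only [Lb, (hd _).1, (hd _).2, mul_zero, Finset.sum_const_zero, add_zero]

end aE4x

open aE4x in
theorem paE4 (h1 : S_Bas) (h2 : S_cOut) (h3 : S_cChi) (h4 : S_aE1) (h5 : S_aE2) (h6 : S_aE3) :
    S_aE4 := by
  obtain ⟨ε1, hε1, c, hc, hBas⟩ := h1
  obtain ⟨ε3, hε3, C3, hC3, hE3⟩ := h6
  refine ⟨min ε1 ε3, lt_min hε1 hε3, 10 / c + 3 * C3 / c ^ 2, by positivity, ?_⟩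
  intro a ha f q0 q1 hf hq0 hq1 hout e he he1 u hu heq ρ K χ hρ hK hχ hχ1 hχr hχρ hχL hχLb hχt
  have hNm : ∀ ε', min ε1 ε3 ≤ ε' → Near a 2 ε' := fun ε' h' =>
    ⟨ha.sm, ha.out, fun j l i hi x => (ha.bd j l i hi x).trans
      (pow_le_pow_left₀ (lt_min hε1 hε3).le h' 2)⟩
  have hN1 : Near a 2 ε1 := hNm ε1 (min_le_left _ _)
  have hN3 : Near a 2 ε3 := hNm ε3 (min_le_right _ _)
  have hs : SmS a := ha.sm
  have hO : Outs a := ⟨ha.sm, ha.out⟩
  have hLχ := h3 K ρ hK hρ χ hχρ hχL hχLb a hO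
  have hχs : Sm χ := hχ.sm
  have hone : ∀ x, ‖x‖ ≤ 1 → χ x = 1 := fun x hx => hχρ x (hx.trans hρ)
  -- the test functions
  have hv : ∀ j, Tst (fun x => χ x * u j x) := fun j => Tst.mul_right hχ (hu j).sm
  have ht : ∀ j, Tst (fun x => χ x * (χ x * u j x)) := fun j => Tst.mul_left hχs (hv j)
  set κ : ℝ := (K / ρ) ^ 2 with hκ
  set U : ℝ := (∫ x, ‖u 0 x‖ ^ 2) + ∫ x, ‖u 1 x‖ ^ 2 with hU
  have hU0 : 0 ≤ ∫ x, ‖u 0 x‖ ^ 2 := integral_nonneg fun x => sq_nonneg _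
  have hU1 : 0 ≤ ∫ x, ‖u 1 x‖ ^ 2 := integral_nonneg fun x => sq_nonneg _
  have hκ0 : 0 ≤ κ := sq_nonneg _
  set G : ℝ := g0 a (fun j y => χ y * u j y) with hG
  have hgr0 : ∀ (w : E5 → ℂ) (x : E5), 0 ≤ gr a w x := by
    intro w x
    unfold gr
    exact Finset.sum_nonneg fun j _ => by positivity
  have hGj : ∀ j, 0 ≤ ∫ x, gr a (fun y => χ y * u j y) x := fun j =>
    integral_nonneg fun x => hgr0 _ x
  have hGe : G = (∫ x, gr a (fun y => χ y * u 0 y) x) + ∫ x, gr a (fun y => χ y * u 1 y) x := rfl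
  have hG0 : 0 ≤ G := by
    rw [hGe]
    exact add_nonneg (hGj 0) (hGj 1)
  -- lower bound
  have eB := hBas a hN1 (fun j y => χ y * u j y) hv
  have eB' : c * G ≤ (∫ x, ‖D0s a (fun j y => χ y * u j y) x‖ ^ 2)
      + ∫ x, ‖D1 a (fun j y => χ y * u j y) x‖ ^ 2 := eB
  have e1 := h4 a hs χ hχ hχr u (fun j => (hu j).sm)
  have eP : (∫ x, ‖Lb a 0 χ x * u 0 x + Lb a 1 χ x * u 1 x‖ ^ 2) ≤ 2 * κ * U :=
    small (Tst.Lb hs 0 hχ) (Tst.Lb hs 1 hχ) (hu 0).sm (hu 1).sm (fun x => (hLχ 0 x).2)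
      (fun x => (hLχ 1 x).2) (hu 0).l2 (hu 1).l2
  have eQ : (∫ x, ‖L a 0 χ x * u 1 x - L a 1 χ x * u 0 x‖ ^ 2) ≤ 2 * κ * U := by
    have h7 := small (Tst.L hs 0 hχ) (Tst.L hs 1 hχ).neg (hu 1).sm (hu 0).sm
      (fun x => (hLχ 0 x).1) (fun x => by rw [norm_neg]; exact (hLχ 1 x).1) (hu 1).l2 (hu 0).l2
    have h8 : ∀ x, L a 0 χ x * u 1 x + -L a 1 χ x * u 0 x =
        L a 0 χ x * u 1 x - L a 1 χ x * u 0 x := fun x => by ring
    simp only [h8] at h7
    rw [add_comm (∫ x, ‖u 1 x‖ ^ 2)] at h7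
    exact h7
  have eT : ∀ j, (∫ x, ‖pd 4 χ x * u j x‖ ^ 2) ≤ κ * ∫ x, ‖u j x‖ ^ 2 := fun j =>
    small1 (hχ.pd 4) (hu j).sm hχt (hu j).l2
  have eE2 : ∀ j, -(κ * ∫ x, ‖u j x‖ ^ 2) ≤
      (∫ x, (u j x - pd 4 (pd 4 (u j)) x) * conj (χ x * (χ x * u j x))).re := by
    intro j
    rw [h5 χ hχ hχr (u j) (hu j).sm]
    have h7 := eT j
    have h8 : 0 ≤ ∫ x, ‖χ x * u j x‖ ^ 2 := integral_nonneg fun x => sq_nonneg _
    have h9 : 0 ≤ ∫ x, ‖pd 4 (fun y => χ y * u j y) x‖ ^ 2 := integral_nonneg fun x => sq_nonneg _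
    linarith
  -- the left side
  have hsu : ∀ j, Sm (fun x => u j x - pd 4 (pd 4 (u j)) x) := fun j =>
    (hu j).sm.sub (((hu j).sm.pd 4).pd 4)
  have hl : ∀ j, ∫ x, BoxE a e u j x * conj (χ x * (χ x * u j x)) =
      (∫ x, Box a u j x * conj (χ x * (χ x * u j x)))
        + (e : ℂ) * ∫ x, (u j x - pd 4 (pd 4 (u j)) x) * conj (χ x * (χ x * u j x)) := by
    intro j
    have i1 : Integrable (fun x => Box a u j x * conj (χ x * (χ x * u j x))) :=
      (Tst.mul_left (Sm.Box hs (fun j => (hu j).sm) j) (ht j).conj).integrable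
    have i2 : Integrable (fun x => (u j x - pd 4 (pd 4 (u j)) x) *
        conj (χ x * (χ x * u j x))) := (Tst.mul_left (hsu j) (ht j).conj).integrable
    rw [← integral_const_mul, ← integral_add i1 (i2.const_mul _)]
    congr 1
    funext x
    show (Box a u j x + (e : ℂ) * (u j x - pd 4 (pd 4 (u j)) x)) * _ = _
    ring
  -- the right side
  have hr : ∀ j, ∫ x, BoxE a e u j x * conj (χ x * (χ x * u j x)) =
      (∫ x, f j x * conj (χ x * (χ x * u j x)))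
        + (∫ x, D0 a q0 j x * conj (χ x * (χ x * u j x)))
        + ∫ x, D1s a q1 j x * conj (χ x * (χ x * u j x)) := by
    intro j
    have i1 : Integrable (fun x => f j x * conj (χ x * (χ x * u j x))) :=
      (Tst.mul_left (hf j) (ht j).conj).integrable
    have i2 : Integrable (fun x => D0 a q0 j x * conj (χ x * (χ x * u j x))) :=
      (Tst.mul_left (hq0.D0 hs j) (ht j).conj).integrable
    have i3 : Integrable (fun x => D1s a q1 j x * conj (χ x * (χ x * u j x))) :=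
      (Tst.mul_left (hq1.D1s hs j) (ht j).conj).integrable
    have i12 : Integrable (fun x => f j x * conj (χ x * (χ x * u j x))
        + D0 a q0 j x * conj (χ x * (χ x * u j x))) := i1.add i2
    rw [← integral_add i1 i2, ← integral_add i12 i3]
    congr 1
    funext x
    rw [heq j x]
    show _ = f j x * conj (χ x * (χ x * u j x)) + D0 a q0 j x * conj (χ x * (χ x * u j x))
      + D1s a q1 j x * conj (χ x * (χ x * u j x))
    ring
  -- the terms of the right side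
  set θ : ℝ := c / (3 * C3) with hθ
  have hθ0 : 0 < θ := by positivity
  have eE3 := hE3 a hN3 (fun j y => χ y * u j y) hv
  have r1 : ∀ j, (∫ x, f j x * conj (χ x * (χ x * u j x))).re ≤
      1 / (2 * θ) * (∫ x in Metric.ball (0 : E5) 1, ‖f j x‖ ^ 2)
        + θ / 2 * (C3 * ∫ x, gr a (fun y => χ y * u j y) x) := by
    intro j
    have e7 : (∫ x, f j x * conj (χ x * (χ x * u j x))) =
        ∫ x, f j x * conj (χ x * u j x) := by
      congr 1
      funext x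
      by_cases hx : 1 ≤ ‖x‖
      · rw [(hout x hx).1 j, zero_mul, zero_mul]
      · rw [hone x (not_le.1 hx).le, one_mul]
    rw [e7]
    refine (yng hθ0 (hf j) (hv j).sm fun x hx => (hout x hx).1 j).trans ?_
    have h7 := mul_le_mul_of_nonneg_left (eE3.2.2 j) (by positivity : 0 ≤ θ / 2)
    linarith
  have r2 : ((∫ x, D0 a q0 0 x * conj (χ x * (χ x * u 0 x)))
      + ∫ x, D0 a q0 1 x * conj (χ x * (χ x * u 1 x))).re ≤
      1 / (2 * θ) * (∫ x in Metric.ball (0 : E5) 1, ‖q0 x‖ ^ 2) + θ / 2 * (C3 * G) := by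
    have e7 : (∫ x, D0 a q0 0 x * conj (χ x * (χ x * u 0 x)))
        + (∫ x, D0 a q0 1 x * conj (χ x * (χ x * u 1 x))) =
        ∫ x, q0 x * conj (D0s a (fun j y => χ y * u j y) x) := by
      have h8 : ∀ j, ∫ x, D0 a q0 j x * conj (χ x * (χ x * u j x)) =
          ∫ x, q0 x * conj (Ls a j (fun y => χ y * (χ y * u j y)) x) := fun j =>
        ibp_L hs j hq0 (ht j)
      rw [h8, h8, ← integral_add
        (Tst.mul_left hq0 (Tst.Ls hs 0 (ht 0)).conj).integrable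
        (Tst.mul_left hq0 (Tst.Ls hs 1 (ht 1)).conj).integrable]
      congr 1
      funext x
      show q0 x * conj (Ls a 0 (fun y => χ y * (χ y * u 0 y)) x)
        + q0 x * conj (Ls a 1 (fun y => χ y * (χ y * u 1 y)) x) =
        q0 x * conj (Ls a 0 (fun y => χ y * u 0 y) x + Ls a 1 (fun y => χ y * u 1 y) x)
      by_cases hx : 1 ≤ ‖x‖
      · rw [(hout x hx).2.1]
        ring
      · have hx' : ‖x‖ < 1 := not_le.1 hx
        rw [Ls_mul hs hχs (hv 0).sm, Ls_mul hs hχs (hv 1).sm, hone x hx'.le,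
          (L_one hone hx' 0).2, (L_one hone hx' 1).2, map_add]
        simp only [one_mul, zero_mul, sub_zero]
        ring
    rw [e7]
    refine (yng hθ0 hq0 (Sm.D0s hs fun j => (hv j).sm) fun x hx => (hout x hx).2.1).trans ?_
    have h9 : (∫ x in Metric.ball (0 : E5) 1, ‖D0s a (fun j y => χ y * u j y) x‖ ^ 2) ≤
        C3 * G := by
      refine le_trans ?_ eE3.1
      exact setIntegral_le_integral (int_sq (((Tst.Ls hs 0 (hv 0)).add
        (Tst.Ls hs 1 (hv 1))).memLp)) (Filter.Eventually.of_forall fun x => sq_nonneg _)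
    have h10 := mul_le_mul_of_nonneg_left h9 (by positivity : 0 ≤ θ / 2)
    linarith
  have r3 : ((∫ x, D1s a q1 0 x * conj (χ x * (χ x * u 0 x)))
      + ∫ x, D1s a q1 1 x * conj (χ x * (χ x * u 1 x))).re ≤
      1 / (2 * θ) * (∫ x in Metric.ball (0 : E5) 1, ‖q1 x‖ ^ 2) + θ / 2 * (C3 * G) := by
    have e7 : (∫ x, D1s a q1 0 x * conj (χ x * (χ x * u 0 x)))
        + (∫ x, D1s a q1 1 x * conj (χ x * (χ x * u 1 x))) =
        ∫ x, q1 x * conj (D1 a (fun j y => χ y * u j y) x) := by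
      have h8 : (∫ x, D1s a q1 0 x * conj (χ x * (χ x * u 0 x))) =
          -∫ x, q1 x * conj (L a 1 (fun y => χ y * (χ y * u 0 y)) x) := by
        rw [← ibp_Ls hs 1 hq1 (ht 0), ← integral_neg]
        congr 1
        funext x
        show (-Ls a 1 q1 x) * _ = _
        ring
      have h9 : (∫ x, D1s a q1 1 x * conj (χ x * (χ x * u 1 x))) =
          ∫ x, q1 x * conj (L a 0 (fun y => χ y * (χ y * u 1 y)) x) := by
        rw [← ibp_Ls hs 0 hq1 (ht 1)]
        rfl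
      rw [h8, h9, ← integral_neg, ← integral_add
        (Tst.mul_left hq1 (Tst.L hs 1 (ht 0)).conj).neg.integrable
        (Tst.mul_left hq1 (Tst.L hs 0 (ht 1)).conj).integrable]
      congr 1
      funext x
      show -(q1 x * conj (L a 1 (fun y => χ y * (χ y * u 0 y)) x))
        + q1 x * conj (L a 0 (fun y => χ y * (χ y * u 1 y)) x) =
        q1 x * conj (L a 0 (fun y => χ y * u 1 y) x - L a 1 (fun y => χ y * u 0 y) x)
      by_cases hx : 1 ≤ ‖x‖
      · rw [(hout x hx).2.2]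
        ring
      · have hx' : ‖x‖ < 1 := not_le.1 hx
        rw [L_mul hχs (hv 0).sm, L_mul hχs (hv 1).sm, hone x hx'.le,
          (L_one hone hx' 0).1, (L_one hone hx' 1).1, map_sub]
        simp only [one_mul, zero_mul, add_zero]
        ring
    rw [e7]
    refine (yng hθ0 hq1 (Sm.D1 hs fun j => (hv j).sm) fun x hx => (hout x hx).2.2).trans ?_
    have h9 : (∫ x in Metric.ball (0 : E5) 1, ‖D1 a (fun j y => χ y * u j y) x‖ ^ 2) ≤
        C3 * G := by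
      refine le_trans ?_ eE3.2.1
      exact setIntegral_le_integral (int_sq (((Tst.L hs 0 (hv 1)).sub
        (Tst.L hs 1 (hv 0))).memLp)) (Filter.Eventually.of_forall fun x => sq_nonneg _)
    have h10 := mul_le_mul_of_nonneg_left h9 (by positivity : 0 ≤ θ / 2)
    linarith
  -- assembly
  have hre : ∀ z : ℂ, ((e : ℂ) * z).re = e * z.re := fun z => by simp
  have hsum : (∑ j : Fin 2, ∫ x, Box a u j x * conj (χ x * (χ x * u j x))).re
      + e * ((∫ x, (u 0 x - pd 4 (pd 4 (u 0)) x) * conj (χ x * (χ x * u 0 x))).re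
        + (∫ x, (u 1 x - pd 4 (pd 4 (u 1)) x) * conj (χ x * (χ x * u 1 x))).re) =
      (∫ x, f 0 x * conj (χ x * (χ x * u 0 x))).re + (∫ x, f 1 x * conj (χ x * (χ x * u 1 x))).re
        + ((∫ x, D0 a q0 0 x * conj (χ x * (χ x * u 0 x)))
          + ∫ x, D0 a q0 1 x * conj (χ x * (χ x * u 1 x))).re
        + ((∫ x, D1s a q1 0 x * conj (χ x * (χ x * u 0 x)))
          + ∫ x, D1s a q1 1 x * conj (χ x * (χ x * u 1 x))).re := by
    have h7 : ∀ j, (∫ x, Box a u j x * conj (χ x * (χ x * u j x))).re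
        + e * (∫ x, (u j x - pd 4 (pd 4 (u j)) x) * conj (χ x * (χ x * u j x))).re =
        (∫ x, f j x * conj (χ x * (χ x * u j x))).re
          + (∫ x, D0 a q0 j x * conj (χ x * (χ x * u j x))).re
          + (∫ x, D1s a q1 j x * conj (χ x * (χ x * u j x))).re := by
      intro j
      have h8 := congrArg Complex.re ((hl j).symm.trans (hr j))
      simp only [Complex.add_re, hre] at h8
      exact h8
    have h8 := h7 0
    have h9 := h7 1
    rw [Fin.sum_univ_two]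
    simp only [Complex.add_re]
    linarith
  rw [e1] at hsum
  have hball : (∫ x in Metric.ball (0 : E5) 1, (‖f 0 x‖ ^ 2 + ‖f 1 x‖ ^ 2)) =
      (∫ x in Metric.ball (0 : E5) 1, ‖f 0 x‖ ^ 2)
        + ∫ x in Metric.ball (0 : E5) 1, ‖f 1 x‖ ^ 2 := by
    have hc0 := (hf 0).cont
    have hc1 := (hf 1).cont
    exact integral_add (intOn (by fun_prop)) (intOn (by fun_prop))
  rw [hball]
  have b0 := eE2 0
  have b1 := eE2 1
  have b2 : -(κ * U) ≤ e * ((∫ x, (u 0 x - pd 4 (pd 4 (u 0)) x) *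
      conj (χ x * (χ x * u 0 x))).re
        + (∫ x, (u 1 x - pd 4 (pd 4 (u 1)) x) * conj (χ x * (χ x * u 1 x))).re) := by
    have h7 : -(κ * U) ≤ (∫ x, (u 0 x - pd 4 (pd 4 (u 0)) x) *
      conj (χ x * (χ x * u 0 x))).re
        + (∫ x, (u 1 x - pd 4 (pd 4 (u 1)) x) * conj (χ x * (χ x * u 1 x))).re := by
      rw [hU, mul_add]
      linarith
    have h8 : 0 ≤ κ * U := mul_nonneg hκ0 (add_nonneg hU0 hU1)
    have h9 := mul_le_mul_of_nonneg_left h7 he.le
    nlinarith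
  have s0 := r1 0
  have s1 := r1 1
  have hF : c * G ≤ 5 * (κ * U) + 1 / (2 * θ) *
      ((∫ x in Metric.ball (0 : E5) 1, ‖f 0 x‖ ^ 2)
        + (∫ x in Metric.ball (0 : E5) 1, ‖f 1 x‖ ^ 2)
        + (∫ x in Metric.ball (0 : E5) 1, ‖q0 x‖ ^ 2)
        + ∫ x in Metric.ball (0 : E5) 1, ‖q1 x‖ ^ 2) + 3 * (θ / 2 * (C3 * G)) := by
    have h7 : θ / 2 * (C3 * G) = θ / 2 * (C3 * ∫ x, gr a (fun y => χ y * u 0 y) x)
        + θ / 2 * (C3 * ∫ x, gr a (fun y => χ y * u 1 y) x) := by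
      rw [hGe]
      ring
    have h8 : 2 * κ * U = 2 * (κ * U) := by ring
    rw [h8] at eP eQ
    nlinarith [eB', hsum, eP, eQ, b2, s0, s1, r2, r3, h7]
  have hth : 3 * (θ / 2 * (C3 * G)) = c / 2 * G := by
    rw [hθ]
    field_simp
  have hth2 : 1 / (2 * θ) = 3 * C3 / (2 * c) := by
    rw [hθ]
    field_simp
  rw [hth, hth2] at hF
  set F : ℝ := (∫ x in Metric.ball (0 : E5) 1, ‖f 0 x‖ ^ 2)
        + (∫ x in Metric.ball (0 : E5) 1, ‖f 1 x‖ ^ 2)
        + (∫ x in Metric.ball (0 : E5) 1, ‖q0 x‖ ^ 2)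
        + ∫ x in Metric.ball (0 : E5) 1, ‖q1 x‖ ^ 2 with hFdef
  have hF0 : 0 ≤ F := by
    rw [hFdef]
    have h7 : ∀ p : E5 → ℂ, 0 ≤ ∫ x in Metric.ball (0 : E5) 1, ‖p x‖ ^ 2 := fun p =>
      integral_nonneg fun x => sq_nonneg _
    have := h7 (f 0)
    have := h7 (f 1)
    have := h7 q0
    have := h7 q1
    linarith
  have hKU : 0 ≤ κ * U := mul_nonneg hκ0 (add_nonneg hU0 hU1)
  have hfin : G ≤ 10 / c * (κ * U) + 3 * C3 / c ^ 2 * F := by
    have h7 : c * G ≤ c * (10 / c * (κ * U) + 3 * C3 / c ^ 2 * F) := by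
      have h8 : c * (10 / c * (κ * U) + 3 * C3 / c ^ 2 * F) =
          10 * (κ * U) + 2 * (3 * C3 / (2 * c) * F) := by
        field_simp
      rw [h8]
      linarith
    exact le_of_mul_le_mul_left h7 hc
  refine hfin.trans ?_
  have h8 : 0 ≤ 3 * C3 / c ^ 2 * (κ * U) := by positivity
  have h9 : 0 ≤ 10 / c * F := by positivity
  have h10 : (10 / c + 3 * C3 / c ^ 2) * (F + κ * U) =
      10 / c * (κ * U) + 3 * C3 / c ^ 2 * F + 3 * C3 / c ^ 2 * (κ * U) + 10 / c * F := by ring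
  calc 10 / c * (κ * U) + 3 * C3 / c ^ 2 * F ≤ (10 / c + 3 * C3 / c ^ 2) * (F + κ * U) := by
        rw [h10]
        linarith
    _ = _ := by
        rw [hFdef]

end Pool.Agent.CR5
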