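import Pool.Agent.Lib.CR5.SpecDa

/-!
# CR5, block D: the energy estimate, cutoff to infinity
-/

set_option autoImplicit false

open MeasureTheory Set Filter Topology
open scoped ENNReal ComplexConjugate

noncomputable section

namespace Pool.Agent.CR5

namespace aEnx

theorem dz_eq {f g : E5 → ℂ} {x : E5} (h : ∀ i, pd i f x = pd i g x) (l : Fin 3) :
    dz l f x = dz l g x ∧ db l f x = db l g x := by
  rcases fin3_cases l with rfl | rfl | rfl
  · rw [dz_zero, dz_zero, db_zero, db_zero, h 0, h 1]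
    exact ⟨rfl, rfl⟩
  · rw [dz_one, dz_one, db_one, db_one, h 2, h 3]
    exact ⟨rfl, rfl⟩
  · rw [dz_two, dz_two, db_two, db_two, h 4]
    exact ⟨rfl, rfl⟩

theorem gr_eq (a : Str) {f g : E5 → ℂ} {x : E5} (h : ∀ i, pd i f x = pd i g x) :
    gr a f x = gr a g x := by
  unfold gr L Lb
  simp only [(dz_eq h _).1, (dz_eq h _).2]

theorem gr_nn (a : Str) (f : E5 → ℂ) (x : E5) : 0 ≤ gr a f x :=
  Finset.sum_nonneg fun _ _ => by positivity

theorem gr_int {a : Str} (ha : SmS a) {f : E5 → ℂ} (hf : Tst f) : Integrable (gr a f) := by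
  unfold gr
  refine integrable_finsetSum _ fun j _ => ?_
  exact ((hf.L ha j).memLp.integrable_norm_pow (by norm_num)).add
    ((hf.Lb ha j).memLp.integrable_norm_pow (by norm_num))

theorem cut_eq (a : Str) {χ f : E5 → ℂ} {ρ : ℝ} (h : ∀ x, ‖x‖ ≤ ρ → χ x = 1) {x : E5}
    (hx : ‖x‖ < ρ) : gr a (fun y => χ y * f y) x = gr a f x := by
  apply gr_eq
  intro i
  unfold pd
  have he : (fun y => χ y * f y) =ᶠ[𝓝 x] f := by
    have ho : IsOpen {z : E5 | ‖z‖ < ρ} := isOpen_lt continuous_norm continuous_const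
    filter_upwards [ho.mem_nhds hx] with z hz
    rw [h z (le_of_lt hz), one_mul]
  rw [he.fderiv_eq]

theorem cut_le {a : Str} (ha : SmS a) {χ f : E5 → ℂ} {ρ : ℝ} (hχ : Tst χ) (hf : Sm f)
    (h : ∀ x, ‖x‖ ≤ ρ → χ x = 1) :
    ∫ x in Metric.ball (0 : E5) ρ, gr a f x ≤ ∫ x, gr a (fun y => χ y * f y) x := by
  have hi : Integrable (gr a fun y => χ y * f y) := gr_int ha (hχ.mul_right hf)
  have e : ∫ x in Metric.ball (0 : E5) ρ, gr a f x
      = ∫ x in Metric.ball (0 : E5) ρ, gr a (fun y => χ y * f y) x := by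
    refine setIntegral_congr_fun measurableSet_ball fun x hx => ?_
    rw [Metric.mem_ball, dist_zero_right] at hx
    exact (cut_eq a h hx).symm
  rw [e]
  exact setIntegral_le_integral hi (Eventually.of_forall fun x => gr_nn _ _ _)

theorem lim_ball {g : E5 → ℝ} (hg : Integrable g) :
    Tendsto (fun n : ℕ => ∫ x in Metric.ball (0 : E5) ((n : ℝ) + 1), g x) atTop
      (𝓝 (∫ x, g x)) := by
  have hU : (⋃ n : ℕ, Metric.ball (0 : E5) ((n : ℝ) + 1)) = univ := by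
    rw [eq_univ_iff_forall]
    intro x
    obtain ⟨n, hn⟩ := exists_nat_gt ‖x‖
    refine mem_iUnion.2 ⟨n, ?_⟩
    rw [Metric.mem_ball, dist_zero_right]
    linarith
  have h := tendsto_setIntegral_of_monotone (μ := volume) (f := g)
    (s := fun n : ℕ => Metric.ball (0 : E5) ((n : ℝ) + 1)) (fun n => measurableSet_ball)
    (fun m n hmn => Metric.ball_subset_ball (by
      have : (m : ℝ) ≤ n := by exact_mod_cast hmn
      linarith)) hg.integrableOn
  rw [hU, Measure.restrict_univ] at h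
  exact h

end aEnx

open aEnx in
theorem paEn (h1 : S_cMem) (h2 : S_aE4) : S_aEn := by
  obtain ⟨ε, hε, C, hC, hE⟩ := h2
  obtain ⟨K, hK, hχ⟩ := tInf2
  refine ⟨ε, hε, C, hC, ?_⟩
  intro a ha f q0 q1 hf hq0 hq1 hout e he he1 u hu heq
  have hO : Outs a := ⟨ha.sm, ha.out⟩
  have i0 : Integrable (gr a (u 0)) := (h1 a hO (u 0) (hu 0)).1
  have i1 : Integrable (gr a (u 1)) := (h1 a hO (u 1) (hu 1)).1
  obtain ⟨F, hF⟩ : ∃ F : ℝ, F = (∫ x in Metric.ball (0 : E5) 1, (‖f 0 x‖ ^ 2 + ‖f 1 x‖ ^ 2))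
        + (∫ x in Metric.ball (0 : E5) 1, ‖q0 x‖ ^ 2)
        + ∫ x in Metric.ball (0 : E5) 1, ‖q1 x‖ ^ 2 := ⟨_, rfl⟩
  obtain ⟨U, hU⟩ : ∃ U : ℝ, U = (∫ x, ‖u 0 x‖ ^ 2) + ∫ x, ‖u 1 x‖ ^ 2 := ⟨_, rfl⟩
  have key : ∀ n : ℕ, (∫ x in Metric.ball (0 : E5) ((n : ℝ) + 1), gr a (u 0) x)
      + (∫ x in Metric.ball (0 : E5) ((n : ℝ) + 1), gr a (u 1) x)
      ≤ C * (F + (K / ((n : ℝ) + 1)) ^ 2 * U) := by
    intro n
    have hρ : (1 : ℝ) ≤ (n : ℝ) + 1 := by
      have : (0 : ℝ) ≤ n := Nat.cast_nonneg n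
      linarith
    obtain ⟨χ, c1, c2, c3, c4, c5, c6, c7, _⟩ := hχ _ hρ
    have h3 := hE a ha f q0 q1 hf hq0 hq1 hout e he he1 u hu heq _ K χ hρ hK c1 c2 c3 c4 c5 c6 c7
    rw [← hU, ← hF] at h3
    unfold g0 at h3
    have h4 := cut_le (a := a) ha.sm c1 (hu 0).sm c4
    have h5 := cut_le (a := a) ha.sm c1 (hu 1).sm c4
    exact (add_le_add h4 h5).trans h3
  rw [← hF]
  have l1 := (lim_ball i0).add (lim_ball i1)
  have l2 : Tendsto (fun n : ℕ => C * (F + (K / ((n : ℝ) + 1)) ^ 2 * U)) atTop (𝓝 (C * F)) := by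
    have l3 : Tendsto (fun n : ℕ => K / ((n : ℝ) + 1)) atTop (𝓝 0) := by
      have := (tendsto_one_div_add_atTop_nhds_zero_nat (𝕜 := ℝ)).const_mul K
      rw [mul_zero] at this
      refine this.congr fun n => ?_
      rw [mul_one_div]
    have l4 := ((((l3.pow 2).mul_const U).const_add F).const_mul C)
    have e1 : C * (F + 0 ^ 2 * U) = C * F := by ring
    rw [e1] at l4
    exact l4
  exact le_of_tendsto_of_tendsto' l1 l2 key

end Pool.Agent.CR5
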