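import Pool.Agent.Lib.CR5.SpecDc

/-!
# CR5, block D: assembly of the uniform estimates (`S_cLIN`)
-/

open MeasureTheory Set Filter Topology
open scoped ENNReal ComplexConjugate

noncomputable section

namespace Pool.Agent.CR5

namespace DcLIN

theorem near_mono {a : Str} {m m' : ℕ} {ε ε' : ℝ} (h : Near a m ε) (hm : m' ≤ m) (h0 : 0 ≤ ε)
    (he : ε ≤ ε') : Near a m' ε' :=
  ⟨h.sm, h.out, fun j l i hi x => (h.bd j l i (hi.trans hm) x).trans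
    (pow_le_pow_left₀ h0 he 2)⟩

theorem sq_nonneg' : ∀ (n : ℕ) (f : E5 → ℂ) (x : E5), 0 ≤ sq n f x
  | 0, f, x => by simp only [sq]; positivity
  | n + 1, f, x => by
    simp only [sq]
    exact Finset.sum_nonneg fun k _ => sq_nonneg' n (pd k f) x

theorem hs_term_nonneg (Φ : F2) (i : ℕ) : 0 ≤ (∫ x, sq i (Φ 0) x) + ∫ x, sq i (Φ 1) x :=
  add_nonneg (integral_nonneg fun x => sq_nonneg' i (Φ 0) x)
    (integral_nonneg fun x => sq_nonneg' i (Φ 1) x)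

theorem hs_nonneg (m : ℕ) (Φ : F2) : 0 ≤ Hs m Φ :=
  Finset.sum_nonneg fun i _ => hs_term_nonneg Φ i

theorem hs_mono {m n : ℕ} (h : m ≤ n) (Φ : F2) : Hs m Φ ≤ Hs n Φ := by
  unfold Hs
  refine Finset.sum_le_sum_of_subset_of_nonneg ?_ fun i _ _ => hs_term_nonneg Φ i
  intro i hi
  simp only [Finset.mem_range] at hi ⊢
  omega

theorem zf4 (f : E5 → ℂ) : Zf 4 f = pd 4 f := by
  funext x
  simp [Zf, zco]

theorem cont_sZ {f : E5 → ℂ} (hf : Sm f) : Continuous (sZ f) := by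
  unfold sZ
  exact continuous_finsetSum _ fun k _ => (hf.Zf k).cont.norm

theorem intOn_ball {g : E5 → ℝ} (hg : Continuous g) : IntegrableOn g (Metric.ball (0 : E5) 1) :=
  (hg.continuousOn.integrableOn_compact (isCompact_closedBall (0 : E5) 1)).mono_set
    Metric.ball_subset_closedBall

theorem tst_of_out {f : E5 → ℂ} (hf : Sm f) (h : ∀ x, 1 ≤ ‖x‖ → f x = 0) : Tst f := by
  refine ⟨hf, HasCompactSupport.intro (isCompact_closedBall (0 : E5) 1) ?_⟩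
  intro x hx
  refine h x ?_
  simp only [Metric.mem_closedBall, dist_zero_right, not_le] at hx
  exact hx.le

/-- integral of the square of a function vanishing outside the ball, bounded on the ball -/
theorem int_sq_le {f : E5 → ℂ} {g : E5 → ℝ} (hf : Sm f) (h0 : ∀ x, 1 ≤ ‖x‖ → f x = 0)
    (hg : Continuous g) (h : ∀ x, ‖x‖ < 1 → ‖f x‖ ^ 2 ≤ g x) :
    ∫ x, ‖f x‖ ^ 2 ≤ ∫ x in Metric.ball (0 : E5) 1, g x := by
  have h1 : ∫ x, ‖f x‖ ^ 2 = ∫ x in Metric.ball (0 : E5) 1, ‖f x‖ ^ 2 := by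
    refine (setIntegral_eq_integral_of_forall_compl_eq_zero ?_).symm
    intro x hx
    simp only [Metric.mem_ball, dist_zero_right, not_lt] at hx
    rw [h0 x hx]; simp
  rw [h1]
  refine setIntegral_mono_on (intOn_ball (hf.cont.norm.pow 2)) (intOn_ball hg)
    Metric.isOpen_ball.measurableSet ?_
  intro x hx
  simp only [Metric.mem_ball, dist_zero_right] at hx
  exact h x hx

theorem sq4 (p q r s : ℂ) : ‖p - (q - r) - s‖ ^ 2
    ≤ 4 * (‖p‖ ^ 2 + ‖q‖ ^ 2 + ‖r‖ ^ 2 + ‖s‖ ^ 2) := by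
  have h1 : ‖p - (q - r) - s‖ ≤ ‖p‖ + ‖q‖ + ‖r‖ + ‖s‖ := by
    calc ‖p - (q - r) - s‖ ≤ ‖p - (q - r)‖ + ‖s‖ := norm_sub_le _ _
      _ ≤ (‖p‖ + ‖q - r‖) + ‖s‖ := by gcongr; exact norm_sub_le _ _
      _ ≤ (‖p‖ + (‖q‖ + ‖r‖)) + ‖s‖ := by gcongr; exact norm_sub_le _ _
      _ = _ := by ring
  have h2 : ‖p - (q - r) - s‖ ^ 2 ≤ (‖p‖ + ‖q‖ + ‖r‖ + ‖s‖) ^ 2 :=
    pow_le_pow_left₀ (norm_nonneg _) h1 2
  refine h2.trans ?_
  nlinarith [sq_nonneg (‖p‖ - ‖q‖), sq_nonneg (‖p‖ - ‖r‖), sq_nonneg (‖p‖ - ‖s‖),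
    sq_nonneg (‖q‖ - ‖r‖), sq_nonneg (‖q‖ - ‖s‖), sq_nonneg (‖r‖ - ‖s‖)]

theorem sq2 (p q : ℂ) : ‖p - q‖ ^ 2 ≤ 2 * (‖p‖ ^ 2 + ‖q‖ ^ 2) := by
  have h2 : ‖p - q‖ ^ 2 ≤ (‖p‖ + ‖q‖) ^ 2 := pow_le_pow_left₀ (norm_nonneg _) (norm_sub_le _ _) 2
  refine h2.trans ?_
  nlinarith [sq_nonneg (‖p‖ - ‖q‖)]

theorem L_le_gr (a : Str) (j : Fin 2) (f : E5 → ℂ) (x : E5) : ‖L a j f x‖ ^ 2 ≤ gr a f x := by
  unfold gr
  have h : ∀ k : Fin 2, 0 ≤ ‖L a k f x‖ ^ 2 + ‖Lb a k f x‖ ^ 2 := fun k => by positivity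
  calc ‖L a j f x‖ ^ 2 ≤ ‖L a j f x‖ ^ 2 + ‖Lb a j f x‖ ^ 2 := by
        have : 0 ≤ ‖Lb a j f x‖ ^ 2 := by positivity
        linarith
    _ ≤ _ := Finset.single_le_sum (f := fun k => ‖L a k f x‖ ^ 2 + ‖Lb a k f x‖ ^ 2)
        (fun k _ => h k) (Finset.mem_univ j)

theorem int4 {p q r s : E5 → ℝ} (hp : Integrable p) (hq : Integrable q) (hr : Integrable r)
    (hs : Integrable s) (c : ℝ) : ∫ x, 4 * (p x + c * q x + c * r x + s x)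
      = 4 * ((∫ x, p x) + c * (∫ x, q x) + c * (∫ x, r x) + ∫ x, s x) := by
  have hq' : Integrable (fun x => c * q x) := hq.const_mul c
  have hr' : Integrable (fun x => c * r x) := hr.const_mul c
  have h1 : Integrable (fun x => p x + c * q x) := hp.add hq'
  have h2 : Integrable (fun x => p x + c * q x + c * r x) := h1.add hr'
  rw [integral_const_mul, integral_add h2 hs, integral_add h1 hr', integral_add hp hq',
    integral_const_mul, integral_const_mul]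

/-- the square norm of `D1` in terms of the gradients -/
theorem D1_sq {a : Str} (ha : Outs a) (hMem : S_cMem) {w : F2} (hw : ∀ j, WW (w j)) {K : ℝ}
    (hK : ∀ j, (∫ x, gr a (w j) x) ≤ K) :
    MemLp (D1 a w) 2 ∧ ∫ x, ‖D1 a w x‖ ^ 2 ≤ 4 * K := by
  have m0 := hMem a ha (w 0) (hw 0)
  have m1 := hMem a ha (w 1) (hw 1)
  have hm : MemLp (D1 a w) 2 := (m1.2 0).1.sub (m0.2 1).1
  refine ⟨hm, ?_⟩
  have hi : Integrable (fun x => ‖D1 a w x‖ ^ 2) := hm.integrable_norm_pow (by norm_num)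
  have h : ∫ x, ‖D1 a w x‖ ^ 2 ≤ ∫ x, (2 * gr a (w 1) x + 2 * gr a (w 0) x) := by
    refine integral_mono hi ((m1.1.const_mul 2).add (m0.1.const_mul 2)) ?_
    intro x
    have h1 := sq2 (L a 0 (w 1) x) (L a 1 (w 0) x)
    have h2 := L_le_gr a 0 (w 1) x
    have h3 := L_le_gr a 1 (w 0) x
    show ‖L a 0 (w 1) x - L a 1 (w 0) x‖ ^ 2 ≤ _
    linarith
  rw [integral_add (m1.1.const_mul 2) (m0.1.const_mul 2), integral_const_mul,
    integral_const_mul] at h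
  have := hK 0
  have := hK 1
  linarith

end DcLIN

open DcLIN in
theorem pcLIN (hUNI : S_cUNI) (hMem : S_cMem) (hY2 : S_cY2) (hEll : S_cEll) (hKs : S_cKs)
    (hKap : S_cKap) (hZA : S_cZA) : S_cLIN := by
  obtain ⟨ε1, hε1, C1, hC1, H1⟩ := hUNI
  obtain ⟨ε2, hε2, C2, hC2, H2⟩ := hEll
  obtain ⟨ε3, hε3, C3, hC3, H3⟩ := hZA
  refine ⟨min ε1 (min ε2 ε3), by positivity, C2 * (216 * C3 + 4 + 32 * C1) + C1, by positivity, ?_⟩
  intro a hN Φ hΦ hΦ0 e he0 he1 w hw hB κ hκ hκ'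
  have hε : 0 ≤ min ε1 (min ε2 ε3) := by positivity
  have hN1 : Near a 4 ε1 := near_mono hN le_rfl hε (min_le_left _ _)
  have hN2 : Near a 2 ε2 := near_mono hN (by norm_num) hε
    ((min_le_right _ _).trans (min_le_left _ _))
  have hN3 : Near a 4 ε3 := near_mono hN le_rfl hε ((min_le_right _ _).trans (min_le_right _ _))
  have ha : SmS a := hN.sm
  have hO : Outs a := ⟨hN.sm, hN.out⟩
  obtain ⟨U1, U2, U3, U4⟩ := H1 a hN1 Φ hΦ hΦ0 e he0 he1 w hw hB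
  have hκ0 : 0 ≤ κ := (norm_nonneg _).trans (hκ 0 0)
  have hH0 := hs_nonneg 0 Φ
  have hH1 := hs_nonneg 1 Φ
  have hH2 := hs_nonneg 2 Φ
  have hH02 : Hs 0 Φ ≤ Hs 2 Φ := hs_mono (by norm_num) Φ
  refine ⟨U1.trans ?_, ?_⟩
  · have : 0 ≤ C2 * (216 * C3 + 4 + 32 * C1) * Hs 0 Φ := by positivity
    nlinarith
  -- notation
  have hsw : ∀ j, Sm (w j) := fun j => (hw j []).sm
  have hww : ∀ j, WW (w j) := fun j => hw j []
  have hz4 : ∀ j, Zf 4 (Zf 4 (w j)) = pd 4 (pd 4 (w j)) := by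
    intro j; rw [zf4, zf4]
  have hwtt : ∀ j, WW (pd 4 (pd 4 (w j))) := by
    intro j
    have := hw j [4, 4]
    have e1 : ZL [4, 4] (w j) = Zf 4 (Zf 4 (w j)) := rfl
    rw [e1, hz4] at this
    exact this
  have hA : Sm (D0s a w) := Sm.D0s ha hsw
  have hv : Sm (D1 a w) := Sm.D1 ha hsw
  have hy : ∀ j, Sm (D1s a (D1 a w) j) := fun j => hv.D1s ha j
  -- the equation
  have hBe : ∀ j x, L a j (D0s a w) x + D1s a (D1 a w) j x
      = Φ j x - (e : ℂ) * (w j x - pd 4 (pd 4 (w j)) x) := by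
    intro j x
    have := hB j x
    simp only [BoxE, Box, D0] at this
    linear_combination this
  have hg : ∀ j, MemLp (fun x => L a j (D0s a w) x + D1s a (D1 a w) j x) 2 := by
    intro j
    have e1 : (fun x => L a j (D0s a w) x + D1s a (D1 a w) j x)
        = fun x => Φ j x - (e : ℂ) * (w j x - pd 4 (pd 4 (w j)) x) := funext (hBe j)
    rw [e1]
    exact (hΦ j).memLp.sub (((hww j).l2.sub (hwtt j).l2).const_mul (e : ℂ))
  have hD1w := D1_sq hO hMem hww (K := C1 * Hs 2 Φ)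
    (fun j => (U2 j).trans (mul_le_mul_of_nonneg_left hH02 hC1.le))
  have hD1tt := D1_sq (w := fun j => pd 4 (pd 4 (w j))) hO hMem hwtt (K := C1 * Hs 2 Φ)
    (fun j => by
      have := U4 j 4 4
      rwa [hz4 j] at this)
  -- Kap A
  have hKA0 : ∀ x, 1 ≤ ‖x‖ → Kap a (D0s a w) x = 0 := fun x hx =>
    ((hKap a hO κ hκ hκ' (D0s a w) hA x).1 hx).1
  have hKAt : Tst (Kap a (D0s a w)) := tst_of_out (Sm.Kap ha hA) hKA0
  have hKv0 : ∀ x, 1 ≤ ‖x‖ → Kaps a (D1 a w) x = 0 := fun x hx =>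
    ((hKap a hO κ hκ hκ' (D1 a w) hv x).1 hx).2
  have hKvt : Tst (Kaps a (D1 a w)) := tst_of_out (Sm.Kaps ha hv) hKv0
  have hyL : ∀ j, MemLp (D1s a (D1 a w) j) 2 :=
    hY2 a hO (D0s a w) (D1 a w) hA hv hD1w.1 hKAt.memLp hg
  have hD0y : D0s a (D1s a (D1 a w)) = Kaps a (D1 a w) := funext (hKs a ha (D1 a w) hv)
  have hD0yL : MemLp (D0s a (D1s a (D1 a w))) 2 := by rw [hD0y]; exact hKvt.memLp
  -- D1 y
  have hye : ∀ j, D1s a (D1 a w) j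
      = fun x => (Φ j x - (e : ℂ) * (w j x - pd 4 (pd 4 (w j)) x)) - L a j (D0s a w) x := by
    intro j
    funext x
    have := hBe j x
    linear_combination this
  have hwt : ∀ j, Sm (fun x => w j x - pd 4 (pd 4 (w j)) x) := fun j => (hsw j).sub (hwtt j).sm
  have hLy : ∀ (i j : Fin 2) (x : E5), L a i (D1s a (D1 a w) j) x
      = L a i (Φ j) x - (e : ℂ) * (L a i (w j) x - L a i (pd 4 (pd 4 (w j))) x)
        - L a i (L a j (D0s a w)) x := by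
    intro i j x
    rw [hye j, L_sub ((hΦ j).sm.sub ((Sm.const _).mul (hwt j))) (hA.L ha j),
      L_sub (hΦ j).sm ((Sm.const _).mul (hwt j)), L_const_mul (hwt j),
      L_sub (hsw j) (hwtt j).sm]
  have hD1y : ∀ x, D1 a (D1s a (D1 a w)) x
      = D1 a Φ x - ((e : ℂ) * D1 a w x - (e : ℂ) * D1 a (fun j => pd 4 (pd 4 (w j))) x)
        - Kap a (D0s a w) x := by
    intro x
    rw [← D1_D0 ha hA]
    simp only [D1, D0, hLy]
    ring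
  have hDΦ : Tst (D1 a Φ) := (Tst.L ha 0 (hΦ 1)).sub (Tst.L ha 1 (hΦ 0))
  have hD1yL : MemLp (D1 a (D1s a (D1 a w))) 2 := by
    have e1 : D1 a (D1s a (D1 a w)) = fun x => D1 a Φ x - ((e : ℂ) * D1 a w x
        - (e : ℂ) * D1 a (fun j => pd 4 (pd 4 (w j))) x) - Kap a (D0s a w) x := funext hD1y
    rw [e1]
    exact (hDΦ.memLp.sub ((hD1w.1.const_mul (e : ℂ)).sub (hD1tt.1.const_mul (e : ℂ)))).sub
      hKAt.memLp
  have key := H2 a hN2 (D1s a (D1 a w)) hy hyL hD0yL hD1yL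
  obtain ⟨Z1, Z2⟩ := H3 a hN3 Φ hΦ hΦ0 e he0 he1 w hw hB
  -- bound of D0* y
  have b1 : ∫ x, ‖D0s a (D1s a (D1 a w)) x‖ ^ 2 ≤ 72 * κ ^ 2 * (C3 * Hs 1 Φ) := by
    rw [hD0y]
    have h1 := int_sq_le (f := Kaps a (D1 a w))
      (g := fun x => 72 * κ ^ 2 * (‖D1 a w x‖ ^ 2 + sZ (D1 a w) x ^ 2)) (Sm.Kaps ha hv) hKv0
      ((continuous_const.mul ((hv.cont.norm.pow 2).add ((cont_sZ hv).pow 2)))) (by
        intro x hx
        have h2 := ((hKap a hO κ hκ hκ' (D1 a w) hv x).2 hx).2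
        have h3 : ‖Kaps a (D1 a w) x‖ ^ 2 ≤ (6 * κ * (‖D1 a w x‖ + sZ (D1 a w) x)) ^ 2 :=
          pow_le_pow_left₀ (norm_nonneg _) h2 2
        refine h3.trans ?_
        have h4 : (‖D1 a w x‖ + sZ (D1 a w) x) ^ 2
            ≤ 2 * (‖D1 a w x‖ ^ 2 + sZ (D1 a w) x ^ 2) := by
          nlinarith [sq_nonneg (‖D1 a w x‖ - sZ (D1 a w) x)]
        have h5 : 0 ≤ 36 * κ ^ 2 := by positivity
        calc (6 * κ * (‖D1 a w x‖ + sZ (D1 a w) x)) ^ 2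
            = 36 * κ ^ 2 * (‖D1 a w x‖ + sZ (D1 a w) x) ^ 2 := by ring
          _ ≤ 36 * κ ^ 2 * (2 * (‖D1 a w x‖ ^ 2 + sZ (D1 a w) x ^ 2)) :=
              mul_le_mul_of_nonneg_left h4 h5
          _ = _ := by ring)
    rw [integral_const_mul] at h1
    refine h1.trans ?_
    exact mul_le_mul_of_nonneg_left Z2 (by positivity)
  -- bound of Kap A
  have b2 : ∫ x, ‖Kap a (D0s a w) x‖ ^ 2 ≤ 36 * κ ^ 2 * (C3 * Hs 1 Φ) := by
    have h1 := int_sq_le (f := Kap a (D0s a w))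
      (g := fun x => 36 * κ ^ 2 * (sZ (D0s a w) x ^ 2)) (Sm.Kap ha hA) hKA0
      (continuous_const.mul ((cont_sZ hA).pow 2)) (by
        intro x hx
        have h2 := ((hKap a hO κ hκ hκ' (D0s a w) hA x).2 hx).1
        have h3 : ‖Kap a (D0s a w) x‖ ^ 2 ≤ (6 * κ * sZ (D0s a w) x) ^ 2 :=
          pow_le_pow_left₀ (norm_nonneg _) h2 2
        refine h3.trans (le_of_eq ?_)
        ring)
    rw [integral_const_mul] at h1
    refine h1.trans ?_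
    exact mul_le_mul_of_nonneg_left Z1 (by positivity)
  -- bound of D1 y
  have b3 : ∫ x, ‖D1 a (D1s a (D1 a w)) x‖ ^ 2 ≤ 4 * ((∫ x, ‖D1 a Φ x‖ ^ 2)
      + e ^ 2 * (∫ x, ‖D1 a w x‖ ^ 2)
      + e ^ 2 * (∫ x, ‖D1 a (fun j => pd 4 (pd 4 (w j))) x‖ ^ 2)
      + ∫ x, ‖Kap a (D0s a w) x‖ ^ 2) := by
    have i1 : Integrable (fun x => ‖D1 a Φ x‖ ^ 2) :=
      hDΦ.memLp.integrable_norm_pow (by norm_num)
    have i2 : Integrable (fun x => ‖D1 a w x‖ ^ 2) := hD1w.1.integrable_norm_pow (by norm_num)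
    have i3 : Integrable (fun x => ‖D1 a (fun j => pd 4 (pd 4 (w j))) x‖ ^ 2) :=
      hD1tt.1.integrable_norm_pow (by norm_num)
    have i4 : Integrable (fun x => ‖Kap a (D0s a w) x‖ ^ 2) :=
      hKAt.memLp.integrable_norm_pow (by norm_num)
    have i0 : Integrable (fun x => ‖D1 a (D1s a (D1 a w)) x‖ ^ 2) :=
      hD1yL.integrable_norm_pow (by norm_num)
    have h1 : ∫ x, ‖D1 a (D1s a (D1 a w)) x‖ ^ 2 ≤ ∫ x, 4 * (‖D1 a Φ x‖ ^ 2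
        + e ^ 2 * ‖D1 a w x‖ ^ 2 + e ^ 2 * ‖D1 a (fun j => pd 4 (pd 4 (w j))) x‖ ^ 2
        + ‖Kap a (D0s a w) x‖ ^ 2) := by
      refine integral_mono i0 ((((i1.add (i2.const_mul _)).add (i3.const_mul _)).add i4).const_mul 4)
        ?_
      intro x
      show ‖D1 a (D1s a (D1 a w)) x‖ ^ 2 ≤ _
      rw [hD1y x]
      refine (sq4 _ _ _ _).trans (le_of_eq ?_)
      have hn : ‖(e : ℂ)‖ = e := by
        rw [Complex.norm_real, Real.norm_eq_abs, abs_of_pos he0]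
      rw [norm_mul, norm_mul, hn]
      ring
    rw [int4 i1 i2 i3 i4 (e ^ 2)] at h1
    exact h1
  have hP : 0 ≤ ∫ x, ‖D1 a Φ x‖ ^ 2 := integral_nonneg fun x => by positivity
  have he2 : 0 ≤ e ^ 2 := by positivity
  have b4 : ∫ x, ‖D1 a (D1s a (D1 a w)) x‖ ^ 2 ≤ 4 * ((∫ x, ‖D1 a Φ x‖ ^ 2)
      + e ^ 2 * (8 * (C1 * Hs 2 Φ)) + 36 * κ ^ 2 * (C3 * Hs 1 Φ)) := by
    have h1 := mul_le_mul_of_nonneg_left hD1w.2 he2
    have h2 := mul_le_mul_of_nonneg_left hD1tt.2 he2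
    linarith
  refine key.trans ?_
  have b5 : (∫ x, ‖D0s a (D1s a (D1 a w)) x‖ ^ 2) + ∫ x, ‖D1 a (D1s a (D1 a w)) x‖ ^ 2
      ≤ (216 * C3 + 4 + 32 * C1) * ((∫ x, ‖D1 a Φ x‖ ^ 2) + κ ^ 2 * Hs 1 Φ + e ^ 2 * Hs 2 Φ) := by
    have hk : 0 ≤ κ ^ 2 * Hs 1 Φ := by positivity
    have hl : 0 ≤ e ^ 2 * Hs 2 Φ := by positivity
    have e1 : (216 * C3 + 4 + 32 * C1) * ((∫ x, ‖D1 a Φ x‖ ^ 2) + κ ^ 2 * Hs 1 Φ
        + e ^ 2 * Hs 2 Φ) - (72 * κ ^ 2 * (C3 * Hs 1 Φ) + 4 * ((∫ x, ‖D1 a Φ x‖ ^ 2)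
      + e ^ 2 * (8 * (C1 * Hs 2 Φ)) + 36 * κ ^ 2 * (C3 * Hs 1 Φ)))
        = (216 * C3 + 32 * C1) * (∫ x, ‖D1 a Φ x‖ ^ 2) + (4 + 32 * C1) * (κ ^ 2 * Hs 1 Φ)
          + (216 * C3 + 4) * (e ^ 2 * Hs 2 Φ) := by ring
    have e2 : 0 ≤ (216 * C3 + 32 * C1) * (∫ x, ‖D1 a Φ x‖ ^ 2)
        + (4 + 32 * C1) * (κ ^ 2 * Hs 1 Φ) + (216 * C3 + 4) * (e ^ 2 * Hs 2 Φ) := by positivity
    linarith
  have hT : 0 ≤ (∫ x, ‖D1 a Φ x‖ ^ 2) + κ ^ 2 * Hs 1 Φ + e ^ 2 * Hs 2 Φ := by positivity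
  calc C2 * ((∫ x, ‖D0s a (D1s a (D1 a w)) x‖ ^ 2) + ∫ x, ‖D1 a (D1s a (D1 a w)) x‖ ^ 2)
      ≤ C2 * ((216 * C3 + 4 + 32 * C1) * ((∫ x, ‖D1 a Φ x‖ ^ 2) + κ ^ 2 * Hs 1 Φ
        + e ^ 2 * Hs 2 Φ)) := mul_le_mul_of_nonneg_left b5 hC2.le
    _ ≤ (C2 * (216 * C3 + 4 + 32 * C1) + C1) * ((∫ x, ‖D1 a Φ x‖ ^ 2) + κ ^ 2 * Hs 1 Φ
        + e ^ 2 * Hs 2 Φ) := by
        have := mul_nonneg hC1.le hT
        nlinarith

end Pool.Agent.CR5
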