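import Pool.Agent.Lib.CR5.SpecDa
import Pool.Agent.Lib.CR5.D.cCom
import Pool.Agent.Lib.CR5.D.cLIN
import Pool.Agent.Lib.CR5.F.Sq

/-!
# CR5, block D, aHs: derivatives of the right side
-/

open MeasureTheory Set Filter Topology
open scoped ENNReal ComplexConjugate

noncomputable section

namespace Pool.Agent.CR5

namespace aHsx

open cComx

theorem int_sq (i : ℕ) {q : E5 → ℂ} (h : Tst q) : Integrable (sq i q) volume := by
  refine (sq_continuous i h.sm).integrable_of_hasCompactSupport ?_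
  refine HasCompactSupport.intro h.cs.isCompact ?_
  intro x hx
  have h1 : sq i q x = sq i (fun _ => (0 : ℂ)) x :=
    sq_eq_of_open (isClosed_tsupport q).isOpen_compl
      (fun y hy => image_eq_zero_of_notMem_tsupport hy) hx
  rw [h1, sq_zero_fun]

/-- comparison of integrals -/
theorem ib {u v : E5 → ℝ} (hu : Continuous u) (hv : Integrable v volume) (hv0 : ∀ x, 0 ≤ v x)
    (h : ∀ x, ‖x‖ < 1 → u x ≤ v x) : ∫ x in Metric.ball (0 : E5) 1, u x ≤ ∫ x, v x := by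
  have h1 : ∫ x in Metric.ball (0 : E5) 1, u x ≤ ∫ x in Metric.ball (0 : E5) 1, v x := by
    refine setIntegral_mono_on (DcLIN.intOn_ball hu) hv.integrableOn measurableSet_ball ?_
    intro x hx
    exact h x (mem_ball_zero_iff.1 hx)
  exact h1.trans (setIntegral_le_integral hv (Eventually.of_forall hv0))

theorem nz (k : Fin 5) (g : E5 → ℂ) {x : E5} (hx : ‖x‖ ≤ 1) :
    ‖Zf k g x‖ ^ 2 ≤ 2 * ‖pd k g x‖ ^ 2 + 8 * ‖pd 4 g x‖ ^ 2 := by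
  rw [Zf_eq]
  have h1 := norm_add_le (pd k g x) (zs k x * pd 4 g x)
  rw [norm_mul] at h1
  have h2 : ‖zs k x‖ * ‖pd 4 g x‖ ≤ 2 * ‖pd 4 g x‖ :=
    mul_le_mul_of_nonneg_right (zs_le k hx) (norm_nonneg _)
  have h3 : ‖pd k g x + zs k x * pd 4 g x‖ ≤ ‖pd k g x‖ + 2 * ‖pd 4 g x‖ := by linarith
  have h4 := pow_le_pow_left₀ (norm_nonneg _) h3 2
  nlinarith [sq_nonneg (‖pd k g x‖ - 2 * ‖pd 4 g x‖)]

theorem s1 (i : Fin 5) (g : E5 → ℂ) (x : E5) : ‖pd i g x‖ ^ 2 ≤ sq 1 g x := by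
  have := sq_pd_le 0 g i x
  rwa [sq_zero'] at this

theorem s2 (i k : Fin 5) (g : E5 → ℂ) (x : E5) : ‖pd i (pd k g) x‖ ^ 2 ≤ sq 2 g x :=
  (s1 i (pd k g) x).trans (sq_pd_le 1 g k x)

theorem z1 (k : Fin 5) (g : E5 → ℂ) {x : E5} (hx : ‖x‖ ≤ 1) :
    ‖Zf k g x‖ ^ 2 ≤ 10 * sq 1 g x := by
  have := nz k g hx
  linarith [s1 k g x, s1 4 g x]

theorem z2 (i k : Fin 5) {g : E5 → ℂ} (hg : Sm g) {x : E5} (hx : ‖x‖ ≤ 1) :
    ‖pd i (Zf k g) x‖ ^ 2 ≤ 15 * (sq 1 g x + sq 2 g x) := by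
  have e : pd i (Zf k g) x
      = pd i (pd k g) x + (zs k x * pd i (pd 4 g) x + pd i (zs k) x * pd 4 g x) := by
    have e0 : Zf k g = fun y => pd k g y + zs k y * pd 4 g y := rfl
    rw [e0, pd_add (hg.pd k) ((sm_zs k).mul (hg.pd 4)), pd_mul (sm_zs k) (hg.pd 4)]
  have h1 := norm_add₃_le (a := pd i (pd k g) x) (b := zs k x * pd i (pd 4 g) x)
    (c := pd i (zs k) x * pd 4 g x)
  rw [norm_mul, norm_mul, add_assoc (pd i (pd k g) x), ← e] at h1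
  have h2 : ‖zs k x‖ * ‖pd i (pd 4 g) x‖ ≤ 2 * ‖pd i (pd 4 g) x‖ :=
    mul_le_mul_of_nonneg_right (zs_le k hx) (norm_nonneg _)
  have h3 : ‖pd i (zs k) x‖ * ‖pd 4 g x‖ ≤ 2 * ‖pd 4 g x‖ :=
    mul_le_mul_of_nonneg_right (pd_zs_le i k x) (norm_nonneg _)
  have h4 : ‖pd i (Zf k g) x‖ ≤ ‖pd i (pd k g) x‖ + 2 * ‖pd i (pd 4 g) x‖ + 2 * ‖pd 4 g x‖ := by
    linarith
  have h5 := pow_le_pow_left₀ (norm_nonneg _) h4 2
  have h6 := s2 i k g x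
  have h7 := s2 i 4 g x
  have h8 := s1 4 g x
  have h9 : (‖pd i (pd k g) x‖ + 2 * ‖pd i (pd 4 g) x‖ + 2 * ‖pd 4 g x‖) ^ 2
      ≤ 3 * (‖pd i (pd k g) x‖ ^ 2 + 4 * ‖pd i (pd 4 g) x‖ ^ 2 + 4 * ‖pd 4 g x‖ ^ 2) := by
    nlinarith [sq_nonneg (‖pd i (pd k g) x‖ - 2 * ‖pd i (pd 4 g) x‖),
      sq_nonneg (‖pd i (pd k g) x‖ - 2 * ‖pd 4 g x‖),
      sq_nonneg (2 * ‖pd i (pd 4 g) x‖ - 2 * ‖pd 4 g x‖)]
  have h10 := sq_nonneg' 1 g x
  linarith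

theorem z3 (l k : Fin 5) {g : E5 → ℂ} (hg : Sm g) {x : E5} (hx : ‖x‖ ≤ 1) :
    ‖Zf l (Zf k g) x‖ ^ 2 ≤ 150 * (sq 1 g x + sq 2 g x) := by
  have h1 := nz l (Zf k g) hx
  have h2 := z2 l k hg hx
  have h3 := z2 4 k hg hx
  linarith

theorem hs_term (Φ : F2) {i m : ℕ} (hi : i ≤ m) (j : Fin 2) :
    ∫ x, sq i (Φ j) x ≤ Hs m Φ := by
  have h1 : (∫ x, sq i (Φ 0) x) + ∫ x, sq i (Φ 1) x ≤ Hs m Φ :=
    Finset.single_le_sum (f := fun i => (∫ x, sq i (Φ 0) x) + ∫ x, sq i (Φ 1) x)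
      (fun i _ => DcLIN.hs_term_nonneg Φ i) (Finset.mem_range.2 (by omega))
  have h2 : ∀ j, 0 ≤ ∫ x, sq i (Φ j) x := fun j => integral_nonneg fun x => sq_nonneg' i (Φ j) x
  have h3 := h2 0
  have h4 := h2 1
  fin_cases j
  · show ∫ x, sq i (Φ 0) x ≤ Hs m Φ
    linarith
  · show ∫ x, sq i (Φ 1) x ≤ Hs m Φ
    linarith

end aHsx

open aHsx in
theorem paHs : S_aHs := by
  refine ⟨300, by norm_num, ?_⟩
  intro Φ hΦ
  refine ⟨?_, ?_, ?_, DcLIN.hs_nonneg 0 Φ, DcLIN.hs_mono (by omega) Φ, DcLIN.hs_mono (by omega) Φ⟩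
  · intro j
    refine (ib (v := sq 0 (Φ j)) ((hΦ j).sm.cont.norm.pow 2) (int_sq 0 (hΦ j))
      (sq_nonneg' 0 (Φ j)) ?_).trans (hs_term Φ le_rfl j)
    intro x _
    exact le_of_eq rfl
  · intro j k
    have h1 : ∫ x in Metric.ball (0 : E5) 1, ‖Zf k (Φ j) x‖ ^ 2 ≤ ∫ x, 10 * sq 1 (Φ j) x :=
      ib (((hΦ j).sm.Zf k).cont.norm.pow 2) ((int_sq 1 (hΦ j)).const_mul 10)
        (fun x => mul_nonneg (by norm_num) (sq_nonneg' 1 (Φ j) x)) fun x hx => z1 k (Φ j) hx.le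
    rw [integral_const_mul] at h1
    have h2 := hs_term Φ (le_refl 1) j
    have h3 := DcLIN.hs_nonneg 1 Φ
    linarith
  · intro j k l
    have i12 : Integrable (fun x => sq 1 (Φ j) x + sq 2 (Φ j) x) volume :=
      (int_sq 1 (hΦ j)).add (int_sq 2 (hΦ j))
    have h1 : ∫ x in Metric.ball (0 : E5) 1, ‖Zf l (Zf k (Φ j)) x‖ ^ 2
        ≤ ∫ x, 150 * (sq 1 (Φ j) x + sq 2 (Φ j) x) :=
      ib ((((hΦ j).sm.Zf k).Zf l).cont.norm.pow 2) (i12.const_mul 150)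
        (fun x => mul_nonneg (by norm_num) (add_nonneg (sq_nonneg' 1 (Φ j) x)
          (sq_nonneg' 2 (Φ j) x))) fun x hx => z3 l k (hΦ j).sm hx.le
    rw [integral_const_mul, integral_add (int_sq 1 (hΦ j)) (int_sq 2 (hΦ j))] at h1
    have h2 := hs_term Φ (show 1 ≤ 2 by omega) j
    have h3 := hs_term Φ (le_refl 2) j
    linarith

end Pool.Agent.CR5
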