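import Pool.Agent.Lib.CR5.SpecDa

/-!
# CR5, block D: integrated bounds (helper57)
-/

set_option autoImplicit false

open MeasureTheory Set Filter Topology
open scoped ENNReal ComplexConjugate

noncomputable section

namespace Pool.Agent.CR5

namespace aIx

theorem near_mono {a : Str} {ε δ : ℝ} (h : Near a 4 ε) (h0 : 0 ≤ ε) (h1 : ε ≤ δ) : Near a 2 δ :=
  ⟨h.sm, h.out, fun j l i hi x => (h.bd j l i (by omega) x).trans (by nlinarith)⟩

theorem near_outs {a : Str} {ε : ℝ} (h : Near a 4 ε) : Outs a := ⟨h.sm, h.out⟩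

theorem dv_a0 (j : Fin 2) (x : E5) : dv a0 j x = 0 := by
  have h0 : (fun y => conj (a0 j 0 y)) = fun _ => 0 := by
    funext y
    simp [a0]
  have h1 : (fun y => conj (a0 j 1 y)) = fun _ => 0 := by
    funext y
    simp [a0]
  have h2 : a0 j 2 = fun y => (-Complex.I) * zc j y := by
    funext y
    simp [a0]
  unfold dv
  rw [Fin.sum_univ_three, h0, h1, db_const, db_const, db_conj (smS_a0 j 2), h2,
    dz_const_mul (Sm.zc j), geo_dz_zc]
  have h3 : ¬ ((2 : Fin 3) = j.castSucc) := by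
    fin_cases j <;> decide
  rw [if_neg h3]
  simp

theorem dz_le {g : E5 → ℂ} {x : E5} (h : ∀ i, ‖pd i g x‖ ≤ 1) (l : Fin 3) : ‖dz l g x‖ ≤ 1 := by
  have key : ∀ u v : ℂ, ‖u‖ ≤ 1 → ‖v‖ ≤ 1 → ‖(u - Complex.I * v) / 2‖ ≤ 1 := by
    intro u v hu hv
    rw [norm_div, Complex.norm_ofNat]
    have h1 := norm_sub_le u (Complex.I * v)
    rw [norm_mul, Complex.norm_I, one_mul] at h1
    linarith
  rcases fin3_cases l with rfl | rfl | rfl
  · rw [dz_zero]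
    exact key _ _ (h 0) (h 1)
  · rw [dz_one]
    exact key _ _ (h 2) (h 3)
  · rw [dz_two]
    exact h 4

theorem dv_le {a : Str} {ε : ℝ} (h : Near a 4 ε) (h0 : 0 ≤ ε) (h1 : ε ≤ 1) (j : Fin 2) (x : E5) :
    ‖dv a j x‖ ≤ 3 := by
  have hb : ∀ l, Sm fun y => a j l y - a0 j l y := fun l => (h.sm j l).sub (smS_a0 j l)
  have hp : ∀ (l : Fin 3) (i : Fin 5), ‖pd i (fun y => a j l y - a0 j l y) x‖ ≤ 1 := by
    intro l i
    have h2 := h.bd j l 1 (by norm_num) x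
    have h3 : ‖pd i (fun y => a j l y - a0 j l y) x‖ ^ 2
        ≤ sq 1 (fun y => a j l y - a0 j l y) x := by
      show _ ≤ ∑ k : Fin 5, ‖pd k (fun y => a j l y - a0 j l y) x‖ ^ 2
      exact Finset.single_le_sum (f := fun k : Fin 5 => ‖pd k (fun y => a j l y - a0 j l y) x‖ ^ 2)
        (fun k _ => sq_nonneg _) (Finset.mem_univ i)
    have h4 : ‖pd i (fun y => a j l y - a0 j l y) x‖ ^ 2 ≤ 1 := by nlinarith
    exact (sq_le_one_iff₀ (norm_nonneg _)).1 h4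
  have e : dv a j x = ∑ l, db l (fun y => conj (a j l y - a0 j l y)) x := by
    have h5 := dv_a0 j x
    unfold dv at h5 ⊢
    rw [← sub_zero (∑ l, db l (fun y => conj (a j l y)) x), ← h5, ← Finset.sum_sub_distrib]
    refine Finset.sum_congr rfl fun l _ => ?_
    rw [← db_sub (h.sm j l).conj (smS_a0 j l).conj]
    congr 1
    funext y
    rw [map_sub]
  rw [e]
  refine (norm_sum_le _ _).trans ?_
  have h6 : ∀ l ∈ (Finset.univ : Finset (Fin 3)),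
      ‖db l (fun y => conj (a j l y - a0 j l y)) x‖ ≤ 1 := by
    intro l _
    rw [db_conj (hb l), RCLike.norm_conj]
    exact dz_le (hp l) l
  refine (Finset.sum_le_card_nsmul _ _ _ h6).trans ?_
  simp

theorem gr_nonneg (a : Str) (f : E5 → ℂ) (x : E5) : 0 ≤ gr a f x := by
  unfold gr
  exact Finset.sum_nonneg fun j _ => by positivity

theorem L_sq (a : Str) (f : E5 → ℂ) (j : Fin 2) (x : E5) : ‖L a j f x‖ ^ 2 ≤ gr a f x := by
  unfold gr
  refine le_trans ?_ (Finset.single_le_sum (f := fun j : Fin 2 => ‖L a j f x‖ ^ 2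
    + ‖Lb a j f x‖ ^ 2) (fun k _ => by positivity) (Finset.mem_univ j))
  have : 0 ≤ ‖Lb a j f x‖ ^ 2 := sq_nonneg _
  linarith

theorem Lb_sq (a : Str) (f : E5 → ℂ) (j : Fin 2) (x : E5) : ‖Lb a j f x‖ ^ 2 ≤ gr a f x := by
  unfold gr
  refine le_trans ?_ (Finset.single_le_sum (f := fun j : Fin 2 => ‖L a j f x‖ ^ 2
    + ‖Lb a j f x‖ ^ 2) (fun k _ => by positivity) (Finset.mem_univ j))
  have : 0 ≤ ‖L a j f x‖ ^ 2 := sq_nonneg _
  linarith

/-- the quantity to be integrated -/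
def Q (a : Str) (v : F2) (x : E5) : ℝ :=
  (gr a (v 0) x + gr a (v 1) x) + (‖v 0 x‖ ^ 2 + ‖v 1 x‖ ^ 2)

/-- `|D v| + |v|` -/
def R (a : Str) (v : F2) (x : E5) : ℝ := T0 a v x + N0 v x

theorem sq_add_le (u v : ℝ) : (u + v) ^ 2 ≤ 2 * (u ^ 2 + v ^ 2) := by nlinarith [sq_nonneg (u - v)]

theorem nsq (u v : ℂ) : ‖u + v‖ ^ 2 ≤ 2 * (‖u‖ ^ 2 + ‖v‖ ^ 2) := by
  have h := norm_add_le u v
  have h1 := norm_nonneg (u + v)
  nlinarith [sq_add_le ‖u‖ ‖v‖]

theorem nsq' (u v : ℂ) : ‖u - v‖ ^ 2 ≤ 2 * (‖u‖ ^ 2 + ‖v‖ ^ 2) := by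
  have h := nsq u (-v)
  rwa [norm_neg, ← sub_eq_add_neg] at h

theorem Ls_sq {a : Str} {ε : ℝ} (h : Near a 4 ε) (h0 : 0 ≤ ε) (h1 : ε ≤ 1) {f : E5 → ℂ}
    (hf : Sm f) (j : Fin 2) (x : E5) : ‖Ls a j f x‖ ^ 2 ≤ 2 * gr a f x + 18 * ‖f x‖ ^ 2 := by
  rw [Ls_eq h.sm hf]
  refine (nsq' _ _).trans ?_
  rw [norm_neg, norm_mul]
  have h2 := Lb_sq a f j x
  have h3 : (‖dv a j x‖ * ‖f x‖) ^ 2 ≤ 9 * ‖f x‖ ^ 2 := by
    rw [mul_pow]
    have h4 : ‖dv a j x‖ ^ 2 ≤ 9 := by nlinarith [dv_le h h0 h1 j x, norm_nonneg (dv a j x)]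
    exact mul_le_mul_of_nonneg_right h4 (sq_nonneg _)
  linarith

theorem R_sq {a : Str} {ε : ℝ} (h : Near a 4 ε) (h0 : 0 ≤ ε) (h1 : ε ≤ 1) {v : F2}
    (hv : ∀ j, Sm (v j)) (x : E5) : R a v x ^ 2 ≤ 300 * Q a v x := by
  have e1 : ‖D0s a v x‖ ^ 2 ≤ 2 * (‖Ls a 0 (v 0) x‖ ^ 2 + ‖Ls a 1 (v 1) x‖ ^ 2) := nsq _ _
  have e2 : ‖D1 a v x‖ ^ 2 ≤ 2 * (‖L a 0 (v 1) x‖ ^ 2 + ‖L a 1 (v 0) x‖ ^ 2) := nsq' _ _
  have e3 := Ls_sq h h0 h1 (hv 0) 0 x
  have e4 := Ls_sq h h0 h1 (hv 1) 1 x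
  have e5 := L_sq a (v 1) 0 x
  have e6 := L_sq a (v 0) 1 x
  have e7 : T0 a v x ^ 2 ≤ 2 * (‖D0s a v x‖ ^ 2 + ‖D1 a v x‖ ^ 2) := sq_add_le _ _
  have e8 : N0 v x ^ 2 ≤ 2 * (‖v 0 x‖ ^ 2 + ‖v 1 x‖ ^ 2) := sq_add_le _ _
  have e9 : R a v x ^ 2 ≤ 2 * (T0 a v x ^ 2 + N0 v x ^ 2) := sq_add_le _ _
  have g0 := gr_nonneg a (v 0) x
  have g1 := gr_nonneg a (v 1) x
  have n0 := sq_nonneg ‖v 0 x‖
  have n1 := sq_nonneg ‖v 1 x‖
  unfold Q
  linarith

theorem int_ball {g : E5 → ℝ} (hg : Continuous g) :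
    IntegrableOn g (Metric.ball (0 : E5) 1) :=
  (hg.continuousOn.integrableOn_compact (isCompact_closedBall (0 : E5) 1)).mono_set
    Metric.ball_subset_closedBall

theorem iadd {f g : E5 → ℝ} (hf : Continuous f) (hg : Continuous g) :
    (∫ x in Metric.ball (0 : E5) 1, (f x + g x))
      = (∫ x in Metric.ball (0 : E5) 1, f x) + ∫ x in Metric.ball (0 : E5) 1, g x :=
  integral_add (int_ball hf) (int_ball hg)

theorem gr_cont {a : Str} (ha : SmS a) {f : E5 → ℂ} (hf : Sm f) : Continuous (gr a f) := by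
  unfold gr
  refine continuous_finsetSum _ fun j _ => ?_
  exact ((hf.L ha j).cont.norm.pow 2).add ((hf.Lb ha j).cont.norm.pow 2)

theorem R_cont {a : Str} (ha : SmS a) {v : F2} (hv : ∀ j, Sm (v j)) : Continuous (R a v) := by
  have h1 : Continuous fun x => ‖D0s a v x‖ := (Sm.D0s ha hv).cont.norm
  have h2 : Continuous fun x => ‖D1 a v x‖ := (Sm.D1 ha hv).cont.norm
  have h3 : Continuous fun x => ‖v 0 x‖ := (hv 0).cont.norm
  have h4 : Continuous fun x => ‖v 1 x‖ := (hv 1).cont.norm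
  exact (h1.add h2).add (h3.add h4)

theorem int_R {a : Str} {ε C0 : ℝ} (h : Near a 4 ε) (h0 : 0 ≤ ε) (h1 : ε ≤ 1)
    (hC : 0 < C0) (hH : ∀ f : E5 → ℂ, WW f → Integrable (gr a f) ∧
      (∫ x in Metric.ball (0 : E5) 1, ‖f x‖ ^ 2) ≤ C0 * ∫ x, gr a f x) {v : F2}
    (hv : ∀ j, WW (v j)) :
    (∫ x in Metric.ball (0 : E5) 1, R a v x ^ 2) ≤ 300 * (1 + C0) * g0 a v := by
  have hs : ∀ j, Sm (v j) := fun j => (hv j).sm
  have c0 := gr_cont h.sm (hs 0)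
  have c1 := gr_cont h.sm (hs 1)
  have d0 : Continuous fun x => ‖v 0 x‖ ^ 2 := (hs 0).cont.norm.pow 2
  have d1 : Continuous fun x => ‖v 1 x‖ ^ 2 := (hs 1).cont.norm.pow 2
  have s1 : (∫ x in Metric.ball (0 : E5) 1, R a v x ^ 2)
      ≤ ∫ x in Metric.ball (0 : E5) 1, 300 * Q a v x := by
    refine integral_mono (int_ball ((R_cont h.sm hs).pow 2)) ?_ fun x => R_sq h h0 h1 hs x
    exact int_ball (continuous_const.mul ((c0.add c1).add (d0.add d1)))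
  have s2 : (∫ x in Metric.ball (0 : E5) 1, 300 * Q a v x)
      = 300 * (((∫ x in Metric.ball (0 : E5) 1, gr a (v 0) x)
        + ∫ x in Metric.ball (0 : E5) 1, gr a (v 1) x)
        + ((∫ x in Metric.ball (0 : E5) 1, ‖v 0 x‖ ^ 2)
          + ∫ x in Metric.ball (0 : E5) 1, ‖v 1 x‖ ^ 2)) := by
    rw [integral_const_mul]
    congr 1
    unfold Q
    have c01 : Continuous fun x => gr a (v 0) x + gr a (v 1) x := c0.add c1
    have d01 : Continuous fun x => ‖v 0 x‖ ^ 2 + ‖v 1 x‖ ^ 2 := d0.add d1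
    rw [iadd c01 d01, iadd c0 c1, iadd d0 d1]
  have s3 : ∀ j, (∫ x in Metric.ball (0 : E5) 1, gr a (v j) x) ≤ ∫ x, gr a (v j) x := fun j =>
    setIntegral_le_integral (hH _ (hv j)).1 (ae_of_all _ fun x => gr_nonneg a (v j) x)
  have s4 := (hH _ (hv 0)).2
  have s5 := (hH _ (hv 1)).2
  have s6 := s3 0
  have s7 := s3 1
  rw [s2] at s1
  unfold g0
  nlinarith

theorem N1_eq (w : F2) (x : E5) : N1 w x = ∑ m : Fin 5, N0 (Zp m w) x := by
  unfold N1 N0 sZ Zp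
  rw [Finset.sum_add_distrib]

theorem N2_eq (w : F2) (x : E5) : N2 w x = ∑ m : Fin 5, ∑ n : Fin 5, N0 (Zp m (Zp n w)) x := by
  unfold N2 N0 sZ2 Zp
  simp only [Finset.sum_add_distrib]

theorem ww0 {w : F2} (hw : ∀ j, WI (w j)) (j : Fin 2) : WW (w j) := hw j []

theorem ww1 {w : F2} (hw : ∀ j, WI (w j)) (m : Fin 5) (j : Fin 2) : WW (Zp m w j) := hw j [m]

theorem ww2 {w : F2} (hw : ∀ j, WI (w j)) (m n : Fin 5) (j : Fin 2) : WW (Zp m (Zp n w) j) :=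
  hw j [m, n]

theorem sum_sq5 (f : Fin 5 → ℝ) : (∑ m, f m) ^ 2 ≤ 5 * ∑ m, f m ^ 2 := by
  have h := sq_sum_le_card_mul_sum_sq (s := (Finset.univ : Finset (Fin 5))) (f := f)
  simpa using h

theorem int_sum {f : Fin 5 → E5 → ℝ} (hf : ∀ m, Continuous (f m)) :
    (∫ x in Metric.ball (0 : E5) 1, ∑ m, f m x)
      = ∑ m, ∫ x in Metric.ball (0 : E5) 1, f m x :=
  integral_finsetSum _ fun m _ => int_ball (hf m)

end aIx

open aIx in
theorem paI (_h1 : S_cOut) (_h2 : S_cMem) (h3 : S_cHar) : S_aI := by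
  obtain ⟨ε0, hε0, C0, hC0, hH⟩ := h3
  refine ⟨min ε0 1, lt_min hε0 one_pos, 75 * (300 * (1 + C0)), by positivity, ?_⟩
  intro a ha w hw
  have e0 : 0 ≤ min ε0 1 := (lt_min hε0 one_pos).le
  have e1 : min ε0 1 ≤ 1 := min_le_right _ _
  have hH' := hH a (near_mono ha e0 (min_le_left _ _))
  set c : ℝ := 300 * (1 + C0) with hc
  have hcp : 0 < c := by positivity
  have r0 : (∫ x in Metric.ball (0 : E5) 1, R a w x ^ 2) ≤ c * g0 a w :=
    int_R ha e0 e1 hC0 hH' (ww0 hw)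
  have r1 : ∀ m, (∫ x in Metric.ball (0 : E5) 1, R a (Zp m w) x ^ 2) ≤ c * g0 a (Zp m w) :=
    fun m => int_R ha e0 e1 hC0 hH' (ww1 hw m)
  have r2 : ∀ m n, (∫ x in Metric.ball (0 : E5) 1, R a (Zp m (Zp n w)) x ^ 2)
      ≤ c * g0 a (Zp m (Zp n w)) := fun m n => int_R ha e0 e1 hC0 hH' (ww2 hw m n)
  have k0 : Continuous fun x => R a w x ^ 2 := (R_cont ha.sm fun j => (ww0 hw j).sm).pow 2
  have k1 : ∀ m, Continuous fun x => R a (Zp m w) x ^ 2 := fun m =>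
    (R_cont ha.sm fun j => (ww1 hw m j).sm).pow 2
  have k2 : ∀ m n, Continuous fun x => R a (Zp m (Zp n w)) x ^ 2 := fun m n =>
    (R_cont ha.sm fun j => (ww2 hw m n j).sm).pow 2
  have l0 : Continuous fun x => R a w x := R_cont ha.sm fun j => (ww0 hw j).sm
  have l1 : Continuous fun x => ∑ m, R a (Zp m w) x :=
    continuous_finsetSum _ fun m _ => R_cont ha.sm fun j => (ww1 hw m j).sm
  have l2 : Continuous fun x => ∑ m, ∑ n, R a (Zp m (Zp n w)) x :=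
    continuous_finsetSum _ fun m _ => continuous_finsetSum _ fun n _ =>
      R_cont ha.sm fun j => (ww2 hw m n j).sm
  have k1' : Continuous fun x => ∑ m, R a (Zp m w) x ^ 2 :=
    continuous_finsetSum _ fun m _ => k1 m
  have k2' : Continuous fun x => ∑ m, ∑ n, R a (Zp m (Zp n w)) x ^ 2 :=
    continuous_finsetSum _ fun m _ => continuous_finsetSum _ fun n _ => k2 m n
  have i1 : (∫ x in Metric.ball (0 : E5) 1, ∑ m, R a (Zp m w) x ^ 2) ≤ c * g1 a w := by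
    rw [int_sum k1]
    unfold g1
    rw [Finset.mul_sum]
    exact Finset.sum_le_sum fun m _ => r1 m
  have i2 : (∫ x in Metric.ball (0 : E5) 1, ∑ m, ∑ n, R a (Zp m (Zp n w)) x ^ 2)
      ≤ c * g2 a w := by
    rw [int_sum fun m => continuous_finsetSum _ fun n _ => k2 m n]
    unfold g2
    rw [Finset.mul_sum]
    refine Finset.sum_le_sum fun m _ => ?_
    rw [int_sum (k2 m), Finset.mul_sum]
    exact Finset.sum_le_sum fun n _ => r2 m n
  have n0 : 0 ≤ ∫ x in Metric.ball (0 : E5) 1, R a w x ^ 2 :=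
    integral_nonneg fun x => sq_nonneg _
  have n1 : 0 ≤ ∫ x in Metric.ball (0 : E5) 1, ∑ m, R a (Zp m w) x ^ 2 :=
    integral_nonneg fun x => Finset.sum_nonneg fun m _ => sq_nonneg _
  have n2 : 0 ≤ ∫ x in Metric.ball (0 : E5) 1, ∑ m, ∑ n, R a (Zp m (Zp n w)) x ^ 2 :=
    integral_nonneg fun x => Finset.sum_nonneg fun m _ => Finset.sum_nonneg fun n _ => sq_nonneg _
  have p1 : ∀ x, (∑ m, R a (Zp m w) x) ^ 2 ≤ 5 * ∑ m, R a (Zp m w) x ^ 2 := fun x =>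
    sum_sq5 _
  have p2 : ∀ x, (∑ m, ∑ n, R a (Zp m (Zp n w)) x) ^ 2
      ≤ 25 * ∑ m, ∑ n, R a (Zp m (Zp n w)) x ^ 2 := by
    intro x
    refine (sum_sq5 _).trans ?_
    have : ∑ m, (∑ n, R a (Zp m (Zp n w)) x) ^ 2
        ≤ ∑ m, 5 * ∑ n, R a (Zp m (Zp n w)) x ^ 2 :=
      Finset.sum_le_sum fun m _ => sum_sq5 _
    rw [← Finset.mul_sum] at this
    linarith
  have q0 : Continuous fun x => 75 * R a w x ^ 2 := continuous_const.mul k0
  have q1 : Continuous fun x => 75 * ∑ m, R a (Zp m w) x ^ 2 := continuous_const.mul k1'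
  have q2 : Continuous fun x => 75 * ∑ m, ∑ n, R a (Zp m (Zp n w)) x ^ 2 :=
    continuous_const.mul k2'
  have q01 : Continuous fun x => 75 * R a w x ^ 2 + 75 * ∑ m, R a (Zp m w) x ^ 2 := q0.add q1
  constructor
  · have s1 : (∫ x in Metric.ball (0 : E5) 1, (T0 a w x + T1 a w x + N0 w x + N1 w x) ^ 2)
        ≤ ∫ x in Metric.ball (0 : E5) 1, (75 * R a w x ^ 2 + 75 * ∑ m, R a (Zp m w) x ^ 2) := by
      have e : (fun x => (T0 a w x + T1 a w x + N0 w x + N1 w x) ^ 2)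
          = fun x => (R a w x + ∑ m, R a (Zp m w) x) ^ 2 := by
        funext x
        rw [N1_eq]
        unfold R T1
        rw [Finset.sum_add_distrib]
        ring
      rw [e]
      refine integral_mono (int_ball ((l0.add l1).pow 2))
        (int_ball q01) fun x => ?_
      have h4 := sq_add_le (R a w x) (∑ m, R a (Zp m w) x)
      have h5 := p1 x
      have h6 := sq_nonneg (R a w x)
      have h7 : 0 ≤ ∑ m, R a (Zp m w) x ^ 2 := Finset.sum_nonneg fun m _ => sq_nonneg _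
      show (R a w x + ∑ m, R a (Zp m w) x) ^ 2
        ≤ 75 * R a w x ^ 2 + 75 * ∑ m, R a (Zp m w) x ^ 2
      linarith
    rw [iadd q0 q1, integral_const_mul, integral_const_mul] at s1
    nlinarith
  · have s1 : (∫ x in Metric.ball (0 : E5) 1,
        (T0 a w x + T1 a w x + T2 a w x + N0 w x + N1 w x + N2 w x) ^ 2)
        ≤ ∫ x in Metric.ball (0 : E5) 1, ((75 * R a w x ^ 2 + 75 * ∑ m, R a (Zp m w) x ^ 2)
          + 75 * ∑ m, ∑ n, R a (Zp m (Zp n w)) x ^ 2) := by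
      have e : (fun x => (T0 a w x + T1 a w x + T2 a w x + N0 w x + N1 w x + N2 w x) ^ 2)
          = fun x => ((R a w x + ∑ m, R a (Zp m w) x)
            + ∑ m, ∑ n, R a (Zp m (Zp n w)) x) ^ 2 := by
        funext x
        rw [N1_eq, N2_eq]
        unfold R T1 T2
        simp only [Finset.sum_add_distrib]
        ring
      rw [e]
      refine integral_mono (int_ball (((l0.add l1).add l2).pow 2))
        (int_ball (q01.add q2)) fun x => ?_
      have h5 := p1 x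
      have h6 := p2 x
      have h7 := sq_nonneg (R a w x)
      have h8 : 0 ≤ ∑ m, R a (Zp m w) x ^ 2 := Finset.sum_nonneg fun m _ => sq_nonneg _
      have h9 : ∀ u v z : ℝ, (u + v + z) ^ 2 ≤ 3 * (u ^ 2 + v ^ 2 + z ^ 2) := by
        intro u v z
        nlinarith [sq_nonneg (u - v), sq_nonneg (v - z), sq_nonneg (u - z)]
      have h10 := h9 (R a w x) (∑ m, R a (Zp m w) x) (∑ m, ∑ n, R a (Zp m (Zp n w)) x)
      show ((R a w x + ∑ m, R a (Zp m w) x) + ∑ m, ∑ n, R a (Zp m (Zp n w)) x) ^ 2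
        ≤ (75 * R a w x ^ 2 + 75 * ∑ m, R a (Zp m w) x ^ 2)
          + 75 * ∑ m, ∑ n, R a (Zp m (Zp n w)) x ^ 2
      linarith
    rw [iadd q01 q2, iadd q0 q1, integral_const_mul, integral_const_mul, integral_const_mul] at s1
    nlinarith

end Pool.Agent.CR5
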