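import Pool.Agent.Lib.CR5.SpecDa

/-!
# CR5, block D, aId: the differentiated equation
-/

open MeasureTheory Set Filter Topology
open scoped ENNReal ComplexConjugate

noncomputable section

namespace Pool.Agent.CR5

namespace aIdx

theorem smz (k : Fin 5) : Sm (fun y => ((zco k y : ℝ) : ℂ)) := Sm.ofReal (contDiff_zco k)

theorem pd4z (k : Fin 5) (x : E5) : pd 4 (fun y => ((zco k y : ℝ) : ℂ)) x = 0 := by
  have h : ∀ (c : ℂ) (i : Fin 5), i ≠ 4 → pd 4 (fun y => c * (y i : ℂ)) x = 0 := by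
    intro c i hi
    rw [pd_const_mul (Sm.coord i), geo_pd_coord, if_neg (Ne.symm hi), mul_zero]
  fin_cases k
  · have e : (fun y : E5 => ((zco 0 y : ℝ) : ℂ)) = fun y => (-2 : ℂ) * (y 1 : ℂ) := by
      funext y; simp [zco]
    show pd 4 (fun y => ((zco 0 y : ℝ) : ℂ)) x = 0
    rw [e]; exact h _ _ (by decide)
  · have e : (fun y : E5 => ((zco 1 y : ℝ) : ℂ)) = fun y => (2 : ℂ) * (y 0 : ℂ) := by
      funext y; simp [zco]
    show pd 4 (fun y => ((zco 1 y : ℝ) : ℂ)) x = 0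
    rw [e]; exact h _ _ (by decide)
  · have e : (fun y : E5 => ((zco 2 y : ℝ) : ℂ)) = fun y => (-2 : ℂ) * (y 3 : ℂ) := by
      funext y; simp [zco]
    show pd 4 (fun y => ((zco 2 y : ℝ) : ℂ)) x = 0
    rw [e]; exact h _ _ (by decide)
  · have e : (fun y : E5 => ((zco 3 y : ℝ) : ℂ)) = fun y => (2 : ℂ) * (y 2 : ℂ) := by
      funext y; simp [zco]
    show pd 4 (fun y => ((zco 3 y : ℝ) : ℂ)) x = 0
    rw [e]; exact h _ _ (by decide)
  · have e : (fun y : E5 => ((zco 4 y : ℝ) : ℂ)) = fun _ => (0 : ℂ) := by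
      funext y; simp [zco]
    show pd 4 (fun y => ((zco 4 y : ℝ) : ℂ)) x = 0
    rw [e]; exact pd_const 0 4 x

theorem Zf_add {f g : E5 → ℂ} (hf : Sm f) (hg : Sm g) (k : Fin 5) (x : E5) :
    Zf k (fun y => f y + g y) x = Zf k f x + Zf k g x := by
  unfold Zf
  rw [pd_add hf hg, pd_add hf hg]; ring

theorem Zf_sub {f g : E5 → ℂ} (hf : Sm f) (hg : Sm g) (k : Fin 5) (x : E5) :
    Zf k (fun y => f y - g y) x = Zf k f x - Zf k g x := by
  unfold Zf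
  rw [pd_sub hf hg, pd_sub hf hg]; ring

theorem Zf_neg (f : E5 → ℂ) (k : Fin 5) (x : E5) : Zf k (fun y => -f y) x = -Zf k f x := by
  unfold Zf
  rw [pd_neg, pd_neg]; ring

theorem Zf_cmul {f : E5 → ℂ} (hf : Sm f) (c : ℂ) (k : Fin 5) (x : E5) :
    Zf k (fun y => c * f y) x = c * Zf k f x := by
  unfold Zf
  rw [pd_const_mul hf, pd_const_mul hf]; ring

theorem Zf_pd4 {f : E5 → ℂ} (hf : Sm f) (k : Fin 5) : Zf k (pd 4 f) = pd 4 (Zf k f) := by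
  funext x
  have h : pd 4 (Zf k f) x = pd 4 (fun y => pd k f y + (zco k y : ℂ) * pd 4 f y) x := rfl
  rw [h, pd_add (hf.pd k) ((smz k).mul (hf.pd 4)), pd_mul (smz k) (hf.pd 4), pd4z,
    pd_comm hf 4 k]
  unfold Zf
  ring

variable {a : Str}

theorem sm_cS (ha : SmS a) (k : Fin 5) (j : Fin 2) {f : E5 → ℂ} (hf : Sm f) : Sm (zcS a k j f) :=
  ((hf.Ls ha j).Zf k).sub ((hf.Zf k).Ls ha j)

theorem sm_cL (ha : SmS a) (k : Fin 5) (j : Fin 2) {f : E5 → ℂ} (hf : Sm f) : Sm (zcL a k j f) :=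
  ((hf.L ha j).Zf k).sub ((hf.Zf k).L ha j)

theorem sm_cD0s (ha : SmS a) (k : Fin 5) {w : F2} (hw : ∀ j, Sm (w j)) : Sm (cD0s a k w) :=
  (sm_cS ha k 0 (hw 0)).add (sm_cS ha k 1 (hw 1))

theorem sm_cD1 (ha : SmS a) (k : Fin 5) {w : F2} (hw : ∀ j, Sm (w j)) : Sm (cD1 a k w) :=
  (sm_cL ha k 0 (hw 1)).sub (sm_cL ha k 1 (hw 0))

theorem sm_Zp (k : Fin 5) {w : F2} (hw : ∀ j, Sm (w j)) (j : Fin 2) : Sm (Zp k w j) :=
  (hw j).Zf k

theorem D1s_add (ha : SmS a) {f g : E5 → ℂ} (hf : Sm f) (hg : Sm g) (j : Fin 2) (x : E5) :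
    D1s a (fun y => f y + g y) j x = D1s a f j x + D1s a g j x := by
  unfold D1s
  split_ifs
  · rw [Ls_add ha hf hg]; ring
  · rw [Ls_add ha hf hg]

theorem Ls_neg' (ha : SmS a) {f : E5 → ℂ} (hf : Sm f) (j : Fin 2) (x : E5) :
    Ls a j (fun y => -f y) x = -Ls a j f x := by
  rw [Ls_eq ha hf.neg, Ls_eq ha hf, Lb_neg]; ring

theorem D1s_neg (ha : SmS a) {f : E5 → ℂ} (hf : Sm f) (j : Fin 2) (x : E5) :
    D1s a (fun y => -f y) j x = -D1s a f j x := by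
  unfold D1s
  split_ifs
  · rw [Ls_neg' ha hf]
  · rw [Ls_neg' ha hf]

/-- `Z_k L f = L Z_k f + [Z_k, L] f` -/
theorem Z_D0 (k : Fin 5) (f : E5 → ℂ) (j : Fin 2) (x : E5) :
    Zf k (D0 a f j) x = D0 a (Zf k f) j x + cD0 a k f j x := by
  show Zf k (L a j f) x = L a j (Zf k f) x + (Zf k (L a j f) x - L a j (Zf k f) x)
  ring

theorem Z_D1s (k : Fin 5) (v : E5 → ℂ) (j : Fin 2) (x : E5) :
    Zf k (D1s a v j) x = D1s a (Zf k v) j x + cD1s a k v j x := by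
  by_cases h : j = 0
  · subst h
    have e : D1s a v 0 = fun y => -Ls a 1 v y := by funext y; simp [D1s]
    rw [e, Zf_neg]
    simp only [D1s, cD1s, zcS, if_true]
    ring
  · have e : D1s a v j = fun y => Ls a 0 v y := by funext y; simp [D1s, h]
    rw [e]
    simp only [D1s, cD1s, zcS, h, if_false]
    ring

theorem Z_D0s (ha : SmS a) (k : Fin 5) {w : F2} (hw : ∀ j, Sm (w j)) :
    Zf k (D0s a w) = fun x => D0s a (Zp k w) x + cD0s a k w x := by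
  funext x
  have e : D0s a w = fun y => Ls a 0 (w 0) y + Ls a 1 (w 1) y := rfl
  rw [e, Zf_add ((hw 0).Ls ha 0) ((hw 1).Ls ha 1)]
  simp only [D0s, cD0s, zcS, Zp]
  ring

theorem Z_D1 (ha : SmS a) (k : Fin 5) {w : F2} (hw : ∀ j, Sm (w j)) :
    Zf k (D1 a w) = fun x => D1 a (Zp k w) x + cD1 a k w x := by
  funext x
  have e : D1 a w = fun y => L a 0 (w 1) y - L a 1 (w 0) y := rfl
  rw [e, Zf_sub ((hw 1).L ha 0) ((hw 0).L ha 1)]
  simp only [D1, cD1, zcL, Zp]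
  ring

theorem Z_Box (ha : SmS a) (k : Fin 5) {w : F2} (hw : ∀ j, Sm (w j)) (j : Fin 2) (x : E5) :
    Zf k (Box a w j) x = (D0 a (D0s a (Zp k w)) j x + D0 a (cD0s a k w) j x
        + cD0 a k (D0s a w) j x)
      + (D1s a (D1 a (Zp k w)) j x + D1s a (cD1 a k w) j x + cD1s a k (D1 a w) j x) := by
  have e : Box a w j = fun y => D0 a (D0s a w) j y + D1s a (D1 a w) j y := rfl
  rw [e, Zf_add ((Sm.D0s ha hw).D0 ha j) ((Sm.D1 ha hw).D1s ha j), Z_D0, Z_D1s, Z_D0s ha k hw,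
    Z_D1 ha k hw, D1s_add ha (Sm.D1 ha (sm_Zp k hw)) (sm_cD1 ha k hw)]
  have e2 : D0 a (fun y => D0s a (Zp k w) y + cD0s a k w y) j x =
      D0 a (D0s a (Zp k w)) j x + D0 a (cD0s a k w) j x :=
    L_add (Sm.D0s ha (sm_Zp k hw)) (sm_cD0s ha k hw) j x
  rw [e2]

end aIdx

open aIdx in
/-- **aId** The differentiated equation. -/
theorem paId : S_aId := by
  intro a ha e w hw k j x
  have e1 : BoxE a e w j = fun y => Box a w j y + (e : ℂ) * (w j y - pd 4 (pd 4 (w j)) y) := rfl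
  have e2 : Zf k (BoxE a e w j) x = Zf k (Box a w j) x +
      (e : ℂ) * (Zf k (w j) x - pd 4 (pd 4 (Zf k (w j))) x) := by
    rw [e1, Zf_add (Sm.Box ha hw j) ((Sm.const _).mul ((hw j).sub (((hw j).pd 4).pd 4))),
      Zf_cmul ((hw j).sub (((hw j).pd 4).pd 4)), Zf_sub (hw j) (((hw j).pd 4).pd 4),
      Zf_pd4 ((hw j).pd 4), Zf_pd4 (hw j)]
  have e3 : BoxE a e (Zp k w) j x = (D0 a (D0s a (Zp k w)) j x + D1s a (D1 a (Zp k w)) j x) +
      (e : ℂ) * (Zf k (w j) x - pd 4 (pd 4 (Zf k (w j))) x) := rfl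
  have e4 : D0 a (fun y => -cD0s a k w y) j x = -D0 a (cD0s a k w) j x := L_neg _ j x
  rw [e2, e3, Z_Box ha k hw, e4, D1s_neg ha (sm_cD1 ha k hw)]
  ring

end Pool.Agent.CR5
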