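import Pool.Agent.Lib.CR5.D.aLh

/-!
# CR5, block D: level one (statement `S_aL1`, helper6)
-/

open MeasureTheory Set Filter Topology
open scoped ENNReal ComplexConjugate

noncomputable section

namespace Pool.Agent.CR5

open aLx in
theorem paL1 (h1 : S_aId) (h2 : S_aEn) (h3 : S_aCm) (h4 : S_aB1) (h5 : S_aI) (h6 : S_aHs) :
    S_aL1 := by
  obtain ⟨εE, hεE, CE, hCE, hE⟩ := h2
  obtain ⟨CB, hCB, hB⟩ := h4
  obtain ⟨εI, hεI, CI, hCI, hI⟩ := h5
  obtain ⟨CH, hCH, hH⟩ := h6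
  -- the constant of the absorption
  set M : ℝ := 90 * CE * CB ^ 2 * CI with hM
  have hM0 : 0 < M := by positivity
  set ε : ℝ := min (min εE εI) (min 1 (1 / (2 * M))) with hε
  have hε0 : 0 < ε := lt_min (lt_min hεE hεI) (lt_min one_pos (by positivity))
  have hε1 : ε ≤ 1 := (min_le_right _ _).trans (min_le_left _ _)
  have hεM : ε ≤ 1 / (2 * M) := (min_le_right _ _).trans (min_le_right _ _)
  have hεεE : ε ≤ εE := (min_le_left _ _).trans (min_le_left _ _)
  have hεεI : ε ≤ εI := (min_le_left _ _).trans (min_le_right _ _)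
  have habs : M * ε ^ 2 ≤ 1 / 2 := by
    have h7 : ε ^ 2 ≤ 1 / (2 * M) := by nlinarith
    calc M * ε ^ 2 ≤ M * (1 / (2 * M)) := mul_le_mul_of_nonneg_left h7 hM0.le
      _ = 1 / 2 := by field_simp
  refine ⟨ε, hε0, 40 * CE * CH + 4 * CE, by positivity, ?_⟩
  intro a ha Φ hΦ hΦ0 e he he1 w hw heq
  have haE : Near a 2 εE := near_mono ha (by norm_num) hε0.le hεεE
  have haI : Near a 4 εI := near_mono ha le_rfl hε0.le hεεI
  have hs : SmS a := ha.sm
  have hws : ∀ j, Sm (w j) := fun j => (hw j []).sm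
  obtain ⟨H0, H1, H2, Hn0, Hn01, Hn12⟩ := hH Φ hΦ
  have hΦs : ∀ j, Sm (Φ j) := fun j => (hΦ j).sm
  -- level zero
  have lev0 : g0 a w ≤ 2 * CE * Hs 0 Φ := by
    have h7 := hE a haE Φ (fun _ => 0) (fun _ => 0) hΦs (Sm.const 0) (Sm.const 0)
      (fun x hx => ⟨fun j => hΦ0 j x hx, rfl, rfl⟩) e he he1 w (fun j => hw j []) (by
        intro j x
        have e1 : D0 a (fun _ => (0 : ℂ)) j x = 0 := L_const a 0 j x
        have e2 : ∀ k, Ls a k (fun _ => (0 : ℂ)) x = 0 := by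
          intro k
          rw [Ls_eq hs (Sm.const 0), Lb_const]
          ring
        have e3 : D1s a (fun _ => (0 : ℂ)) j x = 0 := by
          unfold D1s
          rw [e2, e2]
          simp
        rw [e1, e3, heq j x]
        ring)
    have h8 : (∫ x in Metric.ball (0 : E5) 1, (‖Φ 0 x‖ ^ 2 + ‖Φ 1 x‖ ^ 2)) ≤
        Hs 0 Φ + Hs 0 Φ := by
      have c0 := (hΦs 0).cont
      have c1 := (hΦs 1).cont
      have i0 : IntegrableOn (fun x => ‖Φ 0 x‖ ^ 2) (Metric.ball (0 : E5) 1) :=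
        intOn (by fun_prop)
      have i1 : IntegrableOn (fun x => ‖Φ 1 x‖ ^ 2) (Metric.ball (0 : E5) 1) :=
        intOn (by fun_prop)
      rw [integral_add i0 i1]
      exact add_le_add (H0 0) (H0 1)
    have h9 : (∫ x in Metric.ball (0 : E5) 1, ‖(0 : ℂ)‖ ^ 2) = 0 := by simp
    rw [h9, add_zero, add_zero] at h7
    refine h7.trans ?_
    have h10 := mul_le_mul_of_nonneg_left h8 hCE.le
    linarith
  -- the right side
  set X : E5 → ℝ := fun x => T0 a w x + T1 a w x + N0 w x + N1 w x with hX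
  have hXc : Continuous X :=
    (((T0_cont hs hws).add (T1_cont hs hws)).add (N0_cont hws)).add (N1_cont hws)
  have hX0 : ∀ x, 0 ≤ X x := fun x =>
    add_nonneg (add_nonneg (add_nonneg (T0_nonneg a w x) (T1_nonneg a w x)) (N0_nonneg w x))
      (N1_nonneg w x)
  have hIX : (∫ x in Metric.ball (0 : E5) 1, (X x) ^ 2) ≤ CI * (g0 a w + g1 a w) :=
    (hI a haI w hw).1
  have cm := cm_of h3 hε0.le hε1 ha
  have hF : Sm (D0s a w) := Sm.D0s hs hws
  have hF' : Sm (D1 a w) := Sm.D1 hs hws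
  have hNX : ∀ x, N0 w x + N1 w x ≤ X x := by
    intro x
    have := T0_nonneg a w x
    have := T1_nonneg a w x
    show N0 w x + N1 w x ≤ T0 a w x + T1 a w x + N0 w x + N1 w x
    linarith
  have hδ : 0 ≤ CB * ε := by positivity
  -- one derivative
  have step : ∀ k : Fin 5, g0 a (Zp k w) ≤
      CE * (4 * (CH * Hs 1 Φ) + 18 * (CB * ε) ^ 2 * (CI * (g0 a w + g1 a w))) := by
    intro k
    have hbox : ∀ j, BoxE a e w j = Φ j := fun j => funext fun x => heq j x
    have sf : ∀ j, Sm (fun x => Zf k (Φ j) x - cD0 a k (D0s a w) j x - cD1s a k (D1 a w) j x) :=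
      fun j => (((hΦs j).Zf k).sub (cm.sD0 k hF j)).sub (cm.sD1s k hF' j)
    have h7 := hE a haE
      (fun j x => Zf k (Φ j) x - cD0 a k (D0s a w) j x - cD1s a k (D1 a w) j x)
      (fun y => -cD0s a k w y) (fun y => -cD1 a k w y) sf (cm.sD0s k hws).neg (cm.sD1 k hws).neg
      (fun x hx => ⟨fun j => by
          show Zf k (Φ j) x - cD0 a k (D0s a w) j x - cD1s a k (D1 a w) j x = 0
          rw [Zf_out (hΦs j) (hΦ0 j) k x hx, cm.oD0 k hF j x hx, cm.oD1s k hF' j x hx]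
          ring,
        by
          show -cD0s a k w x = 0
          rw [cm.oD0s k hws x hx, neg_zero],
        by
          show -cD1 a k w x = 0
          rw [cm.oD1 k hws x hx, neg_zero]⟩)
      e he he1 (Zp k w) (fun j => hw j [k]) (by
        intro j x
        rw [h1 a hs e w hws k j x, hbox j])
    have h8 := absorb (f := fun j x => Zf k (Φ j) x - cD0 a k (D0s a w) j x
        - cD1s a k (D1 a w) j x) (Ψ := fun j => Zf k (Φ j)) (q0 := fun y => -cD0s a k w y)
      (q1 := fun y => -cD1 a k w y) (X := X) (n := 2) (δ := CB * ε) (by norm_num) hδ sf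
      (fun j => (hΦs j).Zf k) (cm.sD0s k hws).neg (cm.sD1 k hws).neg hXc hX0
      (fun j x hx => by
        obtain ⟨-, -, b3, b4⟩ := hB a ε hε0.le hε1 ha w hws k j x hx
        have h9 := norm3 (Zf k (Φ j) x) (cD0 a k (D0s a w) j x) (cD1s a k (D1 a w) j x)
        have b3' : ‖cD0 a k (D0s a w) j x‖ ≤ CB * ε * X x := b3
        have b4' : ‖cD1s a k (D1 a w) j x‖ ≤ CB * ε * X x := b4
        show ‖Zf k (Φ j) x - cD0 a k (D0s a w) j x - cD1s a k (D1 a w) j x‖ ≤
          ‖Zf k (Φ j) x‖ + 2 * (CB * ε * X x)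
        linarith)
      (fun x hx => by
        obtain ⟨b1, -, -, -⟩ := hB a ε hε0.le hε1 ha w hws k 0 x hx
        rw [norm_neg]
        exact b1.trans (mul_le_mul_of_nonneg_left (hNX x) hδ))
      (fun x hx => by
        obtain ⟨-, b2, -, -⟩ := hB a ε hε0.le hε1 ha w hws k 0 x hx
        rw [norm_neg]
        exact b2.trans (mul_le_mul_of_nonneg_left (hNX x) hδ))
    refine h7.trans (mul_le_mul_of_nonneg_left (h8.trans ?_) hCE.le)
    have h9 := H1 0 k
    have h10 := H1 1 k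
    have h11 : (4 * (2 : ℝ) ^ 2 + 2) * (CB * ε) ^ 2 * (∫ x in Metric.ball (0 : E5) 1, (X x) ^ 2)
        ≤ 18 * (CB * ε) ^ 2 * (CI * (g0 a w + g1 a w)) := by
      have h12 : (4 * (2 : ℝ) ^ 2 + 2) = 18 := by norm_num
      rw [h12]
      exact mul_le_mul_of_nonneg_left hIX (by positivity)
    linarith
  have hg0 := g0_nonneg a w
  have hg1 := g1_nonneg a w
  have hsum : g1 a w ≤ 5 * (CE * (4 * (CH * Hs 1 Φ) +
      18 * (CB * ε) ^ 2 * (CI * (g0 a w + g1 a w)))) := by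
    have h7 : g1 a w ≤ ∑ _m : Fin 5, CE * (4 * (CH * Hs 1 Φ) +
      18 * (CB * ε) ^ 2 * (CI * (g0 a w + g1 a w))) := Finset.sum_le_sum fun m _ => step m
    rw [Finset.sum_const, Finset.card_univ, Fintype.card_fin, nsmul_eq_mul] at h7
    exact_mod_cast h7
  have h13 : 5 * (CE * (4 * (CH * Hs 1 Φ) +
      18 * (CB * ε) ^ 2 * (CI * (g0 a w + g1 a w)))) =
      20 * CE * CH * Hs 1 Φ + M * ε ^ 2 * (g0 a w + g1 a w) := by
    rw [hM]
    ring
  rw [h13] at hsum
  have h14 : M * ε ^ 2 * (g0 a w + g1 a w) ≤ 1 / 2 * (g0 a w + g1 a w) :=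
    mul_le_mul_of_nonneg_right habs (add_nonneg hg0 hg1)
  have h15 : 0 ≤ Hs 1 Φ := Hn0.trans Hn01
  have h16 : 2 * CE * Hs 0 Φ ≤ 2 * CE * Hs 1 Φ :=
    mul_le_mul_of_nonneg_left Hn01 (by positivity)
  have h17 : 0 ≤ 40 * CE * CH * Hs 0 Φ := by positivity
  have h18 : 0 ≤ 2 * CE * Hs 0 Φ := by positivity
  have h19 : 0 ≤ 2 * CE * Hs 1 Φ := by positivity
  constructor
  · linarith
  · linarith

end Pool.Agent.CR5
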