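import Pool.Agent.Lib.CR5.D.aLh

/-!
# CR5, block D: level two (statement `S_aL2`, helper6)
-/

open MeasureTheory Set Filter Topology
open scoped ENNReal ComplexConjugate

noncomputable section

namespace Pool.Agent.CR5

namespace aL2x

theorem norm7 (p q1 q2 q3 q4 q5 q6 : ℂ) :
    ‖p - q1 - q2 - q3 - q4 - q5 - q6‖ ≤ ‖p‖ + ‖q1‖ + ‖q2‖ + ‖q3‖ + ‖q4‖ + ‖q5‖ + ‖q6‖ := by
  have h1 := norm_sub_le (p - q1 - q2 - q3 - q4 - q5) q6
  have h2 := norm_sub_le (p - q1 - q2 - q3 - q4) q5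
  have h3 := norm_sub_le (p - q1 - q2 - q3) q4
  have h4 := norm_sub_le (p - q1 - q2) q3
  have h5 := norm_sub_le (p - q1) q2
  have h6 := norm_sub_le p q1
  linarith

end aL2x

open aLx aL2x in
theorem paL2 (h1 : S_aId2) (h2 : S_aEn) (h3 : S_aCm) (h4 : S_aB2) (h5 : S_aI) (h6 : S_aHs)
    (h7 : S_aL1) : S_aL2 := by
  obtain ⟨εE, hεE, CE, hCE, hE⟩ := h2
  obtain ⟨CB, hCB, hB⟩ := h4
  obtain ⟨εI, hεI, CI, hCI, hI⟩ := h5
  obtain ⟨CH, hCH, hH⟩ := h6
  obtain ⟨εL, hεL, CL, hCL, hLL⟩ := h7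
  -- the constant of the absorption
  set M : ℝ := 3650 * CE * CB ^ 2 * CI with hM
  have hM0 : 0 < M := by positivity
  set ε : ℝ := min (min εE (min εI εL)) (min 1 (1 / (2 * M))) with hε
  have hε0 : 0 < ε := lt_min (lt_min hεE (lt_min hεI hεL)) (lt_min one_pos (by positivity))
  have hε1 : ε ≤ 1 := (min_le_right _ _).trans (min_le_left _ _)
  have hεM : ε ≤ 1 / (2 * M) := (min_le_right _ _).trans (min_le_right _ _)
  have hεεE : ε ≤ εE := (min_le_left _ _).trans (min_le_left _ _)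
  have hεεI : ε ≤ εI := ((min_le_left _ _).trans (min_le_right _ _)).trans (min_le_left _ _)
  have hεεL : ε ≤ εL := ((min_le_left _ _).trans (min_le_right _ _)).trans (min_le_right _ _)
  have habs : M * ε ^ 2 ≤ 1 / 2 := by
    have h7 : ε ^ 2 ≤ 1 / (2 * M) := by nlinarith
    calc M * ε ^ 2 ≤ M * (1 / (2 * M)) := mul_le_mul_of_nonneg_left h7 hM0.le
      _ = 1 / 2 := by field_simp
  refine ⟨ε, hε0, 200 * CE * CH + 2 * CL, by positivity, ?_⟩
  intro a ha Φ hΦ hΦ0 e he he1 w hw heq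
  have haE : Near a 2 εE := near_mono ha (by norm_num) hε0.le hεεE
  have haI : Near a 4 εI := near_mono ha le_rfl hε0.le hεεI
  have haL : Near a 4 εL := near_mono ha le_rfl hε0.le hεεL
  have hs : SmS a := ha.sm
  have hws : ∀ j, Sm (w j) := fun j => (hw j []).sm
  obtain ⟨H0, H1, H2, Hn0, Hn01, Hn12⟩ := hH Φ hΦ
  obtain ⟨lev0, lev1⟩ := hLL a haL Φ hΦ hΦ0 e he he1 w hw heq
  have hΦs : ∀ j, Sm (Φ j) := fun j => (hΦ j).sm
  -- the right side
  set X : E5 → ℝ := fun x => T0 a w x + T1 a w x + T2 a w x + N0 w x + N1 w x + N2 w x with hX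
  have hXc : Continuous X :=
    (((((T0_cont hs hws).add (T1_cont hs hws)).add (T2_cont hs hws)).add (N0_cont hws)).add
      (N1_cont hws)).add (N2_cont hws)
  have hX0 : ∀ x, 0 ≤ X x := fun x =>
    add_nonneg (add_nonneg (add_nonneg (add_nonneg (add_nonneg (T0_nonneg a w x)
      (T1_nonneg a w x)) (T2_nonneg a w x)) (N0_nonneg w x)) (N1_nonneg w x)) (N2_nonneg w x)
  have hIX : (∫ x in Metric.ball (0 : E5) 1, (X x) ^ 2) ≤ CI * (g0 a w + g1 a w + g2 a w) :=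
    (hI a haI w hw).2
  have cm := cm_of h3 hε0.le hε1 ha
  have hF : Sm (D0s a w) := Sm.D0s hs hws
  have hF' : Sm (D1 a w) := Sm.D1 hs hws
  have hδ : 0 ≤ CB * ε := by positivity
  -- two derivatives
  have step : ∀ l k : Fin 5, g0 a (Zp l (Zp k w)) ≤
      CE * (4 * (CH * Hs 2 Φ) + 146 * (CB * ε) ^ 2 * (CI * (g0 a w + g1 a w + g2 a w))) := by
    intro l k
    have hwk : ∀ j, Sm (Zp k w j) := fun j => Zp_sm hws k j
    have hFk : Sm (D0s a (Zp k w)) := Sm.D0s hs hwk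
    have hFk' : Sm (D1 a (Zp k w)) := Sm.D1 hs hwk
    have hbox : ∀ j, BoxE a e w j = Φ j := fun j => funext fun x => heq j x
    have sq0 : Sm (cD0s a k w) := cm.sD0s k hws
    have sq1 : Sm (cD1 a k w) := cm.sD1 k hws
    have sf : ∀ j, Sm (fun x => Zf l (Zf k (Φ j)) x - Zf l (cD0 a k (D0s a w) j) x
        - Zf l (cD1s a k (D1 a w) j) x - cD0 a l (cD0s a k w) j x - cD1s a l (cD1 a k w) j x
        - cD0 a l (D0s a (Zp k w)) j x - cD1s a l (D1 a (Zp k w)) j x) := fun j =>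
      ((((((((hΦs j).Zf k).Zf l).sub ((cm.sD0 k hF j).Zf l)).sub ((cm.sD1s k hF' j).Zf l)).sub
        (cm.sD0 l sq0 j)).sub (cm.sD1s l sq1 j)).sub (cm.sD0 l hFk j)).sub (cm.sD1s l hFk' j)
    have s0 : Sm (fun y => -(Zf l (cD0s a k w) y + cD0s a l (Zp k w) y)) :=
      ((sq0.Zf l).add (cm.sD0s l hwk)).neg
    have s1 : Sm (fun y => -(Zf l (cD1 a k w) y + cD1 a l (Zp k w) y)) :=
      ((sq1.Zf l).add (cm.sD1 l hwk)).neg
    have hE' := hE a haE
      (fun j x => Zf l (Zf k (Φ j)) x - Zf l (cD0 a k (D0s a w) j) x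
        - Zf l (cD1s a k (D1 a w) j) x - cD0 a l (cD0s a k w) j x - cD1s a l (cD1 a k w) j x
        - cD0 a l (D0s a (Zp k w)) j x - cD1s a l (D1 a (Zp k w)) j x)
      (fun y => -(Zf l (cD0s a k w) y + cD0s a l (Zp k w) y))
      (fun y => -(Zf l (cD1 a k w) y + cD1 a l (Zp k w) y)) sf s0 s1
      (fun x hx => ⟨fun j => by
          show Zf l (Zf k (Φ j)) x - Zf l (cD0 a k (D0s a w) j) x
            - Zf l (cD1s a k (D1 a w) j) x - cD0 a l (cD0s a k w) j x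
            - cD1s a l (cD1 a k w) j x - cD0 a l (D0s a (Zp k w)) j x
            - cD1s a l (D1 a (Zp k w)) j x = 0
          rw [Zf_out ((hΦs j).Zf k) (Zf_out (hΦs j) (hΦ0 j) k) l x hx,
            Zf_out (cm.sD0 k hF j) (cm.oD0 k hF j) l x hx,
            Zf_out (cm.sD1s k hF' j) (cm.oD1s k hF' j) l x hx, cm.oD0 l sq0 j x hx,
            cm.oD1s l sq1 j x hx, cm.oD0 l hFk j x hx, cm.oD1s l hFk' j x hx]
          ring,
        by
          show -(Zf l (cD0s a k w) x + cD0s a l (Zp k w) x) = 0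
          rw [Zf_out sq0 (cm.oD0s k hws) l x hx, cm.oD0s l hwk x hx]
          ring,
        by
          show -(Zf l (cD1 a k w) x + cD1 a l (Zp k w) x) = 0
          rw [Zf_out sq1 (cm.oD1 k hws) l x hx, cm.oD1 l hwk x hx]
          ring⟩)
      e he he1 (Zp l (Zp k w)) (fun j => hw j [l, k]) (by
        intro j x
        rw [h1 a hs e w hws l k j x, hbox j])
    have hA := absorb (f := fun j x => Zf l (Zf k (Φ j)) x - Zf l (cD0 a k (D0s a w) j) x
        - Zf l (cD1s a k (D1 a w) j) x - cD0 a l (cD0s a k w) j x - cD1s a l (cD1 a k w) j x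
        - cD0 a l (D0s a (Zp k w)) j x - cD1s a l (D1 a (Zp k w)) j x)
      (Ψ := fun j => Zf l (Zf k (Φ j)))
      (q0 := fun y => -(Zf l (cD0s a k w) y + cD0s a l (Zp k w) y))
      (q1 := fun y => -(Zf l (cD1 a k w) y + cD1 a l (Zp k w) y)) (X := X) (n := 6)
      (δ := CB * ε) (by norm_num) hδ sf (fun j => ((hΦs j).Zf k).Zf l) s0 s1 hXc hX0
      (fun j x hx => by
        obtain ⟨-, -, b3, b4, b5, b6, b7, b8⟩ := hB a ε hε0.le hε1 ha w hws l k j x hx (X x) rfl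
        have h9 := norm7 (Zf l (Zf k (Φ j)) x) (Zf l (cD0 a k (D0s a w) j) x)
          (Zf l (cD1s a k (D1 a w) j) x) (cD0 a l (cD0s a k w) j x) (cD1s a l (cD1 a k w) j x)
          (cD0 a l (D0s a (Zp k w)) j x) (cD1s a l (D1 a (Zp k w)) j x)
        show ‖Zf l (Zf k (Φ j)) x - Zf l (cD0 a k (D0s a w) j) x
            - Zf l (cD1s a k (D1 a w) j) x - cD0 a l (cD0s a k w) j x
            - cD1s a l (cD1 a k w) j x - cD0 a l (D0s a (Zp k w)) j x
            - cD1s a l (D1 a (Zp k w)) j x‖ ≤ ‖Zf l (Zf k (Φ j)) x‖ + 6 * (CB * ε * X x)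
        linarith)
      (fun x hx => by
        obtain ⟨b1, -⟩ := hB a ε hε0.le hε1 ha w hws l k 0 x hx (X x) rfl
        rw [norm_neg]
        exact b1)
      (fun x hx => by
        obtain ⟨-, b2, -⟩ := hB a ε hε0.le hε1 ha w hws l k 0 x hx (X x) rfl
        rw [norm_neg]
        exact b2)
    refine hE'.trans (mul_le_mul_of_nonneg_left (hA.trans ?_) hCE.le)
    have h9 := H2 0 k l
    have h10 := H2 1 k l
    have h11 : (4 * (6 : ℝ) ^ 2 + 2) * (CB * ε) ^ 2 * (∫ x in Metric.ball (0 : E5) 1, (X x) ^ 2)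
        ≤ 146 * (CB * ε) ^ 2 * (CI * (g0 a w + g1 a w + g2 a w)) := by
      have h12 : (4 * (6 : ℝ) ^ 2 + 2) = 146 := by norm_num
      rw [h12]
      exact mul_le_mul_of_nonneg_left hIX (by positivity)
    linarith
  have hg0 := g0_nonneg a w
  have hg1 := g1_nonneg a w
  have hg2 := g2_nonneg a w
  have hsum : g2 a w ≤ 25 * (CE * (4 * (CH * Hs 2 Φ) +
      146 * (CB * ε) ^ 2 * (CI * (g0 a w + g1 a w + g2 a w)))) := by
    have h7 : g2 a w ≤ ∑ _m : Fin 5, ∑ _n : Fin 5, CE * (4 * (CH * Hs 2 Φ) +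
      146 * (CB * ε) ^ 2 * (CI * (g0 a w + g1 a w + g2 a w))) :=
      Finset.sum_le_sum fun m _ => Finset.sum_le_sum fun n _ => step m n
    rw [Finset.sum_const, Finset.sum_const, Finset.card_univ, Fintype.card_fin, nsmul_eq_mul,
      nsmul_eq_mul] at h7
    refine h7.trans (le_of_eq ?_)
    push_cast
    ring
  have h13 : 25 * (CE * (4 * (CH * Hs 2 Φ) +
      146 * (CB * ε) ^ 2 * (CI * (g0 a w + g1 a w + g2 a w)))) =
      100 * CE * CH * Hs 2 Φ + M * ε ^ 2 * (g0 a w + g1 a w + g2 a w) := by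
    rw [hM]
    ring
  rw [h13] at hsum
  have h14 : M * ε ^ 2 * (g0 a w + g1 a w + g2 a w) ≤ 1 / 2 * (g0 a w + g1 a w + g2 a w) :=
    mul_le_mul_of_nonneg_right habs (add_nonneg (add_nonneg hg0 hg1) hg2)
  have h16 : CL * Hs 0 Φ ≤ CL * Hs 2 Φ :=
    mul_le_mul_of_nonneg_left (Hn01.trans Hn12) hCL.le
  have h17 : CL * Hs 1 Φ ≤ CL * Hs 2 Φ := mul_le_mul_of_nonneg_left Hn12 hCL.le
  linarith

end Pool.Agent.CR5
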