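import Pool.Agent.Lib.CR5.SpecDa
import Pool.Agent.Lib.CR5.D.cLIN

/-!
# CR5, block D, aUNI: assembly of `S_cUNI`
-/

open MeasureTheory Set Filter Topology
open scoped ENNReal ComplexConjugate

noncomputable section

namespace Pool.Agent.CR5

namespace aUNIx

theorem gr_nonneg (a : Str) (f : E5 → ℂ) : 0 ≤ ∫ x, gr a f x :=
  integral_nonneg fun x => by
    show 0 ≤ gr a f x
    unfold gr
    positivity

theorem le_g0 (a : Str) (w : F2) (j : Fin 2) : ∫ x, gr a (w j) x ≤ g0 a w := by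
  have h0 := gr_nonneg a (w 0)
  have h1 := gr_nonneg a (w 1)
  unfold g0
  fin_cases j
  · show ∫ x, gr a (w 0) x ≤ _
    linarith
  · show ∫ x, gr a (w 1) x ≤ _
    linarith

theorem g0_nonneg (a : Str) (w : F2) : 0 ≤ g0 a w :=
  add_nonneg (gr_nonneg a (w 0)) (gr_nonneg a (w 1))

theorem le_g1 (a : Str) (w : F2) (k : Fin 5) : g0 a (Zp k w) ≤ g1 a w :=
  Finset.single_le_sum (f := fun m => g0 a (Zp m w)) (fun _ _ => g0_nonneg a _)
    (Finset.mem_univ k)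

theorem le_g2 (a : Str) (w : F2) (k l : Fin 5) : g0 a (Zp k (Zp l w)) ≤ g2 a w := by
  have h1 : g0 a (Zp k (Zp l w)) ≤ ∑ n : Fin 5, g0 a (Zp k (Zp n w)) :=
    Finset.single_le_sum (f := fun n => g0 a (Zp k (Zp n w))) (fun m _ => g0_nonneg a _)
      (Finset.mem_univ l)
  have h2 : ∑ n : Fin 5, g0 a (Zp k (Zp n w)) ≤ g2 a w :=
    Finset.single_le_sum (f := fun m => ∑ n : Fin 5, g0 a (Zp m (Zp n w)))
      (fun m _ => Finset.sum_nonneg fun n _ => g0_nonneg a _) (Finset.mem_univ k)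
  exact h1.trans h2

end aUNIx

open aUNIx in
theorem paUNI (hHar : S_cHar) (_hMem : S_cMem) (h1 : S_aL1) (h2 : S_aL2) : S_aUNI := by
  obtain ⟨εH, hεH, CH, hCH, hH⟩ := hHar
  obtain ⟨ε1, hε1, C1, hC1, hL1⟩ := h1
  obtain ⟨ε2, hε2, C2, hC2, hL2⟩ := h2
  have hε : 0 < min εH (min ε1 ε2) := lt_min hεH (lt_min hε1 hε2)
  refine ⟨min εH (min ε1 ε2), hε, C1 + C2 + CH * C1, by positivity, ?_⟩
  intro a ha Φ hΦ hout e he0 he1 w hw heq
  have haH : Near a 2 εH := DcLIN.near_mono ha (by omega) hε.le (min_le_left _ _)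
  have ha1 : Near a 4 ε1 :=
    DcLIN.near_mono ha le_rfl hε.le ((min_le_right _ _).trans (min_le_left _ _))
  have ha2 : Near a 4 ε2 :=
    DcLIN.near_mono ha le_rfl hε.le ((min_le_right _ _).trans (min_le_right _ _))
  obtain ⟨b0, b1⟩ := hL1 a ha1 Φ hΦ hout e he0 he1 w hw heq
  have b2 := hL2 a ha2 Φ hΦ hout e he0 he1 w hw heq
  have n0 := DcLIN.hs_nonneg 0 Φ
  have n1 := DcLIN.hs_nonneg 1 Φ
  have n2 := DcLIN.hs_nonneg 2 Φ
  have hww : ∀ j, WW (w j) := fun j => hw j []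
  have r0 : C1 * Hs 0 Φ ≤ (C1 + C2 + CH * C1) * Hs 0 Φ :=
    mul_le_mul_of_nonneg_right (by nlinarith [mul_pos hCH hC1]) n0
  have r1 : C1 * Hs 1 Φ ≤ (C1 + C2 + CH * C1) * Hs 1 Φ :=
    mul_le_mul_of_nonneg_right (by nlinarith [mul_pos hCH hC1]) n1
  have r2 : C2 * Hs 2 Φ ≤ (C1 + C2 + CH * C1) * Hs 2 Φ :=
    mul_le_mul_of_nonneg_right (by nlinarith [mul_pos hCH hC1]) n2
  have r3 : CH * (C1 * Hs 0 Φ) ≤ (C1 + C2 + CH * C1) * Hs 0 Φ := by
    rw [← mul_assoc]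
    exact mul_le_mul_of_nonneg_right (by linarith) n0
  refine ⟨?_, ?_, ?_, ?_⟩
  · have i : ∀ j, IntegrableOn (fun x => ‖w j x‖ ^ 2) (Metric.ball (0 : E5) 1) := fun j =>
      DcLIN.intOn_ball ((hww j).sm.cont.norm.pow 2)
    rw [integral_add (i 0) (i 1)]
    have q0 := (hH a haH (w 0) (hww 0)).2
    have q1 := (hH a haH (w 1) (hww 1)).2
    have q2 : CH * g0 a w ≤ CH * (C1 * Hs 0 Φ) := mul_le_mul_of_nonneg_left b0 hCH.le
    unfold g0 at q2
    rw [mul_add] at q2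
    linarith
  · intro j
    exact ((le_g0 a w j).trans b0).trans r0
  · intro j k
    exact ((le_g0 a (Zp k w) j).trans ((le_g1 a w k).trans b1)).trans r1
  · intro j k l
    exact ((le_g0 a (Zp k (Zp l w)) j).trans ((le_g2 a w k l).trans b2)).trans r2

end Pool.Agent.CR5
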