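import Pool.Agent.Lib.CR5.SpecDc

/-!
# CR5, D7: cutoffs at infinity (helper37)
-/

open MeasureTheory Set Filter Topology
open scoped ENNReal ComplexConjugate

noncomputable section

namespace Pool.Agent.CR5

namespace cChix

theorem pd_eq_zero {χ : E5 → ℂ} {ρ : ℝ} (h1 : ∀ x, ‖x‖ ≤ ρ → χ x = 1) {x : E5} (hx : ‖x‖ < ρ)
    (i : Fin 5) : pd i χ x = 0 := by
  have hev : χ =ᶠ[𝓝 x] fun _ => (1 : ℂ) := by
    have hopen : IsOpen {y : E5 | ‖y‖ < ρ} := isOpen_lt continuous_norm continuous_const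
    filter_upwards [hopen.mem_nhds hx] with y hy
    exact h1 y (le_of_lt hy)
  unfold pd
  rw [hev.fderiv_eq]
  simp

theorem dz_eq_zero {χ : E5 → ℂ} {x : E5} (h : ∀ i, pd i χ x = 0) (l : Fin 3) : dz l χ x = 0 := by
  unfold dz
  split_ifs <;> simp [h]

theorem db_eq_zero {χ : E5 → ℂ} {x : E5} (h : ∀ i, pd i χ x = 0) (l : Fin 3) : db l χ x = 0 := by
  unfold db
  split_ifs <;> simp [h]

end cChix

theorem pcChi (h1 : S_cOut) : S_cChi := by
  intro C ρ hC hρ χ hχ hL hLb a ha j x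
  have hpos : 0 ≤ C / ρ := div_nonneg hC.le (by linarith)
  rcases lt_or_ge ‖x‖ ρ with hx | hx
  · have hp := fun i => cChix.pd_eq_zero hχ hx i
    have hz := fun l => cChix.dz_eq_zero hp l
    have hb := fun l => cChix.db_eq_zero hp l
    constructor
    · simp [L, hz, hb, hpos]
    · simp [Lb, hz, hb, hpos]
  · have h := (h1 a ha).1 j χ x (hρ.trans hx)
    rw [h.1, h.2]
    exact ⟨hL j x, hLb j x⟩

end Pool.Agent.CR5
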