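import Pool.Agent.Lib.CR5.SpecDc

/-!
# CR5, part D: the right invariant fields commute with the standard structure
-/

open MeasureTheory Set Filter Topology
open scoped ENNReal ComplexConjugate

noncomputable section

namespace Pool.Agent.CR5

namespace cCom0x

theorem pd_coord (i j : Fin 5) (x : E5) :
    pd i (fun y => ((y j : ℝ) : ℂ)) x = if i = j then 1 else 0 := by
  unfold pd
  have h : HasFDerivAt (fun y : E5 => ((y j : ℝ) : ℂ))
      (Complex.ofRealCLM.comp (EuclideanSpace.proj j : E5 →L[ℝ] ℝ)) x :=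
    (Complex.ofRealCLM.comp (EuclideanSpace.proj j : E5 →L[ℝ] ℝ)).hasFDerivAt
  rw [h.fderiv]
  by_cases hij : i = j
  · subst hij
    simp [e5]
  · have hji : j ≠ i := fun h => hij h.symm
    simp [e5, hij, hji]

theorem L0 (f : E5 → ℂ) (j : Fin 2) (x : E5) :
    L a0 j f x = db j.castSucc f x - Complex.I * (zc j x * pd 4 f x) := by
  unfold L a0
  rw [Fin.sum_univ_three]
  have h0 : ((0 : Fin 3) = 2) = False := by simp
  have h1 : ((1 : Fin 3) = 2) = False := by simp
  simp only [h0, h1, if_false, if_true, dz_two]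
  ring

theorem smz (k : Fin 5) : Sm (fun y => ((zco k y : ℝ) : ℂ)) := Sm.ofReal (contDiff_zco k)

/-- `∂_i (zc j)`. -/
theorem pd_zc (i : Fin 5) (j : Fin 2) (x : E5) :
    pd i (zc j) x = if j = 0 then ((if i = 0 then 1 else 0) + Complex.I * (if i = 1 then 1 else 0))
      else ((if i = 2 then 1 else 0) + Complex.I * (if i = 3 then 1 else 0)) := by
  by_cases h : j = 0
  · have e : zc j = fun y => ((y 0 : ℝ) : ℂ) + Complex.I * ((y 1 : ℝ) : ℂ) := by
      funext y; simp [zc, h]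
    rw [e, pd_add (Sm.coord 0) ((Sm.const _).mul (Sm.coord 1)), pd_const_mul (Sm.coord 1),
      pd_coord, pd_coord]
    simp [h]
  · have e : zc j = fun y => ((y 2 : ℝ) : ℂ) + Complex.I * ((y 3 : ℝ) : ℂ) := by
      funext y; simp [zc, h]
    rw [e, pd_add (Sm.coord 2) ((Sm.const _).mul (Sm.coord 3)), pd_const_mul (Sm.coord 3),
      pd_coord, pd_coord]
    simp [h]

/-- `∂_i (zco k)`. -/
theorem pd_zco (i k : Fin 5) (x : E5) :
    pd i (fun y => ((zco k y : ℝ) : ℂ)) x = if k = 0 then -2 * (if i = 1 then 1 else 0)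
      else if k = 1 then 2 * (if i = 0 then 1 else 0)
      else if k = 2 then -2 * (if i = 3 then 1 else 0)
      else if k = 3 then 2 * (if i = 2 then 1 else 0) else 0 := by
  by_cases h0 : k = 0
  · have e : (fun y => ((zco k y : ℝ) : ℂ)) = fun y => (-2 : ℂ) * ((y 1 : ℝ) : ℂ) := by
      funext y; simp [zco, h0]
    rw [e, pd_const_mul (Sm.coord 1), pd_coord]; simp [h0]
  by_cases h1 : k = 1
  · have e : (fun y => ((zco k y : ℝ) : ℂ)) = fun y => (2 : ℂ) * ((y 0 : ℝ) : ℂ) := by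
      funext y; simp [zco, h1]
    rw [e, pd_const_mul (Sm.coord 0), pd_coord]; simp [h1]
  by_cases h2 : k = 2
  · have e : (fun y => ((zco k y : ℝ) : ℂ)) = fun y => (-2 : ℂ) * ((y 3 : ℝ) : ℂ) := by
      funext y; simp [zco, h2]
    rw [e, pd_const_mul (Sm.coord 3), pd_coord]; simp [h2]
  by_cases h3 : k = 3
  · have e : (fun y => ((zco k y : ℝ) : ℂ)) = fun y => (2 : ℂ) * ((y 2 : ℝ) : ℂ) := by
      funext y; simp [zco, h3]
    rw [e, pd_const_mul (Sm.coord 2), pd_coord]; simp [h3]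
  have e : (fun y => ((zco k y : ℝ) : ℂ)) = fun _ => (0 : ℂ) := by
    funext y; simp [zco, h0, h1, h2, h3]
  rw [e, pd_const]; simp [h0, h1, h2, h3]

theorem pd_L0 {f : E5 → ℂ} (hf : Sm f) (j : Fin 2) (i : Fin 5) (x : E5) :
    pd i (L a0 j f) x = db j.castSucc (pd i f) x
      - Complex.I * (zc j x * pd i (pd 4 f) x + pd i (zc j) x * pd 4 f x) := by
  have e : L a0 j f = fun y => db j.castSucc f y - Complex.I * (zc j y * pd 4 f y) :=
    funext fun y => L0 f j y
  rw [e, pd_sub (hf.db _) ((Sm.const _).mul ((Sm.zc j).mul (hf.pd 4))),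
    pd_const_mul ((Sm.zc j).mul (hf.pd 4)), pd_mul (Sm.zc j) (hf.pd 4), pd_db hf]

theorem com {f : E5 → ℂ} (hf : Sm f) (j : Fin 2) (k : Fin 5) (x : E5) :
    Zf k (L a0 j f) x = L a0 j (Zf k f) x := by
  have hz := smz k
  have e4 : pd 4 (Zf k f) x = pd 4 (pd k f) x
      + (((zco k x : ℝ) : ℂ) * pd 4 (pd 4 f) x + pd 4 (fun y => ((zco k y : ℝ) : ℂ)) x * pd 4 f x) := by
    have e : Zf k f = fun y => pd k f y + ((zco k y : ℝ) : ℂ) * pd 4 f y := rfl
    rw [e, pd_add (hf.pd k) (hz.mul (hf.pd 4)), pd_mul hz (hf.pd 4)]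
  have e5 : db j.castSucc (Zf k f) x = db j.castSucc (pd k f) x
      + (((zco k x : ℝ) : ℂ) * db j.castSucc (pd 4 f) x
        + db j.castSucc (fun y => ((zco k y : ℝ) : ℂ)) x * pd 4 f x) := by
    have e : Zf k f = fun y => pd k f y + ((zco k y : ℝ) : ℂ) * pd 4 f y := rfl
    rw [e, db_add (hf.pd k) (hz.mul (hf.pd 4)), db_mul hz (hf.pd 4)]
  have z4 : pd 4 (zc j) x = 0 := by
    rw [pd_zc]; simp
  have k4 : pd 4 (fun y => ((zco k y : ℝ) : ℂ)) x = 0 := by
    rw [pd_zco]; simp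
  have key : -(Complex.I * pd k (zc j) x) = db j.castSucc (fun y => ((zco k y : ℝ) : ℂ)) x := by
    have hj : j = 0 ∨ j = 1 := by fin_cases j <;> simp
    rcases hj with rfl | rfl
    · have c : (Fin.castSucc (0 : Fin 2) : Fin 3) = 0 := rfl
      rw [c, db_zero, pd_zc, pd_zco, pd_zco]
      fin_cases k
      · simp; ring
      · simp
      · simp
      · simp
      · simp
    · have c : (Fin.castSucc (1 : Fin 2) : Fin 3) = 1 := rfl
      rw [c, db_one, pd_zc, pd_zco, pd_zco]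
      fin_cases k
      · simp
      · simp
      · simp; ring
      · simp
      · simp
  rw [L0, e4, e5]
  show pd k (L a0 j f) x + ((zco k x : ℝ) : ℂ) * pd 4 (L a0 j f) x = _
  rw [pd_L0 hf, pd_L0 hf, z4, k4, ← key, pd_comm hf k 4]
  ring

theorem Zf_conj {f : E5 → ℂ} (hf : Sm f) (k : Fin 5) (x : E5) :
    Zf k (fun y => conj (f y)) x = conj (Zf k f x) := by
  unfold Zf
  rw [pd_conj hf, pd_conj hf, map_add, map_mul, Complex.conj_ofReal]

end cCom0x

open cCom0x in
theorem pcCom0 : S_cCom0 := by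
  intro f hf j k x
  refine ⟨com hf j k x, ?_⟩
  have hL : Sm (L a0 j (fun y => conj (f y))) := hf.conj.L smS_a0 j
  have h1 : Lb a0 j f = fun y => conj (L a0 j (fun z => conj (f z)) y) := by
    funext y
    rw [conj_L hf.conj]
    simp only [Complex.conj_conj]
  have h2 : Lb a0 j (Zf k f) x = conj (L a0 j (fun z => conj (Zf k f z)) x) := by
    rw [conj_L (hf.Zf k).conj]
    simp only [Complex.conj_conj]
  have h3 : (fun z => conj (Zf k f z)) = Zf k (fun y => conj (f y)) := by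
    funext y; exact (Zf_conj hf k y).symm
  rw [h1, Zf_conj hL, com hf.conj, h2, h3]

end Pool.Agent.CR5
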