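import Pool.Agent.Lib.CR5.SpecDc

/-!
# CR5, block D: the basic estimate at infinity (statement `S_cEll`)
-/

open MeasureTheory Set Filter Topology
open scoped ENNReal ComplexConjugate

noncomputable section

namespace Pool.Agent.CR5

namespace cEllx

theorem zz_le (x : E5) : zz x ≤ ‖x‖ ^ 2 := by
  rw [EuclideanSpace.norm_sq_eq, Fin.sum_univ_five]
  simp only [Real.norm_eq_abs, sq_abs]
  unfold zz
  nlinarith [sq_nonneg (x 4)]

theorem zz_nonneg (x : E5) : 0 ≤ zz x := by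
  unfold zz
  positivity

theorem zz_cont : Continuous zz := by
  unfold zz
  fun_prop

theorem nsq (u v : ℂ) : ‖u + v‖ ^ 2 ≤ 2 * ‖u‖ ^ 2 + 2 * ‖v‖ ^ 2 := by
  have h := norm_add_le u v
  have h0 := norm_nonneg (u + v)
  nlinarith [sq_nonneg (‖u‖ - ‖v‖), norm_nonneg u, norm_nonneg v]

/-- one cutoff term -/
theorem term {c w1 w2 u v F1 F2 : ℂ} {δ : ℝ} (hc : ‖c‖ ≤ 1) (h1 : ‖w1‖ ≤ δ) (h2 : ‖w2‖ ≤ δ)
    (h : v = c * u + (w1 * F1 + w2 * F2)) :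
    ‖v‖ ^ 2 ≤ 2 * ‖u‖ ^ 2 + 4 * δ ^ 2 * (‖F1‖ ^ 2 + ‖F2‖ ^ 2) := by
  rw [h]
  have e1 := nsq (c * u) (w1 * F1 + w2 * F2)
  have e2 := nsq (w1 * F1) (w2 * F2)
  rw [norm_mul, mul_pow] at e1
  rw [norm_mul, norm_mul, mul_pow, mul_pow] at e2
  have g1 : ‖c‖ ^ 2 ≤ 1 := by
    have := norm_nonneg c
    nlinarith
  have g2 : ‖w1‖ ^ 2 ≤ δ ^ 2 := pow_le_pow_left₀ (norm_nonneg _) h1 2
  have g3 : ‖w2‖ ^ 2 ≤ δ ^ 2 := pow_le_pow_left₀ (norm_nonneg _) h2 2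
  have k1 : ‖c‖ ^ 2 * ‖u‖ ^ 2 ≤ 1 * ‖u‖ ^ 2 := mul_le_mul_of_nonneg_right g1 (sq_nonneg _)
  have k2 : ‖w1‖ ^ 2 * ‖F1‖ ^ 2 ≤ δ ^ 2 * ‖F1‖ ^ 2 := mul_le_mul_of_nonneg_right g2 (sq_nonneg _)
  have k3 : ‖w2‖ ^ 2 * ‖F2‖ ^ 2 ≤ δ ^ 2 * ‖F2‖ ^ 2 := mul_le_mul_of_nonneg_right g3 (sq_nonneg _)
  nlinarith

/-- a limit -/
theorem lim {A B K : ℝ} (hK : 0 ≤ K) (h : ∀ ρ : ℝ, 1 ≤ ρ → A ≤ B + K * (1 / ρ) ^ 2) : A ≤ B := by
  apply le_of_forall_pos_le_add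
  intro ε hε
  have hρ : 1 ≤ 1 + K / ε := by
    have : 0 ≤ K / ε := by positivity
    linarith
  have h1 := h (1 + K / ε) hρ
  have h2 : K * (1 / (1 + K / ε)) ^ 2 ≤ ε := by
    have h3 : (0 : ℝ) < 1 + K / ε := by linarith
    have h4 : 1 / (1 + K / ε) ≤ 1 := by
      rw [div_le_one h3]
      exact hρ
    have h6 : K * (1 / (1 + K / ε)) ≤ ε := by
      rw [mul_one_div, div_le_iff₀ h3]
      have h7 : ε * (1 + K / ε) = ε + K := by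
        field_simp
      rw [h7]
      linarith
    calc K * (1 / (1 + K / ε)) ^ 2 = K * (1 / (1 + K / ε)) * (1 / (1 + K / ε)) := by ring
      _ ≤ K * (1 / (1 + K / ε)) * 1 := by
          apply mul_le_mul_of_nonneg_left h4
          positivity
      _ ≤ ε := by linarith
  linarith

theorem intsq {f : E5 → ℂ} (h : MemLp f 2) : Integrable (fun x => ‖f x‖ ^ 2) volume :=
  (memLp_two_iff_integrable_sq_norm h.1).1 h

theorem tgr {a : Str} (ha : SmS a) {f : E5 → ℂ} (h : Tst f) : Integrable (gr a f) volume := by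
  unfold gr
  apply integrable_finsetSum
  intro j _
  exact (intsq (Tst.L ha j h).memLp).add (intsq (Tst.Lb ha j h).memLp)

/-- the integral over the ball -/
theorem ball_le {χ f : E5 → ℂ} (hχ : Tst χ) (hs : Sm f) (hf : MemLp f 2)
    (h1 : ∀ x, ‖x‖ ≤ 1 → χ x = 1) :
    (∫ x in Metric.ball (0 : E5) 1, ‖f x‖ ^ 2)
      ≤ 2 * ∫ x, ‖χ x * f x‖ ^ 2 / (1 + zz x) := by
  have hT : Tst (fun x => χ x * f x) := Tst.mul_right hχ hs
  have hI0 : Integrable (fun x => ‖χ x * f x‖ ^ 2) volume := intsq hT.memLp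
  have hI1 : Integrable (fun x => ‖f x‖ ^ 2) volume := intsq hf
  have hI2 : Integrable (fun x => ‖χ x * f x‖ ^ 2 / (1 + zz x)) volume := by
    refine hI0.mono' ?_ ?_
    · apply Continuous.aestronglyMeasurable
      have hc : Continuous (fun x => χ x * f x) := hT.sm.cont
      refine Continuous.div (by fun_prop) ((continuous_const).add zz_cont) ?_
      intro x
      have := zz_nonneg x
      positivity
    · filter_upwards with x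
      have hz := zz_nonneg x
      have h2 : 0 ≤ ‖χ x * f x‖ ^ 2 / (1 + zz x) := by positivity
      rw [Real.norm_of_nonneg h2]
      apply div_le_self (sq_nonneg _)
      linarith
  rw [← integral_const_mul]
  have hI3 : Integrable (fun x => 2 * (‖χ x * f x‖ ^ 2 / (1 + zz x))) volume := hI2.const_mul 2
  refine le_trans ?_ (setIntegral_le_integral (s := Metric.ball (0 : E5) 1) hI3 ?_)
  · refine setIntegral_mono_on hI1.integrableOn hI3.integrableOn measurableSet_ball ?_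
    intro x hx
    have hx1 : ‖x‖ < 1 := by
      rwa [Metric.mem_ball, dist_zero_right] at hx
    rw [h1 x hx1.le, one_mul]
    have hz := zz_nonneg x
    have hz1 : zz x ≤ 1 := by
      have := zz_le x
      have h0 := norm_nonneg x
      nlinarith
    have h2 : (0 : ℝ) < 1 + zz x := by linarith
    rw [← mul_div_assoc, le_div_iff₀ h2]
    have h3 := sq_nonneg ‖f x‖
    nlinarith
  · filter_upwards with x
    have hz := zz_nonneg x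
    show 0 ≤ 2 * (‖χ x * f x‖ ^ 2 / (1 + zz x))
    positivity

/-- a bound of the norm of a cutoff expression -/
theorem cutI {c u v F1 F2 w1 w2 : E5 → ℂ} {δ : ℝ} (hc : ∀ x, ‖c x‖ ≤ 1) (h1 : ∀ x, ‖w1 x‖ ≤ δ)
    (h2 : ∀ x, ‖w2 x‖ ≤ δ) (hu : MemLp u 2) (hF1 : MemLp F1 2) (hF2 : MemLp F2 2)
    (hv : MemLp v 2) (h : ∀ x, v x = c x * u x + (w1 x * F1 x + w2 x * F2 x)) :
    (∫ x, ‖v x‖ ^ 2) ≤ 2 * (∫ x, ‖u x‖ ^ 2)
      + 4 * δ ^ 2 * ((∫ x, ‖F1 x‖ ^ 2) + ∫ x, ‖F2 x‖ ^ 2) := by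
  have i0 := intsq hv
  have i1 := intsq hu
  have i2 := intsq hF1
  have i3 := intsq hF2
  have i4 : Integrable (fun x => 4 * δ ^ 2 * (‖F1 x‖ ^ 2 + ‖F2 x‖ ^ 2)) volume :=
    (i2.add i3).const_mul (4 * δ ^ 2)
  rw [← integral_add i2 i3, ← integral_const_mul, ← integral_const_mul,
    ← integral_add (i1.const_mul 2) i4]
  refine integral_mono i0 ((i1.const_mul 2).add i4) ?_
  intro x
  exact term (hc x) (h1 x) (h2 x) (h x)

end cEllx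

open cEllx in
theorem pcEll (h1 : S_Har) (h2 : S_Bas) (h3 : S_Inf) (h4 : S_cChi) : S_cEll := by
  obtain ⟨ε1, hε1, CH, hCH, hH⟩ := h1
  obtain ⟨ε2, hε2, c, hc, hB⟩ := h2
  obtain ⟨C', hC', hI⟩ := h3
  refine ⟨min ε1 ε2, lt_min hε1 hε2, 4 * (CH / c), by positivity, ?_⟩
  intro a ha y hy hy2 hD0 hD1
  have he0 : 0 ≤ min ε1 ε2 := (lt_min hε1 hε2).le
  have hO : Outs a := ⟨ha.sm, ha.out⟩
  have hN1 : Near a 1 ε1 := ⟨ha.sm, ha.out, fun j l i hi x =>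
    (ha.bd j l i (by omega) x).trans (pow_le_pow_left₀ he0 (min_le_left _ _) 2)⟩
  have hN2 : Near a 2 ε2 := ⟨ha.sm, ha.out, fun j l i hi x =>
    (ha.bd j l i hi x).trans (pow_le_pow_left₀ he0 (min_le_right _ _) 2)⟩
  have hs : SmS a := ha.sm
  have i0 := intsq (hy2 0)
  have i1 := intsq (hy2 1)
  have n0 : 0 ≤ ∫ x, ‖y 0 x‖ ^ 2 := integral_nonneg fun x => sq_nonneg _
  have n1 : 0 ≤ ∫ x, ‖y 1 x‖ ^ 2 := integral_nonneg fun x => sq_nonneg _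
  set Y : ℝ := (∫ x, ‖y 0 x‖ ^ 2) + ∫ x, ‖y 1 x‖ ^ 2 with hY
  have hY0 : 0 ≤ Y := add_nonneg n0 n1
  refine lim (K := 16 * (CH / c) * C' ^ 2 * Y) (by positivity) ?_
  intro ρ hρ
  obtain ⟨χ, hχ, hb, -, hone, hL, hLb, -⟩ := hI ρ hρ
  have hd := h4 C' ρ hC' hρ χ hone hL hLb a hO
  have hT : ∀ j, Tst (fun x => χ x * y j x) := fun j => Tst.mul_right hχ (hy j)
  have hone1 : ∀ x, ‖x‖ ≤ 1 → χ x = 1 := fun x hx => hone x (hx.trans hρ)
  have b0 := ball_le hχ (hy 0) (hy2 0) hone1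
  have b1 := ball_le hχ (hy 1) (hy2 1) hone1
  have e0 := hH a hN1 _ (hT 0)
  have e1 := hH a hN1 _ (hT 1)
  have e2 := hB a hN2 (fun j x => χ x * y j x) hT
  have m0 : MemLp (D0s a (fun j x => χ x * y j x)) 2 :=
    ((Tst.Ls hs 0 (hT 0)).add (Tst.Ls hs 1 (hT 1))).memLp
  have m1 : MemLp (D1 a (fun j x => χ x * y j x)) 2 :=
    ((Tst.L hs 0 (hT 1)).sub (Tst.L hs 1 (hT 0))).memLp
  have f0 := cutI (c := χ) (u := D0s a y) (v := D0s a (fun j x => χ x * y j x)) (F1 := y 0)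
    (F2 := y 1) (w1 := fun x => -Lb a 0 χ x) (w2 := fun x => -Lb a 1 χ x) (δ := C' / ρ) hb
    (fun x => by rw [norm_neg]; exact (hd 0 x).2) (fun x => by rw [norm_neg]; exact (hd 1 x).2)
    hD0 (hy2 0) (hy2 1) m0 (fun x => by
      unfold D0s
      rw [Ls_mul hs hχ.sm (hy 0), Ls_mul hs hχ.sm (hy 1)]
      ring)
  have f1 := cutI (c := χ) (u := D1 a y) (v := D1 a (fun j x => χ x * y j x)) (F1 := y 0)
    (F2 := y 1) (w1 := fun x => -L a 1 χ x) (w2 := fun x => L a 0 χ x) (δ := C' / ρ) hb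
    (fun x => by rw [norm_neg]; exact (hd 1 x).1) (fun x => (hd 0 x).1)
    hD1 (hy2 0) (hy2 1) m1 (fun x => by
      unfold D1
      rw [L_mul hχ.sm (hy 0), L_mul hχ.sm (hy 1)]
      ring)
  have hball : (∫ x in Metric.ball (0 : E5) 1, (‖y 0 x‖ ^ 2 + ‖y 1 x‖ ^ 2))
      = (∫ x in Metric.ball (0 : E5) 1, ‖y 0 x‖ ^ 2)
        + ∫ x in Metric.ball (0 : E5) 1, ‖y 1 x‖ ^ 2 :=
    integral_add i0.integrableOn i1.integrableOn
  rw [hball]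
  set G0 : ℝ := ∫ x, gr a (fun x => χ x * y 0 x) x with hG0
  set G1 : ℝ := ∫ x, gr a (fun x => χ x * y 1 x) x with hG1
  have e2' : c * (G0 + G1) ≤ (∫ x, ‖D0s a (fun j x => χ x * y j x) x‖ ^ 2)
      + ∫ x, ‖D1 a (fun j x => χ x * y j x) x‖ ^ 2 := e2
  rw [← hY] at f0 f1
  have e3 : c * (G0 + G1) ≤ 2 * ((∫ x, ‖D0s a y x‖ ^ 2) + ∫ x, ‖D1 a y x‖ ^ 2)
      + 8 * (C' / ρ) ^ 2 * Y := by linarith
  have e4 : G0 + G1 ≤ (2 * ((∫ x, ‖D0s a y x‖ ^ 2) + ∫ x, ‖D1 a y x‖ ^ 2)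
      + 8 * (C' / ρ) ^ 2 * Y) / c := by
    rw [le_div_iff₀ hc]
    linarith
  have e5 : 2 * CH * (G0 + G1) ≤ 2 * CH * ((2 * ((∫ x, ‖D0s a y x‖ ^ 2) + ∫ x, ‖D1 a y x‖ ^ 2)
      + 8 * (C' / ρ) ^ 2 * Y) / c) := mul_le_mul_of_nonneg_left e4 (by positivity)
  have e6 : 2 * CH * ((2 * ((∫ x, ‖D0s a y x‖ ^ 2) + ∫ x, ‖D1 a y x‖ ^ 2)
      + 8 * (C' / ρ) ^ 2 * Y) / c) = 4 * (CH / c) * ((∫ x, ‖D0s a y x‖ ^ 2)
        + ∫ x, ‖D1 a y x‖ ^ 2) + 16 * (CH / c) * C' ^ 2 * Y * (1 / ρ) ^ 2 := by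
    field_simp
    ring
  rw [← e6]
  have e7 : 2 * CH * (G0 + G1) = 2 * (CH * G0) + 2 * (CH * G1) := by ring
  linarith

end Pool.Agent.CR5
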