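import Pool.Agent.Lib.CR5.SpecDc

/-!
# CR5, block D: Hardy's inequality for functions in `WW` (statement `S_cHar`)
-/

open MeasureTheory Set Filter Topology
open scoped ENNReal ComplexConjugate

noncomputable section

namespace Pool.Agent.CR5

namespace cHarx

theorem ww_of_tst {f : E5 → ℂ} (h : Tst f) : WW f :=
  ⟨h.sm, h.memLp, fun j => (Tst.L smS_a0 j h).memLp, fun j => (Tst.Lb smS_a0 j h).memLp,
    (Tst.pd h 4).memLp⟩

theorem zz_le (x : E5) : zz x ≤ ‖x‖ ^ 2 := by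
  rw [EuclideanSpace.norm_sq_eq, Fin.sum_univ_five]
  simp only [Real.norm_eq_abs, sq_abs]
  unfold zz
  nlinarith [sq_nonneg (x 4)]

theorem zz_nonneg (x : E5) : 0 ≤ zz x := by
  unfold zz
  positivity

theorem zz_cont : Continuous zz := by
  unfold zz
  fun_prop

/-- the norm squared of a sum -/
theorem nsq (u v : ℂ) : ‖u + v‖ ^ 2 ≤ 2 * ‖u‖ ^ 2 + 2 * ‖v‖ ^ 2 := by
  have h := norm_add_le u v
  have h0 := norm_nonneg (u + v)
  nlinarith [sq_nonneg (‖u‖ - ‖v‖), norm_nonneg u, norm_nonneg v]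

/-- one term -/
theorem term {c w u v F : ℂ} {δ : ℝ} (hc : ‖c‖ ≤ 1) (hw : ‖w‖ ≤ δ) (h : v = c * u + w * F) :
    ‖v‖ ^ 2 ≤ 2 * ‖u‖ ^ 2 + 2 * δ ^ 2 * ‖F‖ ^ 2 := by
  rw [h]
  refine (nsq _ _).trans ?_
  rw [norm_mul, norm_mul, mul_pow, mul_pow]
  have h1 : ‖c‖ ^ 2 ≤ 1 := by
    have := norm_nonneg c
    nlinarith
  have h2 : ‖w‖ ^ 2 ≤ δ ^ 2 := by
    have := norm_nonneg w
    nlinarith
  have h3 : ‖c‖ ^ 2 * ‖u‖ ^ 2 ≤ ‖u‖ ^ 2 := by
    have := sq_nonneg ‖u‖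
    nlinarith
  have h4 : ‖w‖ ^ 2 * ‖F‖ ^ 2 ≤ δ ^ 2 * ‖F‖ ^ 2 :=
    mul_le_mul_of_nonneg_right h2 (sq_nonneg _)
  nlinarith

/-- the pointwise bound -/
theorem gr_cut {a : Str} {χ f : E5 → ℂ} {δ : ℝ} (hχ : Sm χ) (hf : Sm f) (hb : ∀ x, ‖χ x‖ ≤ 1)
    (hd : ∀ j x, ‖L a j χ x‖ ≤ δ ∧ ‖Lb a j χ x‖ ≤ δ) (x : E5) :
    gr a (fun y => χ y * f y) x ≤ 2 * gr a f x + 8 * δ ^ 2 * ‖f x‖ ^ 2 := by
  have h1 : ∀ j : Fin 2, ‖L a j (fun y => χ y * f y) x‖ ^ 2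
      ≤ 2 * ‖L a j f x‖ ^ 2 + 2 * δ ^ 2 * ‖f x‖ ^ 2 := by
    intro j
    refine term (hb x) (hd j x).1 ?_
    rw [L_mul hχ hf]
  have h2 : ∀ j : Fin 2, ‖Lb a j (fun y => χ y * f y) x‖ ^ 2
      ≤ 2 * ‖Lb a j f x‖ ^ 2 + 2 * δ ^ 2 * ‖f x‖ ^ 2 := by
    intro j
    refine term (hb x) (hd j x).2 ?_
    rw [Lb_mul hχ hf]
  unfold gr
  rw [Fin.sum_univ_two, Fin.sum_univ_two]
  have a0 := h1 0
  have a1 := h1 1
  have b0 := h2 0
  have b1 := h2 1
  linarith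

/-- a limit -/
theorem lim {A B K : ℝ} (hK : 0 ≤ K) (h : ∀ ρ : ℝ, 1 ≤ ρ → A ≤ B + K * (1 / ρ) ^ 2) : A ≤ B := by
  apply le_of_forall_pos_le_add
  intro ε hε
  have hρ : 1 ≤ 1 + K / ε := by
    have : 0 ≤ K / ε := by positivity
    linarith
  have h1 := h (1 + K / ε) hρ
  have h2 : K * (1 / (1 + K / ε)) ^ 2 ≤ ε := by
    have h3 : (0 : ℝ) < 1 + K / ε := by linarith
    have h4 : 1 / (1 + K / ε) ≤ 1 := by
      rw [div_le_one h3]
      exact hρ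
    have h5 : (0 : ℝ) ≤ 1 / (1 + K / ε) := by positivity
    have h6 : K * (1 / (1 + K / ε)) ≤ ε := by
      rw [mul_one_div, div_le_iff₀ h3]
      have h7 : ε * (1 + K / ε) = ε + K := by
        field_simp
      rw [h7]
      linarith
    calc K * (1 / (1 + K / ε)) ^ 2 = K * (1 / (1 + K / ε)) * (1 / (1 + K / ε)) := by ring
      _ ≤ K * (1 / (1 + K / ε)) * 1 := by
          apply mul_le_mul_of_nonneg_left h4
          positivity
      _ ≤ ε := by linarith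
  linarith

/-- the integral over the ball -/
theorem ball_le {χ f : E5 → ℂ} (hχ : Tst χ) (hf : WW f) (h1 : ∀ x, ‖x‖ ≤ 1 → χ x = 1) :
    (∫ x in Metric.ball (0 : E5) 1, ‖f x‖ ^ 2)
      ≤ 2 * ∫ x, ‖χ x * f x‖ ^ 2 / (1 + zz x) := by
  have hT : Tst (fun x => χ x * f x) := Tst.mul_right hχ hf.sm
  have hI0 : Integrable (fun x => ‖χ x * f x‖ ^ 2) volume := by
    have := (memLp_two_iff_integrable_sq_norm hT.memLp.1).1 hT.memLp
    exact this
  have hI1 : Integrable (fun x => ‖f x‖ ^ 2) volume :=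
    (memLp_two_iff_integrable_sq_norm hf.l2.1).1 hf.l2
  have hI2 : Integrable (fun x => ‖χ x * f x‖ ^ 2 / (1 + zz x)) volume := by
    refine hI0.mono' ?_ ?_
    · apply Continuous.aestronglyMeasurable
      have hc : Continuous (fun x => χ x * f x) := hT.sm.cont
      refine Continuous.div (by fun_prop) ((continuous_const).add zz_cont) ?_
      intro x
      have := zz_nonneg x
      positivity
    · filter_upwards with x
      have hz := zz_nonneg x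
      have h2 : 0 ≤ ‖χ x * f x‖ ^ 2 / (1 + zz x) := by positivity
      rw [Real.norm_of_nonneg h2]
      apply div_le_self (sq_nonneg _)
      linarith
  rw [← integral_const_mul]
  have hI3 : Integrable (fun x => 2 * (‖χ x * f x‖ ^ 2 / (1 + zz x))) volume := hI2.const_mul 2
  refine le_trans ?_ (setIntegral_le_integral (s := Metric.ball (0 : E5) 1) hI3 ?_)
  · refine setIntegral_mono_on hI1.integrableOn hI3.integrableOn measurableSet_ball ?_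
    intro x hx
    have hx1 : ‖x‖ < 1 := by
      rwa [Metric.mem_ball, dist_zero_right] at hx
    rw [h1 x hx1.le, one_mul]
    have hz := zz_nonneg x
    have hz1 : zz x ≤ 1 := by
      have := zz_le x
      have h0 := norm_nonneg x
      nlinarith
    have h2 : (0 : ℝ) < 1 + zz x := by linarith
    rw [← mul_div_assoc, le_div_iff₀ h2]
    have h3 := sq_nonneg ‖f x‖
    nlinarith
  · filter_upwards with x
    have hz := zz_nonneg x
    show 0 ≤ 2 * (‖χ x * f x‖ ^ 2 / (1 + zz x))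
    positivity

end cHarx

open cHarx in
theorem pcHar (h1 : S_Har) (h2 : S_Inf) (h3 : S_cMem) (h4 : S_cChi) : S_cHar := by
  obtain ⟨ε, hε, C, hC, hH⟩ := h1
  obtain ⟨C', hC', hI⟩ := h2
  refine ⟨ε, hε, 4 * C, by positivity, ?_⟩
  intro a ha f hf
  have hO : Outs a := ⟨ha.sm, ha.out⟩
  have hN : Near a 1 ε := ⟨ha.sm, ha.out, fun j l i hi x => ha.bd j l i (by omega) x⟩
  have hg := (h3 a hO f hf).1
  refine ⟨hg, ?_⟩
  have hF : Integrable (fun x => ‖f x‖ ^ 2) volume :=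
    (memLp_two_iff_integrable_sq_norm hf.l2.1).1 hf.l2
  have hF0 : 0 ≤ ∫ x, ‖f x‖ ^ 2 := integral_nonneg fun x => sq_nonneg _
  refine lim (K := 16 * C * C' ^ 2 * ∫ x, ‖f x‖ ^ 2) (by positivity) ?_
  intro ρ hρ
  obtain ⟨χ, hχ, hb, -, hone, hL, hLb, -⟩ := hI ρ hρ
  have hd := h4 C' ρ hC' hρ χ hone hL hLb a hO
  have hT : Tst (fun x => χ x * f x) := Tst.mul_right hχ hf.sm
  have e1 := ball_le hχ hf (fun x hx => hone x (hx.trans hρ))
  have e2 := hH a hN _ hT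
  have e3 : (∫ x, gr a (fun y => χ y * f y) x)
      ≤ 2 * (∫ x, gr a f x) + 8 * (C' / ρ) ^ 2 * ∫ x, ‖f x‖ ^ 2 := by
    rw [← integral_const_mul, ← integral_const_mul, ← integral_add (hg.const_mul 2)
      (hF.const_mul _)]
    refine integral_mono (h3 a hO _ (ww_of_tst hT)).1
      ((hg.const_mul 2).add (hF.const_mul _)) ?_
    intro x
    exact gr_cut hχ.sm hf.sm hb hd x
  have e4 : C * (∫ x, gr a (fun y => χ y * f y) x)
      ≤ C * (2 * (∫ x, gr a f x) + 8 * (C' / ρ) ^ 2 * ∫ x, ‖f x‖ ^ 2) :=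
    mul_le_mul_of_nonneg_left e3 hC.le
  have e5 : 16 * C * C' ^ 2 * (∫ x, ‖f x‖ ^ 2) * (1 / ρ) ^ 2
      = 2 * (C * (8 * (C' / ρ) ^ 2 * ∫ x, ‖f x‖ ^ 2)) := by
    rw [div_pow, div_pow]
    ring
  rw [e5]
  have e6 := mul_add C (2 * ∫ x, gr a f x) (8 * (C' / ρ) ^ 2 * ∫ x, ‖f x‖ ^ 2)
  nlinarith

end Pool.Agent.CR5
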