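import Pool.Agent.Lib.CR5.SpecDc

/-!
# CR5, block D, D12: pointwise bounds of the commutator and its adjoint
-/

open MeasureTheory Set Filter Topology
open scoped ENNReal ComplexConjugate

noncomputable section

namespace Pool.Agent.CR5

namespace cKapx

theorem half (u v : ℂ) {s : ℝ} (h1 : ‖u‖ ≤ s) (h2 : ‖v‖ ≤ s) :
    ‖(u - Complex.I * v) / 2‖ ≤ s := by
  have h4 : ‖(2 : ℂ)‖ = 2 := by norm_num
  have h3 : ‖Complex.I * v‖ = ‖v‖ := by rw [norm_mul, Complex.norm_I, one_mul]
  rw [norm_div, h4]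
  have h5 := norm_sub_le u (Complex.I * v)
  linarith

theorem dz_le (g : E5 → ℂ) (x : E5) {s : ℝ} (h : ∀ i, ‖pd i g x‖ ≤ s) (l : Fin 3) :
    ‖dz l g x‖ ≤ s := by
  unfold dz
  split_ifs
  · exact half _ _ (h 0) (h 1)
  · exact half _ _ (h 2) (h 3)
  · exact h 4

theorem kaps_term (a : Str) (ha : SmS a) (f : E5 → ℂ) (hf : Sm f) (l : Fin 3) (x : E5) :
    db l (fun y => conj (kap a l y) * f y) x =
      conj (kap a l x) * db l f x + conj (dz l (kap a l) x) * f x := by
  rw [db_mul (Sm.kap ha l).conj hf, db_conj (Sm.kap ha l)]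

end cKapx

open cKapx in
/-- **D12.** Bounds of the commutator and its adjoint. -/
theorem pcKap (h1 : S_cOut) (h2 : S_cZ) : S_cKap := by
  intro a ha κ hκ hκ' f hf x
  have hK : Kaps a f x = -∑ l, (conj (kap a l x) * db l f x + conj (dz l (kap a l) x) * f x) := by
    unfold Kaps
    rw [Finset.sum_congr rfl fun l _ => kaps_term a ha.sm f hf l x]
  have hκ0 : 0 ≤ κ := (norm_nonneg _).trans (hκ 0 x)
  constructor
  · intro hx
    have h3 := (h1 a ha).2.2
    constructor
    · unfold Kap
      refine Finset.sum_eq_zero fun l _ => ?_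
      rw [(h3 l x hx).1, zero_mul]
    · rw [hK, neg_eq_zero]
      refine Finset.sum_eq_zero fun l _ => ?_
      have h4 : dz l (kap a l) x = 0 := by
        rw [← norm_le_zero_iff]
        exact dz_le _ _ (fun i => by rw [(h3 l x hx).2 i, norm_zero]) l
      rw [(h3 l x hx).1, h4, map_zero, zero_mul, zero_mul, add_zero]
  · intro hx
    obtain ⟨_, h4, h5⟩ := h2 f x hx.le
    have hs : 0 ≤ sZ f x := by
      unfold sZ
      exact Finset.sum_nonneg fun k _ => norm_nonneg _
    constructor
    · unfold Kap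
      refine (norm_sum_le _ _).trans ?_
      have h6 : ∀ l : Fin 3, ‖kap a l x * dz l f x‖ ≤ κ * (2 * sZ f x) := by
        intro l
        rw [norm_mul]
        exact mul_le_mul (hκ l x) (h4 l) (norm_nonneg _) hκ0
      rw [Fin.sum_univ_three]
      linarith [h6 0, h6 1, h6 2]
    · rw [hK, norm_neg]
      refine (norm_sum_le _ _).trans ?_
      have h6 : ∀ l : Fin 3, ‖conj (kap a l x) * db l f x + conj (dz l (kap a l) x) * f x‖ ≤
          κ * (2 * sZ f x) + κ * ‖f x‖ := by
        intro l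
        refine (norm_add_le _ _).trans ?_
        rw [norm_mul, norm_mul, RCLike.norm_conj, RCLike.norm_conj]
        refine add_le_add ?_ ?_
        · exact mul_le_mul (hκ l x) (h5 l) (norm_nonneg _) hκ0
        · exact mul_le_mul_of_nonneg_right (dz_le _ _ (fun i => hκ' l i x) l) (norm_nonneg _)
      rw [Fin.sum_univ_three]
      have h7 : 0 ≤ κ * ‖f x‖ := mul_nonneg hκ0 (norm_nonneg _)
      linarith [h6 0, h6 1, h6 2]

end Pool.Agent.CR5
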