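import Pool.Agent.Lib.CR5.SpecDc

/-!
# CR5, block D, D11: `D0* D1*` is the adjoint of the commutator
-/

open MeasureTheory Set Filter Topology
open scoped ENNReal ComplexConjugate

noncomputable section

namespace Pool.Agent.CR5

namespace cKsx

theorem w0 (a : Str) (v : E5 → ℂ) : D1s a v 0 = fun x => -Ls a 1 v x := by
  funext x
  exact if_pos rfl

theorem w1 (a : Str) (v : E5 → ℂ) : D1s a v 1 = fun x => Ls a 0 v x := by
  funext x
  exact if_neg one_ne_zero

/-- the weak form of the left side -/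
theorem left {a : Str} (ha : SmS a) {v : E5 → ℂ} (hv : Sm v) {φ : E5 → ℂ} (hφ : Tst φ) :
    ∫ x, φ x * conj (D0s a (D1s a v) x) = ∫ x, Kap a φ x * conj (v x) := by
  have s0 : Sm (Ls a 0 v) := hv.Ls ha 0
  have s1 : Sm (Ls a 1 v) := hv.Ls ha 1
  have e1 : ∀ x, φ x * conj (D0s a (D1s a v) x) =
      φ x * conj (Ls a 0 (fun y => -Ls a 1 v y) x) + φ x * conj (Ls a 1 (fun y => Ls a 0 v y) x) := by
    intro x
    show φ x * conj (Ls a 0 (D1s a v 0) x + Ls a 1 (D1s a v 1) x) = _
    rw [w0, w1, map_add, mul_add]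
  simp only [e1]
  rw [integral_add (Tst.mul_right hφ (Sm.Ls ha 0 s1.neg).conj).integrable
    (Tst.mul_right hφ (Sm.Ls ha 1 s0).conj).integrable,
    ← ibp_L' ha 0 hφ s1.neg, ← ibp_L' ha 1 hφ s0]
  have e2 : ∫ x, L a 0 φ x * conj (-Ls a 1 v x) = -∫ x, L a 1 (L a 0 φ) x * conj (v x) := by
    rw [ibp_L' ha 1 (hφ.L ha 0) hv, ← integral_neg]
    refine integral_congr_ae (Eventually.of_forall fun x => ?_)
    show L a 0 φ x * conj (-Ls a 1 v x) = -(L a 0 φ x * conj (Ls a 1 v x))
    rw [map_neg, mul_neg]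
  have e3 : ∫ x, L a 1 φ x * conj (Ls a 0 v x) = ∫ x, L a 0 (L a 1 φ) x * conj (v x) :=
    (ibp_L' ha 0 (hφ.L ha 1) hv).symm
  rw [e2, e3, ← integral_neg, ← integral_add]
  · refine integral_congr_ae (Eventually.of_forall fun x => ?_)
    show -(L a 1 (L a 0 φ) x * conj (v x)) + L a 0 (L a 1 φ) x * conj (v x) = Kap a φ x * conj (v x)
    rw [← D1_D0 ha hφ.sm x]
    show _ = (L a 0 (D0 a φ 1) x - L a 1 (D0 a φ 0) x) * conj (v x)
    show _ = (L a 0 (L a 1 φ) x - L a 1 (L a 0 φ) x) * conj (v x)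
    ring
  · exact (Tst.mul_right ((hφ.L ha 0).L ha 1) hv.conj).neg.integrable
  · exact (Tst.mul_right ((hφ.L ha 1).L ha 0) hv.conj).integrable

/-- the weak form of the right side -/
theorem right {a : Str} (ha : SmS a) {v : E5 → ℂ} (hv : Sm v) {φ : E5 → ℂ} (hφ : Tst φ) :
    ∫ x, φ x * conj (Kaps a v x) = ∫ x, Kap a φ x * conj (v x) := by
  have hk : ∀ l, Sm (kap a l) := fun l => Sm.kap ha l
  have e1 : ∀ x, φ x * conj (Kaps a v x) =
      -∑ l, dz l (fun y => kap a l y * conj (v y)) x * φ x := by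
    intro x
    have h : ∀ l, conj (db l (fun y => conj (kap a l y) * v y) x)
        = dz l (fun y => kap a l y * conj (v y)) x := by
      intro l
      rw [← dz_conj ((hk l).conj.mul hv)]
      simp only [map_mul, Complex.conj_conj]
    simp only [Kaps, map_neg, map_sum, h]
    rw [mul_neg, Finset.mul_sum]
    congr 1
    exact Finset.sum_congr rfl fun l _ => mul_comm _ _
  have e2 : ∀ x, Kap a φ x * conj (v x) = ∑ l, (kap a l x * conj (v x)) * dz l φ x := by
    intro x
    simp only [Kap, Finset.sum_mul]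
    exact Finset.sum_congr rfl fun l _ => by ring
  simp only [e1, e2]
  rw [integral_neg, integral_finsetSum _ (fun l _ => (Tst.mul_left (((hk l).mul hv.conj).dz l)
    hφ).integrable), integral_finsetSum _ (fun l _ => (Tst.mul_left ((hk l).mul hv.conj)
    (hφ.dz l)).integrable)]
  simp only [ibp_dz ((hk _).mul hv.conj) hφ, Finset.sum_neg_distrib, neg_neg]

end cKsx

theorem pcKs : S_cKs := by
  intro a ha v hv x
  have hs1 : Sm (D0s a (D1s a v)) := Sm.D0s ha fun j => Sm.D1s ha hv j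
  have hs2 : Sm (Kaps a v) := Sm.Kaps ha hv
  obtain ⟨H, hH⟩ : ∃ H : E5 → ℂ, H = fun x => conj (D0s a (D1s a v) x) - conj (Kaps a v x) :=
    ⟨_, rfl⟩
  have hHs : Sm H := by
    rw [hH]
    exact hs1.conj.sub hs2.conj
  have h0 : ∀ᵐ x ∂(volume : Measure E5), H x = 0 := by
    refine ae_eq_zero_of_integral_contDiff_smul_eq_zero hHs.cont.locallyIntegrable fun g hg hgc => ?_
    have hφ : Tst fun x => (g x : ℂ) :=
      ⟨Sm.ofReal hg, hgc.comp_left (g := fun r : ℝ => (r : ℂ)) Complex.ofReal_zero⟩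
    have e1 := cKsx.left ha hv hφ
    have e2 := cKsx.right ha hv hφ
    have e3 : ∀ x, g x • H x = (g x : ℂ) * conj (D0s a (D1s a v) x) - (g x : ℂ) * conj (Kaps a v x) := by
      intro x
      rw [hH, Complex.real_smul, mul_sub]
    simp only [e3]
    rw [integral_sub (Tst.mul_right hφ hs1.conj).integrable (Tst.mul_right hφ hs2.conj).integrable,
      e1, e2, sub_self]
  have h1 : H = fun _ => 0 := by
    have := (Continuous.ae_eq_iff_eq volume hHs.cont (continuous_const (y := (0 : ℂ)))).1 h0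
    exact this
  have h2 := congrFun h1 x
  rw [hH] at h2
  exact (starRingEnd ℂ).injective (sub_eq_zero.1 h2)

end Pool.Agent.CR5
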