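import Pool.Agent.Lib.CR5.SpecDc

/-!
# CR5, block D: square integrability of `L f`, `Ls f`
-/

set_option autoImplicit false

open MeasureTheory Set Filter Topology
open scoped ENNReal ComplexConjugate

noncomputable section

namespace Pool.Agent.CR5

namespace cMemx

theorem tst_out {f : E5 → ℂ} (hf : Sm f) (h : ∀ x, 1 ≤ ‖x‖ → f x = 0) : Tst f := by
  refine ⟨hf, HasCompactSupport.intro (isCompact_closedBall (0 : E5) 1) fun x hx => h x ?_⟩
  rw [Metric.mem_closedBall, dist_zero_right, not_le] at hx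
  exact hx.le

theorem mem_out {f g : E5 → ℂ} (hf : Sm f) (hg : Sm g) (h : ∀ x, 1 ≤ ‖x‖ → f x = g x)
    (hm : MemLp g 2) : MemLp f 2 := by
  have h1 : Tst fun x => f x - g x :=
    tst_out (hf.sub hg) fun x hx => by rw [h x hx, sub_self]
  have h2 := h1.memLp.add hm
  have e : (fun x => f x - g x) + g = f := by
    funext x
    show f x - g x + g x = f x
    ring
  rw [e] at h2
  exact h2

theorem int_sq {f : E5 → ℂ} (h : MemLp f 2) : Integrable (fun x => ‖f x‖ ^ 2) :=
  h.integrable_norm_pow (by norm_num)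

end cMemx

open cMemx in
theorem pcMem (h1 : S_cOut) : S_cMem := by
  intro a ha f hf
  obtain ⟨hL, hdv, _⟩ := h1 a ha
  have mL : ∀ j, MemLp (L a j f) 2 := fun j =>
    mem_out (hf.sm.L ha.sm j) (hf.sm.L smS_a0 j) (fun x hx => (hL j f x hx).1) (hf.lL j)
  have mLb : ∀ j, MemLp (Lb a j f) 2 := fun j =>
    mem_out (hf.sm.Lb ha.sm j) (hf.sm.Lb smS_a0 j) (fun x hx => (hL j f x hx).2) (hf.lLb j)
  have mLs : ∀ j, MemLp (Ls a j f) 2 := by
    intro j
    have hd : Tst fun x => dv a j x * f x :=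
      tst_out ((Sm.dv ha.sm j).mul hf.sm) fun x hx => by rw [hdv j x hx, zero_mul]
    have h2 := (mLb j).neg.sub hd.memLp
    have e : (-(Lb a j f) - fun x => dv a j x * f x) = Ls a j f := by
      funext x
      rw [Ls_eq ha.sm hf.sm]
      rfl
    rw [e] at h2
    exact h2
  refine ⟨?_, fun j => ⟨mL j, mLb j, mLs j⟩⟩
  unfold gr
  exact integrable_finsetSum _ fun j _ => (int_sq (mL j)).add (int_sq (mLb j))

end Pool.Agent.CR5
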