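import Pool.Agent.Lib.CR5.SpecDc

/-!
# CR5, block D, D2: derivatives bounded by the right invariant fields in the unit ball
-/

open MeasureTheory Set Filter Topology
open scoped ENNReal ComplexConjugate

noncomputable section

namespace Pool.Agent.CR5

namespace cZx

theorem coord (x : E5) (i : Fin 5) (hx : ‖x‖ ≤ 1) : |x i| ≤ 1 := by
  have h := EuclideanSpace.norm_sq_eq x
  have h1 : ‖x i‖ ^ 2 ≤ ∑ j : Fin 5, ‖x j‖ ^ 2 :=
    Finset.single_le_sum (f := fun j => ‖x j‖ ^ 2) (fun j _ => sq_nonneg _) (Finset.mem_univ i)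
  rw [← h] at h1
  have h2 : ‖x i‖ ≤ ‖x‖ := by
    rwa [sq_le_sq₀ (norm_nonneg _) (norm_nonneg _)] at h1
  rw [Real.norm_eq_abs] at h2
  exact h2.trans hx

theorem co (x : E5) (hx : ‖x‖ ≤ 1) (k : Fin 5) : ‖(zco k x : ℂ)‖ ≤ 2 := by
  rw [Complex.norm_real, Real.norm_eq_abs]
  have h0 := coord x 0 hx
  have h1 := coord x 1 hx
  have h2 := coord x 2 hx
  have h3 := coord x 3 hx
  unfold zco
  split_ifs
  · rw [abs_mul, abs_neg, abs_two]
    linarith
  · rw [abs_mul, abs_two]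
    linarith
  · rw [abs_mul, abs_neg, abs_two]
    linarith
  · rw [abs_mul, abs_two]
    linarith
  · rw [abs_zero]
    norm_num

theorem z4 (f : E5 → ℂ) (x : E5) : Zf 4 f x = pd 4 f x := by
  unfold Zf zco
  simp

theorem pdk (f : E5 → ℂ) (x : E5) (hx : ‖x‖ ≤ 1) (k : Fin 5) :
    ‖pd k f x‖ ≤ ‖Zf k f x‖ + 2 * ‖Zf 4 f x‖ := by
  have h : pd k f x = Zf k f x - (zco k x : ℂ) * Zf 4 f x := by
    rw [z4]
    unfold Zf
    ring
  rw [h]
  refine (norm_sub_le _ _).trans ?_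
  rw [norm_mul]
  have h1 := mul_le_mul_of_nonneg_right (co x hx k) (norm_nonneg (Zf 4 f x))
  linarith

theorem half (u v : ℂ) {s : ℝ} (h : ‖u‖ + ‖v‖ ≤ s) :
    ‖(u - Complex.I * v) / 2‖ ≤ s / 2 ∧ ‖(u + Complex.I * v) / 2‖ ≤ s / 2 := by
  have h2 : ‖(2 : ℂ)‖ = 2 := by norm_num
  have h3 : ‖Complex.I * v‖ = ‖v‖ := by rw [norm_mul, Complex.norm_I, one_mul]
  constructor
  · rw [norm_div, h2]
    have h1 := norm_sub_le u (Complex.I * v)
    linarith
  · rw [norm_div, h2]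
    have h1 := norm_add_le u (Complex.I * v)
    linarith

end cZx

open cZx in
/-- **D2.** In the unit ball the derivatives are bounded by the right invariant fields. -/
theorem pcZ : S_cZ := by
  intro f x hx
  have hs : sZ f x = ‖Zf 0 f x‖ + ‖Zf 1 f x‖ + ‖Zf 2 f x‖ + ‖Zf 3 f x‖ + ‖Zf 4 f x‖ := by
    unfold sZ
    rw [Fin.sum_univ_five]
  have n0 := norm_nonneg (Zf 0 f x)
  have n1 := norm_nonneg (Zf 1 f x)
  have n2 := norm_nonneg (Zf 2 f x)
  have n3 := norm_nonneg (Zf 3 f x)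
  have n4 := norm_nonneg (Zf 4 f x)
  have p0 := pdk f x hx 0
  have p1 := pdk f x hx 1
  have p2 := pdk f x hx 2
  have p3 := pdk f x hx 3
  have p4 : ‖pd 4 f x‖ = ‖Zf 4 f x‖ := by rw [z4]
  have a01 : ‖pd 0 f x‖ + ‖pd 1 f x‖ ≤ 4 * sZ f x := by linarith
  have a23 : ‖pd 2 f x‖ + ‖pd 3 f x‖ ≤ 4 * sZ f x := by linarith
  have b01 := half (pd 0 f x) (pd 1 f x) a01
  have b23 := half (pd 2 f x) (pd 3 f x) a23
  refine ⟨fun k => ?_, fun l => ?_, fun l => ?_⟩
  · fin_cases k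
    · show ‖pd 0 f x‖ ≤ _
      linarith
    · show ‖pd 1 f x‖ ≤ _
      linarith
    · show ‖pd 2 f x‖ ≤ _
      linarith
    · show ‖pd 3 f x‖ ≤ _
      linarith
    · show ‖pd 4 f x‖ ≤ _
      linarith
  · unfold dz
    split_ifs
    · linarith [b01.1]
    · linarith [b23.1]
    · linarith
  · unfold db
    split_ifs
    · linarith [b01.2]
    · linarith [b23.2]
    · linarith

end Pool.Agent.CR5
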