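import Pool.Agent.Lib.CR5.D.cCom

/-!
# CR5, block D: derivatives of `D0* w` and `D1 w` in the unit ball (helper49)
-/

open MeasureTheory Set Filter Topology
open scoped ENNReal ComplexConjugate

noncomputable section

namespace Pool.Agent.CR5

namespace cZAx

open cComx

theorem near_mono {a : Str} {m m' : ℕ} {ε ε' : ℝ} (h0 : 0 ≤ ε) (h : ε ≤ ε') (hm : m' ≤ m)
    (hN : Near a m ε) : Near a m' ε' :=
  ⟨hN.sm, hN.out, fun j l i hi x => (hN.bd j l i (hi.trans hm) x).trans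
    (pow_le_pow_left₀ h0 h 2)⟩

theorem gr_nonneg (a : Str) (f : E5 → ℂ) (x : E5) : 0 ≤ gr a f x :=
  Finset.sum_nonneg fun _ _ => add_nonneg (sq_nonneg _) (sq_nonneg _)

theorem L_le_gr (a : Str) (f : E5 → ℂ) (j : Fin 2) (x : E5) : ‖L a j f x‖ ^ 2 ≤ gr a f x := by
  refine le_trans ?_ (Finset.single_le_sum (f := fun j => ‖L a j f x‖ ^ 2 + ‖Lb a j f x‖ ^ 2)
    (fun _ _ => add_nonneg (sq_nonneg _) (sq_nonneg _)) (Finset.mem_univ j))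
  have := sq_nonneg ‖Lb a j f x‖
  show ‖L a j f x‖ ^ 2 ≤ ‖L a j f x‖ ^ 2 + ‖Lb a j f x‖ ^ 2
  linarith

theorem Lb_le_gr (a : Str) (f : E5 → ℂ) (j : Fin 2) (x : E5) : ‖Lb a j f x‖ ^ 2 ≤ gr a f x := by
  refine le_trans ?_ (Finset.single_le_sum (f := fun j => ‖L a j f x‖ ^ 2 + ‖Lb a j f x‖ ^ 2)
    (fun _ _ => add_nonneg (sq_nonneg _) (sq_nonneg _)) (Finset.mem_univ j))
  have := sq_nonneg ‖L a j f x‖
  show ‖Lb a j f x‖ ^ 2 ≤ ‖L a j f x‖ ^ 2 + ‖Lb a j f x‖ ^ 2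
  linarith

theorem cont_gr {a : Str} (ha : SmS a) {f : E5 → ℂ} (hf : Sm f) : Continuous (gr a f) :=
  continuous_finsetSum _ fun j _ => ((hf.L ha j).cont.norm.pow 2).add ((hf.Lb ha j).cont.norm.pow 2)

theorem sZ_sq (f : E5 → ℂ) (x : E5) : sZ f x ^ 2 ≤ 5 * ∑ k : Fin 5, ‖Zf k f x‖ ^ 2 := by
  unfold sZ
  have h := sq_sum_le_card_mul_sum_sq (s := (Finset.univ : Finset (Fin 5)))
    (f := fun k => ‖Zf k f x‖)
  simpa using h

theorem sZ_nonneg (f : E5 → ℂ) (x : E5) : 0 ≤ sZ f x := Finset.sum_nonneg fun _ _ => norm_nonneg _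

theorem sq4 (a b c d : ℝ) : (a + b + c + d) ^ 2 ≤ 4 * (a ^ 2 + b ^ 2 + c ^ 2 + d ^ 2) := by
  nlinarith [sq_nonneg (a - b), sq_nonneg (a - c), sq_nonneg (a - d), sq_nonneg (b - c),
    sq_nonneg (b - d), sq_nonneg (c - d)]

/-- the sum for one component -/
def S1 (a : Str) (u : E5 → ℂ) (x : E5) : ℝ :=
  ‖u x‖ ^ 2 + gr a u x + ∑ k : Fin 5, (gr a (Zf k u) x + ‖Zf k u x‖ ^ 2)

theorem S1_nonneg (a : Str) (u : E5 → ℂ) (x : E5) : 0 ≤ S1 a u x :=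
  add_nonneg (add_nonneg (sq_nonneg _) (gr_nonneg _ _ _))
    (Finset.sum_nonneg fun _ _ => add_nonneg (gr_nonneg _ _ _) (sq_nonneg _))

theorem cont_S1 {a : Str} (ha : SmS a) {u : E5 → ℂ} (hu : Sm u) : Continuous (S1 a u) :=
  ((hu.cont.norm.pow 2).add (cont_gr ha hu)).add (continuous_finsetSum _ fun k _ =>
    (cont_gr ha (hu.Zf k)).add ((hu.Zf k).cont.norm.pow 2))

theorem S1_parts (a : Str) (u : E5 → ℂ) (x : E5) (k : Fin 5) :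
    ‖u x‖ ^ 2 ≤ S1 a u x ∧ gr a u x ≤ S1 a u x ∧ gr a (Zf k u) x ≤ S1 a u x ∧
      ‖Zf k u x‖ ^ 2 ≤ S1 a u x ∧ ∑ l : Fin 5, ‖Zf l u x‖ ^ 2 ≤ S1 a u x := by
  have h0 : 0 ≤ ‖u x‖ ^ 2 := sq_nonneg _
  have h1 := gr_nonneg a u x
  have h2 : 0 ≤ ∑ k : Fin 5, gr a (Zf k u) x := Finset.sum_nonneg fun _ _ => gr_nonneg _ _ _
  have h3 : 0 ≤ ∑ k : Fin 5, ‖Zf k u x‖ ^ 2 := Finset.sum_nonneg fun _ _ => sq_nonneg _
  have h4 : gr a (Zf k u) x ≤ ∑ k : Fin 5, gr a (Zf k u) x :=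
    Finset.single_le_sum (f := fun k => gr a (Zf k u) x) (fun _ _ => gr_nonneg _ _ _)
      (Finset.mem_univ k)
  have h5 : ‖Zf k u x‖ ^ 2 ≤ ∑ k : Fin 5, ‖Zf k u x‖ ^ 2 :=
    Finset.single_le_sum (f := fun k => ‖Zf k u x‖ ^ 2) (fun _ _ => sq_nonneg _)
      (Finset.mem_univ k)
  unfold S1
  rw [Finset.sum_add_distrib]
  refine ⟨?_, ?_, ?_, ?_, ?_⟩ <;> linarith

theorem dv_le {a : Str} {ε : ℝ} (hε0 : 0 ≤ ε) (hε : ε ≤ 1) (hN : Near a 4 ε) (j : Fin 2)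
    (x : E5) : ‖dv a j x‖ ≤ 3 := by
  have ha := hN.sm
  rw [dv_eq ha]
  refine (norm_sum_le _ _).trans ?_
  have ht : ∀ l : Fin 3, ‖db l (fun y => conj (bb a j l y)) x‖ ≤ 1 := by
    intro l
    refine db_le (fun i => ?_) l
    rw [pd_conj (sm_bb ha j l), RCLike.norm_conj]
    refine le_trans ?_ hε
    have h := hN.bd j l 1 (by norm_num) x
    refine le_of_sq_le_sq (le_trans ?_ h) hε0
    exact Finset.single_le_sum (f := fun i => ‖pd i (bb a j l) x‖ ^ 2)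
      (fun _ _ => sq_nonneg _) (Finset.mem_univ i)
  refine (Finset.sum_le_sum fun l _ => ht l).trans ?_
  simp

/-- one term: `Z_k Ls_j u` -/
theorem term_Ls {a : Str} {ε C : ℝ} (hε0 : 0 ≤ ε) (hε : ε ≤ 1) (hC : 0 < C) (hN : Near a 4 ε)
    {u : E5 → ℂ} (hu : Sm u) (j : Fin 2) (k : Fin 5) (x : E5)
    (h : ‖Zf k (Ls a j u) x - Ls a j (Zf k u) x‖ ≤ C * ε * (‖u x‖ + sZ u x)) :
    ‖Zf k (Ls a j u) x‖ ^ 2 ≤ (40 + 24 * C ^ 2) * S1 a u x := by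
  have ha := hN.sm
  have h1 : ‖Ls a j (Zf k u) x‖ ≤ ‖Lb a j (Zf k u) x‖ + 3 * ‖Zf k u x‖ := by
    rw [Ls_eq ha (hu.Zf k)]
    refine (norm_sub_le _ _).trans ?_
    rw [norm_neg, norm_mul]
    have := mul_le_mul_of_nonneg_right (dv_le hε0 hε hN j x) (norm_nonneg (Zf k u x))
    linarith
  have h2 : ‖Zf k (Ls a j u) x‖ ≤ ‖Ls a j (Zf k u) x‖ +
      ‖Zf k (Ls a j u) x - Ls a j (Zf k u) x‖ := norm_le_norm_add_norm_sub' _ _
  have h3 : C * ε * (‖u x‖ + sZ u x) ≤ C * (‖u x‖ + sZ u x) := by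
    have h4 : 0 ≤ ‖u x‖ + sZ u x := add_nonneg (norm_nonneg _) (sZ_nonneg _ _)
    have h5 : C * ε ≤ C := by nlinarith
    exact mul_le_mul_of_nonneg_right h5 h4
  have h6 : ‖Zf k (Ls a j u) x‖ ≤ ‖Lb a j (Zf k u) x‖ + 3 * ‖Zf k u x‖ + C * ‖u x‖ +
      C * sZ u x := by linarith
  have h7 := pow_le_pow_left₀ (norm_nonneg _) h6 2
  refine h7.trans ((sq4 _ _ _ _).trans ?_)
  obtain ⟨p1, p2, p3, p4, p5⟩ := S1_parts a u x k
  have q1 := Lb_le_gr a (Zf k u) j x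
  have q2 := sZ_sq u x
  have q3 : 0 ≤ C ^ 2 := sq_nonneg C
  have q4 : (C * sZ u x) ^ 2 ≤ C ^ 2 * (5 * S1 a u x) := by
    rw [mul_pow]
    exact mul_le_mul_of_nonneg_left (by linarith) q3
  have q5 : (C * ‖u x‖) ^ 2 ≤ C ^ 2 * S1 a u x := by
    rw [mul_pow]
    exact mul_le_mul_of_nonneg_left p1 q3
  have q6 : (3 * ‖Zf k u x‖) ^ 2 ≤ 9 * S1 a u x := by
    rw [mul_pow]
    linarith
  nlinarith

/-- one term: `Z_k L_j u` -/
theorem term_L {a : Str} {ε C : ℝ} (hε : ε ≤ 1) (hC : 0 < C) {u : E5 → ℂ} (j : Fin 2)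
    (k : Fin 5) (x : E5) (h : ‖Zf k (L a j u) x - L a j (Zf k u) x‖ ≤ C * ε * sZ u x) :
    ‖Zf k (L a j u) x‖ ^ 2 ≤ (40 + 24 * C ^ 2) * S1 a u x := by
  have h2 : ‖Zf k (L a j u) x‖ ≤ ‖L a j (Zf k u) x‖ +
      ‖Zf k (L a j u) x - L a j (Zf k u) x‖ := norm_le_norm_add_norm_sub' _ _
  have h3 : C * ε * sZ u x ≤ C * sZ u x := by
    have h5 : C * ε ≤ C := by nlinarith
    exact mul_le_mul_of_nonneg_right h5 (sZ_nonneg _ _)
  have h6 : ‖Zf k (L a j u) x‖ ≤ ‖L a j (Zf k u) x‖ + C * sZ u x := by linarith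
  have h7 := pow_le_pow_left₀ (norm_nonneg _) h6 2
  refine h7.trans ?_
  obtain ⟨p1, p2, p3, p4, p5⟩ := S1_parts a u x k
  have q1 := L_le_gr a (Zf k u) j x
  have q2 := sZ_sq u x
  have q3 : 0 ≤ C ^ 2 := sq_nonneg C
  have q4 : (C * sZ u x) ^ 2 ≤ C ^ 2 * (5 * S1 a u x) := by
    rw [mul_pow]
    exact mul_le_mul_of_nonneg_left (by linarith) q3
  have q7 := mul_nonneg q3 (S1_nonneg a u x)
  have q8 := S1_nonneg a u x
  nlinarith [sq_nonneg (‖L a j (Zf k u) x‖ - C * sZ u x)]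

theorem sZ_of {g : E5 → ℂ} {x : E5} {M : ℝ} (h : ∀ k, ‖Zf k g x‖ ^ 2 ≤ M) :
    sZ g x ^ 2 ≤ 25 * M := by
  refine (sZ_sq g x).trans ?_
  have h1 : ∑ k : Fin 5, ‖Zf k g x‖ ^ 2 ≤ ∑ _k : Fin 5, M := Finset.sum_le_sum fun k _ => h k
  simp at h1
  linarith

theorem intOn {g : E5 → ℝ} (hg : Continuous g) : IntegrableOn g (Metric.ball (0 : E5) 1) :=
  (hg.continuousOn.integrableOn_compact (isCompact_closedBall _ _)).mono_set
    Metric.ball_subset_closedBall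

/-- the integral of `S1` over the ball -/
theorem int_S1 {a : Str} (ha : SmS a) {u : E5 → ℂ} (hu : Sm u) {P Q : ℝ}
    (h1 : (∫ x in Metric.ball (0 : E5) 1, ‖u x‖ ^ 2) ≤ P)
    (h2 : (∫ x in Metric.ball (0 : E5) 1, gr a u x) ≤ Q)
    (h3 : ∀ k, (∫ x in Metric.ball (0 : E5) 1, ‖Zf k u x‖ ^ 2) ≤ P)
    (h4 : ∀ k, (∫ x in Metric.ball (0 : E5) 1, gr a (Zf k u) x) ≤ Q) :
    (∫ x in Metric.ball (0 : E5) 1, S1 a u x) ≤ 6 * (P + Q) := by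
  have i1 : IntegrableOn (fun x => ‖u x‖ ^ 2) (Metric.ball (0 : E5) 1) :=
    intOn (hu.cont.norm.pow 2)
  have i2 : IntegrableOn (gr a u) (Metric.ball (0 : E5) 1) := intOn (cont_gr ha hu)
  have i3 : ∀ k, IntegrableOn (fun x => ‖Zf k u x‖ ^ 2) (Metric.ball (0 : E5) 1) :=
    fun k => intOn ((hu.Zf k).cont.norm.pow 2)
  have i4 : ∀ k, IntegrableOn (gr a (Zf k u)) (Metric.ball (0 : E5) 1) :=
    fun k => intOn (cont_gr ha (hu.Zf k))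
  have i5 : ∀ k, IntegrableOn (fun x => gr a (Zf k u) x + ‖Zf k u x‖ ^ 2)
      (Metric.ball (0 : E5) 1) := fun k => (i4 k).add (i3 k)
  have i6 : IntegrableOn (fun x => ‖u x‖ ^ 2 + gr a u x) (Metric.ball (0 : E5) 1) := i1.add i2
  have i7 : IntegrableOn (fun x => ∑ k : Fin 5, (gr a (Zf k u) x + ‖Zf k u x‖ ^ 2))
      (Metric.ball (0 : E5) 1) := integrable_finsetSum _ fun k _ => i5 k
  have e : (∫ x in Metric.ball (0 : E5) 1, S1 a u x) =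
      ((∫ x in Metric.ball (0 : E5) 1, ‖u x‖ ^ 2) + ∫ x in Metric.ball (0 : E5) 1, gr a u x) +
      ∑ k : Fin 5, ((∫ x in Metric.ball (0 : E5) 1, gr a (Zf k u) x) +
        ∫ x in Metric.ball (0 : E5) 1, ‖Zf k u x‖ ^ 2) := by
    unfold S1
    rw [integral_add i6 i7, integral_add i1 i2, integral_finsetSum _ fun k _ => i5 k]
    congr 1
    refine Finset.sum_congr rfl fun k _ => ?_
    exact integral_add (i4 k) (i3 k)
  rw [e]
  have h5 : ∑ k : Fin 5, ((∫ x in Metric.ball (0 : E5) 1, gr a (Zf k u) x) +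
        ∫ x in Metric.ball (0 : E5) 1, ‖Zf k u x‖ ^ 2) ≤ ∑ _k : Fin 5, (Q + P) :=
    Finset.sum_le_sum fun k _ => add_le_add (h4 k) (h3 k)
  simp at h5
  linarith

end cZAx

open cComx cZAx in
theorem pcZA (h1 : S_cUNI) (h2 : S_cCom) (h3 : S_cHar) (_h4 : S_cMem) : S_cZA := by
  obtain ⟨ε₁, hε₁, C₁, hC₁, H1⟩ := h1
  obtain ⟨C₂, hC₂, H2⟩ := h2
  obtain ⟨ε₃, hε₃, C₃, hC₃, H3⟩ := h3
  have hε0 : 0 < min (min ε₁ ε₃) 1 := lt_min (lt_min hε₁ hε₃) one_pos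
  refine ⟨min (min ε₁ ε₃) 1, hε0,
    (25 * (80 + 48 * C₂ ^ 2) + 2) * (2 * (6 * (C₃ * C₁ + C₁))), by positivity,
    fun a hN Φ hΦ hΦ0 e he0 he1 w hw hB => ?_⟩
  set ε := min (min ε₁ ε₃) 1 with hε
  have hε1 : ε ≤ 1 := min_le_right _ _
  have hεa : ε ≤ ε₁ := (min_le_left _ _).trans (min_le_left _ _)
  have hεb : ε ≤ ε₃ := (min_le_left _ _).trans (min_le_right _ _)
  have ha := hN.sm
  have hN1 : Near a 4 ε₁ := near_mono hε0.le hεa le_rfl hN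
  have hN3 : Near a 2 ε₃ := near_mono hε0.le hεb (by norm_num) hN
  obtain ⟨_, g2, g3, _⟩ := H1 a hN1 Φ hΦ hΦ0 e he0 he1 w hw hB
  have hH0 : ∀ i, 0 ≤ (∫ x, sq i (Φ 0) x) + ∫ x, sq i (Φ 1) x := by
    have hsq : ∀ (i : ℕ) (f : E5 → ℂ) (x : E5), 0 ≤ sq i f x := by
      intro i
      induction i with
      | zero => exact fun f x => sq_nonneg _
      | succ i ih => exact fun f x => Finset.sum_nonneg fun k _ => ih _ _
    exact fun i => add_nonneg (integral_nonneg fun x => hsq _ _ _)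
      (integral_nonneg fun x => hsq _ _ _)
  have hH01 : Hs 0 Φ ≤ Hs 1 Φ := by
    unfold Hs
    rw [Finset.sum_range_succ _ 1]
    have := hH0 1
    simpa using this
  have hH : 0 ≤ Hs 1 Φ := Finset.sum_nonneg fun i _ => hH0 i
  have w0 : ∀ j, WW (w j) := fun j => hw j []
  have w1 : ∀ j k, WW (Zf k (w j)) := fun j k => hw j [k]
  have hsw : ∀ j, Sm (w j) := fun j => (w0 j).sm
  have hcomp : ∀ j, (∫ x in Metric.ball (0 : E5) 1, S1 a (w j) x) ≤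
      6 * (C₃ * C₁ + C₁) * Hs 1 Φ := by
    intro j
    have r1 : (∫ x, gr a (w j) x) ≤ C₁ * Hs 1 Φ :=
      (g2 j).trans (mul_le_mul_of_nonneg_left hH01 hC₁.le)
    have r2 : ∀ k, (∫ x, gr a (Zf k (w j)) x) ≤ C₁ * Hs 1 Φ := fun k => g3 j k
    have r3 : ∀ u : E5 → ℂ, WW u → (∫ x, gr a u x) ≤ C₁ * Hs 1 Φ →
        (∫ x in Metric.ball (0 : E5) 1, ‖u x‖ ^ 2) ≤ C₃ * C₁ * Hs 1 Φ ∧
        (∫ x in Metric.ball (0 : E5) 1, gr a u x) ≤ C₁ * Hs 1 Φ := by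
      intro u hu hgr
      obtain ⟨s1, s2⟩ := H3 a hN3 u hu
      refine ⟨s2.trans ?_, (setIntegral_le_integral s1
        (Filter.Eventually.of_forall fun x => gr_nonneg _ _ _)).trans hgr⟩
      rw [mul_assoc]
      exact mul_le_mul_of_nonneg_left hgr hC₃.le
    have := int_S1 ha (hsw j) (r3 _ (w0 j) r1).1 (r3 _ (w0 j) r1).2
      (fun k => (r3 _ (w1 j k) (r2 k)).1) (fun k => (r3 _ (w1 j k) (r2 k)).2)
    linarith
  have hS : ∀ j x, 0 ≤ S1 a (w j) x := fun j x => S1_nonneg _ _ _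
  have iS : ∀ j, IntegrableOn (S1 a (w j)) (Metric.ball (0 : E5) 1) :=
    fun j => intOn (cont_S1 ha (hsw j))
  have iSS : ∀ c : ℝ, IntegrableOn (fun x => c * (S1 a (w 0) x + S1 a (w 1) x))
      (Metric.ball (0 : E5) 1) := fun c => ((iS 0).add (iS 1)).const_mul c
  have eSS : ∀ c : ℝ, 0 ≤ c → (∫ x in Metric.ball (0 : E5) 1, c * (S1 a (w 0) x + S1 a (w 1) x))
      ≤ c * (2 * (6 * (C₃ * C₁ + C₁))) * Hs 1 Φ := by
    intro c hc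
    rw [integral_const_mul, integral_add (iS 0) (iS 1)]
    have h5 := mul_le_mul_of_nonneg_left (add_le_add (hcomp 0) (hcomp 1)) hc
    linarith
  -- pointwise bounds
  have hp1 : ∀ x ∈ Metric.ball (0 : E5) 1, ∀ k, ‖Zf k (D0s a w) x‖ ^ 2 ≤
      (80 + 48 * C₂ ^ 2) * (S1 a (w 0) x + S1 a (w 1) x) := by
    intro x hx k
    have hx' : ‖x‖ < 1 := by
      have h6 : dist x 0 < 1 := hx
      rwa [dist_zero_right] at h6
    have t0 := term_Ls hε0.le hε1 hC₂ hN (hsw 0) 0 k x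
      ((H2 a ε hε0.le hε1 hN (w 0) (hsw 0) 0 k x).2 hx').2
    have t1 := term_Ls hε0.le hε1 hC₂ hN (hsw 1) 1 k x
      ((H2 a ε hε0.le hε1 hN (w 1) (hsw 1) 1 k x).2 hx').2
    have e1 : Zf k (D0s a w) x = Zf k (Ls a 0 (w 0)) x + Zf k (Ls a 1 (w 1)) x :=
      Zf_add ((hsw 0).Ls ha 0) ((hsw 1).Ls ha 1) k x
    rw [e1]
    have h7 := norm_add_le (Zf k (Ls a 0 (w 0)) x) (Zf k (Ls a 1 (w 1)) x)
    have h8 := pow_le_pow_left₀ (norm_nonneg _) h7 2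
    nlinarith [sq_nonneg (‖Zf k (Ls a 0 (w 0)) x‖ - ‖Zf k (Ls a 1 (w 1)) x‖)]
  have hp2 : ∀ x ∈ Metric.ball (0 : E5) 1, ∀ k, ‖Zf k (D1 a w) x‖ ^ 2 ≤
      (80 + 48 * C₂ ^ 2) * (S1 a (w 0) x + S1 a (w 1) x) := by
    intro x hx k
    have hx' : ‖x‖ < 1 := by
      have h6 : dist x 0 < 1 := hx
      rwa [dist_zero_right] at h6
    have t0 := term_L hε1 hC₂ 1 k x
      ((H2 a ε hε0.le hε1 hN (w 0) (hsw 0) 1 k x).2 hx').1
    have t1 := term_L hε1 hC₂ 0 k x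
      ((H2 a ε hε0.le hε1 hN (w 1) (hsw 1) 0 k x).2 hx').1
    have e1 : Zf k (D1 a w) x = Zf k (L a 0 (w 1)) x - Zf k (L a 1 (w 0)) x :=
      Zf_sub ((hsw 1).L ha 0) ((hsw 0).L ha 1) k x
    rw [e1]
    have h7 := norm_sub_le (Zf k (L a 0 (w 1)) x) (Zf k (L a 1 (w 0)) x)
    have h8 := pow_le_pow_left₀ (norm_nonneg _) h7 2
    nlinarith [sq_nonneg (‖Zf k (L a 0 (w 1)) x‖ - ‖Zf k (L a 1 (w 0)) x‖)]
  have hp3 : ∀ x, ‖D1 a w x‖ ^ 2 ≤ 2 * (S1 a (w 0) x + S1 a (w 1) x) := by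
    intro x
    have h7 := norm_sub_le (L a 0 (w 1) x) (L a 1 (w 0) x)
    have h8 := pow_le_pow_left₀ (norm_nonneg _) h7 2
    have h9 := (L_le_gr a (w 1) 0 x).trans (S1_parts a (w 1) x 0).2.1
    have h10 := (L_le_gr a (w 0) 1 x).trans (S1_parts a (w 0) x 0).2.1
    show ‖L a 0 (w 1) x - L a 1 (w 0) x‖ ^ 2 ≤ _
    nlinarith [sq_nonneg (‖L a 0 (w 1) x‖ - ‖L a 1 (w 0) x‖)]
  have hc1 : 0 ≤ 25 * (80 + 48 * C₂ ^ 2) := by positivity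
  have hc2 : 0 ≤ 25 * (80 + 48 * C₂ ^ 2) + 2 := by positivity
  have hae : ∀ {p : E5 → Prop}, (∀ x ∈ Metric.ball (0 : E5) 1, p x) →
      ∀ᵐ x ∂(volume.restrict (Metric.ball (0 : E5) 1)), p x := fun h =>
    (ae_restrict_mem Metric.isOpen_ball.measurableSet).mono h
  constructor
  · refine (integral_mono_of_nonneg (Filter.Eventually.of_forall fun x => sq_nonneg _)
      (iSS (25 * (80 + 48 * C₂ ^ 2))) (hae fun x hx => ?_)).trans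
      ((eSS _ hc1).trans ?_)
    · have := sZ_of (hp1 x hx)
      show sZ (D0s a w) x ^ 2 ≤ _
      linarith
    · refine mul_le_mul_of_nonneg_right (mul_le_mul_of_nonneg_right (by linarith) ?_) hH
      positivity
  · refine (integral_mono_of_nonneg
      (Filter.Eventually.of_forall fun x => add_nonneg (sq_nonneg _) (sq_nonneg _))
      (iSS (25 * (80 + 48 * C₂ ^ 2) + 2)) (hae fun x hx => ?_)).trans (eSS _ hc2)
    have h11 := sZ_of (hp2 x hx)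
    have h12 := hp3 x
    show ‖D1 a w x‖ ^ 2 + sZ (D1 a w) x ^ 2 ≤ _
    linarith

end Pool.Agent.CR5
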