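import Pool.Agent.Lib.CR5.SpecDa

/-!
# CR5, block D: aId2, the twice differentiated equation (helper77, after helper76's docstring)
-/

set_option autoImplicit false

open MeasureTheory Set Filter Topology
open scoped ENNReal ComplexConjugate

noncomputable section

namespace Pool.Agent.CR5

namespace aId2x

theorem Zf_add {f g : E5 → ℂ} (hf : Sm f) (hg : Sm g) (k : Fin 5) (x : E5) :
    Zf k (fun y => f y + g y) x = Zf k f x + Zf k g x := by
  simp only [Zf, pd_add hf hg]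
  ring

theorem Zf_sub {f g : E5 → ℂ} (hf : Sm f) (hg : Sm g) (k : Fin 5) (x : E5) :
    Zf k (fun y => f y - g y) x = Zf k f x - Zf k g x := by
  simp only [Zf, pd_sub hf hg]
  ring

theorem Zf_neg (f : E5 → ℂ) (k : Fin 5) (x : E5) :
    Zf k (fun y => -f y) x = -Zf k f x := by
  simp only [Zf, pd_neg]
  ring

theorem Zf_neg' (f : E5 → ℂ) (k : Fin 5) :
    Zf k (fun y => -f y) = fun x => -Zf k f x := funext fun x => Zf_neg f k x

theorem Ls_neg {a : Str} (ha : SmS a) {f : E5 → ℂ} (hf : Sm f) (j : Fin 2) (x : E5) :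
    Ls a j (fun y => -f y) x = -Ls a j f x := by
  rw [Ls_eq ha hf.neg, Ls_eq ha hf, Lb_neg]
  ring

theorem cL_neg {a : Str} {f : E5 → ℂ} (k : Fin 5) (j : Fin 2) (x : E5) :
    zcL a k j (fun y => -f y) x = -zcL a k j f x := by
  have h1 : L a j (fun y => -f y) = fun x => -L a j f x := funext fun x => L_neg f j x
  unfold zcL
  rw [h1, Zf_neg, Zf_neg', L_neg]
  ring

theorem cS_neg {a : Str} (ha : SmS a) {f : E5 → ℂ} (hf : Sm f) (k : Fin 5) (j : Fin 2) (x : E5) :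
    zcS a k j (fun y => -f y) x = -zcS a k j f x := by
  have h1 : Ls a j (fun y => -f y) = fun x => -Ls a j f x := funext fun x => Ls_neg ha hf j x
  unfold zcS
  rw [h1, Zf_neg, Zf_neg', Ls_neg ha (hf.Zf k)]
  ring

theorem sm_cL {a : Str} (ha : SmS a) {f : E5 → ℂ} (hf : Sm f) (k : Fin 5) (j : Fin 2) :
    Sm (zcL a k j f) := ((hf.L ha j).Zf k).sub ((hf.Zf k).L ha j)

theorem sm_cS {a : Str} (ha : SmS a) {f : E5 → ℂ} (hf : Sm f) (k : Fin 5) (j : Fin 2) :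
    Sm (zcS a k j f) := ((hf.Ls ha j).Zf k).sub ((hf.Zf k).Ls ha j)

theorem sm_cD0s {a : Str} (ha : SmS a) {w : F2} (hw : ∀ j, Sm (w j)) (k : Fin 5) :
    Sm (cD0s a k w) := (sm_cS ha (hw 0) k 0).add (sm_cS ha (hw 1) k 1)

theorem sm_cD1 {a : Str} (ha : SmS a) {w : F2} (hw : ∀ j, Sm (w j)) (k : Fin 5) :
    Sm (cD1 a k w) := (sm_cL ha (hw 1) k 0).sub (sm_cL ha (hw 0) k 1)

theorem fin2 (j : Fin 2) : j = 0 ∨ j = 1 := by fin_cases j <;> simp

theorem D1s_z (a : Str) (v : E5 → ℂ) : D1s a v 0 = fun x => -Ls a 1 v x := by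
  funext x
  simp [D1s]

theorem D1s_o (a : Str) (v : E5 → ℂ) : D1s a v 1 = fun x => Ls a 0 v x := by
  funext x
  simp [D1s]

theorem cD1s_z (a : Str) (k : Fin 5) (v : E5 → ℂ) : cD1s a k v 0 = fun x => -zcS a k 1 v x := by
  funext x
  simp [cD1s]

theorem cD1s_o (a : Str) (k : Fin 5) (v : E5 → ℂ) : cD1s a k v 1 = fun x => zcS a k 0 v x := by
  funext x
  simp [cD1s]

theorem sm_cD1s {a : Str} (ha : SmS a) {v : E5 → ℂ} (hv : Sm v) (k : Fin 5) (j : Fin 2) :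
    Sm (cD1s a k v j) := by
  rcases fin2 j with rfl | rfl
  · rw [cD1s_z]
    exact (sm_cS ha hv k 1).neg
  · rw [cD1s_o]
    exact sm_cS ha hv k 0

theorem Z_D1s {a : Str} {v : E5 → ℂ} (k : Fin 5) (j : Fin 2) (x : E5) :
    Zf k (D1s a v j) x = D1s a (Zf k v) j x + cD1s a k v j x := by
  rcases fin2 j with rfl | rfl
  · rw [D1s_z, D1s_z, cD1s_z, Zf_neg]
    simp only [zcS]
    ring
  · rw [D1s_o, D1s_o, cD1s_o]
    simp only [zcS]
    ring

theorem Z_D0 {a : Str} {v : E5 → ℂ} (k : Fin 5) (j : Fin 2) (x : E5) :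
    Zf k (D0 a v j) x = D0 a (Zf k v) j x + cD0 a k v j x := by
  show Zf k (L a j v) x = L a j (Zf k v) x + zcL a k j v x
  simp only [zcL]
  ring

theorem D1s_neg_add {a : Str} (ha : SmS a) {f g : E5 → ℂ} (hf : Sm f) (hg : Sm g) (j : Fin 2)
    (x : E5) : D1s a (fun y => -(f y + g y)) j x =
      D1s a (fun y => -f y) j x + D1s a (fun y => -g y) j x := by
  rcases fin2 j with rfl | rfl
  · rw [D1s_z, D1s_z, D1s_z]
    show -Ls a 1 (fun y => -(f y + g y)) x = -Ls a 1 (fun y => -f y) x + -Ls a 1 (fun y => -g y) x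
    rw [Ls_neg ha (hf.add hg), Ls_add ha hf hg, Ls_neg ha hf, Ls_neg ha hg]
    ring
  · rw [D1s_o, D1s_o, D1s_o]
    show Ls a 0 (fun y => -(f y + g y)) x = Ls a 0 (fun y => -f y) x + Ls a 0 (fun y => -g y) x
    rw [Ls_neg ha (hf.add hg), Ls_add ha hf hg, Ls_neg ha hf, Ls_neg ha hg]
    ring

theorem D0_neg_add {a : Str} {f g : E5 → ℂ} (hf : Sm f) (hg : Sm g) (j : Fin 2)
    (x : E5) : D0 a (fun y => -(f y + g y)) j x =
      D0 a (fun y => -f y) j x + D0 a (fun y => -g y) j x := by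
  show L a j (fun y => -(f y + g y)) x = L a j (fun y => -f y) x + L a j (fun y => -g y) x
  rw [L_neg, L_add hf hg, L_neg, L_neg]
  ring

theorem cD1s_neg {a : Str} (ha : SmS a) {v : E5 → ℂ} (hv : Sm v) (k : Fin 5) (j : Fin 2)
    (x : E5) : cD1s a k (fun y => -v y) j x = -cD1s a k v j x := by
  rcases fin2 j with rfl | rfl
  · rw [cD1s_z, cD1s_z]
    show -zcS a k 1 (fun y => -v y) x = - -zcS a k 1 v x
    rw [cS_neg ha hv]
  · rw [cD1s_o, cD1s_o]
    exact cS_neg ha hv k 0 x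

theorem sm_BoxE {a : Str} (ha : SmS a) (e : ℝ) {w : F2} (hw : ∀ j, Sm (w j)) (j : Fin 2) :
    Sm (BoxE a e w j) :=
  (Sm.Box ha hw j).add ((Sm.const _).mul ((hw j).sub (((hw j).pd 4).pd 4)))

end aId2x

open aId2x in
theorem paId2 (hId : S_aId) : S_aId2 := by
  intro a ha e w hw l k j x
  have hZ : ∀ i, Sm (Zp k w i) := fun i => (hw i).Zf k
  have s1 : Sm (Zf k (BoxE a e w j)) := (sm_BoxE ha e hw j).Zf k
  have s2 : Sm (cD0 a k (D0s a w) j) := sm_cL ha (Sm.D0s ha hw) k j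
  have s3 : Sm (cD1s a k (D1 a w) j) := sm_cD1s ha (Sm.D1 ha hw) k j
  have s4 : Sm (cD0s a k w) := sm_cD0s ha hw k
  have s5 : Sm (cD1 a k w) := sm_cD1 ha hw k
  have s6 : Sm (D0 a (fun y => -cD0s a k w y) j) := s4.neg.D0 ha j
  have s7 : Sm (D1s a (fun y => -cD1 a k w y) j) := s5.neg.D1s ha j
  have s8 : Sm (cD0s a l (Zp k w)) := sm_cD0s ha hZ l
  have s9 : Sm (cD1 a l (Zp k w)) := sm_cD1 ha hZ l
  have hfun : BoxE a e (Zp k w) j = fun y =>
      (((Zf k (BoxE a e w j) y - cD0 a k (D0s a w) j y) - cD1s a k (D1 a w) j y)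
        + D0 a (fun z => -cD0s a k w z) j y) + D1s a (fun z => -cD1 a k w z) j y :=
    funext fun y => hId a ha e w hw k j y
  have h1 : Zf l (BoxE a e (Zp k w) j) x =
      Zf l (Zf k (BoxE a e w j)) x - Zf l (cD0 a k (D0s a w) j) x
        - Zf l (cD1s a k (D1 a w) j) x + Zf l (D0 a (fun z => -cD0s a k w z) j) x
        + Zf l (D1s a (fun z => -cD1 a k w z) j) x := by
    rw [hfun, Zf_add (((s1.sub s2).sub s3).add s6) s7, Zf_add ((s1.sub s2).sub s3) s6,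
      Zf_sub (s1.sub s2) s3, Zf_sub s1 s2]
  have h2 : cD0 a l (fun z => -cD0s a k w z) j x = -cD0 a l (cD0s a k w) j x := cL_neg l j x
  rw [hId a ha e (Zp k w) hZ l j x, h1, Z_D0, Z_D1s, h2, cD1s_neg ha s5,
    D0_neg_add (s4.Zf l) s8, D1s_neg_add ha (s5.Zf l) s9, Zf_neg', Zf_neg']
  ring

end Pool.Agent.CR5
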