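import Pool.Agent.Lib.CR5.SpecDa

/-!
# CR5, block D: common lemmas for the levels one and two (helper6)
-/

open MeasureTheory Set Filter Topology
open scoped ENNReal ComplexConjugate

noncomputable section

namespace Pool.Agent.CR5

namespace aLx

theorem intOn {g : E5 → ℝ} (hg : Continuous g) : IntegrableOn g (Metric.ball (0 : E5) 1) :=
  (hg.continuousOn.integrableOn_compact (isCompact_closedBall 0 1)).mono_set
    Metric.ball_subset_closedBall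

/-- derivatives of a function vanishing outside the unit ball -/
theorem pd_out {f : E5 → ℂ} (hf : Sm f) (h : ∀ x, 1 ≤ ‖x‖ → f x = 0) (i : Fin 5) (x : E5)
    (hx : 1 ≤ ‖x‖) : pd i f x = 0 := by
  have hcl : IsClosed {y : E5 | pd i f y = 0} := isClosed_eq (hf.pd i).cont continuous_const
  have hsub : (Metric.closedBall (0 : E5) 1)ᶜ ⊆ {y : E5 | pd i f y = 0} := by
    intro y hy
    have hy1 : 1 < ‖y‖ := by
      rw [mem_compl_iff, Metric.mem_closedBall, dist_zero_right, not_le] at hy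
      exact hy
    have h1 : f =ᶠ[𝓝 y] fun _ => (0 : ℂ) := by
      have h2 : (Metric.closedBall (0 : E5) 1)ᶜ ∈ 𝓝 y :=
        Metric.isClosed_closedBall.isOpen_compl.mem_nhds hy
      filter_upwards [h2] with z hz
      rw [mem_compl_iff, Metric.mem_closedBall, dist_zero_right, not_le] at hz
      exact h z hz.le
    show pd i f y = 0
    unfold pd
    rw [h1.fderiv_eq]
    simp
  have h3 := closure_minimal hsub hcl
  rw [closure_compl, interior_closedBall _ one_ne_zero] at h3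
  exact h3 (by rw [mem_compl_iff, Metric.mem_ball, dist_zero_right, not_lt]; exact hx)

theorem Zf_out {f : E5 → ℂ} (hf : Sm f) (h : ∀ x, 1 ≤ ‖x‖ → f x = 0) (k : Fin 5) (x : E5)
    (hx : 1 ≤ ‖x‖) : Zf k f x = 0 := by
  unfold Zf
  rw [pd_out hf h k x hx, pd_out hf h 4 x hx, mul_zero, add_zero]

theorem sZ_cont {f : E5 → ℂ} (hf : Sm f) : Continuous (sZ f) := by
  unfold sZ
  exact continuous_finsetSum _ fun k _ => (hf.Zf k).cont.norm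

theorem sZ2_cont {f : E5 → ℂ} (hf : Sm f) : Continuous (sZ2 f) := by
  unfold sZ2
  exact continuous_finsetSum _ fun k _ => continuous_finsetSum _ fun l _ =>
    ((hf.Zf l).Zf k).cont.norm

theorem sZ_nonneg (f : E5 → ℂ) (x : E5) : 0 ≤ sZ f x := by
  unfold sZ
  exact Finset.sum_nonneg fun k _ => norm_nonneg _

theorem sZ2_nonneg (f : E5 → ℂ) (x : E5) : 0 ≤ sZ2 f x := by
  unfold sZ2
  exact Finset.sum_nonneg fun k _ => Finset.sum_nonneg fun l _ => norm_nonneg _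

theorem Zp_sm {w : F2} (hw : ∀ j, Sm (w j)) (k : Fin 5) (j : Fin 2) : Sm (Zp k w j) :=
  (hw j).Zf k

theorem N0_cont {w : F2} (hw : ∀ j, Sm (w j)) : Continuous (N0 w) :=
  (hw 0).cont.norm.add (hw 1).cont.norm

theorem N1_cont {w : F2} (hw : ∀ j, Sm (w j)) : Continuous (N1 w) :=
  (sZ_cont (hw 0)).add (sZ_cont (hw 1))

theorem N2_cont {w : F2} (hw : ∀ j, Sm (w j)) : Continuous (N2 w) :=
  (sZ2_cont (hw 0)).add (sZ2_cont (hw 1))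

theorem T0_cont {a : Str} (ha : SmS a) {w : F2} (hw : ∀ j, Sm (w j)) : Continuous (T0 a w) :=
  (Sm.D0s ha hw).cont.norm.add (Sm.D1 ha hw).cont.norm

theorem T1_cont {a : Str} (ha : SmS a) {w : F2} (hw : ∀ j, Sm (w j)) : Continuous (T1 a w) := by
  unfold T1
  exact continuous_finsetSum _ fun m _ => T0_cont ha (Zp_sm hw m)

theorem T2_cont {a : Str} (ha : SmS a) {w : F2} (hw : ∀ j, Sm (w j)) : Continuous (T2 a w) := by
  unfold T2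
  exact continuous_finsetSum _ fun m _ => continuous_finsetSum _ fun n _ =>
    T0_cont ha (Zp_sm (Zp_sm hw n) m)

theorem N0_nonneg (w : F2) (x : E5) : 0 ≤ N0 w x := add_nonneg (norm_nonneg _) (norm_nonneg _)

theorem N1_nonneg (w : F2) (x : E5) : 0 ≤ N1 w x := add_nonneg (sZ_nonneg _ _) (sZ_nonneg _ _)

theorem N2_nonneg (w : F2) (x : E5) : 0 ≤ N2 w x := add_nonneg (sZ2_nonneg _ _) (sZ2_nonneg _ _)

theorem T0_nonneg (a : Str) (w : F2) (x : E5) : 0 ≤ T0 a w x :=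
  add_nonneg (norm_nonneg _) (norm_nonneg _)

theorem T1_nonneg (a : Str) (w : F2) (x : E5) : 0 ≤ T1 a w x := by
  unfold T1
  exact Finset.sum_nonneg fun m _ => T0_nonneg a _ x

theorem T2_nonneg (a : Str) (w : F2) (x : E5) : 0 ≤ T2 a w x := by
  unfold T2
  exact Finset.sum_nonneg fun m _ => Finset.sum_nonneg fun n _ => T0_nonneg a _ x

theorem gr_nonneg (a : Str) (w : E5 → ℂ) (x : E5) : 0 ≤ gr a w x := by
  unfold gr
  exact Finset.sum_nonneg fun j _ => by positivity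

theorem g0_nonneg (a : Str) (w : F2) : 0 ≤ g0 a w :=
  add_nonneg (integral_nonneg fun x => gr_nonneg a _ x) (integral_nonneg fun x => gr_nonneg a _ x)

theorem g1_nonneg (a : Str) (w : F2) : 0 ≤ g1 a w := by
  unfold g1
  exact Finset.sum_nonneg fun m _ => g0_nonneg a _

theorem g2_nonneg (a : Str) (w : F2) : 0 ≤ g2 a w := by
  unfold g2
  exact Finset.sum_nonneg fun m _ => Finset.sum_nonneg fun n _ => g0_nonneg a _

/-- smoothness and support of the commutators -/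
structure Cm (a : Str) : Prop where
  sL : ∀ (k : Fin 5) (j : Fin 2) (f : E5 → ℂ), Sm f → Sm (zcL a k j f)
  sS : ∀ (k : Fin 5) (j : Fin 2) (f : E5 → ℂ), Sm f → Sm (zcS a k j f)
  oL : ∀ (k : Fin 5) (j : Fin 2) (f : E5 → ℂ), Sm f → ∀ x, 1 ≤ ‖x‖ → zcL a k j f x = 0
  oS : ∀ (k : Fin 5) (j : Fin 2) (f : E5 → ℂ), Sm f → ∀ x, 1 ≤ ‖x‖ → zcS a k j f x = 0

theorem cm_of (h : S_aCm) {a : Str} {ε : ℝ} (h0 : 0 ≤ ε) (h1 : ε ≤ 1) (ha : Near a 4 ε) :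
    Cm a := by
  obtain ⟨C, -, hC⟩ := h
  exact ⟨fun k j f hf => (hC a ε h0 h1 ha f hf k 0 j).1,
    fun k j f hf => (hC a ε h0 h1 ha f hf k 0 j).2.1,
    fun k j f hf x hx => ((hC a ε h0 h1 ha f hf k 0 j).2.2.1 x hx).1,
    fun k j f hf x hx => ((hC a ε h0 h1 ha f hf k 0 j).2.2.1 x hx).2.1⟩

section

variable {a : Str} (h : Cm a)

include h

theorem Cm.sD0 (k : Fin 5) {f : E5 → ℂ} (hf : Sm f) (j : Fin 2) : Sm (cD0 a k f j) :=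
  h.sL k j f hf

theorem Cm.oD0 (k : Fin 5) {f : E5 → ℂ} (hf : Sm f) (j : Fin 2) (x : E5) (hx : 1 ≤ ‖x‖) :
    cD0 a k f j x = 0 := h.oL k j f hf x hx

theorem Cm.sD1s (k : Fin 5) {f : E5 → ℂ} (hf : Sm f) (j : Fin 2) : Sm (cD1s a k f j) := by
  unfold cD1s
  by_cases hj : j = 0
  · simp only [hj, if_true]
    exact (h.sS k 1 f hf).neg
  · simp only [hj, if_false]
    exact h.sS k 0 f hf

theorem Cm.oD1s (k : Fin 5) {f : E5 → ℂ} (hf : Sm f) (j : Fin 2) (x : E5) (hx : 1 ≤ ‖x‖) :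
    cD1s a k f j x = 0 := by
  unfold cD1s
  rw [h.oS k 1 f hf x hx, h.oS k 0 f hf x hx]
  simp

theorem Cm.sD0s (k : Fin 5) {w : F2} (hw : ∀ j, Sm (w j)) : Sm (cD0s a k w) :=
  (h.sS k 0 _ (hw 0)).add (h.sS k 1 _ (hw 1))

theorem Cm.oD0s (k : Fin 5) {w : F2} (hw : ∀ j, Sm (w j)) (x : E5) (hx : 1 ≤ ‖x‖) :
    cD0s a k w x = 0 := by
  unfold cD0s
  rw [h.oS k 0 _ (hw 0) x hx, h.oS k 1 _ (hw 1) x hx, add_zero]

theorem Cm.sD1 (k : Fin 5) {w : F2} (hw : ∀ j, Sm (w j)) : Sm (cD1 a k w) :=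
  (h.sL k 0 _ (hw 1)).sub (h.sL k 1 _ (hw 0))

theorem Cm.oD1 (k : Fin 5) {w : F2} (hw : ∀ j, Sm (w j)) (x : E5) (hx : 1 ≤ ‖x‖) :
    cD1 a k w x = 0 := by
  unfold cD1
  rw [h.oL k 0 _ (hw 1) x hx, h.oL k 1 _ (hw 0) x hx, sub_zero]

end

/-- the integrated bound of the right sides -/
theorem absorb {f Ψ : F2} {q0 q1 : E5 → ℂ} {X : E5 → ℝ} {n δ : ℝ} (hn : 0 ≤ n) (hδ : 0 ≤ δ)
    (hf : ∀ j, Sm (f j)) (hΨ : ∀ j, Sm (Ψ j)) (hq0 : Sm q0) (hq1 : Sm q1) (hX : Continuous X)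
    (hX0 : ∀ x, 0 ≤ X x) (bf : ∀ j x, ‖x‖ < 1 → ‖f j x‖ ≤ ‖Ψ j x‖ + n * (δ * X x))
    (b0 : ∀ x, ‖x‖ < 1 → ‖q0 x‖ ≤ δ * X x) (b1 : ∀ x, ‖x‖ < 1 → ‖q1 x‖ ≤ δ * X x) :
    (∫ x in Metric.ball (0 : E5) 1, (‖f 0 x‖ ^ 2 + ‖f 1 x‖ ^ 2))
      + (∫ x in Metric.ball (0 : E5) 1, ‖q0 x‖ ^ 2)
      + (∫ x in Metric.ball (0 : E5) 1, ‖q1 x‖ ^ 2) ≤
      2 * ((∫ x in Metric.ball (0 : E5) 1, ‖Ψ 0 x‖ ^ 2)
        + ∫ x in Metric.ball (0 : E5) 1, ‖Ψ 1 x‖ ^ 2)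
      + (4 * n ^ 2 + 2) * δ ^ 2 * ∫ x in Metric.ball (0 : E5) 1, (X x) ^ 2 := by
  have c0 := (hf 0).cont
  have c1 := (hf 1).cont
  have d0 := (hΨ 0).cont
  have d1 := (hΨ 1).cont
  have cq0 := hq0.cont
  have cq1 := hq1.cont
  have i1 : IntegrableOn (fun x => ‖f 0 x‖ ^ 2 + ‖f 1 x‖ ^ 2) (Metric.ball (0 : E5) 1) :=
    intOn (by fun_prop)
  have i2 : IntegrableOn (fun x => ‖q0 x‖ ^ 2) (Metric.ball (0 : E5) 1) := intOn (by fun_prop)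
  have i3 : IntegrableOn (fun x => ‖q1 x‖ ^ 2) (Metric.ball (0 : E5) 1) := intOn (by fun_prop)
  have i12 : IntegrableOn (fun x => ‖f 0 x‖ ^ 2 + ‖f 1 x‖ ^ 2 + ‖q0 x‖ ^ 2)
      (Metric.ball (0 : E5) 1) := intOn (by fun_prop)
  have i123 : IntegrableOn (fun x => ‖f 0 x‖ ^ 2 + ‖f 1 x‖ ^ 2 + ‖q0 x‖ ^ 2 + ‖q1 x‖ ^ 2)
      (Metric.ball (0 : E5) 1) := intOn (by fun_prop)
  have i4 : IntegrableOn (fun x => 2 * ‖Ψ 0 x‖ ^ 2) (Metric.ball (0 : E5) 1) :=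
    intOn (by fun_prop)
  have i5 : IntegrableOn (fun x => 2 * ‖Ψ 1 x‖ ^ 2) (Metric.ball (0 : E5) 1) :=
    intOn (by fun_prop)
  have i45 : IntegrableOn (fun x => 2 * ‖Ψ 0 x‖ ^ 2 + 2 * ‖Ψ 1 x‖ ^ 2)
      (Metric.ball (0 : E5) 1) := intOn (by fun_prop)
  have i6 : IntegrableOn (fun x => (4 * n ^ 2 + 2) * δ ^ 2 * (X x) ^ 2)
      (Metric.ball (0 : E5) 1) := intOn (by fun_prop)
  have i456 : IntegrableOn (fun x => 2 * ‖Ψ 0 x‖ ^ 2 + 2 * ‖Ψ 1 x‖ ^ 2 +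
      (4 * n ^ 2 + 2) * δ ^ 2 * (X x) ^ 2) (Metric.ball (0 : E5) 1) := intOn (by fun_prop)
  have eL : (∫ x in Metric.ball (0 : E5) 1, (‖f 0 x‖ ^ 2 + ‖f 1 x‖ ^ 2))
      + (∫ x in Metric.ball (0 : E5) 1, ‖q0 x‖ ^ 2)
      + (∫ x in Metric.ball (0 : E5) 1, ‖q1 x‖ ^ 2) =
      ∫ x in Metric.ball (0 : E5) 1, (‖f 0 x‖ ^ 2 + ‖f 1 x‖ ^ 2 + ‖q0 x‖ ^ 2 + ‖q1 x‖ ^ 2) := by
    rw [integral_add i12 i3, integral_add i1 i2]
  have eR : 2 * ((∫ x in Metric.ball (0 : E5) 1, ‖Ψ 0 x‖ ^ 2)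
        + ∫ x in Metric.ball (0 : E5) 1, ‖Ψ 1 x‖ ^ 2)
      + (4 * n ^ 2 + 2) * δ ^ 2 * (∫ x in Metric.ball (0 : E5) 1, (X x) ^ 2) =
      ∫ x in Metric.ball (0 : E5) 1, (2 * ‖Ψ 0 x‖ ^ 2 + 2 * ‖Ψ 1 x‖ ^ 2 +
        (4 * n ^ 2 + 2) * δ ^ 2 * (X x) ^ 2) := by
    rw [integral_add i45 i6, integral_add i4 i5, integral_const_mul, integral_const_mul,
      integral_const_mul]
    ring
  rw [eL, eR]
  refine setIntegral_mono_on i123 i456 measurableSet_ball fun x hx => ?_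
  have hx1 : ‖x‖ < 1 := by rwa [Metric.mem_ball, dist_zero_right] at hx
  have hδX : 0 ≤ δ * X x := mul_nonneg hδ (hX0 x)
  have key : ∀ j, ‖f j x‖ ^ 2 ≤ 2 * ‖Ψ j x‖ ^ 2 + 2 * n ^ 2 * (δ * X x) ^ 2 := by
    intro j
    have h1 := bf j x hx1
    have h2 : ‖f j x‖ ^ 2 ≤ (‖Ψ j x‖ + n * (δ * X x)) ^ 2 :=
      pow_le_pow_left₀ (norm_nonneg _) h1 2
    nlinarith [sq_nonneg (‖Ψ j x‖ - n * (δ * X x))]
  have k0 := key 0
  have k1 := key 1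
  have k2 : ‖q0 x‖ ^ 2 ≤ (δ * X x) ^ 2 := pow_le_pow_left₀ (norm_nonneg _) (b0 x hx1) 2
  have k3 : ‖q1 x‖ ^ 2 ≤ (δ * X x) ^ 2 := pow_le_pow_left₀ (norm_nonneg _) (b1 x hx1) 2
  have k4 : (4 * n ^ 2 + 2) * δ ^ 2 * (X x) ^ 2 = 2 * (2 * n ^ 2 * (δ * X x) ^ 2)
      + 2 * (δ * X x) ^ 2 := by ring
  rw [k4]
  linarith

theorem near_mono {a : Str} {m m' : ℕ} {ε ε' : ℝ} (h : Near a m ε) (hm : m' ≤ m) (h0 : 0 ≤ ε)
    (hε : ε ≤ ε') : Near a m' ε' :=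
  ⟨h.sm, h.out, fun j l i hi x => (h.bd j l i (hi.trans hm) x).trans (pow_le_pow_left₀ h0 hε 2)⟩

theorem norm3 (p q r : ℂ) : ‖p - q - r‖ ≤ ‖p‖ + ‖q‖ + ‖r‖ := by
  have h1 := norm_sub_le (p - q) r
  have h2 := norm_sub_le p q
  linarith

end aLx

end Pool.Agent.CR5
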