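import Pool.Agent.Lib.CR5.SpecDc

/-!
# CR5, block D: `y = D1* v` is square integrable (helper49)
-/

open MeasureTheory Set Filter Topology
open scoped ENNReal ComplexConjugate

noncomputable section

namespace Pool.Agent.CR5

namespace cY2x

theorem int_sq {f : E5 → ℂ} (h : MemLp f 2 volume) : Integrable (fun x => ‖f x‖ ^ 2) :=
  (memLp_two_iff_integrable_sq_norm h.1).1 h

theorem norm_add_sq' (z w : ℂ) : ‖z + w‖ ^ 2 = ‖z‖ ^ 2 + ‖w‖ ^ 2 + 2 * (z * conj w).re := by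
  rw [Complex.sq_norm, Complex.sq_norm, Complex.sq_norm, Complex.normSq_add]

/-- the bound with a cutoff -/
theorem cut {a : Str} (ha : SmS a) {A v χ : E5 → ℂ} (hA : Sm A) (hv : Sm v) (hv2 : MemLp v 2)
    (hK : MemLp (Kap a A) 2) (hg : ∀ j, MemLp (fun x => L a j A x + D1s a v j x) 2)
    {C : ℝ} (hχ : Tst χ) (h1 : ∀ x, ‖χ x‖ ≤ 1) (hr : ∀ x, conj (χ x) = χ x)
    (hL : ∀ j x, ‖L a j χ x‖ ≤ C) :
    (∫ x, (‖χ x * L a 0 A x‖ ^ 2 + ‖χ x * L a 1 A x‖ ^ 2 + ‖χ x * D1s a v 0 x‖ ^ 2 +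
      ‖χ x * D1s a v 1 x‖ ^ 2)) ≤
    2 * ((∫ x, ‖L a 0 A x + D1s a v 0 x‖ ^ 2) + (∫ x, ‖L a 1 A x + D1s a v 1 x‖ ^ 2) +
      (∫ x, ‖Kap a A x‖ ^ 2) + (1 + 16 * C ^ 2) * ∫ x, ‖v x‖ ^ 2) := by
  have hA0 := hA.L ha 0
  have hA1 := hA.L ha 1
  have hy0 := Sm.D1s ha hv 0
  have hy1 := Sm.D1s ha hv 1
  have tu0 : Tst fun x => χ x * L a 0 A x := hχ.mul_right hA0
  have tu1 : Tst fun x => χ x * L a 1 A x := hχ.mul_right hA1
  have ts0 : Tst fun x => χ x * D1s a v 0 x := hχ.mul_right hy0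
  have ts1 : Tst fun x => χ x * D1s a v 1 x := hχ.mul_right hy1
  have tp0 : Tst fun x => χ x * (χ x * L a 0 A x) := Tst.mul_left hχ.sm tu0
  have tp1 : Tst fun x => χ x * (χ x * L a 1 A x) := Tst.mul_left hχ.sm tu1
  have iu0 := int_sq tu0.memLp
  have iu1 := int_sq tu1.memLp
  have is0 := int_sq ts0.memLp
  have is1 := int_sq ts1.memLp
  have iv := int_sq hv2
  have iK := int_sq hK
  have ig0 := int_sq (hg 0)
  have ig1 := int_sq (hg 1)
  have tg0 : Tst fun x => χ x * (L a 0 A x + D1s a v 0 x) := hχ.mul_right (hA0.add hy0)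
  have tg1 : Tst fun x => χ x * (L a 1 A x + D1s a v 1 x) := hχ.mul_right (hA1.add hy1)
  have it0 := int_sq tg0.memLp
  have it1 := int_sq tg1.memLp
  set F : E5 → ℝ := fun x => ‖χ x * L a 0 A x‖ ^ 2 + ‖χ x * L a 1 A x‖ ^ 2 +
    ‖χ x * D1s a v 0 x‖ ^ 2 + ‖χ x * D1s a v 1 x‖ ^ 2 with hF
  have iF : Integrable F := ((iu0.add iu1).add is0).add is1
  -- the mixed term
  set Rf : E5 → ℂ := fun x => χ x * (χ x * L a 0 A x) * conj (D1s a v 0 x) +
    χ x * (χ x * L a 1 A x) * conj (D1s a v 1 x) with hRf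
  have iR0 : Integrable fun x => χ x * (χ x * L a 0 A x) * conj (D1s a v 0 x) :=
    (tp0.mul_right hy0.conj).integrable
  have iR1 : Integrable fun x => χ x * (χ x * L a 1 A x) * conj (D1s a v 1 x) :=
    (tp1.mul_right hy1.conj).integrable
  have iR : Integrable Rf := iR0.add iR1
  have hpt : ∀ x, F x = ‖χ x * (L a 0 A x + D1s a v 0 x)‖ ^ 2 +
      ‖χ x * (L a 1 A x + D1s a v 1 x)‖ ^ 2 - 2 * (Rf x).re := by
    intro x
    simp only [hF, hRf]
    rw [mul_add, mul_add, norm_add_sq', norm_add_sq', Complex.add_re]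
    have e : ∀ p q : ℂ, χ x * p * conj (χ x * q) = χ x * (χ x * p) * conj q := by
      intro p q
      rw [map_mul, hr]
      ring
    rw [e, e]
    ring
  have hRe : ∫ x, (Rf x).re = (∫ x, Rf x).re := by
    have := integral_re (𝕜 := ℂ) iR
    simpa using this
  have hint : ∫ x, F x = (∫ x, ‖χ x * (L a 0 A x + D1s a v 0 x)‖ ^ 2) +
      (∫ x, ‖χ x * (L a 1 A x + D1s a v 1 x)‖ ^ 2) - 2 * (∫ x, Rf x).re := by
    rw [integral_congr_ae (Filter.Eventually.of_forall hpt)]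
    have iRr : Integrable fun x => (Rf x).re := iR.re
    have i01 : Integrable fun x => ‖χ x * (L a 0 A x + D1s a v 0 x)‖ ^ 2 +
        ‖χ x * (L a 1 A x + D1s a v 1 x)‖ ^ 2 := it0.add it1
    rw [integral_sub i01 (iRr.const_mul 2), integral_const_mul, hRe, integral_add it0 it1]
  -- integration by parts
  have hR : ∫ x, Rf x = ∫ x, (χ x * (χ x * Kap a A x) +
      2 * (L a 0 χ x * (χ x * L a 1 A x) - L a 1 χ x * (χ x * L a 0 A x))) * conj (v x) := by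
    have e0 : ∫ x, χ x * (χ x * L a 0 A x) * conj (D1s a v 0 x) =
        -∫ x, L a 1 (fun y => χ y * (χ y * L a 0 A y)) x * conj (v x) := by
      rw [ibp_L' ha 1 tp0 hv, ← integral_neg]
      congr 1
      funext x
      simp [D1s]
    have e1 : ∫ x, χ x * (χ x * L a 1 A x) * conj (D1s a v 1 x) =
        ∫ x, L a 0 (fun y => χ y * (χ y * L a 1 A y)) x * conj (v x) := by
      rw [ibp_L' ha 0 tp1 hv]
      congr 1
    rw [hRf, integral_add iR0 iR1, e0, e1, ← integral_neg, ← integral_add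
      (((tp0.L ha 1).mul_right hv.conj).neg.integrable)
      (((tp1.L ha 0).mul_right hv.conj).integrable)]
    congr 1
    funext x
    rw [L_mul hχ.sm tu0.sm, L_mul hχ.sm tu1.sm, L_mul hχ.sm hA0, L_mul hχ.sm hA1,
      ← D1_D0 ha hA x]
    show _ = (χ x * (χ x * (L a 0 (L a 1 A) x - L a 1 (L a 0 A) x)) + _) * _
    ring
  have hRn : ‖∫ x, Rf x‖ ≤ (∫ x, ‖Kap a A x‖ ^ 2) / 2 + (1 / 2 + 8 * C ^ 2) * (∫ x, ‖v x‖ ^ 2) +
      (∫ x, F x) / 4 := by
    rw [hR]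
    refine (norm_integral_le_integral_norm _).trans ?_
    have hb : ∀ x, ‖(χ x * (χ x * Kap a A x) +
        2 * (L a 0 χ x * (χ x * L a 1 A x) - L a 1 χ x * (χ x * L a 0 A x))) * conj (v x)‖ ≤
        ‖Kap a A x‖ ^ 2 / 2 + (1 / 2 + 8 * C ^ 2) * ‖v x‖ ^ 2 + F x / 4 := by
      intro x
      rw [norm_mul, RCLike.norm_conj]
      have n1 : ‖χ x * (χ x * Kap a A x)‖ ≤ ‖Kap a A x‖ := by
        rw [norm_mul, norm_mul]
        have h2 := h1 x
        have h3 := norm_nonneg (χ x)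
        have h4 := norm_nonneg (Kap a A x)
        calc ‖χ x‖ * (‖χ x‖ * ‖Kap a A x‖) ≤ 1 * (1 * ‖Kap a A x‖) := by gcongr
          _ = ‖Kap a A x‖ := by ring
      have n2 : ‖L a 0 χ x * (χ x * L a 1 A x)‖ ≤ C * ‖χ x * L a 1 A x‖ := by
        rw [norm_mul]
        gcongr
        exact hL 0 x
      have n3 : ‖L a 1 χ x * (χ x * L a 0 A x)‖ ≤ C * ‖χ x * L a 0 A x‖ := by
        rw [norm_mul]
        gcongr
        exact hL 1 x
      have n4 : ‖χ x * (χ x * Kap a A x) +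
          2 * (L a 0 χ x * (χ x * L a 1 A x) - L a 1 χ x * (χ x * L a 0 A x))‖ ≤
          ‖Kap a A x‖ + 2 * (C * ‖χ x * L a 1 A x‖ + C * ‖χ x * L a 0 A x‖) := by
        refine (norm_add_le _ _).trans ?_
        rw [norm_mul 2]
        have h5 := norm_sub_le (L a 0 χ x * (χ x * L a 1 A x)) (L a 1 χ x * (χ x * L a 0 A x))
        have h6 : ‖(2 : ℂ)‖ = 2 := by simp
        rw [h6]
        linarith
      have n5 := mul_le_mul_of_nonneg_right n4 (norm_nonneg (v x))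
      have n6 : 0 ≤ ‖χ x * D1s a v 0 x‖ ^ 2 := sq_nonneg _
      have n7 : 0 ≤ ‖χ x * D1s a v 1 x‖ ^ 2 := sq_nonneg _
      simp only [hF]
      nlinarith [sq_nonneg (‖Kap a A x‖ - ‖v x‖),
        sq_nonneg (‖χ x * L a 1 A x‖ / 2 - 2 * C * ‖v x‖),
        sq_nonneg (‖χ x * L a 0 A x‖ / 2 - 2 * C * ‖v x‖)]
    have iB : Integrable fun x => ‖Kap a A x‖ ^ 2 / 2 + (1 / 2 + 8 * C ^ 2) * ‖v x‖ ^ 2 +
        F x / 4 := ((iK.div_const 2).add (iv.const_mul _)).add (iF.div_const 4)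
    refine (integral_mono_of_nonneg (Filter.Eventually.of_forall fun x => norm_nonneg _) iB
      (Filter.Eventually.of_forall hb)).trans (le_of_eq ?_)
    have iKv : Integrable fun x => ‖Kap a A x‖ ^ 2 / 2 + (1 / 2 + 8 * C ^ 2) * ‖v x‖ ^ 2 :=
      (iK.div_const 2).add (iv.const_mul _)
    rw [integral_add iKv (iF.div_const 4),
      integral_add (iK.div_const 2) (iv.const_mul _), integral_div, integral_const_mul,
      integral_div]
  have hq : ∀ j, ∀ x, ‖χ x * (L a j A x + D1s a v j x)‖ ^ 2 ≤ ‖L a j A x + D1s a v j x‖ ^ 2 := by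
    intro j x
    rw [norm_mul, mul_pow]
    have h2 : ‖χ x‖ ^ 2 ≤ 1 := pow_le_one₀ (norm_nonneg _) (h1 x)
    nlinarith [sq_nonneg ‖L a j A x + D1s a v j x‖]
  have hG0 : (∫ x, ‖χ x * (L a 0 A x + D1s a v 0 x)‖ ^ 2) ≤
      ∫ x, ‖L a 0 A x + D1s a v 0 x‖ ^ 2 := integral_mono it0 ig0 (hq 0)
  have hG1 : (∫ x, ‖χ x * (L a 1 A x + D1s a v 1 x)‖ ^ 2) ≤
      ∫ x, ‖L a 1 A x + D1s a v 1 x‖ ^ 2 := integral_mono it1 ig1 (hq 1)
  have hre := (abs_le.1 (Complex.abs_re_le_norm (∫ x, Rf x))).1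
  show ∫ x, F x ≤ _
  linarith

end cY2x

open cY2x in
theorem pcY2 (h1 : S_Inf) (h2 : S_cChi) : S_cY2 := by
  obtain ⟨C, hC, hχ⟩ := h1
  intro a hO A v hA hv hv2 hK hg j
  have ha := hO.sm
  have hyj : Sm (D1s a v j) := Sm.D1s ha hv j
  rw [memLp_two_iff_integrable_sq_norm hyj.cont.aestronglyMeasurable]
  set B : ℝ := 2 * ((∫ x, ‖L a 0 A x + D1s a v 0 x‖ ^ 2) +
    (∫ x, ‖L a 1 A x + D1s a v 1 x‖ ^ 2) + (∫ x, ‖Kap a A x‖ ^ 2) +
    (1 + 16 * C ^ 2) * ∫ x, ‖v x‖ ^ 2) with hB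
  have hcy : Continuous fun x => ‖D1s a v j x‖ ^ 2 := hyj.cont.norm.pow 2
  refine (aecover_closedBall (x := (0 : E5)) (r := fun n : ℕ => (n : ℝ) + 1)
    (tendsto_atTop_add_const_right _ _ tendsto_natCast_atTop_atTop)).integrable_of_integral_bounded_of_nonneg_ae B
    (fun n => hcy.continuousOn.integrableOn_compact (isCompact_closedBall _ _))
    (Filter.Eventually.of_forall fun x => sq_nonneg _)
    (Filter.Eventually.of_forall fun n => ?_)
  have hρ : (1 : ℝ) ≤ (n : ℝ) + 1 := by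
    have := Nat.cast_nonneg (α := ℝ) n
    linarith
  obtain ⟨χ, t1, t2, t3, t4, t5, t6, _⟩ := hχ ((n : ℝ) + 1) hρ
  have hL : ∀ j x, ‖L a j χ x‖ ≤ C := fun j x => by
    refine ((h2 C _ hC hρ χ t4 t5 t6 a hO j x).1).trans ?_
    exact div_le_self hC.le hρ
  have hcut := cut ha hA hv hv2 hK hg t1 t2 t3 hL
  refine le_trans ?_ hcut
  have iu0 := int_sq (t1.mul_right (hA.L ha 0)).memLp
  have iu1 := int_sq (t1.mul_right (hA.L ha 1)).memLp
  have is0 := int_sq (t1.mul_right (Sm.D1s ha hv 0)).memLp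
  have is1 := int_sq (t1.mul_right (Sm.D1s ha hv 1)).memLp
  have isj := int_sq (t1.mul_right (Sm.D1s ha hv j)).memLp
  calc ∫ x in Metric.closedBall (0 : E5) ((n : ℝ) + 1), ‖D1s a v j x‖ ^ 2
      = ∫ x in Metric.closedBall (0 : E5) ((n : ℝ) + 1), ‖χ x * D1s a v j x‖ ^ 2 := by
        refine setIntegral_congr_fun Metric.isClosed_closedBall.measurableSet fun x hx => ?_
        have hx' : dist x 0 ≤ (n : ℝ) + 1 := hx
        rw [dist_zero_right] at hx'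
        simp only [t4 x hx', one_mul]
    _ ≤ ∫ x, ‖χ x * D1s a v j x‖ ^ 2 :=
        setIntegral_le_integral isj (Filter.Eventually.of_forall fun x => sq_nonneg _)
    _ ≤ _ := by
        refine integral_mono isj (((iu0.add iu1).add is0).add is1) fun x => ?_
        have h0 : 0 ≤ ‖χ x * L a 0 A x‖ ^ 2 := sq_nonneg _
        have h1 : 0 ≤ ‖χ x * L a 1 A x‖ ^ 2 := sq_nonneg _
        have h2 : 0 ≤ ‖χ x * D1s a v 0 x‖ ^ 2 := sq_nonneg _
        have h3 : 0 ≤ ‖χ x * D1s a v 1 x‖ ^ 2 := sq_nonneg _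
        show ‖χ x * D1s a v j x‖ ^ 2 ≤ ‖χ x * L a 0 A x‖ ^ 2 + ‖χ x * L a 1 A x‖ ^ 2 +
          ‖χ x * D1s a v 0 x‖ ^ 2 + ‖χ x * D1s a v 1 x‖ ^ 2
        fin_cases j
        · show ‖χ x * D1s a v 0 x‖ ^ 2 ≤ _
          linarith
        · show ‖χ x * D1s a v 1 x‖ ^ 2 ≤ _
          linarith

end Pool.Agent.CR5
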